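import Pool.Agent.W_7d29a1_LB.SeamW

/-!
STORM UB (MP_7d29a1_pr, helper60, board 68502): definitions. The deletion of the column along the competition seam of the starts
`(0, 0)` and `(0, x + 1)`, started at the position `x`. (helper82)
-/

set_option autoImplicit false

namespace Pool.Agent.W_7d29a1_UB

open MeasureTheory ProbabilityTheory Filter Topology
open Pool.Agent.W_7d29a1_F Pool.Agent.W_7d29a1_LB

noncomputable section

/-! ### The deletion of a column -/

/-- **The deletion** of the column `(i, q i)`. -/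
def del (q : ℕ → ℤ) (η : Env) : Env := fun p => if p.2 < q p.1.toNat then η p else η (p.1, p.2 + 1)

theorem del_left {q : ℕ → ℤ} {η : Env} {p : Pt} (h : p.2 < q p.1.toNat) : del q η p = η p := by
  unfold del
  rw [if_pos h]

theorem del_right {q : ℕ → ℤ} {η : Env} {p : Pt} (h : q p.1.toNat ≤ p.2) : del q η p = η (p.1, p.2 + 1) := by
  unfold del
  rw [if_neg (not_lt.2 h)]

/-- The environment is the insertion of its column in the deleted environment. -/
theorem ins_del (q : ℕ → ℤ) (η : Env) : ins q 1 (del q η) (fun p => η (p.1, q p.1.toNat)) = η := by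
  funext p
  rcases lt_or_ge p.2 (q p.1.toNat) with h | h
  · rw [ins_left h, del_left h]
  · rcases lt_or_ge p.2 (q p.1.toNat + 1) with h1 | h1
    · rw [ins_strip h (by exact_mod_cast h1)]
      show η (p.1, q p.1.toNat) = η p
      congr 1
      exact Prod.ext rfl (by show q p.1.toNat = p.2; omega)
    · rw [ins_right (by exact_mod_cast h1), del_right (by show q p.1.toNat ≤ p.2 - ((1 : ℕ) : ℤ); push_cast; omega)]
      show η (p.1, p.2 - ((1 : ℕ) : ℤ) + 1) = η p
      congr 1
      exact Prod.ext rfl (by show p.2 - ((1 : ℕ) : ℤ) + 1 = p.2; push_cast; omega)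

/-! ### The seam -/

/-- **The competition seam** of the starts `(0, 0)` and `(0, x + 1)` at the level `b`, started at the position `x`. -/
def seamU (η : Env) (b : ℝ) (x : ℤ) : ℕ → ℤ
  | 0 => x
  | i + 1 => if K Set.univ η (x + 1) i (seamU η b x i) + K Set.univ η (x + 1) i (seamU η b x i - 1) <
      Real.exp b * (K Set.univ η 0 i (seamU η b x i) + K Set.univ η 0 i (seamU η b x i - 1))
      then seamU η b x i + 1 else seamU η b x i

theorem seamU_zero (η : Env) (b : ℝ) (x : ℤ) : seamU η b x 0 = x := rfl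

theorem seamU_succ (η : Env) (b : ℝ) (x : ℤ) (i : ℕ) : seamU η b x (i + 1) =
    if K Set.univ η (x + 1) i (seamU η b x i) + K Set.univ η (x + 1) i (seamU η b x i - 1) <
      Real.exp b * (K Set.univ η 0 i (seamU η b x i) + K Set.univ η 0 i (seamU η b x i - 1))
      then seamU η b x i + 1 else seamU η b x i := rfl

/-- The steps of the seam are `0` or `1`. -/
theorem seamU_step (η : Env) (b : ℝ) (x : ℤ) (i : ℕ) :
    seamU η b x i ≤ seamU η b x (i + 1) ∧ seamU η b x (i + 1) ≤ seamU η b x i + 1 := by
  rw [seamU_succ]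
  split_ifs <;> omega

theorem le_seamU (η : Env) (b : ℝ) (x : ℤ) : ∀ i : ℕ, x ≤ seamU η b x i
  | 0 => le_rfl
  | i + 1 => (le_seamU η b x i).trans (seamU_step η b x i).1

theorem seamU_le (η : Env) (b : ℝ) (x : ℤ) : ∀ i : ℕ, seamU η b x i ≤ x + i
  | 0 => by rw [seamU_zero]; simp
  | i + 1 => by
    have h1 := seamU_le η b x i
    have h2 := (seamU_step η b x i).2
    push_cast
    omega

/-- **The seam is predictable**: `seamU i` sees the rows `1, …, i - 1`. -/
theorem seamU_congr {η η' : Env} (b : ℝ) (x : ℤ) : ∀ i : ℕ,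
    (∀ p : Pt, 1 ≤ p.1 → p.1 < i → η p = η' p) → seamU η b x i = seamU η' b x i
  | 0, _ => rfl
  | i + 1, h => by
    have h1 : seamU η b x i = seamU η' b x i := seamU_congr b x i fun p h2 h3 => h p h2 (by push_cast; omega)
    have h2 : ∀ p : Pt, 1 ≤ p.1 → p.1 ≤ i → η p = η' p := fun p h3 h4 => h p h3 (by push_cast; omega)
    rw [seamU_succ, seamU_succ, h1, K_congr (x + 1) i _ h2, K_congr (x + 1) i _ h2, K_congr 0 i _ h2, K_congr 0 i _ h2]

/-- **The invariants of the seam**: on its left the start `0` (with the weight `exp b`) wins, on its right the start `x + 1`. -/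
theorem seamU_inv (η : Env) (b : ℝ) {x : ℤ} (hx : 1 ≤ x) : ∀ i : ℕ,
    (∀ y, y < seamU η b x i → K Set.univ η (x + 1) i y ≤ Real.exp b * K Set.univ η 0 i y) ∧
    (∀ y, seamU η b x i ≤ y → Real.exp b * K Set.univ η 0 i y ≤ K Set.univ η (x + 1) i y)
  | 0 => by
    refine ⟨fun y hy => ?_, fun y hy => ?_⟩
    · rw [seamU_zero] at hy
      rw [K_zero, if_neg (by omega)]
      exact mul_nonneg (Real.exp_pos b).le (K_nonneg _ _ _ _ _)
    · rw [seamU_zero] at hy
      rw [K_zero, if_neg (by omega), mul_zero]
      exact K_nonneg _ _ _ _ _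
  | i + 1 => by
    obtain ⟨hL, hR⟩ := seamU_inv η b hx i
    have hs := seamU_succ η b x i
    have key : ∀ y : ℤ, Real.exp b * K Set.univ η 0 (i + 1) y = Real.exp (η ((i : ℤ) + 1, y)) *
        (Real.exp b * (K Set.univ η 0 i y + K Set.univ η 0 i (y - 1))) := fun y => by rw [K_univ_succ]; ring
    refine ⟨fun y hy => ?_, fun y hy => ?_⟩
    · rw [key, K_univ_succ]
      refine mul_le_mul_of_nonneg_left ?_ (Real.exp_pos _).le
      by_cases h : y < seamU η b x i
      · have h1 := hL y h
        have h2 := hL (y - 1) (by omega)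
        linarith
      · rw [hs] at hy
        split_ifs at hy with h1
        · have h2 : y = seamU η b x i := by omega
          rw [h2]
          exact h1.le
        · exact absurd hy h
    · rw [key, K_univ_succ]
      refine mul_le_mul_of_nonneg_left ?_ (Real.exp_pos _).le
      by_cases h : seamU η b x i + 1 ≤ y
      · have h1 := hR y (by omega)
        have h2 := hR (y - 1) (by omega)
        linarith
      · rw [hs] at hy
        split_ifs at hy with h1
        · exact absurd hy h
        · have h2 : y = seamU η b x i := by omega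
          rw [h2]
          exact not_lt.1 h1

/-- **Retained mass, left**: the paths from `0` which leave the left side are dominated by the paths from `x + 1`. -/
theorem retLU (η : Env) (b : ℝ) {x : ℤ} (hx : 1 ≤ x) : ∀ (i : ℕ) (y : ℤ),
    K Set.univ η 0 i y ≤ K (Lt (seamU η b x)) η 0 i y + Real.exp (-b) * K Set.univ η (x + 1) i y
  | 0, y => by
    rw [K_zero, K_zero]
    have := mul_nonneg (Real.exp_pos (-b)).le (K_nonneg Set.univ η (x + 1) 0 y)
    linarith
  | i + 1, y => by
    by_cases h : y < seamU η b x (i + 1)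
    · rw [K_univ_succ, K_univ_succ, K_succ, Set.indicator_of_mem (mem_Lt.2 h)]
      have h1 := retLU η b hx i y
      have h2 := retLU η b hx i (y - 1)
      have h3 : K Set.univ η 0 i y + K Set.univ η 0 i (y - 1) ≤
          (K (Lt (seamU η b x)) η 0 i y + K (Lt (seamU η b x)) η 0 i (y - 1)) +
            Real.exp (-b) * (K Set.univ η (x + 1) i y + K Set.univ η (x + 1) i (y - 1)) := by linarith
      have h4 := mul_le_mul_of_nonneg_left h3 (Real.exp_pos (η ((i : ℤ) + 1, y))).le
      calc _ ≤ _ := h4
        _ = _ := by ring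
    · have h1 := (seamU_inv η b hx (i + 1)).2 y (not_lt.1 h)
      have h2 := mul_le_mul_of_nonneg_left h1 (Real.exp_pos (-b)).le
      rw [← mul_assoc, ← Real.exp_add, neg_add_cancel, Real.exp_zero, one_mul] at h2
      exact h2.trans (le_add_of_nonneg_left (K_nonneg _ _ _ _ _))

/-- **Retained mass, right**: the paths from `x + 1` which leave the right side are dominated by the paths from `0`. -/
theorem retRU (η : Env) (b : ℝ) {x : ℤ} (hx : 1 ≤ x) : ∀ (i : ℕ) (y : ℤ),
    K Set.univ η (x + 1) i y ≤ K (Rg (seamU η b x)) η (x + 1) i y + Real.exp b * K Set.univ η 0 i y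
  | 0, y => by
    rw [K_zero, K_zero]
    have := mul_nonneg (Real.exp_pos b).le (K_nonneg Set.univ η 0 0 y)
    linarith
  | i + 1, y => by
    by_cases h : seamU η b x (i + 1) ≤ y
    · rw [K_univ_succ, K_univ_succ, K_succ, Set.indicator_of_mem (mem_Rg.2 h)]
      have h1 := retRU η b hx i y
      have h2 := retRU η b hx i (y - 1)
      have h3 : K Set.univ η (x + 1) i y + K Set.univ η (x + 1) i (y - 1) ≤
          (K (Rg (seamU η b x)) η (x + 1) i y + K (Rg (seamU η b x)) η (x + 1) i (y - 1)) +
            Real.exp b * (K Set.univ η 0 i y + K Set.univ η 0 i (y - 1)) := by linarith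
      have h4 := mul_le_mul_of_nonneg_left h3 (Real.exp_pos (η ((i : ℤ) + 1, y))).le
      calc _ ≤ _ := h4
        _ = _ := by ring
    · exact ((seamU_inv η b hx (i + 1)).1 y (not_le.1 h)).trans (le_add_of_nonneg_left (K_nonneg _ _ _ _ _))

/-- Nothing from `0` is at the site `(i, y)` with `i < y`. -/
theorem K_eq_zero (R : Set Pt) (η : Env) (z : ℤ) {i : ℕ} {y : ℤ} (h : ¬ (z ≤ y ∧ y ≤ z + i)) : K R η z i y = 0 := by
  unfold K
  exact Zr_eq_zero R η (0, z) (by omega)

/-! ### The mass of the future -/

variable {μ : Measure ℝ} {s : ℝ}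

/-- The normalised mass of the paths of length `k` from the site `p` in the region `R`. -/
def mP (μ : Measure ℝ) (s : ℝ) (R : Set Pt) (η : Env) (p : Pt) (k : ℕ) : ℝ :=
  ∑ d ∈ Finset.Icc (0 : ℤ) k, WR μ s R η p k d

theorem mP_nonneg (R : Set Pt) (η : Env) (p : Pt) (k : ℕ) : 0 ≤ mP μ s R η p k :=
  Finset.sum_nonneg fun _ _ => WR_nonneg _ _ _ _ _

theorem mP_mono {R R' : Set Pt} (h : R ⊆ R') (η : Env) (p : Pt) (k : ℕ) : mP μ s R η p k ≤ mP μ s R' η p k :=
  Finset.sum_le_sum fun y _ => mul_le_mul_of_nonneg_left (Zr_mono h η p k y) (Real.exp_pos _).le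

theorem mP_univ (η : Env) (p : Pt) (k : ℕ) : mP μ s Set.univ η p k = Real.exp (V μ s η p k) := by
  rw [exp_V]
  rfl

theorem mP_mass (R : Set Pt) (η : Env) (z : ℤ) (k : ℕ) : mP μ s R η (0, z) k = mass μ s R η z k := rfl

theorem mP_psi (η : Env) (z : ℤ) (k : ℕ) : mP μ s Set.univ η (0, z) k = psi μ s η z k := rfl

/-- A kernel times the future is at most the total mass. -/
theorem W_mP_le (η : Env) (z : ℤ) {i n : ℕ} (hi : i ≤ n) (y : ℤ) :
    W μ s η (0, z) i y * mP μ s Set.univ η ((i : ℤ), z + y) (n - i) ≤ psi μ s η z n := by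
  by_cases hy : 0 ≤ y ∧ y ≤ i
  · have h1 := exp_V_add (μ := μ) (s := s) η (0, z) i (n - i)
    have e1 : i + (n - i) = n := by omega
    rw [e1] at h1
    have h2 : psi μ s η z n = Real.exp (V μ s η (0, z) n) := by
      rw [exp_V]
      rfl
    rw [h2, h1, mP_univ]
    have h3 := Finset.single_le_sum (f := fun k : ℤ => W μ s η (0, z) i k *
      Real.exp (V μ s η (((0 : ℤ), z).1 + (i : ℤ), ((0 : ℤ), z).2 + k) (n - i))) (s := Finset.Icc (0 : ℤ) i)
      (fun k _ => mul_nonneg (W_nonneg _ _ _ _) (Real.exp_pos _).le) (Finset.mem_Icc.2 hy)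
    refine le_trans (le_of_eq ?_) h3
    show _ = W μ s η (0, z) i y * Real.exp (V μ s η ((0 : ℤ) + (i : ℤ), z + y) (n - i))
    rw [zero_add]
  · rw [W_eq_zero η (0, z) hy, zero_mul]
    exact (psi_pos _ _ _).le

/-! ### Measurability (for a fixed level) -/

theorem measurable_seamU (b : ℝ) (x : ℤ) : ∀ i : ℕ, Measurable fun η : Env => seamU η b x i
  | 0 => measurable_const
  | i + 1 => by
    have h0 := measurable_seamU b x i
    have h1 := measurable_K_at (x + 1) i h0
    have h2 := measurable_K_at (x + 1) i (h0.sub_const 1)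
    have h3 := measurable_K_at 0 i h0
    have h4 := measurable_K_at 0 i (h0.sub_const 1)
    have h5 : MeasurableSet {η : Env | K Set.univ η (x + 1) i (seamU η b x i) + K Set.univ η (x + 1) i (seamU η b x i - 1) <
      Real.exp b * (K Set.univ η 0 i (seamU η b x i) + K Set.univ η 0 i (seamU η b x i - 1))} :=
      measurableSet_lt (h1.add h2) (measurable_const.mul (h3.add h4))
    exact Measurable.ite h5 (h0.add_const 1) h0

theorem measurable_del {q : Env → ℕ → ℤ} (hq : ∀ i, Measurable fun η => q η i) : Measurable fun η : Env => del (q η) η := by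
  refine measurable_pi_lambda _ fun p => ?_
  exact Measurable.ite (measurableSet_lt measurable_const (hq p.1.toNat)) (measurable_pi_apply _) (measurable_pi_apply _)

end

end Pool.Agent.W_7d29a1_UB
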