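import Pool.Agent.W_7d29a1_X.Path89
import Pool.Agent.W_7d29a1_UB.Defs

/-!
STORM UB (MP_7d29a1_pr, helper60), U4: the shift maps. The kernel to a site is at most `m κ ^ m` times the kernel to its left
neighbour, plus the paths whose last `m` steps are `0`; the future of a site is at most `m κ ^ m` times the future of its left
neighbour, plus the paths whose first `m` steps are `+1`. (helper82)
-/

set_option autoImplicit false

namespace Pool.Agent.W_7d29a1_UB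

open Finset MeasureTheory
open Pool.Agent.W_7d29a1_F
open Pool.Agent.W_7d29a1_X (W_succ)

noncomputable section

variable {μ : Measure ℝ} {s : ℝ}

/-- `|η| ≤ Λ` at the rows `1, …, n`, columns `lo, …, hi`. -/
def Bx (Λ : ℝ) (n : ℕ) (lo hi : ℤ) (η : Env) : Prop :=
  ∀ p : Pt, 1 ≤ p.1 → p.1 ≤ n → lo ≤ p.2 → p.2 ≤ hi → |η p| ≤ Λ

/-- The local factor. -/
def kp (s Λ : ℝ) : ℝ := Real.exp (2 * Λ + |s|)

theorem one_le_kp {s Λ : ℝ} (hΛ : 0 ≤ Λ) : 1 ≤ kp s Λ := by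
  unfold kp
  exact Real.one_le_exp (by positivity)

theorem kp_pow {s Λ : ℝ} (m : ℕ) : kp s Λ ^ m = Real.exp (m * (2 * Λ + |s|)) := by
  unfold kp
  rw [← Real.exp_nat_mul]

/-! ### Straight pieces -/

/-- `m` steps `0`. -/
theorem W_run0 (η : Env) (a : Pt) (m : ℕ) :
    W μ s η a m 0 = ∏ j ∈ range m, (Real.exp (η (a.1 + (j + 1), a.2)) * Real.exp (-lam μ s)) := by
  induction m with
  | zero =>
    unfold W WR
    rw [Pool.Agent.W_7d29a1_X.Zr_zero89]
    simp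
  | succ m ih =>
    rw [W_succ, prod_range_succ, ih, W_eq_zero (μ := μ) (s := s) η a (y := 0 - 1) (by omega), mul_zero, add_zero, add_zero]
    ring

/-- `m` steps `+1`. -/
theorem W_run1 (η : Env) (a : Pt) (m : ℕ) :
    W μ s η a m m = ∏ j ∈ range m, (Real.exp (η (a.1 + (j + 1), a.2 + (j + 1))) * Real.exp (-lam μ s) * Real.exp s) := by
  induction m with
  | zero =>
    unfold W WR
    rw [Pool.Agent.W_7d29a1_X.Zr_zero89]
    simp
  | succ m ih =>
    rw [W_succ, prod_range_succ, W_eq_zero (μ := μ) (s := s) η a (n := m) (y := ((m + 1 : ℕ) : ℤ)) (by push_cast; omega),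
      zero_add]
    have e1 : ((m + 1 : ℕ) : ℤ) - 1 = m := by push_cast; ring
    have e2 : ((m + 1 : ℕ) : ℤ) = (m : ℤ) + 1 := by push_cast; ring
    rw [e1, ih, e2]
    ring

/-- A run of `0`s against the run one column to the left. -/
theorem run0_le {Λ : ℝ} {n : ℕ} {lo hi : ℤ} {η : Env} (hB : Bx Λ n lo hi η) {t : ℕ} {c : ℤ} {m : ℕ} (ht : t + m ≤ n)
    (h1 : lo ≤ c - 1) (h2 : c ≤ hi) :
    W μ s η ((t : ℤ), c) m 0 ≤ Real.exp (m * (2 * Λ)) * W μ s η ((t : ℤ), c - 1) m 0 := by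
  rw [W_run0, W_run0, mul_comm (Real.exp (m * (2 * Λ))), Real.exp_nat_mul, ← Finset.prod_const_one (s := range m),
    Finset.prod_const_one]
  have e1 : (Real.exp (2 * Λ)) ^ m = ∏ _j ∈ range m, Real.exp (2 * Λ) := by rw [prod_const, card_range]
  rw [e1, ← prod_mul_distrib]
  refine prod_le_prod (fun j _ => by positivity) fun j hj => ?_
  rw [mem_range] at hj
  have g1 := (abs_le.1 (hB ((t : ℤ) + (j + 1), c) (by simp only; omega) (by simp only; omega) (by simp only; omega) h2)).2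
  have g2 := (abs_le.1 (hB ((t : ℤ) + (j + 1), c - 1) (by simp only; omega) (by simp only; omega) h1 (by simp only; omega))).1
  rw [← Real.exp_add, ← Real.exp_add, ← Real.exp_add]
  refine Real.exp_le_exp.2 ?_
  show η ((t : ℤ) + (j + 1), c) + -lam μ s ≤ η ((t : ℤ) + (j + 1), c - 1) + -lam μ s + 2 * Λ
  linarith

/-! ### The past -/

/-- **THE SHIFT OF THE PAST**: the last step `+1` is replaced by `0`. -/
theorem past_shift {Λ : ℝ} (hΛ : 0 ≤ Λ) {n : ℕ} {z hi : ℤ} {η : Env} (hB : Bx Λ n (z - 1) hi η) {i : ℕ} (hi' : i ≤ n)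
    (hhi : z + i ≤ hi) (y : ℤ) : ∀ m : ℕ, m ≤ i →
    W μ s η (0, z) i y ≤ m * kp s Λ ^ m * W μ s η (0, z) i (y - 1) +
      W μ s η (0, z) (i - m) y * W μ s η (((i - m : ℕ) : ℤ), z + y) m 0 := by
  by_cases hy : 0 ≤ y ∧ y ≤ i
  swap
  · intro m _
    rw [W_eq_zero (μ := μ) (s := s) η (0, z) hy]
    have h1 := W_nonneg (μ := μ) (s := s) η (0, z) i (y - 1)
    have h2 := W_nonneg (μ := μ) (s := s) η (0, z) (i - m) y
    have h3 := W_nonneg (μ := μ) (s := s) η (((i - m : ℕ) : ℤ), z + y) m 0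
    have h4 : 0 ≤ kp s Λ := zero_le_one.trans (one_le_kp hΛ)
    positivity
  have hκ := one_le_kp (s := s) hΛ
  intro m
  induction m with
  | zero =>
    intro _
    have e1 : W μ s η (((i - 0 : ℕ) : ℤ), z + y) 0 0 = 1 := by
      rw [W_run0]
      simp
    rw [e1, Nat.sub_zero, mul_one]
    simp
  | succ m ih =>
    intro hm
    have h1 := ih (by omega)
    have h2 : i - m = (i - (m + 1)) + 1 := by omega
    obtain ⟨t, ht⟩ : ∃ t : ℕ, t = i - (m + 1) := ⟨_, rfl⟩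
    rw [← ht] at h2 ⊢
    rw [h2] at h1
    -- the last step before the run
    have e1 : W μ s η (0, z) (t + 1) y = Real.exp (η ((t : ℤ) + 1, z + y)) * Real.exp (-lam μ s) *
        (W μ s η (0, z) t y + Real.exp s * W μ s η (0, z) t (y - 1)) := by
      rw [W_succ]
      show Real.exp (η (0 + ((t : ℤ) + 1), z + y)) * _ * _ = _
      rw [zero_add]
    -- the run of `m + 1` steps
    have e2 : ∀ c : ℤ, W μ s η ((t : ℤ), c) (m + 1) 0 = Real.exp (η ((t : ℤ) + 1, c)) * Real.exp (-lam μ s) *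
        W μ s η (((t + 1 : ℕ) : ℤ), c) m 0 := by
      intro c
      rw [W_run0, W_run0, prod_range_succ']
      show (∏ k ∈ range m, Real.exp (η ((t : ℤ) + (((k + 1 : ℕ) : ℤ) + 1), c)) * Real.exp (-lam μ s)) *
        (Real.exp (η ((t : ℤ) + (((0 : ℕ) : ℤ) + 1), c)) * Real.exp (-lam μ s)) =
        Real.exp (η ((t : ℤ) + 1, c)) * Real.exp (-lam μ s) *
          ∏ j ∈ range m, Real.exp (η (((t + 1 : ℕ) : ℤ) + (j + 1), c)) * Real.exp (-lam μ s)
      have e3 : ∀ k : ℕ, (t : ℤ) + (((k + 1 : ℕ) : ℤ) + 1) = ((t + 1 : ℕ) : ℤ) + (k + 1) := fun k => by push_cast; ring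
      simp only [e3, Nat.cast_zero, zero_add]
      ring
    have e4 : W μ s η (0, z) (t + 1) y * W μ s η (((t + 1 : ℕ) : ℤ), z + y) m 0 =
        W μ s η (0, z) t y * W μ s η ((t : ℤ), z + y) (m + 1) 0 +
          Real.exp s * (W μ s η (0, z) t (y - 1) * W μ s η ((t : ℤ), z + y) (m + 1) 0) := by
      rw [e1, e2]
      ring
    rw [e4] at h1
    have h3 : W μ s η ((t : ℤ), z + y) (m + 1) 0 ≤ Real.exp (((m + 1 : ℕ) : ℝ) * (2 * Λ)) * W μ s η ((t : ℤ), z + y - 1) (m + 1) 0 :=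
      run0_le hB (by omega) (by omega) (by omega)
    have h4 : W μ s η (0, z) t (y - 1) * W μ s η ((t : ℤ), z + y - 1) (m + 1) 0 ≤ W μ s η (0, z) i (y - 1) := by
      have h5 := W_mul_le (μ := μ) (s := s) η (0, z) t (m + 1) (y - 1) 0
      have e5 : t + (m + 1) = i := by omega
      have e6 : (((0 : ℤ), z).1 + (t : ℤ), ((0 : ℤ), z).2 + (y - 1)) = (((t : ℤ), z + y - 1) : Pt) := by
        refine Prod.ext ?_ ?_
        · show (0 : ℤ) + t = t
          ring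
        · show z + (y - 1) = z + y - 1
          ring
      rw [e5, e6, add_zero] at h5
      exact h5
    have h6 : Real.exp s * (W μ s η (0, z) t (y - 1) * W μ s η ((t : ℤ), z + y) (m + 1) 0) ≤
        kp s Λ ^ (m + 1) * W μ s η (0, z) i (y - 1) := by
      have h7 := mul_le_mul_of_nonneg_left h3 (W_nonneg (μ := μ) (s := s) η (0, z) t (y - 1))
      have h8 : Real.exp s * Real.exp (((m + 1 : ℕ) : ℝ) * (2 * Λ)) ≤ kp s Λ ^ (m + 1) := by
        rw [kp_pow, ← Real.exp_add]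
        refine Real.exp_le_exp.2 ?_
        have h9 : s ≤ |s| := le_abs_self s
        have h10 : 0 ≤ (m : ℝ) * |s| := by positivity
        push_cast
        nlinarith
      calc Real.exp s * (W μ s η (0, z) t (y - 1) * W μ s η ((t : ℤ), z + y) (m + 1) 0) ≤
            Real.exp s * (W μ s η (0, z) t (y - 1) * (Real.exp (((m + 1 : ℕ) : ℝ) * (2 * Λ)) *
              W μ s η ((t : ℤ), z + y - 1) (m + 1) 0)) := mul_le_mul_of_nonneg_left h7 (Real.exp_pos _).le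
        _ = Real.exp s * Real.exp (((m + 1 : ℕ) : ℝ) * (2 * Λ)) *
              (W μ s η (0, z) t (y - 1) * W μ s η ((t : ℤ), z + y - 1) (m + 1) 0) := by ring
        _ ≤ kp s Λ ^ (m + 1) * W μ s η (0, z) i (y - 1) :=
            mul_le_mul h8 h4 (mul_nonneg (W_nonneg _ _ _ _) (W_nonneg _ _ _ _)) (by positivity)
    have h7 : (m : ℝ) * kp s Λ ^ m * W μ s η (0, z) i (y - 1) ≤ m * kp s Λ ^ (m + 1) * W μ s η (0, z) i (y - 1) := by
      refine mul_le_mul_of_nonneg_right (mul_le_mul_of_nonneg_left ?_ (Nat.cast_nonneg m)) (W_nonneg _ _ _ _)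
      exact pow_le_pow_right₀ hκ (by omega)
    push_cast
    linarith

/-! ### The future -/

/-- The first step. -/
theorem F_succ (η : Env) (i : ℤ) (c : ℤ) (r : ℕ) : Real.exp (V μ s η (i, c) (r + 1)) =
    Real.exp (η (i + 1, c)) * Real.exp (-lam μ s) * Real.exp (V μ s η (i + 1, c) r) +
      Real.exp (η (i + 1, c + 1)) * Real.exp (-lam μ s) * Real.exp s * Real.exp (V μ s η (i + 1, c + 1) r) := by
  have h := exp_V_add (μ := μ) (s := s) η (i, c) 1 r
  rw [Nat.add_comm 1 r] at h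
  rw [h]
  have e1 : Icc (0 : ℤ) ((1 : ℕ) : ℤ) = {0, 1} := by
    ext a
    rw [mem_Icc, mem_insert, mem_singleton]
    push_cast
    omega
  rw [e1, sum_insert (by simp), sum_singleton]
  have e2 : W μ s η (i, c) 1 0 = Real.exp (η (i + 1, c)) * Real.exp (-lam μ s) := by
    rw [W_run0, prod_range_one]
    show Real.exp (η (i + (((0 : ℕ) : ℤ) + 1), c)) * _ = _
    rw [Nat.cast_zero, zero_add]
  have e3 : W μ s η (i, c) 1 1 = Real.exp (η (i + 1, c + 1)) * Real.exp (-lam μ s) * Real.exp s := by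
    have h1 := W_run1 (μ := μ) (s := s) η (i, c) 1
    rw [prod_range_one] at h1
    have h2 : W μ s η (i, c) 1 ((1 : ℕ) : ℤ) = W μ s η (i, c) 1 1 := by rw [Nat.cast_one]
    rw [← h2, h1]
    show Real.exp (η (i + (((0 : ℕ) : ℤ) + 1), c + (((0 : ℕ) : ℤ) + 1))) * _ * _ = _
    rw [Nat.cast_zero, zero_add]
  have e4 : ((((i, c) : Pt).1 + ((1 : ℕ) : ℤ), ((i, c) : Pt).2 + 0) : Pt) = (i + 1, c) := by
    refine Prod.ext ?_ ?_
    · show i + ((1 : ℕ) : ℤ) = i + 1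
      rw [Nat.cast_one]
    · show c + 0 = c
      ring
  have e5 : ((((i, c) : Pt).1 + ((1 : ℕ) : ℤ), ((i, c) : Pt).2 + 1) : Pt) = (i + 1, c + 1) := by
    refine Prod.ext ?_ ?_
    · show i + ((1 : ℕ) : ℤ) = i + 1
      rw [Nat.cast_one]
    · rfl
  rw [e2, e3, e4, e5]

/-- **THE SHIFT OF THE FUTURE**: the first step `0` is replaced by `+1`. -/
theorem fut_shift {Λ : ℝ} (hΛ : 0 ≤ Λ) {n : ℕ} {lo hi : ℤ} {η : Env} (hB : Bx Λ n lo hi η) {i : ℕ} {c : ℤ} {r : ℕ}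
    (hr : i + r ≤ n) (hlo : lo ≤ c) (hhi : c + r ≤ hi) : ∀ m : ℕ, m ≤ r →
    Real.exp (V μ s η ((i : ℤ), c) r) ≤ m * kp s Λ ^ m * Real.exp (V μ s η ((i : ℤ), c - 1) r) +
      W μ s η ((i : ℤ), c) m m * Real.exp (V μ s η (((i + m : ℕ) : ℤ), c + m) (r - m)) := by
  have hκ := one_le_kp (s := s) hΛ
  intro m
  induction m with
  | zero =>
    intro _
    have e1 : W μ s η ((i : ℤ), c) 0 ((0 : ℕ) : ℤ) = 1 := by
      rw [W_run1]
      simp
    rw [e1, Nat.sub_zero, one_mul, Nat.add_zero]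
    simp
  | succ m ih =>
    intro hm
    have h1 := ih (by omega)
    obtain ⟨k, hk⟩ : ∃ k : ℕ, r - m = k + 1 := ⟨r - m - 1, by omega⟩
    have hk' : r - (m + 1) = k := by omega
    rw [hk, F_succ] at h1
    rw [hk']
    -- `+1` after the run
    have e1 : W μ s η ((i : ℤ), c) (m + 1) ((m + 1 : ℕ) : ℤ) = W μ s η ((i : ℤ), c) m m *
        (Real.exp (η (((i + m : ℕ) : ℤ) + 1, c + m + 1)) * Real.exp (-lam μ s) * Real.exp s) := by
      rw [W_run1, W_run1, prod_range_succ]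
      congr 1
      show Real.exp (η ((i : ℤ) + ((m : ℤ) + 1), c + ((m : ℤ) + 1))) * _ * _ = _
      have e2 : (i : ℤ) + ((m : ℤ) + 1) = ((i + m : ℕ) : ℤ) + 1 := by push_cast; ring
      have e3 : c + ((m : ℤ) + 1) = c + m + 1 := by ring
      rw [e2, e3]
    have e2 : (((i + m : ℕ) : ℤ) + 1, c + m + 1) = ((((i + (m + 1) : ℕ) : ℤ), c + ((m + 1 : ℕ) : ℤ)) : Pt) := by
      refine Prod.ext ?_ ?_
      · show ((i + m : ℕ) : ℤ) + 1 = ((i + (m + 1) : ℕ) : ℤ)
        push_cast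
        ring
      · show c + m + 1 = c + ((m + 1 : ℕ) : ℤ)
        push_cast
        ring
    -- the step `0` after the run: joined by `m + 1` steps `+1` from the left neighbour
    have h2 : W μ s η ((i : ℤ), c) m m * (Real.exp (η (((i + m : ℕ) : ℤ) + 1, c + m)) * Real.exp (-lam μ s)) ≤
        kp s Λ ^ (m + 1) * W μ s η ((i : ℤ), c - 1) (m + 1) ((m + 1 : ℕ) : ℤ) := by
      rw [W_run1, W_run1, prod_range_succ (fun j => Real.exp (η (((i : ℤ), c - 1).1 + ((j : ℤ) + 1),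
        ((i : ℤ), c - 1).2 + ((j : ℤ) + 1))) * Real.exp (-lam μ s) * Real.exp s)]
      have e3 : Real.exp (η (((i : ℤ), c - 1).1 + ((m : ℤ) + 1), ((i : ℤ), c - 1).2 + ((m : ℤ) + 1))) =
          Real.exp (η (((i + m : ℕ) : ℤ) + 1, c + m)) := by
        congr 2
        refine Prod.ext ?_ ?_
        · show (i : ℤ) + ((m : ℤ) + 1) = ((i + m : ℕ) : ℤ) + 1
          push_cast
          ring
        · show c - 1 + ((m : ℤ) + 1) = c + m
          ring
      rw [e3]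
      have h3 : ∏ j ∈ range m, (Real.exp (η (((i : ℤ), c).1 + ((j : ℤ) + 1), ((i : ℤ), c).2 + ((j : ℤ) + 1))) *
          Real.exp (-lam μ s) * Real.exp s) ≤ Real.exp (m * (2 * Λ)) *
          ∏ j ∈ range m, (Real.exp (η (((i : ℤ), c - 1).1 + ((j : ℤ) + 1), ((i : ℤ), c - 1).2 + ((j : ℤ) + 1))) *
          Real.exp (-lam μ s) * Real.exp s) := by
        have e4 : Real.exp (m * (2 * Λ)) = ∏ _j ∈ range m, Real.exp (2 * Λ) := by
          rw [prod_const, card_range, ← Real.exp_nat_mul]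
        rw [e4, ← prod_mul_distrib]
        refine prod_le_prod (fun j _ => by positivity) fun j hj => ?_
        rw [mem_range] at hj
        have g1 := (abs_le.1 (hB ((i : ℤ) + (j + 1), c + (j + 1)) (by simp only; omega) (by simp only; omega)
          (by simp only; omega) (by simp only; omega))).2
        have g2 := (abs_le.1 (hB ((i : ℤ) + (j + 1), c - 1 + (j + 1)) (by simp only; omega) (by simp only; omega)
          (by simp only; omega) (by simp only; omega))).1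
        rw [← Real.exp_add, ← Real.exp_add, ← Real.exp_add, ← Real.exp_add, ← Real.exp_add]
        refine Real.exp_le_exp.2 ?_
        show η ((i : ℤ) + (j + 1), c + (j + 1)) + -lam μ s + s ≤
          2 * Λ + (η ((i : ℤ) + (j + 1), c - 1 + (j + 1)) + -lam μ s + s)
        linarith
      obtain ⟨P, hP⟩ : ∃ P : ℝ, P = ∏ j ∈ range m, (Real.exp (η (((i : ℤ), c - 1).1 + ((j : ℤ) + 1),
          ((i : ℤ), c - 1).2 + ((j : ℤ) + 1))) * Real.exp (-lam μ s) * Real.exp s) := ⟨_, rfl⟩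
      rw [← hP] at h3 ⊢
      have hP0 : 0 ≤ P := by rw [hP]; exact prod_nonneg fun j _ => by positivity
      obtain ⟨w, hw⟩ : ∃ w : ℝ, w = Real.exp (η (((i + m : ℕ) : ℤ) + 1, c + m)) * Real.exp (-lam μ s) := ⟨_, rfl⟩
      have hw0 : 0 ≤ w := by rw [hw]; positivity
      rw [← hw]
      have h5 : Real.exp (m * (2 * Λ)) ≤ kp s Λ ^ (m + 1) * Real.exp s := by
        rw [kp_pow, ← Real.exp_add]
        refine Real.exp_le_exp.2 ?_
        have h9 : -s ≤ |s| := neg_le_abs s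
        have h10 : 0 ≤ (m : ℝ) * |s| := by positivity
        push_cast
        nlinarith
      calc (∏ j ∈ range m, (Real.exp (η (((i : ℤ), c).1 + ((j : ℤ) + 1), ((i : ℤ), c).2 + ((j : ℤ) + 1))) *
          Real.exp (-lam μ s) * Real.exp s)) * w ≤ Real.exp (m * (2 * Λ)) * P * w := mul_le_mul_of_nonneg_right h3 hw0
        _ = Real.exp (m * (2 * Λ)) * (P * w) := by ring
        _ ≤ kp s Λ ^ (m + 1) * Real.exp s * (P * w) := mul_le_mul_of_nonneg_right h5 (by positivity)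
        _ = kp s Λ ^ (m + 1) * (P * (w * Real.exp s)) := by ring
    have h3 : W μ s η ((i : ℤ), c - 1) (m + 1) ((m + 1 : ℕ) : ℤ) * Real.exp (V μ s η (((i + m : ℕ) : ℤ) + 1, c + m) k) ≤
        Real.exp (V μ s η ((i : ℤ), c - 1) r) := by
      have h4 := exp_V_add (μ := μ) (s := s) η ((i : ℤ), c - 1) (m + 1) k
      have e3 : m + 1 + k = r := by omega
      rw [e3] at h4
      rw [h4]
      have h5 := single_le_sum (f := fun d : ℤ => W μ s η ((i : ℤ), c - 1) (m + 1) d *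
        Real.exp (V μ s η ((((i : ℤ), c - 1) : Pt).1 + ((m + 1 : ℕ) : ℤ), (((i : ℤ), c - 1) : Pt).2 + d) k))
        (fun d _ => mul_nonneg (W_nonneg _ _ _ _) (Real.exp_pos _).le)
        (mem_Icc.2 ⟨by positivity, le_rfl⟩ : ((m + 1 : ℕ) : ℤ) ∈ Icc (0 : ℤ) ((m + 1 : ℕ) : ℤ))
      refine le_trans (le_of_eq ?_) h5
      show _ = W μ s η ((i : ℤ), c - 1) (m + 1) ((m + 1 : ℕ) : ℤ) * Real.exp (V μ s η ((i : ℤ) + ((m + 1 : ℕ) : ℤ),
        c - 1 + ((m + 1 : ℕ) : ℤ)) k)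
      have e4 : ((((i + m : ℕ) : ℤ) + 1, c + m) : Pt) = ((i : ℤ) + ((m + 1 : ℕ) : ℤ), c - 1 + ((m + 1 : ℕ) : ℤ)) := by
        refine Prod.ext ?_ ?_
        · show ((i + m : ℕ) : ℤ) + 1 = (i : ℤ) + ((m + 1 : ℕ) : ℤ)
          push_cast
          ring
        · show c + m = c - 1 + ((m + 1 : ℕ) : ℤ)
          push_cast
          ring
      rw [e4]
    rw [e2] at h1 e1
    have h4 := mul_le_mul_of_nonneg_right h2 (Real.exp_pos (V μ s η (((i + m : ℕ) : ℤ) + 1, c + m) k)).le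
    have h5 := mul_le_mul_of_nonneg_left h3 (show 0 ≤ kp s Λ ^ (m + 1) by positivity)
    have h6 : (m : ℝ) * kp s Λ ^ m * Real.exp (V μ s η ((i : ℤ), c - 1) r) ≤
        m * kp s Λ ^ (m + 1) * Real.exp (V μ s η ((i : ℤ), c - 1) r) := by
      refine mul_le_mul_of_nonneg_right (mul_le_mul_of_nonneg_left ?_ (Nat.cast_nonneg m)) (Real.exp_pos _).le
      exact pow_le_pow_right₀ hκ (by omega)
    rw [e1]
    have e5 : (((m + 1 : ℕ) : ℝ)) * kp s Λ ^ (m + 1) * Real.exp (V μ s η ((i : ℤ), c - 1) r) =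
        m * kp s Λ ^ (m + 1) * Real.exp (V μ s η ((i : ℤ), c - 1) r) +
          kp s Λ ^ (m + 1) * Real.exp (V μ s η ((i : ℤ), c - 1) r) := by
      push_cast
      ring
    rw [e5]
    have e6 : W μ s η ((i : ℤ), c) m m * (Real.exp (η (((i + m : ℕ) : ℤ) + 1, c + m)) * Real.exp (-lam μ s) *
        Real.exp (V μ s η (((i + m : ℕ) : ℤ) + 1, c + m) k)) =
        W μ s η ((i : ℤ), c) m m * (Real.exp (η (((i + m : ℕ) : ℤ) + 1, c + m)) * Real.exp (-lam μ s)) *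
          Real.exp (V μ s η (((i + m : ℕ) : ℤ) + 1, c + m) k) := by ring
    rw [mul_add, e6] at h1
    have e7 : W μ s η ((i : ℤ), c) m m * (Real.exp (η ((((i + (m + 1) : ℕ) : ℤ), c + ((m + 1 : ℕ) : ℤ)) : Pt)) *
        Real.exp (-lam μ s) * Real.exp s * Real.exp (V μ s η (((i + (m + 1) : ℕ) : ℤ), c + ((m + 1 : ℕ) : ℤ)) k)) =
        W μ s η ((i : ℤ), c) m m * (Real.exp (η (((i + (m + 1) : ℕ) : ℤ), c + ((m + 1 : ℕ) : ℤ))) *
        Real.exp (-lam μ s) * Real.exp s) * Real.exp (V μ s η (((i + (m + 1) : ℕ) : ℤ), c + ((m + 1 : ℕ) : ℤ)) k) := by ring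
    rw [e7] at h1
    have e8 : kp s Λ ^ (m + 1) * W μ s η ((i : ℤ), c - 1) (m + 1) ((m + 1 : ℕ) : ℤ) *
        Real.exp (V μ s η (((i + m : ℕ) : ℤ) + 1, c + m) k) = kp s Λ ^ (m + 1) *
        (W μ s η ((i : ℤ), c - 1) (m + 1) ((m + 1 : ℕ) : ℤ) * Real.exp (V μ s η (((i + m : ℕ) : ℤ) + 1, c + m) k)) := by ring
    rw [e8] at h4
    linarith

/-- The shift of a kernel by one column. -/
theorem W_shift_le {Λ : ℝ} {n : ℕ} {lo hi : ℤ} {η : Env} (hB : Bx Λ n lo hi η) {i : ℕ} {c : ℤ} (hlo : lo ≤ c - 1) :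
    ∀ (r : ℕ) (d : ℤ), i + r ≤ n → c + r ≤ hi →
    W μ s η ((i : ℤ), c) r d ≤ Real.exp (r * (2 * Λ)) * W μ s η ((i : ℤ), c - 1) r d
  | 0, d, _, _ => by
    unfold W WR
    rw [Pool.Agent.W_7d29a1_X.Zr_zero89, Pool.Agent.W_7d29a1_X.Zr_zero89]
    simp
  | r + 1, d, h1, h2 => by
    by_cases hd : 0 ≤ d ∧ d ≤ ((r + 1 : ℕ) : ℤ)
    swap
    · rw [W_eq_zero (μ := μ) (s := s) η ((i : ℤ), c) hd]
      exact mul_nonneg (Real.exp_pos _).le (W_nonneg _ _ _ _)
    have ih1 := W_shift_le hB (i := i) hlo r d (by omega) (by push_cast at h2; omega)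
    have ih2 := W_shift_le hB (i := i) hlo r (d - 1) (by omega) (by push_cast at h2; omega)
    rw [W_succ, W_succ]
    push_cast at h2 hd
    have g1 := (abs_le.1 (hB ((i : ℤ) + ((r : ℤ) + 1), c + d) (by simp only; omega) (by simp only; omega)
      (by simp only; omega) (by simp only; omega))).2
    have g2 := (abs_le.1 (hB ((i : ℤ) + ((r : ℤ) + 1), c - 1 + d) (by simp only; omega) (by simp only; omega)
      (by simp only; omega) (by simp only; omega))).1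
    have h3 : Real.exp (η ((i : ℤ) + (r + 1), c + d)) ≤ Real.exp (2 * Λ) * Real.exp (η ((i : ℤ) + (r + 1), c - 1 + d)) := by
      rw [← Real.exp_add]
      exact Real.exp_le_exp.2 (by linarith)
    have h4 : W μ s η ((i : ℤ), c) r d + Real.exp s * W μ s η ((i : ℤ), c) r (d - 1) ≤
        Real.exp (r * (2 * Λ)) * (W μ s η ((i : ℤ), c - 1) r d + Real.exp s * W μ s η ((i : ℤ), c - 1) r (d - 1)) := by
      have h5 := mul_le_mul_of_nonneg_left ih2 (Real.exp_pos s).le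
      have h6 : Real.exp s * (Real.exp (r * (2 * Λ)) * W μ s η ((i : ℤ), c - 1) r (d - 1)) =
          Real.exp (r * (2 * Λ)) * (Real.exp s * W μ s η ((i : ℤ), c - 1) r (d - 1)) := by ring
      rw [mul_add]
      linarith
    have h5 : 0 ≤ W μ s η ((i : ℤ), c) r d + Real.exp s * W μ s η ((i : ℤ), c) r (d - 1) :=
      add_nonneg (W_nonneg _ _ _ _) (mul_nonneg (Real.exp_pos _).le (W_nonneg _ _ _ _))
    have h6 := mul_le_mul h3 h4 h5 (by positivity)
    have e1 : Real.exp (((r + 1 : ℕ) : ℝ) * (2 * Λ)) = Real.exp (2 * Λ) * Real.exp (r * (2 * Λ)) := by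
      rw [← Real.exp_add]
      congr 1
      push_cast
      ring
    rw [e1]
    calc Real.exp (η ((i : ℤ) + (r + 1), c + d)) * Real.exp (-lam μ s) *
          (W μ s η ((i : ℤ), c) r d + Real.exp s * W μ s η ((i : ℤ), c) r (d - 1)) =
        Real.exp (-lam μ s) * (Real.exp (η ((i : ℤ) + (r + 1), c + d)) *
          (W μ s η ((i : ℤ), c) r d + Real.exp s * W μ s η ((i : ℤ), c) r (d - 1))) := by ring
      _ ≤ Real.exp (-lam μ s) * (Real.exp (2 * Λ) * Real.exp (η ((i : ℤ) + (r + 1), c - 1 + d)) *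
          (Real.exp (r * (2 * Λ)) * (W μ s η ((i : ℤ), c - 1) r d + Real.exp s * W μ s η ((i : ℤ), c - 1) r (d - 1)))) :=
          mul_le_mul_of_nonneg_left h6 (Real.exp_pos _).le
      _ = _ := by ring

/-- Short futures: every path is shifted. -/
theorem fut_short {Λ : ℝ} {n : ℕ} {lo hi : ℤ} {η : Env} (hB : Bx Λ n lo hi η) {i : ℕ} {c : ℤ} {r : ℕ}
    (hr : i + r ≤ n) (hlo : lo ≤ c - 1) (hhi : c + r ≤ hi) :
    Real.exp (V μ s η ((i : ℤ), c) r) ≤ Real.exp (r * (2 * Λ)) * Real.exp (V μ s η ((i : ℤ), c - 1) r) := by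
  rw [exp_V, exp_V]
  unfold WS
  rw [mul_sum]
  exact sum_le_sum fun d _ => W_shift_le hB hlo r d hr hhi

/-! ### The bad parts -/

/-- The paths to `(i, z + y)` whose last `m` steps are `0`. -/
def badP (μ : Measure ℝ) (s : ℝ) (η : Env) (z : ℤ) (i m : ℕ) (y : ℤ) : ℝ :=
  W μ s η (0, z) (i - m) y * W μ s η (((i - m : ℕ) : ℤ), z + y) m 0

/-- The paths of length `r` from `(i, c)` whose first `m` steps are `+1`. -/
def badF (μ : Measure ℝ) (s : ℝ) (η : Env) (i : ℕ) (c : ℤ) (r m : ℕ) : ℝ :=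
  W μ s η ((i : ℤ), c) m m * mP μ s Set.univ η (((i + m : ℕ) : ℤ), c + m) (r - m)

theorem badP_nonneg (η : Env) (z : ℤ) (i m : ℕ) (y : ℤ) : 0 ≤ badP μ s η z i m y :=
  mul_nonneg (W_nonneg _ _ _ _) (W_nonneg _ _ _ _)

theorem badF_nonneg (η : Env) (i : ℕ) (c : ℤ) (r m : ℕ) : 0 ≤ badF μ s η i c r m :=
  mul_nonneg (W_nonneg _ _ _ _) (mP_nonneg _ _ _ _)

theorem badP_le (η : Env) (z : ℤ) {i m : ℕ} (hm : m ≤ i) (y : ℤ) : badP μ s η z i m y ≤ W μ s η (0, z) i y := by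
  have h5 := W_mul_le (μ := μ) (s := s) η (0, z) (i - m) m y 0
  have e5 : i - m + m = i := by omega
  have e6 : (((0 : ℤ), z).1 + ((i - m : ℕ) : ℤ), ((0 : ℤ), z).2 + y) = ((((i - m : ℕ) : ℤ), z + y) : Pt) := by
    refine Prod.ext ?_ rfl
    show (0 : ℤ) + ((i - m : ℕ) : ℤ) = ((i - m : ℕ) : ℤ)
    ring
  rw [e5, e6, add_zero] at h5
  exact h5

theorem badF_le (η : Env) (i : ℕ) (c : ℤ) {r m : ℕ} (hm : m ≤ r) :
    badF μ s η i c r m ≤ mP μ s Set.univ η ((i : ℤ), c) r := by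
  unfold badF
  rw [mP_univ, mP_univ]
  have h4 := exp_V_add (μ := μ) (s := s) η ((i : ℤ), c) m (r - m)
  have e3 : m + (r - m) = r := by omega
  rw [e3] at h4
  rw [h4]
  have h5 := single_le_sum (f := fun d : ℤ => W μ s η ((i : ℤ), c) m d *
    Real.exp (V μ s η ((((i : ℤ), c) : Pt).1 + (m : ℤ), (((i : ℤ), c) : Pt).2 + d) (r - m)))
    (fun d _ => mul_nonneg (W_nonneg _ _ _ _) (Real.exp_pos _).le)
    (mem_Icc.2 ⟨by positivity, le_rfl⟩ : (m : ℤ) ∈ Icc (0 : ℤ) (m : ℤ))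
  refine le_trans (le_of_eq ?_) h5
  show _ = W μ s η ((i : ℤ), c) m m * Real.exp (V μ s η ((i : ℤ) + (m : ℤ), c + (m : ℤ)) (r - m))
  have e4 : ((((i + m : ℕ) : ℤ), c + m) : Pt) = ((i : ℤ) + (m : ℤ), c + (m : ℤ)) := by
    refine Prod.ext ?_ rfl
    show ((i + m : ℕ) : ℤ) = (i : ℤ) + (m : ℤ)
    push_cast
    ring
  rw [e4]

/-- **PAST**: the part with a step `+1` among the last `m` steps. -/
theorem past {Λ : ℝ} (hΛ : 0 ≤ Λ) {n : ℕ} {z hi : ℤ} {η : Env} (hB : Bx Λ n (z - 1) hi η) {i m : ℕ} (hi' : i ≤ n)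
    (hhi : z + i ≤ hi) (hm : m ≤ i) (y : ℤ) :
    0 ≤ W μ s η (0, z) i y - badP μ s η z i m y ∧
    W μ s η (0, z) i y - badP μ s η z i m y ≤ m * kp s Λ ^ m * W μ s η (0, z) i (y - 1) := by
  refine ⟨sub_nonneg.2 (badP_le η z hm y), ?_⟩
  have h := past_shift (μ := μ) (s := s) hΛ hB hi' hhi y m hm
  unfold badP
  linarith

/-- **FUTURE**: the part with a step `0` among the first `m` steps. -/
theorem future {Λ : ℝ} (hΛ : 0 ≤ Λ) {n : ℕ} {lo hi : ℤ} {η : Env} (hB : Bx Λ n lo hi η) {i : ℕ} {c : ℤ} {r m : ℕ}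
    (hr : i + r ≤ n) (hlo : lo ≤ c) (hhi : c + r ≤ hi) (hm : m ≤ r) :
    0 ≤ mP μ s Set.univ η ((i : ℤ), c) r - badF μ s η i c r m ∧
    mP μ s Set.univ η ((i : ℤ), c) r - badF μ s η i c r m ≤ m * kp s Λ ^ m * mP μ s Set.univ η ((i : ℤ), c - 1) r := by
  refine ⟨sub_nonneg.2 (badF_le η i c hm), ?_⟩
  have h := fut_shift (μ := μ) (s := s) hΛ hB hr hlo hhi m hm
  unfold badF
  rw [mP_univ, mP_univ, mP_univ]
  linarith

/-- **SHORT FUTURE**. -/
theorem future_short {Λ : ℝ} (hΛ : 0 ≤ Λ) {n : ℕ} {lo hi : ℤ} {η : Env} (hB : Bx Λ n lo hi η) {i : ℕ} {c : ℤ} {r m : ℕ}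
    (hr : i + r ≤ n) (hlo : lo ≤ c - 1) (hhi : c + r ≤ hi) (hm : r ≤ m) :
    mP μ s Set.univ η ((i : ℤ), c) r ≤ kp s Λ ^ m * mP μ s Set.univ η ((i : ℤ), c - 1) r := by
  rw [mP_univ, mP_univ]
  refine (fut_short hB hr hlo hhi).trans (mul_le_mul_of_nonneg_right ?_ (Real.exp_pos _).le)
  rw [kp_pow]
  refine Real.exp_le_exp.2 ?_
  have h1 : (r : ℝ) ≤ m := by exact_mod_cast hm
  have h2 : 0 ≤ |s| := abs_nonneg s
  calc (r : ℝ) * (2 * Λ) ≤ m * (2 * Λ) := mul_le_mul_of_nonneg_right h1 (by positivity)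
    _ ≤ m * (2 * Λ + |s|) := mul_le_mul_of_nonneg_left (by linarith) (Nat.cast_nonneg m)

end

end Pool.Agent.W_7d29a1_UB
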