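import Pool.Agent.W_7d29a1_UB.Last
import Pool.Agent.W_7d29a1_UB.Shift82

/-!
STORM UB (MP_7d29a1_pr, row 674 of the table `proofs`, helper60), part (4): the levels far from the difference `B` of the two free
energies. There the removal of the column of the seam costs nothing.
-/

set_option autoImplicit false

namespace Pool.Agent.W_7d29a1_UB

open MeasureTheory
open Pool.Agent.W_7d29a1_F Pool.Agent.W_7d29a1_LB

noncomputable section

variable {μ : Measure ℝ} {s : ℝ}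

/-- The left retained mass, summed; `a` is the level for the normalised kernels. -/
theorem psi_le_leftU (η : Env) (a : ℝ) {x : ℤ} (hx : 1 ≤ x) (n : ℕ) :
    psi μ s η 0 n ≤ mass μ s (Lt (seamU η (a + s * (x + 1)) x)) η 0 n + Real.exp (-a) * psi μ s η (x + 1) n := by
  obtain ⟨I, hI⟩ : ∃ I : Finset ℤ, I = Finset.Icc 0 (x + 1 + n) := ⟨_, rfl⟩
  have hI0 : ∀ y, (0 : ℤ) ≤ y → y ≤ 0 + n → y ∈ I := fun y h1 h2 => by rw [hI, Finset.mem_Icc]; omega
  have hIx : ∀ y, x + 1 ≤ y → y ≤ x + 1 + n → y ∈ I := fun y h1 h2 => by rw [hI, Finset.mem_Icc]; omega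
  have e1 := mass_eq (μ := μ) (s := s) Set.univ η 0 n I hI0
  have e2 := mass_eq (μ := μ) (s := s) (Lt (seamU η (a + s * (x + 1)) x)) η 0 n I hI0
  have e3 := mass_eq (μ := μ) (s := s) Set.univ η (x + 1) n I hIx
  rw [Int.cast_zero, mul_zero, Real.exp_zero, one_mul] at e1 e2
  rw [Int.cast_add, Int.cast_one] at e3
  have h1 : ∑ y ∈ I, Real.exp (s * y - n * lam μ s) * K Set.univ η 0 n y ≤
      ∑ y ∈ I, Real.exp (s * y - n * lam μ s) * K (Lt (seamU η (a + s * (x + 1)) x)) η 0 n y +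
      Real.exp (-(a + s * (x + 1))) * ∑ y ∈ I, Real.exp (s * y - n * lam μ s) * K Set.univ η (x + 1) n y := by
    rw [Finset.mul_sum, ← Finset.sum_add_distrib]
    refine Finset.sum_le_sum fun y _ => ?_
    have h2 := mul_le_mul_of_nonneg_left (retLU η (a + s * (x + 1)) hx n y) (Real.exp_pos (s * y - n * lam μ s)).le
    calc _ ≤ _ := h2
      _ = _ := by ring
  rw [e1, e2, e3, ← mul_assoc, ← Real.exp_add, show -(a + s * ((x : ℝ) + 1)) + s * ((x : ℝ) + 1) = -a by ring] at h1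
  exact h1

theorem neg_log_le {t : ℝ} (h0 : 0 ≤ t) (h1 : t ≤ 1 / 2) : -Real.log (1 - t) ≤ 2 * t := by
  have h2 : 0 < 1 - t := by linarith
  have h3 := Real.add_one_le_exp (2 * t)
  have h4 : Real.exp (-(2 * t)) ≤ 1 - t := by
    rw [Real.exp_neg, inv_le_comm₀ (Real.exp_pos _) h2]
    refine le_trans ?_ h3
    rw [inv_le_iff_one_le_mul₀ h2]
    nlinarith
  have h5 := Real.log_le_log (Real.exp_pos _) h4
  rw [Real.log_exp] at h5
  linarith

/-- **The levels above `B`** (`a - B` large): the removal costs at most `3 exp (-(a - B))`. -/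
theorem far_right (η : Env) (a : ℝ) {x : ℤ} (hx : 1 ≤ x) (n : ℕ)
    (ht : Real.exp (-(a - (V μ s η (0, x + 1) n - V μ s η (0, 0) n))) ≤ 1 / 2) :
    Real.log (Zt μ s η (x + 1) n a) - Real.log (Zt μ s (del (seamU η (a + s * (x + 1)) x) η) x n a) ≤
      3 * Real.exp (-(a - (V μ s η (0, x + 1) n - V μ s η (0, 0) n))) := by
  obtain ⟨t, ht'⟩ : ∃ t : ℝ, t = Real.exp (-(a - (V μ s η (0, x + 1) n - V μ s η (0, 0) n))) := ⟨_, rfl⟩
  obtain ⟨q, hq⟩ : ∃ q : ℕ → ℤ, q = seamU η (a + s * (x + 1)) x := ⟨_, rfl⟩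
  have ht0 : 0 < t := ht' ▸ Real.exp_pos _
  have h0 := psi_pos (μ := μ) (s := s) η 0 n
  have h1 := psi_pos (μ := μ) (s := s) η (x + 1) n
  have e1 : Real.exp (-a) * psi μ s η (x + 1) n = t * psi μ s η 0 n := by
    rw [ht', ← Real.exp_log h0, ← Real.exp_log h1, log_psi, log_psi, ← Real.exp_add, ← Real.exp_add]
    congr 1
    ring
  rw [← ht'] at ht ⊢
  rw [← hq]
  have h2 := psi_le_leftU (μ := μ) (s := s) η a hx n
  rw [← hq, e1] at h2
  have hq0 : q 0 = x := by rw [hq, seamU_zero]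
  have hqs : ∀ i, q i ≤ q (i + 1) := fun i => by rw [hq]; exact (seamU_step _ _ _ i).1
  have h3 : mass μ s (Lt q) η 0 n ≤ mass μ s (Sp q 1)ᶜ η 0 n := by
    refine mass_mono (R := Lt q) (R' := (Sp q 1)ᶜ) ?_ η 0 n
    intro p hp hp'
    have h4 : p.2 < q p.1.toNat := hp
    have h5 : q p.1.toNat ≤ p.2 := hp'.1
    omega
  have h3' := av_le_left (μ := μ) (s := s) η a hx n hq0 hqs
  have h4 : (1 - t) * psi μ s η 0 n ≤ Zt μ s (del q η) x n a := by
    unfold Zt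
    have := mul_pos (Real.exp_pos (-a)) (psi_pos (μ := μ) (s := s) (del q η) x n)
    linarith
  have h5 : Zt μ s η (x + 1) n a = (1 + t) * psi μ s η 0 n := by
    unfold Zt
    rw [e1]
    ring
  have h6 := Real.log_le_log (mul_pos (by linarith) h0) h4
  rw [Real.log_mul (by linarith) h0.ne'] at h6
  rw [h5, Real.log_mul (by linarith) h0.ne']
  have h7 := Real.log_le_sub_one_of_pos (show 0 < 1 + t by linarith)
  have h8 := neg_log_le ht0.le ht
  linarith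

/-- **The visits of the column from `x + 1`**, one row. -/
theorem visit_le {Λ : ℝ} (hΛ : 0 ≤ Λ) {n m : ℕ} (hm : 1 ≤ m) {x : ℤ} (hx : (m : ℤ) ≤ x) {η : Env}
    (hB : Bx Λ n (-1) (x + 2 + n) η) {ρ : ℝ} (hρ : 0 ≤ ρ)
    (hbP : ∀ i : ℕ, m ≤ i → i ≤ n → ∀ y : ℤ, badP μ s η (x + 1) i m y * mP μ s Set.univ η ((i : ℤ), x + 1 + y) (n - i) ≤
      psi μ s η (x + 1) n * ρ)
    (hbF : ∀ i : ℕ, i + m ≤ n → ∀ y : ℤ, W μ s η (0, x + 1) i y * badF μ s η i (x + 1 + y) (n - i) m ≤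
      psi μ s η (x + 1) n * ρ) (a : ℝ) {i : ℕ} (hi : i ≤ n) :
    Real.exp (-a) * (W μ s η (0, x + 1) i (seamU η (a + s * (x + 1)) x i - (x + 1)) *
      mP μ s Set.univ η ((i : ℤ), seamU η (a + s * (x + 1)) x i) (n - i)) ≤
      (m * kp s Λ ^ m) ^ 2 * psi μ s η 0 n + 2 * (Real.exp (-a) * psi μ s η (x + 1) n * ρ) := by
  have hM0 : (0 : ℝ) ≤ m * kp s Λ ^ m := mul_nonneg (Nat.cast_nonneg _) (pow_nonneg (by linarith [one_le_kp (s := s) hΛ]) _)
  have hp0 := psi_pos (μ := μ) (s := s) η 0 n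
  have hp1 := psi_pos (μ := μ) (s := s) η (x + 1) n
  have hea := Real.exp_pos (-a)
  have hR0 : 0 ≤ (m * kp s Λ ^ m) ^ 2 * psi μ s η 0 n + 2 * (Real.exp (-a) * psi μ s η (x + 1) n * ρ) := by positivity
  rcases lt_or_ge (i : ℤ) x with hix | hix
  · rw [(reach (μ := μ) (s := s) η (a + s * (x + 1)) hix).2, zero_mul, mul_zero]
    exact hR0
  have hmi : m ≤ i := by omega
  have hx1 : 1 ≤ x := by omega
  have hlt := left_type (μ := μ) (s := s) η a hx1 i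
  have hq1 := le_seamU η (a + s * (x + 1)) x i
  have hq2 := seamU_le η (a + s * (x + 1)) x i
  obtain ⟨c, hc⟩ : ∃ c : ℤ, c = seamU η (a + s * (x + 1)) x i := ⟨_, rfl⟩
  rw [← hc] at hlt hq1 hq2 ⊢
  have hBP : Bx Λ n (x + 1 - 1) (x + 2 + n) η := fun p h1 h2 h3 h4 => hB p h1 h2 (by omega) h4
  obtain ⟨p1, p2⟩ := past (μ := μ) (s := s) hΛ hBP (i := i) (m := m) hi (by omega) hmi (c - (x + 1))
  obtain ⟨W1, hW1⟩ : ∃ W1 : ℝ, W1 = W μ s η (0, x + 1) i (c - (x + 1)) := ⟨_, rfl⟩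
  obtain ⟨W2, hW2⟩ : ∃ W2 : ℝ, W2 = W μ s η (0, x + 1) i (c - 1 - (x + 1)) := ⟨_, rfl⟩
  obtain ⟨F1, hF1⟩ : ∃ F1 : ℝ, F1 = mP μ s Set.univ η ((i : ℤ), c) (n - i) := ⟨_, rfl⟩
  obtain ⟨F2, hF2⟩ : ∃ F2 : ℝ, F2 = mP μ s Set.univ η ((i : ℤ), c - 1) (n - i) := ⟨_, rfl⟩
  obtain ⟨b1, hb1⟩ : ∃ b1 : ℝ, b1 = badP μ s η (x + 1) i m (c - (x + 1)) := ⟨_, rfl⟩
  obtain ⟨M, hM⟩ : ∃ M : ℝ, M = m * kp s Λ ^ m := ⟨_, rfl⟩
  have e1 : c - (x + 1) - 1 = c - 1 - (x + 1) := by ring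
  rw [e1] at p2
  have q1 := hbP i hmi hi (c - (x + 1))
  have e2 : x + 1 + (c - (x + 1)) = c := by ring
  rw [e2] at q1
  have hW20 : 0 ≤ W2 := hW2 ▸ W_nonneg _ _ _ _
  have hF10 : 0 ≤ F1 := hF1 ▸ mP_nonneg _ _ _ _
  have hF20 : 0 ≤ F2 := hF2 ▸ mP_nonneg _ _ _ _
  have hW10 : 0 ≤ W1 := hW1 ▸ W_nonneg _ _ _ _
  have hb10 : 0 ≤ b1 := hb1 ▸ badP_nonneg _ _ _ _ _
  have q3 := W_mP_le (μ := μ) (s := s) η 0 hi (c - 1)
  rw [zero_add] at q3
  obtain ⟨W0, hW0⟩ : ∃ W0 : ℝ, W0 = W μ s η (0, 0) i (c - 1) := ⟨_, rfl⟩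
  rw [← hW1, ← hb1] at p1
  rw [← hW1, ← hb1, ← hW2, ← hM] at p2
  rw [← hb1, ← hF1] at q1
  rw [← hW0, ← hF2] at q3
  rw [← hW2, ← hW0] at hlt
  rw [← hW1, ← hF1, ← hM]
  rw [← hM] at hM0
  -- the main term
  have key : Real.exp (-a) * ((M * W2) * (M * F2)) ≤ M ^ 2 * psi μ s η 0 n := by
    have h1 : Real.exp (-a) * W2 * F2 ≤ W0 * F2 := mul_le_mul_of_nonneg_right hlt hF20
    have h2 := mul_le_mul_of_nonneg_left (h1.trans q3) (sq_nonneg M)
    calc _ = M ^ 2 * (Real.exp (-a) * W2 * F2) := by ring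
      _ ≤ _ := h2
  have hρ1 : 0 ≤ psi μ s η (x + 1) n * ρ := by positivity
  rcases le_or_gt m (n - i) with hr | hr
  · obtain ⟨f1, f2⟩ := future (μ := μ) (s := s) hΛ hB (i := i) (c := c) (r := n - i) (m := m) (by omega) (by omega)
      (by push_cast [Nat.cast_sub hi]; omega) hr
    have q2 := hbF i (by omega) (c - (x + 1))
    rw [e2] at q2
    obtain ⟨b2, hb2⟩ : ∃ b2 : ℝ, b2 = badF μ s η i c (n - i) m := ⟨_, rfl⟩
    have hb20 : 0 ≤ b2 := hb2 ▸ badF_nonneg _ _ _ _ _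
    rw [← hF1, ← hb2] at f1
    rw [← hF1, ← hb2, ← hF2, ← hM] at f2
    rw [← hW1, ← hb2] at q2
    have h1 : W1 * F1 ≤ (M * W2) * (M * F2) + 2 * (psi μ s η (x + 1) n * ρ) := by
      have h2 : (W1 - b1) * (F1 - b2) ≤ (M * W2) * (M * F2) := mul_le_mul p2 f2 f1 (mul_nonneg hM0 hW20)
      have h3 : W1 * F1 = (W1 - b1) * (F1 - b2) + b1 * F1 + W1 * b2 - b1 * b2 := by ring
      have h4 := mul_nonneg hb10 hb20
      linarith
    have h5 := mul_le_mul_of_nonneg_left h1 hea.le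
    calc _ ≤ _ := h5
      _ = Real.exp (-a) * ((M * W2) * (M * F2)) + 2 * (Real.exp (-a) * psi μ s η (x + 1) n * ρ) := by ring
      _ ≤ _ := by linarith
  · have f2 := future_short (μ := μ) (s := s) hΛ hB (i := i) (c := c) (r := n - i) (m := m) (by omega) (by omega)
      (by push_cast [Nat.cast_sub hi]; omega) hr.le
    rw [← hF1, ← hF2] at f2
    have hk0 : 0 ≤ kp s Λ ^ m := pow_nonneg (by linarith [one_le_kp (s := s) hΛ]) _
    have hm1 : (1 : ℝ) ≤ m := by exact_mod_cast hm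
    have f3 : F1 ≤ M * F2 := by
      rw [hM, mul_assoc]
      have h6 : 0 ≤ kp s Λ ^ m * F2 := mul_nonneg hk0 hF20
      nlinarith
    have h1 : W1 * F1 ≤ (M * W2) * (M * F2) + psi μ s η (x + 1) n * ρ := by
      have h2 : (W1 - b1) * F1 ≤ (M * W2) * (M * F2) := mul_le_mul p2 f3 hF10 (mul_nonneg hM0 hW20)
      have h3 : W1 * F1 = (W1 - b1) * F1 + b1 * F1 := by ring
      linarith
    have h5 := mul_le_mul_of_nonneg_left h1 hea.le
    have h6 := mul_nonneg hea.le hρ1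
    calc _ ≤ _ := h5
      _ = Real.exp (-a) * ((M * W2) * (M * F2)) + Real.exp (-a) * (psi μ s η (x + 1) n * ρ) := by ring
      _ ≤ _ := by linarith

/-- **The levels below `B`** (`B - a` large): the removal costs at most `t + 2 θ`, `t = exp (-(B - a))`,
`θ = 2 n ρ + n M² t`, `M = m kp^m`, `ρ` = the relative mass of the paths with straight pieces of the length `m`. -/
theorem far_left {Λ : ℝ} (hΛ : 0 ≤ Λ) {n m : ℕ} (hm : 1 ≤ m) {x : ℤ} (hx : (m : ℤ) ≤ x) {η : Env}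
    (hB : Bx Λ n (-1) (x + 2 + n) η) {ρ : ℝ} (hρ : 0 ≤ ρ)
    (hbP : ∀ i : ℕ, m ≤ i → i ≤ n → ∀ y : ℤ, badP μ s η (x + 1) i m y * mP μ s Set.univ η ((i : ℤ), x + 1 + y) (n - i) ≤
      psi μ s η (x + 1) n * ρ)
    (hbF : ∀ i : ℕ, i + m ≤ n → ∀ y : ℤ, W μ s η (0, x + 1) i y * badF μ s η i (x + 1 + y) (n - i) m ≤
      psi μ s η (x + 1) n * ρ) (a : ℝ) {t θ : ℝ}
    (ht : t = Real.exp (-((V μ s η (0, x + 1) n - V μ s η (0, 0) n) - a)))
    (hθ : θ = 2 * n * ρ + n * (m * kp s Λ ^ m) ^ 2 * t) (hθ1 : θ ≤ 1 / 2) :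
    Real.log (Zt μ s η (x + 1) n a) - Real.log (Zt μ s (del (seamU η (a + s * (x + 1)) x) η) x n a) ≤ t + 2 * θ := by
  have hx1 : 1 ≤ x := by omega
  have ht0 : 0 < t := ht ▸ Real.exp_pos _
  have h0 := psi_pos (μ := μ) (s := s) η 0 n
  have h1 := psi_pos (μ := μ) (s := s) η (x + 1) n
  have hea := Real.exp_pos (-a)
  obtain ⟨P, hP⟩ : ∃ P : ℝ, P = Real.exp (-a) * psi μ s η (x + 1) n := ⟨_, rfl⟩
  have hP0 : 0 < P := hP ▸ mul_pos hea h1
  have e1 : psi μ s η 0 n = t * P := by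
    rw [ht, hP, ← Real.exp_log h0, ← Real.exp_log h1, log_psi, log_psi, ← Real.exp_add, ← Real.exp_add]
    congr 1
    ring
  have hθ0 : 0 ≤ θ := by rw [hθ]; positivity
  have hlast := last_psi (μ := μ) (s := s) (seamU η (a + s * (x + 1)) x) η (x + 1) n
  have hsum : Real.exp (-a) * ∑ i ∈ Finset.Icc 1 n, W μ s η (0, x + 1) i (seamU η (a + s * (x + 1)) x i - (x + 1)) *
      mP μ s (Sp (seamU η (a + s * (x + 1)) x) 1)ᶜ η ((i : ℤ), seamU η (a + s * (x + 1)) x i) (n - i) ≤ θ * P := by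
    rw [Finset.mul_sum]
    have h2 : ∀ i ∈ Finset.Icc 1 n, Real.exp (-a) * (W μ s η (0, x + 1) i (seamU η (a + s * (x + 1)) x i - (x + 1)) *
        mP μ s (Sp (seamU η (a + s * (x + 1)) x) 1)ᶜ η ((i : ℤ), seamU η (a + s * (x + 1)) x i) (n - i)) ≤
        (m * kp s Λ ^ m) ^ 2 * (t * P) + 2 * (P * ρ) := by
      intro i hi
      rw [Finset.mem_Icc] at hi
      have h3 := visit_le (μ := μ) (s := s) hΛ hm hx hB hρ hbP hbF a hi.2
      rw [e1, ← hP] at h3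
      refine le_trans ?_ h3
      exact mul_le_mul_of_nonneg_left (mul_le_mul_of_nonneg_left (mP_mono (Set.subset_univ _) _ _ _)
        (W_nonneg _ _ _ _)) hea.le
    refine (Finset.sum_le_sum h2).trans ?_
    rw [Finset.sum_const, Nat.card_Icc, Nat.add_sub_cancel, nsmul_eq_mul, hθ]
    exact le_of_eq (by ring)
  have h2 : (1 - θ) * P ≤ Zt μ s (del (seamU η (a + s * (x + 1)) x) η) x n a := by
    have h3 := av_le_right (μ := μ) (s := s) η n (q := seamU η (a + s * (x + 1)) x) (seamU_zero _ _ _)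
      (fun i => (seamU_step _ _ _ i).2)
    have h4 := mul_le_mul_of_nonneg_left h3 hea.le
    have h5 := psi_pos (μ := μ) (s := s) (del (seamU η (a + s * (x + 1)) x) η) 0 n
    have h6 := congrArg (fun r => Real.exp (-a) * r) hlast
    have h7 := mul_add (Real.exp (-a)) (mass μ s (Sp (seamU η (a + s * (x + 1)) x) 1)ᶜ η (x + 1) n)
      (∑ i ∈ Finset.Icc 1 n, W μ s η (0, x + 1) i (seamU η (a + s * (x + 1)) x i - (x + 1)) *
      mP μ s (Sp (seamU η (a + s * (x + 1)) x) 1)ᶜ η ((i : ℤ), seamU η (a + s * (x + 1)) x i) (n - i))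
    have h8 : P = Real.exp (-a) * (mass μ s (Sp (seamU η (a + s * (x + 1)) x) 1)ᶜ η (x + 1) n +
      ∑ i ∈ Finset.Icc 1 n, W μ s η (0, x + 1) i (seamU η (a + s * (x + 1)) x i - (x + 1)) *
      mP μ s (Sp (seamU η (a + s * (x + 1)) x) 1)ᶜ η ((i : ℤ), seamU η (a + s * (x + 1)) x i) (n - i)) := by
      rw [hP]
      exact h6
    unfold Zt
    linarith
  have h5 : Zt μ s η (x + 1) n a = (1 + t) * P := by
    unfold Zt
    rw [e1, ← hP]
    ring
  have h6 := Real.log_le_log (mul_pos (by linarith) hP0) h2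
  rw [Real.log_mul (by linarith) hP0.ne'] at h6
  rw [h5, Real.log_mul (by linarith) hP0.ne']
  have h7 := Real.log_le_sub_one_of_pos (show 0 < 1 + t by linarith)
  have h8 := neg_log_le hθ0 hθ1
  linarith

end

end Pool.Agent.W_7d29a1_UB
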