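import Pool.Agent.W_7d29a1_UB.Defs
import Pool.Agent.W_7d29a1_LB.Law

/-!
STORM UB, U1: the deletion of a column along a predictable curve preserves the law of the environment. (helper41)
-/

set_option autoImplicit false

namespace Pool.Agent.W_7d29a1_UB

open MeasureTheory ProbabilityTheory
open Pool.Agent.W_7d29a1_F Pool.Agent.W_7d29a1_LB

noncomputable section

variable {μ : Measure ℝ} [IsProbabilityMeasure μ]

/-- The index map of the row `t` with the deleted column `j`. -/
private def dg (t j : ℤ) (p : Pt) : Pt :=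
  if p.1 = t then (if p.2 < j then p else (p.1, p.2 + 1)) else p

private lemma dg_inj (t j : ℤ) : Function.Injective (dg t j) := by
  rintro ⟨a, x⟩ ⟨b, y⟩ h
  simp only [dg] at h
  split_ifs at h <;> simp only [Prod.mk.injEq] at h ⊢ <;> omega

/-- The change of the row `t`. -/
private def rowD (t j : ℤ) (η : Env) : Env := fun p => η (dg t j p)

private lemma mp_rowD (t j : ℤ) : MeasurePreserving (rowD t j) (law μ) (law μ) :=
  ⟨measurable_pi_iff.2 fun p => measurable_pi_apply (dg t j p),
    Measure.map_infinitePi_infinitePi_of_inj (P := fun _ : Pt => μ) (dg_inj t j)⟩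

private lemma rowD_ne {t j : ℤ} {η : Env} {p : Pt} (h : p.1 ≠ t) : rowD t j η p = η p := by
  unfold rowD dg
  rw [if_neg h]

private lemma rowD_eq {t j : ℤ} {η : Env} {p : Pt} (h : p.1 = t) :
    rowD t j η p = if p.2 < j then η p else η (p.1, p.2 + 1) := by
  unfold rowD dg
  rw [if_pos h]
  split_ifs <;> rfl

private lemma mp_rowQ {Q : Env → ℤ → ℤ} (hQ : ∀ t, Measurable fun ω => Q ω t)
    (hP : ∀ (t : ℤ) (ω ω' : Env), (∀ p : Pt, p.1 < t → ω p = ω' p) → Q ω t = Q ω' t) (t : ℤ) :
    MeasurePreserving (fun η : Env => rowD t (Q η t) η) (law μ) (law μ) := by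
  refine mp_switch (k := fun η : Env => Q η t) (T := fun j => rowD t j) (hQ t)
    (fun j => mp_rowD t j) fun j η => ?_
  exact hP t _ _ fun p hp => rowD_ne (by omega)

/-- The change of the rows `N, N - 1, ..., N - m + 1`. -/
private def rowsD (Q : Env → ℤ → ℤ) (N : ℤ) : ℕ → Env → Env
  | 0, η => η
  | m + 1, η => rowD (N - m) (Q (rowsD Q N m η) (N - m)) (rowsD Q N m η)

private lemma mp_rowsD {Q : Env → ℤ → ℤ} (hQ : ∀ t, Measurable fun ω => Q ω t)
    (hP : ∀ (t : ℤ) (ω ω' : Env), (∀ p : Pt, p.1 < t → ω p = ω' p) → Q ω t = Q ω' t)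
    (N : ℤ) (m : ℕ) : MeasurePreserving (rowsD Q N m) (law μ) (law μ) := by
  induction m with
  | zero => exact MeasurePreserving.id _
  | succ m ih => exact (mp_rowQ hQ hP (N - m)).comp ih

private lemma rowsD_spec {Q : Env → ℤ → ℤ}
    (hP : ∀ (t : ℤ) (ω ω' : Env), (∀ p : Pt, p.1 < t → ω p = ω' p) → Q ω t = Q ω' t)
    {N : ℤ} (m : ℕ) (η : Env) :
    (∀ p : Pt, p.1 ≤ N - m → rowsD Q N m η p = η p) ∧
      ∀ p : Pt, N - m < p.1 → p.1 ≤ N →
        rowsD Q N m η p = if p.2 < Q η p.1 then η p else η (p.1, p.2 + 1) := by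
  induction m with
  | zero => exact ⟨fun p _ => rfl, fun p h1 h2 => absurd h1 (by push_cast; omega)⟩
  | succ m ih =>
    obtain ⟨ih1, ih2⟩ := ih
    have hq : Q (rowsD Q N m η) (N - m) = Q η (N - m) := hP _ _ _ fun p hp => ih1 p hp.le
    refine ⟨fun p hp => ?_, fun p h1 h2 => ?_⟩
    · push_cast at hp
      have h := rowD_ne (t := N - m) (j := Q (rowsD Q N m η) (N - m)) (η := rowsD Q N m η) (p := p)
        (by omega)
      exact h.trans (ih1 p (by omega))
    · push_cast at h1
      by_cases hp : p.1 = N - m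
      · show rowD (N - m) (Q (rowsD Q N m η) (N - m)) (rowsD Q N m η) p = _
        rw [rowD_eq hp, hq, hp]
        have e1 : rowsD Q N m η p = η p := ih1 p hp.le
        have e2 : rowsD Q N m η (N - m, p.2 + 1) = η (N - m, p.2 + 1) := ih1 (N - m, p.2 + 1) le_rfl
        rw [e1, e2]
      · have h := rowD_ne (t := N - m) (j := Q (rowsD Q N m η) (N - m)) (η := rowsD Q N m η)
          (p := p) hp
        exact h.trans (ih2 p (by omega) h2)

/-- **THE LAW**: the environment without the column along a predictable curve has the law of the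
environment. -/
theorem mp_del {q : Env → ℕ → ℤ} (hq : ∀ i, Measurable fun η => q η i)
    (hP : ∀ (i : ℕ) (η η' : Env), (∀ p : Pt, 1 ≤ p.1 → p.1 < i → η p = η' p) → q η i = q η' i) :
    MeasurePreserving (fun η : Env => del (q η) η) (law μ) (law μ) := by
  have hQ : ∀ t : ℤ, Measurable fun η : Env => q η t.toNat := fun t => hq t.toNat
  have hP' : ∀ (t : ℤ) (ω ω' : Env), (∀ p : Pt, p.1 < t → ω p = ω' p) →
      q ω t.toNat = q ω' t.toNat := fun t ω ω' h => hP t.toNat ω ω' fun p h1 h2 => h p (by omega)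
  have hm : Measurable (fun η : Env => del (q η) η) := by
    refine measurable_pi_iff.2 fun p => ?_
    have h1 : Measurable fun w : ℤ × Env =>
        (if p.2 < w.1 then w.2 p else w.2 (p.1, p.2 + 1)) := by
      refine measurable_from_prod_countable_right fun j => ?_
      dsimp only
      split_ifs
      · exact measurable_pi_apply _
      · exact measurable_pi_apply _
    exact h1.comp ((hq p.1.toNat).prodMk measurable_id)
  refine ⟨hm, ?_⟩
  have hl : law μ = Measure.infinitePi fun _ : Pt => μ := rfl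
  conv_rhs => rw [hl]
  refine Measure.eq_infinitePi (μ := fun _ : Pt => μ) ?_
  intro s t ht
  have hpi : MeasurableSet (Set.pi (s : Set Pt) t) :=
    MeasurableSet.pi s.countable_toSet fun i _ => ht i
  rw [Measure.map_apply hm hpi]
  obtain ⟨b, hb⟩ : ∃ b : ℕ, ∀ p ∈ s, |p.1| ≤ (b : ℤ) := by
    refine ⟨(s.sup fun p => p.1.natAbs), fun p hp => ?_⟩
    have := Finset.le_sup (f := fun p : Pt => p.1.natAbs) hp
    rw [Int.abs_eq_natAbs]
    exact_mod_cast this
  have hsp := fun η => rowsD_spec (Q := fun η t => q η t.toNat) hP' (N := b) (2 * b + 1) η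
  have e1 : (fun η : Env => del (q η) η) ⁻¹' (Set.pi (s : Set Pt) t) =
      rowsD (fun η t => q η t.toNat) b (2 * b + 1) ⁻¹' (Set.pi (s : Set Pt) t) := by
    ext η
    simp only [Set.mem_preimage, Set.mem_pi, Finset.mem_coe]
    refine forall₂_congr fun p hp => ?_
    have h := abs_le.1 (hb p hp)
    rw [(hsp η).2 p (by push_cast; omega) h.2]
    rfl
  have hf := mp_rowsD (μ := μ) hQ hP' b (2 * b + 1)
  rw [e1, hf.measure_preimage hpi.nullMeasurableSet, hl, Measure.infinitePi_pi _ fun i _ => ht i]

/-- **The law of the environment without the column along the seam** (for every level `b`). -/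
theorem mp_del_seamU (b : ℝ) (x : ℤ) :
    MeasurePreserving (fun η : Env => del (seamU η b x) η) (law μ) (law μ) :=
  mp_del (fun i => measurable_seamU b x i) fun i _ _ h => seamU_congr b x i h

end

end Pool.Agent.W_7d29a1_UB
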