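import Pool.Agent.W_7d29a1_UB.Step60
import Pool.Agent.W_7d29a1_UB.Far
import Pool.Agent.W_7d29a1_UB.Law
import Pool.Agent.W_7d29a1_LB.NSF14

/-!
STORM UB (MP_7d29a1_pr, row 674 of the table `proofs`, helper60), the step, final form.
-/

set_option autoImplicit false

namespace Pool.Agent.W_7d29a1_UB

open MeasureTheory ProbabilityTheory Filter Topology
open Pool.Agent.W_7d29a1_F Pool.Agent.W_7d29a1_LB
open Pool.Agent.W_7d29a1_H (sl)
open Pool.Agent.W_7d29a1_HZ (wd')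
open Pool.Agent.W_7d29a1_HS (In wd)

noncomputable section

variable {μ : Measure ℝ} {s : ℝ}

/-- **The far levels.** -/
theorem far60 (μ : Measure ℝ) (s : ℝ) : Far60 μ s := by
  intro η a x n m Λ ε r hx hmx hm hΛ hB hreg0 hreg1 hr G hG hG1 hθ
  obtain ⟨B, hBe⟩ : ∃ B : ℝ, B = V μ s η (0, x + 1) n - V μ s η 0 n := ⟨_, rfl⟩
  have hr0 : 0 ≤ r := (r0_nonneg _ _ _).trans hr
  rw [← hBe] at hG
  have hκ : 0 ≤ kp s Λ := by linarith [one_le_kp (s := s) hΛ]
  rcases le_or_gt B a with hab | hab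
  · have h1 : G ≤ a - B := by rwa [abs_of_nonneg (by linarith)] at hG
    have h2 : Real.exp (-(a - B)) ≤ Real.exp (-G) := Real.exp_le_exp.2 (by linarith)
    have h3 := far_right (μ := μ) (s := s) η a hx n (by
      show Real.exp (-(a - (V μ s η (0, x + 1) n - V μ s η 0 n))) ≤ 1 / 2
      rw [← hBe]
      linarith)
    refine le_trans (h3.trans ?_) (le_max_left _ _)
    show 3 * Real.exp (-(a - (V μ s η (0, x + 1) n - V μ s η 0 n))) ≤ _
    rw [← hBe]
    linarith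
  · have h1 : G ≤ B - a := by rwa [abs_of_neg (by linarith), neg_sub] at hG
    obtain ⟨t, ht⟩ : ∃ t : ℝ, t = Real.exp (-(B - a)) := ⟨_, rfl⟩
    have h2 : t ≤ Real.exp (-G) := by rw [ht]; exact Real.exp_le_exp.2 (by linarith)
    have ht0 : 0 < t := by rw [ht]; exact Real.exp_pos _
    obtain ⟨θ, hθe⟩ : ∃ θ : ℝ, θ = 2 * n * r + n * (m * kp s Λ ^ m) ^ 2 * t := ⟨_, rfl⟩
    have h4 : θ ≤ 2 * n * r + n * (m * kp s Λ ^ m) ^ 2 * Real.exp (-G) := by
      rw [hθe]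
      exact add_le_add le_rfl (mul_le_mul_of_nonneg_left h2 (by positivity))
    have h3 := far_left (μ := μ) (s := s) hΛ hm hmx hB hr0
      (fun i hi hin y => (bad_past η (x + 1) hi hin hreg0 y).trans (mul_le_mul_of_nonneg_left hr (psi_pos _ _ _).le))
      (fun i hi y => (bad_fut η (x + 1) hi hreg1 y).trans (mul_le_mul_of_nonneg_left hr (psi_pos _ _ _).le))
      a (t := t) (θ := θ) (by rw [ht, hBe]; rfl) hθe (h4.trans hθ)
    refine le_trans (h3.trans ?_) (le_max_right _ _)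
    linarith

variable [IsProbabilityMeasure μ] {c C : ℝ} {n₀ : ℕ}

/-- **THE STEP OF STORM UB**: `V (x + 1) ≤ V (x) + n ^ (10 d)` for `n ^ d ≤ x ≤ n ^ 2`. -/
theorem stepU_all (h : In μ s c C n₀) {d : ℝ} (hd : 0 < d) :
    ∃ N₀ : ℕ, ∀ n : ℕ, N₀ ≤ n → ∀ x : ℕ, (n : ℝ) ^ d ≤ x → (x : ℝ) ≤ (n : ℝ) ^ 2 →
      Inc μ s n (x + 1) ≤ Inc μ s n x + (n : ℝ) ^ (10 * d) :=
  step60 h (nsf14 h) (far60 μ s) (fun b x => mp_del_seamU b x) hd

/-- **The step in the form of `EndD`.** -/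
theorem stepU (h : In μ s c C n₀) : StepU μ s := by
  intro ε hε
  refine ⟨ε / 10, by positivity, fun δ hδ hδ1 => ?_⟩
  obtain ⟨N₀, hN⟩ := stepU_all h hδ
  refine ⟨max N₀ 1, fun n hn x hx hxn => ?_⟩
  have hn1 : 1 ≤ n := (le_max_right _ _).trans hn
  have hn1R : (1 : ℝ) ≤ n := by exact_mod_cast hn1
  have h1 := hN n ((le_max_left _ _).trans hn) x hx (by
    have h2 : (x : ℝ) ≤ n := by exact_mod_cast hxn
    nlinarith)
  refine h1.trans (add_le_add le_rfl ?_)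
  exact Real.rpow_le_rpow_of_exponent_le hn1R (by linarith)

end

end Pool.Agent.W_7d29a1_UB
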