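import Pool.Agent.W_7d29a1_UB.EndM
import Pool.Agent.W_7d29a1_UB.StepC60
import Pool.Agent.W_7d29a1_LB.Bdd14
import Pool.Agent.W_7d29a1_HS.InAll

/-!
STORM UB (MP_7d29a1_pr, row 674, helper60): all the inputs together. (helper92)
-/

set_option autoImplicit false

namespace Pool.Agent.W_7d29a1_UB

open MeasureTheory ProbabilityTheory Filter Topology Finset
open Pool.Agent.W_7d29a1_F Pool.Agent.W_7d29a1_h4g Pool.Agent.W_7d29a1_H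
open Pool.Agent.W_7d29a1_HS (In wd)
open Pool.Agent.W_7d29a1_HZ (wd')
open Pool.Agent.W_7d29a1_LB (NSFr nsf14 bdd14_of)
open Pool.Agent.W_7d29a1_h47 (EM Nondeg)

noncomputable section

variable {μ : Measure ℝ} {s : ℝ} [IsProbabilityMeasure μ] {c C : ℝ} {n₀ : ℕ}

theorem bddF92 (h : In μ s c C n₀) : BddF μ s := fun _ hδ ε hε => bdd14_of h (nsf14 h) hδ ε hε

/-- **STORM UB.** The variance is at most the width up to `n ^ ε`. -/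
theorem ub_var92 (h : In μ s c C n₀) :
    ∀ ε : ℝ, 0 < ε → ∃ N₀ : ℕ, ∀ n : ℕ, N₀ ≤ n → Var[fun η => V μ s η 0 n; law μ] ≤ (n : ℝ) ^ ε * wd' μ s n :=
  ub_var h (nsf14 h) (bddF92 h) (stepU h)

/-- The same for the unit (`UB20`). -/
theorem ub_EE92 (h : In μ s c C n₀) :
    ∀ ε : ℝ, 0 < ε → ∃ N₀ : ℕ, ∀ n : ℕ, N₀ ≤ n → EE μ s n ^ 2 ≤ (n : ℝ) ^ ε * wd μ s n :=
  ub_EE h (nsf14 h) (bddF92 h) (stepU h)

/-- The increment of the free energy between two starts at the distance `x`. -/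
theorem inc_le92 (h : In μ s c C n₀) {ε : ℝ} (hε : 0 < ε) :
    ∃ N₀ : ℕ, ∀ n : ℕ, N₀ ≤ n → ∀ x : ℕ, 1 ≤ x → x ≤ n → Inc μ s n x ≤ (n : ℝ) ^ ε * x :=
  inc_le h (bddF92 h) (stepU h) hε

/-- **STORM UB at every tilt, no hypotheses.** -/
theorem ub_all (hE : EM μ) (hN : Nondeg μ) (s : ℝ) :
    ∀ ε : ℝ, 0 < ε → ∃ N₀ : ℕ, ∀ n : ℕ, N₀ ≤ n → EE μ s n ^ 2 ≤ (n : ℝ) ^ ε * wd μ s n := by
  obtain ⟨c, C, n₀, h⟩ := Pool.Agent.W_7d29a1_HS.in_tilt hE hN s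
  exact ub_EE92 h

end

end Pool.Agent.W_7d29a1_UB
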