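import Pool.Agent.W_7d29a1_UB.Ident
import Pool.Agent.W_7d29a1_LB.IdentM

/-! STORM UB (MP_7d29a1_pr, helper60's proof), step (0) on the model: the growth of the second moment
against the levels, with error `1`. (helper27) -/

set_option autoImplicit false

namespace Pool.Agent.W_7d29a1_UB

open MeasureTheory ProbabilityTheory Filter Topology
open Pool.Agent.W_7d29a1_F Pool.Agent.W_7d29a1_H Pool.Agent.W_7d29a1_LB
open Pool.Agent.W_7d29a1_h47 (EM Nondeg)

noncomputable section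

variable {μ : Measure ℝ} {s : ℝ}

/-- The sites of the square of the start `(0, z)`. -/
def Sq27 (z : ℤ) (n : ℕ) : Finset Pt := Finset.Icc (0 : ℤ) (0 + n) ×ˢ Finset.Icc z (z + n)

theorem card_Sq27 (z : ℤ) (n : ℕ) : (Sq27 z n).card = (n + 1) ^ 2 := by
  unfold Sq27
  rw [Finset.card_product, Int.card_Icc, Int.card_Icc]
  have h1 : ((0 : ℤ) + n + 1 - 0).toNat = n + 1 := by omega
  have h2 : (z + (n : ℤ) + 1 - z).toNat = n + 1 := by omega
  rw [h1, h2]
  ring

/-- A crude bound of the luck. -/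
theorem abs_V_le27 (η : Env) (z : ℤ) (n : ℕ) :
    |V μ s η (0, z) n| ≤ (|s| + |lam μ s| + 2) * n + ∑ p ∈ Sq27 z n, |η p| := by
  obtain ⟨S, hS⟩ : ∃ S : ℝ, S = ∑ p ∈ Sq27 z n, |η p| := ⟨_, rfl⟩
  have hSd : ∑ p ∈ Finset.Icc ((0, z) : Pt).1 (((0, z) : Pt).1 + n) ×ˢ
      Finset.Icc ((0, z) : Pt).2 (((0, z) : Pt).2 + n), |η p| = S := hS.symm
  rw [← hS]
  have hn : (0 : ℝ) ≤ n := Nat.cast_nonneg n
  have hpos : 0 < WS μ s η (0, z) n (Finset.Icc (0 : ℤ) n) := psi_pos η z n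
  have hup : WS μ s η (0, z) n (Finset.Icc (0 : ℤ) n) ≤
      ((n : ℝ) + 1) * (Real.exp ((|s| + |lam μ s|) * n) * (2 ^ n * Real.exp S)) := by
    unfold WS
    have h1 : ∀ y ∈ Finset.Icc (0 : ℤ) n, W μ s η (0, z) n y ≤
        Real.exp ((|s| + |lam μ s|) * n) * (2 ^ n * Real.exp S) := by
      intro y hy
      rw [Finset.mem_Icc] at hy
      have h2 := Zr_le Set.univ η (0, z) n y
      rw [hSd] at h2
      have h3 : s * (y : ℝ) - n * lam μ s ≤ (|s| + |lam μ s|) * n := by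
        have h4 : s * (y : ℝ) ≤ |s| * n := by
          have h5 : (0 : ℝ) ≤ y := by exact_mod_cast hy.1
          have h6 : (y : ℝ) ≤ n := by exact_mod_cast hy.2
          calc s * (y : ℝ) ≤ |s| * y := mul_le_mul_of_nonneg_right (le_abs_self s) h5
            _ ≤ |s| * n := mul_le_mul_of_nonneg_left h6 (abs_nonneg s)
        have h7 : -(n * lam μ s) ≤ |lam μ s| * n := by
          have h8 := neg_abs_le (lam μ s)
          nlinarith
        linarith
      exact mul_le_mul (Real.exp_le_exp.2 h3) h2 (Zr_nonneg _ _ _ _ _) (Real.exp_pos _).le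
    refine (Finset.sum_le_sum h1).trans (le_of_eq ?_)
    rw [Finset.sum_const, Int.card_Icc, nsmul_eq_mul]
    congr 1
    have h2 : ((n : ℤ) + 1 - 0).toNat = n + 1 := by omega
    rw [h2]
    push_cast
    ring
  have hlow : Real.exp (-(|lam μ s| * n) - S) ≤ WS μ s η (0, z) n (Finset.Icc (0 : ℤ) n) := by
    have h1 : W μ s η (0, z) n 0 ≤ WS μ s η (0, z) n (Finset.Icc (0 : ℤ) n) :=
      Finset.single_le_sum (f := fun y => W μ s η (0, z) n y) (fun y _ => W_nonneg _ _ _ _)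
        (Finset.mem_Icc.2 ⟨le_rfl, by omega⟩)
    refine le_trans ?_ h1
    have h2 := Zr_ge η (0, z) (n := n) (y := 0) le_rfl (by omega)
    rw [hSd] at h2
    have h3 : -(|lam μ s| * n) ≤ s * ((0 : ℤ) : ℝ) - n * lam μ s := by
      have h8 := le_abs_self (lam μ s)
      rw [Int.cast_zero, mul_zero]
      nlinarith
    rw [sub_eq_add_neg, Real.exp_add]
    exact mul_le_mul (Real.exp_le_exp.2 h3) h2 (Real.exp_pos _).le (Real.exp_pos _).le
  have hlog2 : Real.log 2 ≤ 1 := by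
    have := Real.log_two_lt_d9
    linarith
  rw [abs_le]
  constructor
  · have h1 := Real.log_le_log (Real.exp_pos _) hlow
    rw [Real.log_exp] at h1
    have h2 : V μ s η (0, z) n = Real.log (WS μ s η (0, z) n (Finset.Icc (0 : ℤ) n)) := rfl
    rw [h2]
    have h3 : 0 ≤ (|s| + 2) * (n : ℝ) := by positivity
    nlinarith
  · have h1 := Real.log_le_log hpos hup
    have h2 : V μ s η (0, z) n = Real.log (WS μ s η (0, z) n (Finset.Icc (0 : ℤ) n)) := rfl
    rw [h2]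
    refine h1.trans ?_
    rw [Real.log_mul (by positivity) (by positivity), Real.log_mul (by positivity) (by positivity),
      Real.log_mul (by positivity) (by positivity), Real.log_exp, Real.log_exp, Real.log_pow]
    have h3 : Real.log ((n : ℝ) + 1) ≤ n := by
      have := Real.log_le_sub_one_of_pos (show (0 : ℝ) < n + 1 by positivity)
      linarith
    nlinarith

variable [IsProbabilityMeasure μ]

/-- The exponential moments of the sum over finitely many sites. -/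
theorem int_exp_sites27 (Q : Finset Pt) (b : ℝ) :
    ∫ η, Real.exp (b * ∑ p ∈ Q, |η p|) ∂(law μ) = (∫ u, Real.exp (b * |u|) ∂μ) ^ Q.card := by
  have h2 : (law μ).map Q.restrict = Measure.pi fun _ : Q => μ := by
    unfold law
    exact Measure.infinitePi_map_restrict (μ := fun _ : Pt => μ) (I := Q)
  have e1 : ∀ η : Env, Real.exp (b * ∑ p ∈ Q, |η p|) = (fun x : Q → ℝ => ∏ i, Real.exp (b * |x i|)) (Q.restrict η) := by
    intro η
    show _ = ∏ i : Q, Real.exp (b * |η i|)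
    rw [← Real.exp_sum, ← Finset.mul_sum, Finset.sum_coe_sort Q fun p => |η p|]
  simp only [e1]
  rw [← integral_map (μ := law μ) (φ := Q.restrict) (f := fun x : Q → ℝ => ∏ i, Real.exp (b * |x i|))
    (Finset.measurable_restrict Q).aemeasurable]
  · rw [h2, integral_fintype_prod_eq_prod (f := fun (_ : Q) (u : ℝ) => Real.exp (b * |u|))]
    rw [Finset.prod_const, Finset.card_univ, Fintype.card_coe]
  · refine Measurable.aestronglyMeasurable ?_
    exact Finset.measurable_prod _ fun i _ => by fun_prop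

theorem integrable_exp_sites27 (hμ : EM μ) (Q : Finset Pt) (b : ℝ) :
    Integrable (fun η => Real.exp (b * ∑ p ∈ Q, |η p|)) (law μ) :=
  Sub.exp_int hμ ((Sub.sum Q fun p _ => (Sub.coord p).abs).const_mul b)

theorem exp_abs_V27 (hμ : EM μ) (s : ℝ) (z : ℤ) (n : ℕ) :
    ∫ η, Real.exp (4 * |V μ s η (0, z) n|) ∂(law μ) ≤
      Real.exp (4 * (|s| + |lam μ s| + 2) * n) * (∫ u, Real.exp (4 * |u|) ∂μ) ^ ((n + 1) ^ 2) := by
  have h1 : ∫ η, Real.exp (4 * |V μ s η (0, z) n|) ∂(law μ) ≤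
      ∫ η, Real.exp (4 * (|s| + |lam μ s| + 2) * n) * Real.exp (4 * ∑ p ∈ Sq27 z n, |η p|) ∂(law μ) := by
    refine integral_mono ?_ ?_ fun η => ?_
    · exact Sub.exp_int hμ ((Sub_V (μ := μ) (s := s) (0, z) n).abs.const_mul 4)
    · exact (integrable_exp_sites27 hμ _ 4).const_mul _
    · show Real.exp (4 * |V μ s η (0, z) n|) ≤ _
      rw [← Real.exp_add]
      refine Real.exp_le_exp.2 ?_
      have := abs_V_le27 (μ := μ) (s := s) η z n
      linarith
  refine h1.trans (le_of_eq ?_)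
  rw [integral_const_mul, int_exp_sites27, card_Sq27]

/-- The remainder of the identity at the level bound `A ≥ n ^ 3`. -/
theorem rem_le27 (hμ : EM μ) (s : ℝ) : ∃ N0 : ℕ, ∀ n : ℕ, N0 ≤ n → ∀ A : ℝ, (n : ℝ) ^ 3 ≤ A → ∀ y : ℤ,
    Real.exp (-(A / 2)) * ∫ η, (V μ s η (0, y) n - V μ s η 0 n) ^ 2 ∂(law μ)
      + ∫ η, (if A / 2 < |V μ s η (0, y) n - V μ s η 0 n| then (V μ s η (0, y) n - V μ s η 0 n) ^ 2 else 0) ∂(law μ)
      ≤ 1 := by
  obtain ⟨c, hc⟩ : ∃ c : ℝ, c = 4 * (|s| + |lam μ s| + 2) := ⟨_, rfl⟩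
  obtain ⟨M, hM⟩ : ∃ M : ℝ, M = ∫ u, Real.exp (4 * |u|) ∂μ := ⟨_, rfl⟩
  have hM1 : 1 ≤ M := by
    rw [hM]
    have h1 : ∫ _ : ℝ, (1 : ℝ) ∂μ ≤ ∫ u, Real.exp (4 * |u|) ∂μ :=
      integral_mono (integrable_const _) (hμ 4) fun u => Real.one_le_exp (by positivity)
    simpa using h1
  have hc0 : 0 ≤ c := by rw [hc]; positivity
  obtain ⟨N0, hN0⟩ : ∃ N0 : ℕ, 1 ≤ N0 ∧ 4 * Real.log M + c + 2 ≤ (N0 : ℝ) / 2 := by
    obtain ⟨N, hN⟩ := exists_nat_ge (2 * (4 * Real.log M + c + 2))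
    refine ⟨N + 1, by omega, ?_⟩
    push_cast
    linarith
  refine ⟨N0, fun n hn A hA y => ?_⟩
  have hn1 : (1 : ℝ) ≤ n := by exact_mod_cast hN0.1.trans hn
  have hnN : (N0 : ℝ) ≤ n := by exact_mod_cast hn
  have hbd : ∫ η, Real.exp (2 * |V μ s η (0, y) n - V μ s η 0 n|) ∂(law μ) ≤
      Real.exp (c * n) * M ^ ((n + 1) ^ 2) := by
    have h0 : ∫ η, Real.exp (2 * |V μ s η (0, y) n - V μ s η 0 n|) ∂(law μ) ≤
        ∫ η, (Real.exp (4 * |V μ s η (0, y) n|) + Real.exp (4 * |V μ s η (0, 0) n|)) / 2 ∂(law μ) := by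
      refine integral_mono ?_ ?_ fun η => ?_
      · exact Sub.exp_int hμ (((Sub_V (μ := μ) (s := s) (0, y) n).sub (Sub_V (μ := μ) (s := s) 0 n)).abs.const_mul 2)
      · exact ((Sub.exp_int hμ ((Sub_V (μ := μ) (s := s) (0, y) n).abs.const_mul 4)).add
          (Sub.exp_int hμ ((Sub_V (μ := μ) (s := s) (0, 0) n).abs.const_mul 4))).div_const 2
      · show Real.exp (2 * |V μ s η (0, y) n - V μ s η 0 n|) ≤ _
        have h1 : |V μ s η (0, y) n - V μ s η 0 n| ≤ |V μ s η (0, y) n| + |V μ s η (0, 0) n| := abs_sub _ _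
        have h2 : Real.exp (2 * |V μ s η (0, y) n - V μ s η 0 n|) ≤
            Real.exp (2 * |V μ s η (0, y) n|) * Real.exp (2 * |V μ s η (0, 0) n|) := by
          rw [← Real.exp_add]
          exact Real.exp_le_exp.2 (by linarith)
        have h3 : Real.exp (4 * |V μ s η (0, y) n|) = Real.exp (2 * |V μ s η (0, y) n|) ^ 2 := by
          rw [← Real.exp_nat_mul]; push_cast; ring_nf
        have h4 : Real.exp (4 * |V μ s η (0, 0) n|) = Real.exp (2 * |V μ s η (0, 0) n|) ^ 2 := by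
          rw [← Real.exp_nat_mul]; push_cast; ring_nf
        show _ ≤ (Real.exp (4 * |V μ s η (0, y) n|) + Real.exp (4 * |V μ s η (0, 0) n|)) / 2
        rw [h3, h4]
        nlinarith [sq_nonneg (Real.exp (2 * |V μ s η (0, y) n|) - Real.exp (2 * |V μ s η (0, 0) n|))]
    refine h0.trans ?_
    have i1 := Sub.exp_int hμ ((Sub_V (μ := μ) (s := s) (0, y) n).abs.const_mul 4)
    have i2 := Sub.exp_int hμ ((Sub_V (μ := μ) (s := s) (0, 0) n).abs.const_mul 4)
    rw [integral_div, integral_add i1 i2]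
    have h5 := exp_abs_V27 hμ s y n
    have h6 := exp_abs_V27 hμ s 0 n
    rw [← hM, ← hc] at h5 h6
    linarith
  have iE : Integrable (fun η => Real.exp (2 * |V μ s η (0, y) n - V μ s η 0 n|)) (law μ) :=
    Sub.exp_int hμ (((Sub_V (μ := μ) (s := s) (0, y) n).sub (Sub_V (μ := μ) (s := s) 0 n)).abs.const_mul 2)
  have hsub := (Sub_V (μ := μ) (s := s) (0, y) n).sub (Sub_V (μ := μ) (s := s) 0 n)
  have isq : Integrable (fun η => (V μ s η (0, y) n - V μ s η 0 n) ^ 2) (law μ) := hsub.sq_integrable hμ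
  have sqle : ∀ t : ℝ, t ^ 2 ≤ 2 * Real.exp |t| := by
    intro t
    have h := Real.quadratic_le_exp_of_nonneg (abs_nonneg t)
    have h2 := sq_abs t
    have h3 := abs_nonneg t
    nlinarith
  have e1 : ∫ η, (V μ s η (0, y) n - V μ s η 0 n) ^ 2 ∂(law μ) ≤
      2 * ∫ η, Real.exp (2 * |V μ s η (0, y) n - V μ s η 0 n|) ∂(law μ) := by
    rw [← integral_const_mul]
    refine integral_mono isq (iE.const_mul 2) fun η => ?_
    show (V μ s η (0, y) n - V μ s η 0 n) ^ 2 ≤ 2 * Real.exp (2 * |V μ s η (0, y) n - V μ s η 0 n|)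
    refine (sqle _).trans ?_
    have h := abs_nonneg (V μ s η (0, y) n - V μ s η 0 n)
    have : Real.exp |V μ s η (0, y) n - V μ s η 0 n| ≤ Real.exp (2 * |V μ s η (0, y) n - V μ s η 0 n|) :=
      Real.exp_le_exp.2 (by linarith)
    linarith
  have e2 : ∫ η, (if A / 2 < |V μ s η (0, y) n - V μ s η 0 n| then (V μ s η (0, y) n - V μ s η 0 n) ^ 2 else 0) ∂(law μ)
      ≤ 2 * Real.exp (-(A / 2)) * ∫ η, Real.exp (2 * |V μ s η (0, y) n - V μ s η 0 n|) ∂(law μ) := by
    rw [← integral_const_mul]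
    refine integral_mono_of_nonneg (Eventually.of_forall fun η => ?_) (iE.const_mul _) (Eventually.of_forall fun η => ?_)
    · show (0 : ℝ) ≤ if A / 2 < |V μ s η (0, y) n - V μ s η 0 n| then (V μ s η (0, y) n - V μ s η 0 n) ^ 2 else 0
      split_ifs
      · exact sq_nonneg _
      · exact le_rfl
    · show (if A / 2 < |V μ s η (0, y) n - V μ s η 0 n| then (V μ s η (0, y) n - V μ s η 0 n) ^ 2 else 0) ≤
        2 * Real.exp (-(A / 2)) * Real.exp (2 * |V μ s η (0, y) n - V μ s η 0 n|)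
      split_ifs with h
      · refine (sqle _).trans ?_
        rw [mul_assoc, ← Real.exp_add]
        have : Real.exp |V μ s η (0, y) n - V μ s η 0 n| ≤
            Real.exp (-(A / 2) + 2 * |V μ s η (0, y) n - V μ s η 0 n|) := Real.exp_le_exp.2 (by linarith)
        linarith
      · positivity
  have hexp : 0 < Real.exp (-(A / 2)) := Real.exp_pos _
  have e3 : Real.exp (-(A / 2)) * ∫ η, (V μ s η (0, y) n - V μ s η 0 n) ^ 2 ∂(law μ)
      + ∫ η, (if A / 2 < |V μ s η (0, y) n - V μ s η 0 n| then (V μ s η (0, y) n - V μ s η 0 n) ^ 2 else 0) ∂(law μ)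
      ≤ 4 * Real.exp (-(A / 2)) * (Real.exp (c * n) * M ^ ((n + 1) ^ 2)) := by
    have h1 := mul_le_mul_of_nonneg_left e1 hexp.le
    have h2 := mul_le_mul_of_nonneg_left hbd (by positivity : 0 ≤ 4 * Real.exp (-(A / 2)))
    nlinarith
  refine e3.trans ?_
  have hMpow : M ^ ((n + 1) ^ 2) = Real.exp (Real.log M * ((n : ℝ) + 1) ^ 2) := by
    rw [← Real.exp_log (show (0 : ℝ) < M by linarith), ← Real.exp_nat_mul, Real.log_exp]
    congr 1
    push_cast
    ring
  have h4 : (4 : ℝ) ≤ Real.exp 2 := by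
    have := Real.add_one_le_exp (1 : ℝ)
    have h : Real.exp 2 = Real.exp 1 * Real.exp 1 := by rw [← Real.exp_add]; norm_num
    rw [h]
    nlinarith
  rw [hMpow]
  calc 4 * Real.exp (-(A / 2)) * (Real.exp (c * n) * Real.exp (Real.log M * ((n : ℝ) + 1) ^ 2))
      ≤ Real.exp 2 * Real.exp (-(A / 2)) * (Real.exp (c * n) * Real.exp (Real.log M * ((n : ℝ) + 1) ^ 2)) := by
        gcongr
    _ = Real.exp (2 + -(A / 2) + (c * n + Real.log M * ((n : ℝ) + 1) ^ 2)) := by
        rw [← Real.exp_add, ← Real.exp_add, ← Real.exp_add]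
    _ ≤ Real.exp 0 := by
        refine Real.exp_le_exp.2 ?_
        have hL : 0 ≤ Real.log M := Real.log_nonneg hM1
        have hn2 : ((n : ℝ) + 1) ^ 2 ≤ 4 * (n : ℝ) ^ 2 := by nlinarith
        have h5 : Real.log M * ((n : ℝ) + 1) ^ 2 ≤ Real.log M * (4 * (n : ℝ) ^ 2) :=
          mul_le_mul_of_nonneg_left hn2 hL
        have h6 : c * n ≤ c * (n : ℝ) ^ 2 := by
          have : (n : ℝ) ≤ (n : ℝ) ^ 2 := by nlinarith
          exact mul_le_mul_of_nonneg_left this hc0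
        have h7 : (4 * Real.log M + c + 2) * (n : ℝ) ^ 2 ≤ (n : ℝ) / 2 * (n : ℝ) ^ 2 :=
          mul_le_mul_of_nonneg_right (by linarith [hN0.2]) (by positivity)
        have h8 : (2 : ℝ) ≤ 2 * (n : ℝ) ^ 2 := by nlinarith
        nlinarith
    _ = 1 := Real.exp_zero

/-- **THE IDENTITY (0) FOR THE MODEL**: if `om a` preserves the law for every level `a`, and `k a` is
an upper bound of `E [log Z_a^(0, y) (η) - log Z_a^(0, x) (om a η)]` at almost every level of
`[-A, A]`, `A ≥ n ^ 3`, then the second moment grows by at most `2 ∫ k + 2` from `x` to `y`. -/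
theorem identU (hμ : EM μ) (s : ℝ) : ∃ N0 : ℕ, ∀ n : ℕ, N0 ≤ n → ∀ A : ℝ, (n : ℝ) ^ 3 ≤ A → ∀ x y : ℤ,
    ∀ om : ℝ → Env → Env, (∀ a, MeasurePreserving (om a) (law μ) (law μ)) →
    ∀ k : ℝ → ℝ, IntervalIntegrable k volume (-A) A →
    (∀ᵐ a : ℝ, a ∈ Set.Icc (-A) A →
      ∫ η, (Real.log (Zt μ s η y n a) - Real.log (Zt μ s (om a η) x n a)) ∂(law μ) ≤ k a) →
    (∫ η, (V μ s η (0, y) n - V μ s η 0 n) ^ 2 ∂(law μ)
      - ∫ η, (V μ s η (0, x) n - V μ s η 0 n) ^ 2 ∂(law μ)) / 2 ≤ (∫ a in (-A)..A, k a) + 1 := by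
  obtain ⟨N0, hN0⟩ := rem_le27 (μ := μ) hμ s
  refine ⟨N0, fun n hn A hA x y om hom k ik hk => ?_⟩
  have hA0 : 0 ≤ A := le_trans (by positivity) hA
  have h := ident_ub27 (P := law μ) (Q := law μ) (om := om) (et := fun _ => id) hom
    (fun _ => MeasurePreserving.id _) (U0 := fun η => V μ s η 0 n) (Ux := fun η => V μ s η (0, x) n)
    (Uy := fun η => V μ s η (0, y) n) (V_meas s _ n) (V_meas s _ n) (V_meas s _ n)
    (memLp_V27 hμ s _ n) (memLp_V27 hμ s _ n) (memLp_V27 hμ s _ n) (V_at s _ n) (V_at s _ n)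
    hA0 ik (by
      filter_upwards [hk] with a ha hmem
      refine le_trans (le_of_eq ?_) (ha hmem)
      simp only [Zt_eq27, id])
  have h2 := hN0 n hn A hA y
  linarith

end

end Pool.Agent.W_7d29a1_UB
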