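import Pool.Agent.W_7d29a1_HZ.Defs

/-!
STORM UB (MP_7d29a1_pr, row 674, helper60): the increment and the step hypothesis. (helper92)
-/

set_option autoImplicit false

namespace Pool.Agent.W_7d29a1_UB

open MeasureTheory ProbabilityTheory
open Pool.Agent.W_7d29a1_F

noncomputable section

/-- The second moment of the increment of `log Z_n` (free ends) between the starts `(0, 0)` and `(0, x)`. -/
def Inc (μ : Measure ℝ) (s : ℝ) (n x : ℕ) : ℝ := ∫ η, (V μ s η (0, (x : ℤ)) n - V μ s η 0 n) ^ 2 ∂(law μ)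

/-- **The step.** -/
def StepU (μ : Measure ℝ) (s : ℝ) : Prop := ∀ ε : ℝ, 0 < ε → ∃ δ₀ : ℝ, 0 < δ₀ ∧ ∀ δ : ℝ, 0 < δ → δ ≤ δ₀ → ∃ N₀ : ℕ, ∀ n : ℕ, N₀ ≤ n →
  ∀ x : ℕ, (n : ℝ) ^ δ ≤ x → x ≤ n → Inc μ s n (x + 1) ≤ Inc μ s n x + (n : ℝ) ^ ε

end

end Pool.Agent.W_7d29a1_UB
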