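import Pool.Agent.W_7d29a1_UB.EndY
import Pool.Agent.W_7d29a1_UB.EndD

/-!
STORM UB (MP_7d29a1_pr, row 674, helper60), the final assembly: `Var log Z_n ≤ n ^ ε w_n` from the step. (helper92)
-/

set_option autoImplicit false

namespace Pool.Agent.W_7d29a1_UB

open MeasureTheory ProbabilityTheory Filter Topology Finset
open Pool.Agent.W_7d29a1_F Pool.Agent.W_7d29a1_X Pool.Agent.W_7d29a1_h4g Pool.Agent.W_7d29a1_H
open Pool.Agent.W_7d29a1_HS (In wd)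
open Pool.Agent.W_7d29a1_HZ (NSp wd' EE')
open Pool.Agent.W_7d29a1_LB (mass psi mass_paths mass_mono NSFr psi_pos)
open Pool.Agent.W_7d29a1_h47 (EM Nondeg)

noncomputable section

variable {μ : Measure ℝ} {s : ℝ} [IsProbabilityMeasure μ]

/-- The bound of the increment for close starts (helper14). -/
def BddF (μ : Measure ℝ) (s : ℝ) : Prop := ∀ δ : ℝ, 0 < δ → ∀ ε : ℝ, 0 < ε → ∃ c' : ℝ, 0 < c' ∧ ∃ N₀ : ℕ, ∀ n : ℕ, N₀ ≤ n →
  ∀ x t1 : ℕ, x ≤ n → (x : ℝ) ≤ 2 * wd' μ s t1 → t1 ≤ n → (n : ℝ) ^ (2 * δ) ≤ t1 →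
    law μ {η | 3 * (n : ℝ) ^ ε * EE' μ s t1 < |V μ s η (0, (x : ℤ)) n - V μ s η 0 n|} ≤ ENNReal.ofReal (Real.exp (-(n : ℝ) ^ c'))

/-- A second moment from a tail, abstract. -/
theorem sq_of_tail {B H : Env → ℝ} (mB : Measurable B) (hB2 : Integrable (fun η => B η ^ 2) (law μ))
    (hH4 : Integrable (fun η => H η ^ 4) (law μ)) (hBH : ∀ η, |B η| ≤ H η) {b t p M : ℝ} (ht : 0 < t)
    (hM : ∫ η, H η ^ 4 ∂(law μ) ≤ M) (hp : law μ {η | b < |B η|} ≤ ENNReal.ofReal p) (hp0 : 0 ≤ p) :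
    ∫ η, B η ^ 2 ∂(law μ) ≤ b ^ 2 + t * M + p / t := by
  classical
  have hS : MeasurableSet {η : Env | b < |B η|} := measurableSet_lt measurable_const mB.abs
  have i1 : Integrable ({η : Env | b < |B η|}.indicator fun _ => (1 : ℝ) / t) (law μ) := (integrable_const _).indicator hS
  have i2 : Integrable (fun η => t * H η ^ 4) (law μ) := hH4.const_mul t
  have i3 : Integrable (fun _ : Env => b ^ 2) (law μ) := integrable_const _
  have i4 : Integrable (fun η => b ^ 2 + t * H η ^ 4) (law μ) := i3.add i2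
  have i5 : Integrable (fun η => b ^ 2 + t * H η ^ 4 + {η : Env | b < |B η|}.indicator (fun _ => (1 : ℝ) / t) η) (law μ) := i4.add i1
  have h1 : ∀ η, B η ^ 2 ≤ b ^ 2 + t * H η ^ 4 + {η : Env | b < |B η|}.indicator (fun _ => (1 : ℝ) / t) η := by
    intro η
    have hH0 : 0 ≤ H η := (abs_nonneg _).trans (hBH η)
    have h2 : 0 ≤ t * H η ^ 4 := by positivity
    by_cases hc : b < |B η|
    · rw [Set.indicator_of_mem (show η ∈ {η : Env | b < |B η|} from hc)]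
      have h3 : B η ^ 2 ≤ H η ^ 2 := by
        rw [← sq_abs]
        exact pow_le_pow_left₀ (abs_nonneg _) (hBH η) 2
      have h4 : H η ^ 2 ≤ t * H η ^ 4 + 1 / t := by
        have h7 : 0 ≤ (t * H η ^ 2 - 1) ^ 2 / t := by positivity
        have h8 : (t * H η ^ 2 - 1) ^ 2 / t = t * H η ^ 4 + 1 / t - 2 * H η ^ 2 := by
          field_simp
          ring
        have h9 : 0 ≤ H η ^ 2 := sq_nonneg _
        linarith
      have h5 : 0 ≤ b ^ 2 := sq_nonneg _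
      linarith
    · rw [Set.indicator_of_notMem (show η ∉ {η : Env | b < |B η|} from hc)]
      have h3 : B η ^ 2 ≤ b ^ 2 := by
        rw [← sq_abs]
        exact pow_le_pow_left₀ (abs_nonneg _) (not_lt.1 hc) 2
      linarith
  refine (integral_mono hB2 i5 h1).trans ?_
  rw [integral_add i4 i1, integral_add i3 i2, integral_const, integral_const_mul, integral_indicator_const _ hS]
  simp only [probReal_univ, smul_eq_mul, one_mul]
  have h2 : (law μ).real {η : Env | b < |B η|} ≤ p := ENNReal.toReal_le_of_le_ofReal hp0 hp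
  have h3 := mul_le_mul_of_nonneg_left hM ht.le
  have h4 : (law μ).real {η : Env | b < |B η|} * (1 / t) ≤ p / t := by
    rw [mul_one_div]
    exact div_le_div_of_nonneg_right h2 ht.le
  linarith

/-- **The increment is small for close starts.** -/
theorem crude_inc {c C : ℝ} {n₀ : ℕ} (h : In μ s c C n₀) (hBdd : BddF μ s) {ε : ℝ} (hε : 0 < ε) (hε1 : ε ≤ 1) :
    ∃ δ₁ : ℝ, 0 < δ₁ ∧ ∃ N₀ : ℕ, ∀ n : ℕ, N₀ ≤ n → ∀ x : ℕ, (x : ℝ) ≤ (n : ℝ) ^ δ₁ → Inc μ s n x ≤ (n : ℝ) ^ ε := by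
  obtain ⟨a, K, ha, ha1, hK, hwd⟩ := Pool.Agent.W_7d29a1_HZ.Z96.wd_all96 h
  obtain ⟨a', K', -, -, hK', hEE⟩ := Pool.Agent.W_7d29a1_HZ.Z96.EE_all96 h
  obtain ⟨c', hc', N₁, hb⟩ := hBdd (ε / 16) (by positivity) (ε / 8) (by positivity)
  obtain ⟨C₄, hC1, hC₄⟩ := Hb_four h.em s
  obtain ⟨E₁, hE₁⟩ : ∃ E₁ : ℝ, E₁ = K' * EE' μ s 1 := ⟨_, rfl⟩
  have hE10 : 0 < E₁ := by
    rw [hE₁]
    exact mul_pos (by linarith) (lt_of_lt_of_le one_pos (le_max_left _ _))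
  have hev : ∀ (e : ℝ), 0 < e → ∀ B : ℝ, ∀ᶠ n : ℕ in atTop, B ≤ (n : ℝ) ^ e := fun e he B =>
    ((tendsto_rpow_atTop he).comp tendsto_natCast_atTop_atTop).eventually_ge_atTop B
  refine ⟨a * ε / 16, by positivity, ?_⟩
  obtain ⟨N₀, hN₀⟩ := eventually_atTop.1 ((hev (a * ε / 16) (by positivity) K).and ((hev (ε / 8) (by positivity) (18 * E₁ ^ 2 + 16 * C₄ + 1)).and
    ((pow_exp_small hc' 8 (b := 1) one_pos).and ((hev (7 / 8) (by norm_num) 2).and (eventually_ge_atTop (max N₁ 1))))))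
  refine ⟨N₀, fun n hn x hx => ?_⟩
  obtain ⟨g1, g2, g3, g4, g5⟩ := hN₀ n hn
  have hn1 : 1 ≤ n := (le_max_right _ _).trans g5
  have hnN : N₁ ≤ n := (le_max_left _ _).trans g5
  have hnR : (1 : ℝ) ≤ n := by exact_mod_cast hn1
  have hn0 : (0 : ℝ) < n := by linarith
  obtain ⟨y, hy⟩ : ∃ y : ℝ, y = (n : ℝ) ^ (ε / 8) := ⟨_, rfl⟩
  have hy1 : 1 ≤ y := by rw [hy]; exact Real.one_le_rpow hnR (by positivity)
  obtain ⟨t1, ht1⟩ : ∃ t1 : ℕ, t1 = ⌈y⌉₊ := ⟨_, rfl⟩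
  have ht1a : y ≤ t1 := by rw [ht1]; exact Nat.le_ceil _
  have ht1b : (t1 : ℝ) ≤ 2 * y := by
    have := Nat.ceil_lt_add_one (show 0 ≤ y by linarith)
    rw [ht1]
    linarith
  have ht1n : t1 ≤ n := by
    have h2 : 2 * y ≤ n := by
      calc 2 * y ≤ (n : ℝ) ^ ((7 : ℝ) / 8) * (n : ℝ) ^ (1 / 8 : ℝ) := by
            refine mul_le_mul g4 ?_ (by positivity) (by positivity)
            rw [hy]
            exact Real.rpow_le_rpow_of_exponent_le hnR (by linarith)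
        _ = (n : ℝ) ^ (1 : ℝ) := by
            rw [← Real.rpow_add hn0]
            norm_num
        _ = n := Real.rpow_one _
    exact_mod_cast ht1b.trans h2
  have ht1p : 1 ≤ t1 := by
    have : (1 : ℝ) ≤ t1 := hy1.trans ht1a
    exact_mod_cast this
  have ht10 : (0 : ℝ) < t1 := by exact_mod_cast ht1p
  have hx2 : (x : ℝ) ≤ 2 * wd' μ s t1 := by
    have h2 : K⁻¹ * ((t1 : ℝ) / (1 : ℕ)) ^ a * wd' μ s 1 ≤ wd' μ s t1 := (hwd 1 t1 le_rfl ht1p).2.1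
    have h3 : 1 ≤ wd' μ s 1 := le_max_left _ _
    have h4 : (n : ℝ) ^ (a * ε / 16) * (n : ℝ) ^ (a * ε / 16) ≤ (t1 : ℝ) ^ a := by
      rw [← Real.rpow_add hn0]
      calc (n : ℝ) ^ (a * ε / 16 + a * ε / 16) = y ^ a := by
            rw [hy, ← Real.rpow_mul hn0.le]
            congr 1
            ring
        _ ≤ (t1 : ℝ) ^ a := Real.rpow_le_rpow (by linarith) ht1a ha.le
    rw [Nat.cast_one, div_one] at h2
    have hK0 : 0 < K := by linarith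
    have h5 : (n : ℝ) ^ (a * ε / 16) ≤ K⁻¹ * (t1 : ℝ) ^ a := by
      rw [inv_mul_eq_div, le_div_iff₀ hK0]
      refine le_trans ?_ h4
      exact mul_le_mul_of_nonneg_left g1 (by positivity)
    have h6 : K⁻¹ * (t1 : ℝ) ^ a ≤ K⁻¹ * (t1 : ℝ) ^ a * wd' μ s 1 := le_mul_of_one_le_right (by positivity) h3
    have h7 : 0 ≤ wd' μ s t1 := zero_le_one.trans (le_max_left _ _)
    linarith
  have hxn : x ≤ n := by
    have h2 : (x : ℝ) ≤ n := by
      calc (x : ℝ) ≤ (n : ℝ) ^ (a * ε / 16) := hx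
        _ ≤ (n : ℝ) ^ (1 : ℝ) := Real.rpow_le_rpow_of_exponent_le hnR (by nlinarith)
        _ = n := Real.rpow_one _
    exact_mod_cast h2
  have hpr := hb n hnN x t1 hxn hx2 ht1n (by
    refine le_trans (le_of_eq ?_) ht1a
    rw [hy]
    congr 1
    ring)
  -- the size of the bound
  obtain ⟨b, hbd⟩ : ∃ b : ℝ, b = 3 * (n : ℝ) ^ (ε / 8) * EE' μ s t1 := ⟨_, rfl⟩
  have hEt0 : 1 ≤ EE' μ s t1 := le_max_left _ _
  have hb0 : 0 ≤ b := by rw [hbd]; positivity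
  rw [← hbd] at hpr
  have hEt : EE' μ s t1 ^ 2 ≤ E₁ ^ 2 * t1 := by
    have h2 : EE' μ s t1 ≤ K' * Real.sqrt ((t1 : ℝ) / (1 : ℕ)) * EE' μ s 1 := (hEE 1 t1 le_rfl ht1p).2.2
    rw [Nat.cast_one, div_one] at h2
    have h3 : EE' μ s t1 ≤ E₁ * Real.sqrt t1 := by
      rw [hE₁]
      linarith
    calc EE' μ s t1 ^ 2 ≤ (E₁ * Real.sqrt t1) ^ 2 := pow_le_pow_left₀ (by linarith) h3 2
      _ = E₁ ^ 2 * t1 := by rw [mul_pow, Real.sq_sqrt ht10.le]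
  have hb2 : b ^ 2 ≤ 18 * E₁ ^ 2 * y ^ 3 := by
    calc b ^ 2 = 9 * y ^ 2 * EE' μ s t1 ^ 2 := by rw [hbd, hy]; ring
      _ ≤ 9 * y ^ 2 * (E₁ ^ 2 * t1) := mul_le_mul_of_nonneg_left hEt (by positivity)
      _ ≤ 9 * y ^ 2 * (E₁ ^ 2 * (2 * y)) := by
          refine mul_le_mul_of_nonneg_left (mul_le_mul_of_nonneg_left ht1b (by positivity)) (by positivity)
      _ = 18 * E₁ ^ 2 * y ^ 3 := by ring
  -- the fourth moment
  have hHB : ∀ η : Env, |V μ s η (0, (x : ℤ)) n - V μ s η 0 n| ≤ Hb μ s x n η + Hb μ s 0 n η := by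
    intro η
    have h2 := abs_V_le27 (μ := μ) (s := s) η x n
    have h3 := abs_V_le27 (μ := μ) (s := s) η 0 n
    exact (abs_sub _ _).trans (add_le_add h2 h3)
  have hM : ∫ η, (Hb μ s x n η + Hb μ s 0 n η) ^ 4 ∂(law μ) ≤ 16 * C₄ * (n : ℝ) ^ 8 := by
    have j1 := pow4 h.em (Sub_Hb (μ := μ) (s := s) (x : ℤ) n) (Hb_nonneg (x : ℤ) n)
    have j2 := pow4 h.em (Sub_Hb (μ := μ) (s := s) 0 n) (Hb_nonneg 0 n)
    have j3 : Integrable (fun η => 8 * Hb μ s x n η ^ 4) (law μ) := j1.const_mul 8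
    have j4 : Integrable (fun η => 8 * Hb μ s 0 n η ^ 4) (law μ) := j2.const_mul 8
    have j5 : Integrable (fun η => 8 * Hb μ s x n η ^ 4 + 8 * Hb μ s 0 n η ^ 4) (law μ) := j3.add j4
    refine (integral_mono (pow4 h.em ((Sub_Hb (μ := μ) (s := s) (x : ℤ) n).add (Sub_Hb (μ := μ) (s := s) 0 n)) fun η =>
      add_nonneg (Hb_nonneg _ _ _) (Hb_nonneg _ _ _)) j5 fun η => ?_).trans ?_
    · show (Hb μ s x n η + Hb μ s 0 n η) ^ 4 ≤ 8 * Hb μ s x n η ^ 4 + 8 * Hb μ s 0 n η ^ 4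
      have g1 : (Hb μ s x n η + Hb μ s 0 n η) ^ 2 ≤ 2 * (Hb μ s x n η ^ 2 + Hb μ s 0 n η ^ 2) := by
        nlinarith [sq_nonneg (Hb μ s x n η - Hb μ s 0 n η)]
      have g2 : ((Hb μ s x n η + Hb μ s 0 n η) ^ 2) ^ 2 ≤ (2 * (Hb μ s x n η ^ 2 + Hb μ s 0 n η ^ 2)) ^ 2 :=
        pow_le_pow_left₀ (sq_nonneg _) g1 2
      nlinarith [sq_nonneg (Hb μ s x n η ^ 2 - Hb μ s 0 n η ^ 2)]
    · rw [integral_add j3 j4, integral_const_mul, integral_const_mul]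
      have k1 := hC₄ x n hn1
      have k2 := hC₄ 0 n hn1
      linarith
  have hn8 : 0 < (n : ℝ) ^ 8 := by positivity
  have hSq := sq_of_tail (μ := μ) (B := fun η => V μ s η (0, (x : ℤ)) n - V μ s η 0 n) (H := fun η => Hb μ s x n η + Hb μ s 0 n η)
    ((V_meas s _ n).sub (V_meas s _ n)) (((Sub_V (0, (x : ℤ)) n).sub (Sub_V 0 n)).sq_integrable h.em)
    (pow4 h.em ((Sub_Hb (μ := μ) (s := s) (x : ℤ) n).add (Sub_Hb (μ := μ) (s := s) 0 n)) fun η =>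
      add_nonneg (Hb_nonneg _ _ _) (Hb_nonneg _ _ _)) hHB (t := 1 / (n : ℝ) ^ 8) (by positivity) hM hpr (Real.exp_pos _).le
  have e1 : 1 / (n : ℝ) ^ 8 * (16 * C₄ * (n : ℝ) ^ 8) = 16 * C₄ := by field_simp
  have e2 : Real.exp (-(n : ℝ) ^ c') / (1 / (n : ℝ) ^ 8) ≤ 1 := by
    rw [div_div_eq_mul_div, div_one, mul_comm]
    exact g3
  rw [e1] at hSq
  have hy3 : 1 ≤ y ^ 3 := one_le_pow₀ hy1
  have hfin : (18 * E₁ ^ 2 + 16 * C₄ + 1) * y ^ 3 ≤ y * y ^ 3 := mul_le_mul_of_nonneg_right (by rw [hy]; exact g2) (by positivity)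
  have hy4 : y * y ^ 3 ≤ (n : ℝ) ^ ε := by
    have h2 : y * y ^ 3 = (n : ℝ) ^ (ε / 2) := by
      rw [hy, ← pow_succ', ← Real.rpow_natCast, ← Real.rpow_mul hn0.le]
      congr 1
      push_cast
      ring
    rw [h2]
    exact Real.rpow_le_rpow_of_exponent_le hnR (by linarith)
  unfold Inc
  nlinarith

end

end Pool.Agent.W_7d29a1_UB
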