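import Pool.Agent.W_7d29a1_LB.SeamP30
import Pool.Agent.W_7d29a1_H.MeanA

/-!
STORM UB (MP_7d29a1_pr): crude bounds. The logarithm of the mass of the paths of any region is at most the absolute sum of the
environment in the box; fourth moments. (helper57)
-/

set_option autoImplicit false

namespace Pool.Agent.W_7d29a1_UB

open MeasureTheory ProbabilityTheory Filter Topology Finset
open Pool.Agent.W_7d29a1_F Pool.Agent.W_7d29a1_X Pool.Agent.W_7d29a1_LB Pool.Agent.W_7d29a1_H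
open Pool.Agent.W_7d29a1_h47 (EM)

noncomputable section

variable {μ : Measure ℝ} {s : ℝ}

/-- The box of the paths of length `n` from the origin. -/
def Qb57 (n : ℕ) : Finset Pt := Icc (1 : ℤ) n ×ˢ Icc (0 : ℤ) n

/-- The crude bound. -/
def Ac57 (μ : Measure ℝ) (s : ℝ) (n : ℕ) (η : Env) : ℝ := n * (|lam μ s| + |s| + Real.log 2) + ∑ p ∈ Qb57 n, |η p|

theorem Ac57_nonneg (n : ℕ) (η : Env) : 0 ≤ Ac57 μ s n η := by
  have h1 : 0 < Real.log 2 := Real.log_pos (by norm_num)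
  exact add_nonneg (mul_nonneg (Nat.cast_nonneg n) (by positivity)) (sum_nonneg fun _ _ => abs_nonneg _)

/-- The sum of the environment along a path. -/
theorem sum_path_abs (η : Env) (n : ℕ) (S : Finset ℕ) :
    ∑ i ∈ range n, |η ((i : ℤ) + 1, pos S (i + 1))| ≤ ∑ p ∈ Qb57 n, |η p| := by
  have hinj : Set.InjOn (fun i : ℕ => (((i : ℤ) + 1, pos S (i + 1)) : Pt)) (range n : Finset ℕ) := fun i _ j _ h => by
    have h1 : (i : ℤ) + 1 = (j : ℤ) + 1 := congrArg Prod.fst h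
    omega
  rw [← sum_image (f := fun p : Pt => |η p|) (g := fun i : ℕ => (((i : ℤ) + 1, pos S (i + 1)) : Pt)) hinj]
  refine sum_le_sum_of_subset_of_nonneg ?_ fun _ _ _ => abs_nonneg _
  intro p hp
  obtain ⟨i, hi, rfl⟩ := mem_image.1 hp
  rw [mem_range] at hi
  have h0 := pos_nonneg S (i + 1)
  have h1 := pos_le S (i + 1)
  refine mem_product.2 ⟨mem_Icc.2 ⟨?_, ?_⟩, mem_Icc.2 ⟨h0, ?_⟩⟩
  · show (1 : ℤ) ≤ (i : ℤ) + 1
    omega
  · show (i : ℤ) + 1 ≤ n
    omega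
  · show pos S (i + 1) ≤ n
    push_cast at h1
    omega

/-- The weight of a path. -/
theorem pth_bd57 (η : Env) (n : ℕ) (S : Finset ℕ) :
    Real.exp (-(n * (|lam μ s| + |s|) + ∑ p ∈ Qb57 n, |η p|)) ≤ pth μ s η n S ∧
      pth μ s η n S ≤ Real.exp (n * (|lam μ s| + |s|) + ∑ p ∈ Qb57 n, |η p|) := by
  have h1 : pth μ s η n S = Real.exp (s * (pos S n : ℝ) - n * lam μ s + ∑ i ∈ range n, η ((i : ℤ) + 1, pos S (i + 1))) := by
    unfold pth
    rw [Real.exp_add, Real.exp_sum]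
  have h2 := sum_path_abs η n S
  have h3 := abs_sum_le_sum_abs (fun i : ℕ => η ((i : ℤ) + 1, pos S (i + 1))) (range n)
  have h4 := abs_le.1 (h3.trans h2)
  have hn : (0 : ℝ) ≤ n := Nat.cast_nonneg n
  have hp0 : (0 : ℝ) ≤ pos S n := by exact_mod_cast pos_nonneg S n
  have hp1 : (pos S n : ℝ) ≤ n := by exact_mod_cast pos_le S n
  have h5 : |s * (pos S n : ℝ)| ≤ n * |s| := by
    rw [abs_mul, abs_of_nonneg hp0, mul_comm]
    exact mul_le_mul_of_nonneg_right hp1 (abs_nonneg s)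
  have h6 : |(n : ℝ) * lam μ s| ≤ n * |lam μ s| := by rw [abs_mul, abs_of_nonneg hn]
  have h7 := abs_le.1 h5
  have h8 := abs_le.1 h6
  rw [h1]
  constructor
  · refine Real.exp_le_exp.2 ?_
    linarith [h4.1, h7.1, h8.2]
  · refine Real.exp_le_exp.2 ?_
    linarith [h4.2, h7.2, h8.1]

open Classical in
/-- The mass of a region as a sum over paths. -/
theorem mass_paths57 (R : Set Pt) (η : Env) (n : ℕ) :
    mass μ s R η 0 n = ∑ S ∈ (range n).powerset, if Stay R n S then pth μ s η n S else 0 := by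
  unfold mass
  have h1 : ∀ y ∈ Icc (0 : ℤ) n, WR μ s R η (0, 0) n y = ∑ S ∈ (range n).powerset,
      (if pos S n = y ∧ Stay R n S then pth μ s η n S else 0) := fun y _ => WR_paths30 R η n y
  rw [sum_congr rfl h1, sum_comm]
  refine sum_congr rfl fun S _ => ?_
  by_cases h : Stay R n S
  · rw [if_pos h]
    have h2 : ∀ y : ℤ, (pos S n = y ∧ Stay R n S) ↔ pos S n = y := fun y => and_iff_left h
    simp only [h2]
    rw [sum_ite_eq, if_pos (mem_Icc.2 ⟨pos_nonneg _ _, pos_le _ _⟩)]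
  · rw [if_neg h]
    exact (sum_eq_zero fun y _ => if_neg fun h2 => h h2.2)

/-- **The crude bound** of the logarithm of the mass of a region. -/
theorem log_mass_le57 (R : Set Pt) (η : Env) (n : ℕ) : |Real.log (mass μ s R η 0 n)| ≤ Ac57 μ s n η := by
  classical
  by_cases h : ∃ S ∈ (range n).powerset, Stay R n S
  · obtain ⟨S, hS, hst⟩ := h
    have hl : Real.exp (-(n * (|lam μ s| + |s|) + ∑ p ∈ Qb57 n, |η p|)) ≤ mass μ s R η 0 n := by
      rw [mass_paths57]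
      refine (pth_bd57 η n S).1.trans ?_
      have h1 := single_le_sum (f := fun S => if Stay R n S then pth μ s η n S else 0)
        (fun S _ => by split_ifs <;> [exact pth_nonneg _ _ _; exact le_rfl]) hS
      rw [if_pos hst] at h1
      exact h1
    have hu : mass μ s R η 0 n ≤ 2 ^ n * Real.exp (n * (|lam μ s| + |s|) + ∑ p ∈ Qb57 n, |η p|) := by
      rw [mass_paths57]
      calc ∑ S ∈ (range n).powerset, (if Stay R n S then pth μ s η n S else 0)
          ≤ ∑ _S ∈ (range n).powerset, Real.exp (n * (|lam μ s| + |s|) + ∑ p ∈ Qb57 n, |η p|) := by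
            refine sum_le_sum fun S _ => ?_
            split_ifs
            · exact (pth_bd57 η n S).2
            · exact (Real.exp_pos _).le
        _ = _ := by rw [sum_const, card_powerset, card_range, nsmul_eq_mul]; push_cast; rfl
    have hpos : 0 < mass μ s R η 0 n := lt_of_lt_of_le (Real.exp_pos _) hl
    have h1 := Real.log_le_log (Real.exp_pos _) hl
    have h2 := Real.log_le_log hpos hu
    rw [Real.log_exp] at h1
    rw [Real.log_mul (by positivity) (Real.exp_pos _).ne', Real.log_exp, Real.log_pow] at h2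
    have hn : (0 : ℝ) ≤ n := Nat.cast_nonneg n
    have hl2 : 0 < Real.log 2 := Real.log_pos (by norm_num)
    have h3 : 0 ≤ (n : ℝ) * Real.log 2 := by positivity
    unfold Ac57
    rw [abs_le]
    constructor
    · linarith
    · linarith
  · have h1 : mass μ s R η 0 n = 0 := by
      rw [mass_paths57]
      exact sum_eq_zero fun S hS => if_neg fun h2 => h ⟨S, hS, h2⟩
    rw [h1, Real.log_zero, abs_zero]
    exact Ac57_nonneg n η

theorem V_eq57 (η : Env) (n : ℕ) : V μ s η 0 n = Real.log (mass μ s Set.univ η 0 n) := rfl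

theorem abs_V_le57 (η : Env) (n : ℕ) : |V μ s η 0 n| ≤ Ac57 μ s n η := by
  rw [V_eq57]
  exact log_mass_le57 _ _ _

/-! ### Fourth moments -/

variable [IsProbabilityMeasure μ]

theorem four_integrable57 (hμ : EM μ) {f : Env → ℝ} (hf : Sub f) : Integrable (fun η => f η ^ 4) (law μ) := by
  refine (((Sub.exp_int hμ hf).const_mul 24).add ((Sub.exp_int hμ hf.neg).const_mul 24)).mono'
    (hf.1.pow_const 4).aestronglyMeasurable (Eventually.of_forall fun η => ?_)
  rw [Real.norm_eq_abs, abs_of_nonneg (by positivity)]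
  have key : ∀ x : ℝ, 0 ≤ x → x ^ 4 ≤ 24 * Real.exp x := fun x hx => by
    have h1 := Real.pow_div_factorial_le_exp x hx 4
    have h2 : ((Nat.factorial 4 : ℕ) : ℝ) = 24 := by norm_num [Nat.factorial]
    rw [h2, div_le_iff₀ (by norm_num)] at h1
    linarith
  show f η ^ 4 ≤ 24 * Real.exp (f η) + 24 * Real.exp (-f η)
  rcases le_total 0 (f η) with h | h
  · have := key _ h
    have h2 := Real.exp_pos (-f η)
    linarith
  · have h1 := key (-f η) (by linarith)
    have h2 := Real.exp_pos (f η)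
    have h3 : (-f η) ^ 4 = f η ^ 4 := by ring
    rw [h3] at h1
    linarith

theorem sum_abs_four_le57 (hμ : EM μ) :
    ∃ m4 : ℝ, 0 ≤ m4 ∧ ∀ Q : Finset Pt, ∫ η, (∑ p ∈ Q, |η p|) ^ 4 ∂(law μ) ≤ (Q.card : ℝ) ^ 4 * m4 := by
  have hS : ∀ Q : Finset Pt, Sub fun η : Env => ∑ p ∈ Q, |η p| := fun Q => Sub.sum Q fun p _ => (Sub.coord p).abs
  refine ⟨∫ η, (η (0, 0)) ^ 4 ∂(law μ), integral_nonneg fun _ => by positivity, fun Q => ?_⟩
  have hi : ∀ p : Pt, Integrable (fun η : Env => (η p) ^ 4) (law μ) := fun p => four_integrable57 hμ (Sub.coord p)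
  have e1 : ∀ p : Pt, ∫ η, (η p) ^ 4 ∂(law μ) = ∫ η, (η (0, 0)) ^ 4 ∂(law μ) := by
    intro p
    have h := int_sh (μ := μ) p (f := fun η => (η (0, 0)) ^ 4) ((measurable_pi_apply (0, 0)).pow_const 4)
    rw [← h]
    refine integral_congr_ae (Eventually.of_forall fun η => ?_)
    show η p ^ 4 = η ((0, 0) + p) ^ 4
    have : ((0 : ℤ), (0 : ℤ)) + p = p := zero_add p
    rw [this]
  calc ∫ η, (∑ p ∈ Q, |η p|) ^ 4 ∂(law μ)
      ≤ ∫ η, (Q.card : ℝ) ^ 3 * ∑ p ∈ Q, (η p) ^ 4 ∂(law μ) := by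
        refine integral_mono (four_integrable57 hμ (hS Q)) ((integrable_finsetSum _ fun p _ => hi p).const_mul _) fun η => ?_
        have h := pow_sum_le_card_mul_sum_pow (s := Q) (f := fun p => |η p|) (fun _ _ => abs_nonneg _) 3
        have h2 : ∀ p : Pt, |η p| ^ (3 + 1) = (η p) ^ 4 := fun p => by
          have : |η p| ^ 4 = (|η p| ^ 2) ^ 2 := by ring
          rw [show 3 + 1 = 4 from rfl, this, sq_abs]
          ring
        simp only [h2] at h
        exact h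
    _ = (Q.card : ℝ) ^ 4 * ∫ η, (η (0, 0)) ^ 4 ∂(law μ) := by
        rw [integral_const_mul, integral_finsetSum _ fun p _ => hi p]
        simp only [e1, Finset.sum_const, nsmul_eq_mul]
        ring

omit [IsProbabilityMeasure μ] in
theorem Sub_Ac57 (n : ℕ) : Sub fun η : Env => Ac57 μ s n η :=
  (Sub.const _).add (Sub.sum _ fun p _ => (Sub.coord p).abs)

theorem card_Qb57 (n : ℕ) : ((Qb57 n).card : ℝ) ≤ ((n : ℝ) + 1) ^ 2 := by
  unfold Qb57
  rw [card_product, Int.card_Icc, Int.card_Icc]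
  have h1 : ((n : ℤ) + 1 - 0).toNat = n + 1 := by omega
  have h2 : ((n : ℤ) + 1 - 1).toNat = n := by omega
  rw [h1, h2]
  push_cast
  have hn : (0 : ℝ) ≤ n := Nat.cast_nonneg n
  nlinarith

/-- The fourth moment of the crude bound. -/
theorem Ac57_four (hμ : EM μ) (s : ℝ) : ∃ M : ℝ, 1 ≤ M ∧ ∀ n : ℕ, ∫ η, Ac57 μ s n η ^ 4 ∂(law μ) ≤ M * ((n : ℝ) + 1) ^ 8 := by
  obtain ⟨m4, hm4, hQ⟩ := sum_abs_four_le57 (μ := μ) hμ
  obtain ⟨κ, hκ⟩ : ∃ κ, κ = |lam μ s| + |s| + Real.log 2 := ⟨_, rfl⟩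
  have hκ0 : 0 ≤ κ := by
    rw [hκ]
    have := Real.log_pos (show (1 : ℝ) < 2 by norm_num)
    positivity
  refine ⟨8 * κ ^ 4 + 8 * m4 + 1, by nlinarith [pow_nonneg hκ0 4], fun n => ?_⟩
  have hn : (0 : ℝ) ≤ n := Nat.cast_nonneg n
  have hS : Sub fun η : Env => ∑ p ∈ Qb57 n, |η p| := Sub.sum _ fun p _ => (Sub.coord p).abs
  have h1 : ∀ x y : ℝ, (x + y) ^ 4 ≤ 8 * x ^ 4 + 8 * y ^ 4 := fun x y => by
    nlinarith [sq_nonneg (x - y), sq_nonneg (x ^ 2 - y ^ 2), sq_nonneg (x + y), mul_self_nonneg (x * (x - y)),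
      mul_self_nonneg (y * (x - y)), sq_nonneg (x ^ 2 + y ^ 2 - 2 * x * y), sq_nonneg (x ^ 2 + y ^ 2)]
  calc ∫ η, Ac57 μ s n η ^ 4 ∂(law μ) ≤ ∫ η, (8 * (n * κ) ^ 4 + 8 * (∑ p ∈ Qb57 n, |η p|) ^ 4) ∂(law μ) := by
        refine integral_mono (four_integrable57 hμ (Sub_Ac57 n))
          ((integrable_const _).add ((four_integrable57 hμ hS).const_mul 8)) fun η => ?_
        show Ac57 μ s n η ^ 4 ≤ 8 * (n * κ) ^ 4 + 8 * (∑ p ∈ Qb57 n, |η p|) ^ 4
        unfold Ac57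
        rw [← hκ]
        exact h1 _ _
    _ = 8 * (n * κ) ^ 4 + 8 * ∫ η, (∑ p ∈ Qb57 n, |η p|) ^ 4 ∂(law μ) := by
        have g5 : ∫ η, 8 * (∑ p ∈ Qb57 n, |η p|) ^ 4 ∂(law μ) = 8 * ∫ η, (∑ p ∈ Qb57 n, |η p|) ^ 4 ∂(law μ) := integral_const_mul _ _
        rw [integral_add (integrable_const _) ((four_integrable57 hμ hS).const_mul 8), g5]
        simp
    _ ≤ 8 * (n * κ) ^ 4 + 8 * (((n : ℝ) + 1) ^ 8 * m4) := by
        have h2 := hQ (Qb57 n)
        have h3 : ((Qb57 n).card : ℝ) ^ 4 ≤ ((n : ℝ) + 1) ^ 8 := by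
          calc ((Qb57 n).card : ℝ) ^ 4 ≤ (((n : ℝ) + 1) ^ 2) ^ 4 := pow_le_pow_left₀ (Nat.cast_nonneg _) (card_Qb57 n) 4
            _ = ((n : ℝ) + 1) ^ 8 := by ring
        have h4 := mul_le_mul_of_nonneg_right h3 hm4
        linarith
    _ ≤ (8 * κ ^ 4 + 8 * m4 + 1) * ((n : ℝ) + 1) ^ 8 := by
        have h4 : (n : ℝ) ^ 4 ≤ ((n : ℝ) + 1) ^ 8 := by
          calc (n : ℝ) ^ 4 ≤ ((n : ℝ) + 1) ^ 4 := pow_le_pow_left₀ hn (by linarith) 4
            _ ≤ ((n : ℝ) + 1) ^ 8 := pow_le_pow_right₀ (by linarith) (by norm_num)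
        have h5 := mul_le_mul_of_nonneg_left h4 (pow_nonneg hκ0 4)
        have h6 : (0 : ℝ) ≤ ((n : ℝ) + 1) ^ 8 := by positivity
        rw [mul_pow]
        nlinarith

end

end Pool.Agent.W_7d29a1_UB
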