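import Pool.Agent.W_7d29a1_UB.Defs
import Pool.Agent.W_7d29a1_UB.IdentU

/-! STORM UB (MP_7d29a1_pr, helper60's proof): the crude bound of the cost, uniform in the level, and
the integrability of the logarithms. (helper27) -/

set_option autoImplicit false

namespace Pool.Agent.W_7d29a1_UB

open MeasureTheory ProbabilityTheory Filter Topology
open Pool.Agent.W_7d29a1_F Pool.Agent.W_7d29a1_H Pool.Agent.W_7d29a1_LB
open Pool.Agent.W_7d29a1_h47 (EM Nondeg)

noncomputable section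

variable {μ : Measure ℝ} {s : ℝ}

/-! ### The deletion moves the sites of a square by at most one column -/

theorem abs_del_le27 (q : ℕ → ℤ) (η : Env) (p : Pt) : |del q η p| ≤ |η p| + |η (p.1, p.2 + 1)| := by
  have h1 := abs_nonneg (η p)
  have h2 := abs_nonneg (η (p.1, p.2 + 1))
  by_cases h : p.2 < q p.1.toNat
  · rw [del_left h]
    linarith
  · rw [del_right (not_lt.1 h)]
    linarith

theorem sum_shift27 (η : Env) (z : ℤ) (n : ℕ) :
    ∑ p ∈ Sq27 z n, |η (p.1, p.2 + 1)| = ∑ p ∈ Sq27 (z + 1) n, |η p| := by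
  refine Finset.sum_nbij' (fun p => (p.1, p.2 + 1)) (fun p => (p.1, p.2 - 1)) ?_ ?_ ?_ ?_ ?_
  · intro p hp
    unfold Sq27 at hp ⊢
    rw [Finset.mem_product, Finset.mem_Icc, Finset.mem_Icc] at hp ⊢
    refine ⟨hp.1, ?_⟩
    show z + 1 ≤ p.2 + 1 ∧ p.2 + 1 ≤ z + 1 + n
    omega
  · intro p hp
    unfold Sq27 at hp ⊢
    rw [Finset.mem_product, Finset.mem_Icc, Finset.mem_Icc] at hp ⊢
    refine ⟨hp.1, ?_⟩
    show z ≤ p.2 - 1 ∧ p.2 - 1 ≤ z + n
    omega
  · intro p _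
    exact Prod.ext rfl (by show p.2 + 1 - 1 = p.2; ring)
  · intro p _
    exact Prod.ext rfl (by show p.2 - 1 + 1 = p.2; ring)
  · intro p _
    rfl

theorem sum_del_le27 (q : ℕ → ℤ) (η : Env) (z : ℤ) (n : ℕ) :
    ∑ p ∈ Sq27 z n, |del q η p| ≤ ∑ p ∈ Sq27 z n, |η p| + ∑ p ∈ Sq27 (z + 1) n, |η p| := by
  rw [← sum_shift27, ← Finset.sum_add_distrib]
  exact Finset.sum_le_sum fun p _ => abs_del_le27 q η p

theorem abs_V_del_le27 (q : ℕ → ℤ) (η : Env) (z : ℤ) (n : ℕ) :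
    |V μ s (del q η) (0, z) n| ≤ (|s| + |lam μ s| + 2) * n +
      (∑ p ∈ Sq27 z n, |η p| + ∑ p ∈ Sq27 (z + 1) n, |η p|) :=
  (abs_V_le27 (del q η) z n).trans (add_le_add le_rfl (sum_del_le27 q η z n))

/-! ### The two term logarithm -/

/-- The logarithm of a sum of two masses moves by at most the sum of the two moves. -/
theorem log_two_le27 {A0 A1 B0 B1 c : ℝ} (hc : 0 < c) :
    Real.log (Real.exp A0 + c * Real.exp A1) - Real.log (Real.exp B0 + c * Real.exp B1) ≤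
      |A0 - B0| + |A1 - B1| := by
  have hB : 0 < Real.exp B0 + c * Real.exp B1 := add_pos (Real.exp_pos _) (mul_pos hc (Real.exp_pos _))
  have hA : 0 < Real.exp A0 + c * Real.exp A1 := add_pos (Real.exp_pos _) (mul_pos hc (Real.exp_pos _))
  have h0 := abs_nonneg (A0 - B0)
  have h1 := abs_nonneg (A1 - B1)
  have h2 : Real.exp A0 + c * Real.exp A1 ≤
      Real.exp (|A0 - B0| + |A1 - B1|) * (Real.exp B0 + c * Real.exp B1) := by
    have e0 : Real.exp A0 ≤ Real.exp (|A0 - B0| + |A1 - B1|) * Real.exp B0 := by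
      rw [← Real.exp_add]
      exact Real.exp_le_exp.2 (by linarith [le_abs_self (A0 - B0)])
    have e1 : Real.exp A1 ≤ Real.exp (|A0 - B0| + |A1 - B1|) * Real.exp B1 := by
      rw [← Real.exp_add]
      exact Real.exp_le_exp.2 (by linarith [le_abs_self (A1 - B1)])
    have e2 := mul_le_mul_of_nonneg_left e1 hc.le
    calc Real.exp A0 + c * Real.exp A1 ≤ Real.exp (|A0 - B0| + |A1 - B1|) * Real.exp B0 +
        c * (Real.exp (|A0 - B0| + |A1 - B1|) * Real.exp B1) := add_le_add e0 e2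
      _ = _ := by ring
  have h3 := Real.log_le_log hA h2
  rw [Real.log_mul (Real.exp_pos _).ne' hB.ne', Real.log_exp] at h3
  linarith

theorem abs_log_two_le27 {A0 A1 B0 B1 c : ℝ} (hc : 0 < c) :
    |Real.log (Real.exp A0 + c * Real.exp A1) - Real.log (Real.exp B0 + c * Real.exp B1)| ≤
      |A0| + |B0| + |A1| + |B1| := by
  have h1 := log_two_le27 (A0 := A0) (A1 := A1) (B0 := B0) (B1 := B1) hc
  have h2 := log_two_le27 (A0 := B0) (A1 := B1) (B0 := A0) (B1 := A1) hc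
  have h3 := abs_sub A0 B0
  have h4 := abs_sub A1 B1
  have h5 := abs_sub B0 A0
  have h6 := abs_sub B1 A1
  rw [abs_le]
  constructor <;> linarith

/-- The logarithm of the mass of the two starts. -/
theorem abs_log_Zt_le27 (η : Env) (x : ℤ) (n : ℕ) (a : ℝ) :
    |Real.log (Zt μ s η x n a)| ≤ |V μ s η 0 n| + |V μ s η (0, x) n| + |a| + 1 := by
  rw [Zt_eq27]
  have hpos : 0 < Real.exp (V μ s η 0 n) + Real.exp (-a) * Real.exp (V μ s η (0, x) n) :=
    add_pos (Real.exp_pos _) (mul_pos (Real.exp_pos _) (Real.exp_pos _))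
  have h0 := abs_nonneg (V μ s η 0 n)
  have h1 := abs_nonneg (V μ s η (0, x) n)
  have h2 := abs_nonneg a
  have hlog2 : Real.log 2 ≤ 1 := by
    have := Real.log_two_lt_d9
    linarith
  rw [abs_le]
  constructor
  · have h3 : Real.log (Real.exp (V μ s η 0 n)) ≤
        Real.log (Real.exp (V μ s η 0 n) + Real.exp (-a) * Real.exp (V μ s η (0, x) n)) :=
      Real.log_le_log (Real.exp_pos _) (le_add_of_nonneg_right (mul_pos (Real.exp_pos _) (Real.exp_pos _)).le)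
    rw [Real.log_exp] at h3
    have h4 := neg_abs_le (V μ s η 0 n)
    linarith
  · have h3 : Real.exp (V μ s η 0 n) + Real.exp (-a) * Real.exp (V μ s η (0, x) n) ≤
        2 * Real.exp (|V μ s η 0 n| + |V μ s η (0, x) n| + |a|) := by
      rw [← Real.exp_add]
      have e1 : Real.exp (V μ s η 0 n) ≤ Real.exp (|V μ s η 0 n| + |V μ s η (0, x) n| + |a|) :=
        Real.exp_le_exp.2 (by linarith [le_abs_self (V μ s η 0 n)])
      have e2 : Real.exp (-a + V μ s η (0, x) n) ≤ Real.exp (|V μ s η 0 n| + |V μ s η (0, x) n| + |a|) :=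
        Real.exp_le_exp.2 (by linarith [le_abs_self (V μ s η (0, x) n), neg_le_abs a])
      linarith
    have h4 := Real.log_le_log hpos h3
    rw [Real.log_mul (by norm_num) (Real.exp_pos _).ne', Real.log_exp] at h4
    linarith

/-! ### The second moment of the sum over a square -/

variable [IsProbabilityMeasure μ]

theorem integral_sq_coord27 (p : Pt) : ∫ η, (|η p|) ^ 2 ∂(law μ) = ∫ u, u ^ 2 ∂μ := by
  have h1 : MeasurePreserving (fun η : Env => η p) (law μ) μ :=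
    measurePreserving_eval_infinitePi (fun _ : Pt => μ) p
  simp only [sq_abs]
  exact (integral_map (μ := law μ) (φ := fun η : Env => η p) (f := fun u : ℝ => u ^ 2)
    (measurable_pi_apply p).aemeasurable (by fun_prop)).symm.trans (by rw [h1.map_eq])

theorem integrable_sq_coord27 (hμ : EM μ) (p : Pt) : Integrable (fun η : Env => (|η p|) ^ 2) (law μ) :=
  (Sub.coord p).abs.sq_integrable hμ

theorem sub_sum27 (Q : Finset Pt) : Sub fun η : Env => ∑ p ∈ Q, |η p| := Sub.sum Q fun p _ => (Sub.coord p).abs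

theorem integral_sq_sum_le27 (hμ : EM μ) (Q : Finset Pt) :
    ∫ η, (∑ p ∈ Q, |η p|) ^ 2 ∂(law μ) ≤ (Q.card : ℝ) ^ 2 * ∫ u, u ^ 2 ∂μ := by
  have h1 : ∫ η, (∑ p ∈ Q, |η p|) ^ 2 ∂(law μ) ≤ ∫ η, (Q.card : ℝ) * ∑ p ∈ Q, (|η p|) ^ 2 ∂(law μ) := by
    refine integral_mono ((sub_sum27 Q).sq_integrable hμ) ?_ fun η => ?_
    · exact (integrable_finsetSum Q fun p _ => integrable_sq_coord27 hμ p).const_mul _
    · exact sq_sum_le_card_mul_sum_sq
  refine h1.trans (le_of_eq ?_)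
  rw [integral_const_mul, integral_finsetSum Q fun p _ => integrable_sq_coord27 hμ p]
  simp only [integral_sq_coord27]
  rw [Finset.sum_const, nsmul_eq_mul]
  ring

theorem int_five27 {f0 f1 f2 f3 : Env → ℝ} (K : ℝ) (i0 : Integrable f0 (law μ)) (i1 : Integrable f1 (law μ))
    (i2 : Integrable f2 (law μ)) (i3 : Integrable f3 (law μ)) :
    Integrable (fun η => K + 20 * f0 η + 5 * f1 η + 5 * f2 η + 20 * f3 η) (law μ) ∧
    ∫ η, (K + 20 * f0 η + 5 * f1 η + 5 * f2 η + 20 * f3 η) ∂(law μ) =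
      K + 20 * ∫ η, f0 η ∂(law μ) + 5 * ∫ η, f1 η ∂(law μ) + 5 * ∫ η, f2 η ∂(law μ) + 20 * ∫ η, f3 η ∂(law μ) := by
  have c0 : Integrable (fun _ : Env => K) (law μ) := integrable_const K
  have c1 : Integrable (fun η => K + 20 * f0 η) (law μ) := c0.add (i0.const_mul 20)
  have c2 : Integrable (fun η => K + 20 * f0 η + 5 * f1 η) (law μ) := c1.add (i1.const_mul 5)
  have c3 : Integrable (fun η => K + 20 * f0 η + 5 * f1 η + 5 * f2 η) (law μ) := c2.add (i2.const_mul 5)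
  refine ⟨c3.add (i3.const_mul 20), ?_⟩
  rw [integral_add c3 (i3.const_mul 20), integral_add c2 (i2.const_mul 5), integral_add c1 (i1.const_mul 5),
    integral_add c0 (i0.const_mul 20), integral_const_mul, integral_const_mul, integral_const_mul,
    integral_const_mul, integral_const, probReal_univ, one_smul]

/-- The envelope of the cost. -/
def env27 (μ : Measure ℝ) (s : ℝ) (x : ℕ) (n : ℕ) (η : Env) : ℝ :=
  4 * (|s| + |lam μ s| + 2) * n + 2 * (∑ p ∈ Sq27 0 n, |η p|) + (∑ p ∈ Sq27 (0 + 1) n, |η p|) +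
    (∑ p ∈ Sq27 (x : ℤ) n, |η p|) + 2 * (∑ p ∈ Sq27 ((x : ℤ) + 1) n, |η p|)

omit [IsProbabilityMeasure μ] in
theorem Sub_env27 (x n : ℕ) : Sub (env27 μ s x n) := by
  unfold env27
  exact ((((Sub.const _).add ((sub_sum27 _).const_mul 2)).add (sub_sum27 _)).add (sub_sum27 _)).add
    ((sub_sum27 _).const_mul 2)

omit [IsProbabilityMeasure μ] in
theorem env27_nonneg (x n : ℕ) (η : Env) : 0 ≤ env27 μ s x n η := by
  have h : ∀ Q : Finset Pt, 0 ≤ ∑ p ∈ Q, |η p| := fun Q => Finset.sum_nonneg fun _ _ => abs_nonneg _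
  unfold env27
  have h1 := h (Sq27 0 n)
  have h2 := h (Sq27 (0 + 1) n)
  have h3 := h (Sq27 (x : ℤ) n)
  have h4 := h (Sq27 ((x : ℤ) + 1) n)
  have h5 : 0 ≤ 4 * (|s| + |lam μ s| + 2) * (n : ℝ) := by positivity
  linarith

/-- **The crude bound**: at every level and for every column the two masses differ by a factor at most
`exp H`, and `H` has a second moment of polynomial size. -/
theorem crude27 (hμ : EM μ) (s : ℝ) : ∃ C : ℝ, 0 < C ∧ ∀ n : ℕ, 1 ≤ n → ∀ x : ℕ, 1 ≤ x →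
    ∃ H : Env → ℝ, Measurable H ∧ (∀ η, 0 ≤ H η) ∧ Integrable (fun η => H η ^ 2) (law μ) ∧
      ∫ η, H η ^ 2 ∂(law μ) ≤ C * (n : ℝ) ^ 6 ∧
      ∀ (a : ℝ) (q : ℕ → ℤ), (∀ i, 1 ≤ q i) → ∀ η : Env,
        |Real.log (Zt μ s η ((x : ℤ) + 1) n a) - Real.log (Zt μ s (del q η) x n a)| ≤ H η := by
  obtain ⟨c, hc⟩ : ∃ c : ℝ, c = |s| + |lam μ s| + 2 := ⟨_, rfl⟩
  obtain ⟨m, hm⟩ : ∃ m : ℝ, m = ∫ u, u ^ 2 ∂μ := ⟨_, rfl⟩
  have hm0 : 0 ≤ m := by
    rw [hm]
    exact integral_nonneg fun u => sq_nonneg u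
  refine ⟨80 * c ^ 2 + 800 * m + 1, by positivity, fun n hn x hx => ?_⟩
  refine ⟨env27 μ s x n, (Sub_env27 x n).1, env27_nonneg x n, (Sub_env27 x n).sq_integrable hμ, ?_, ?_⟩
  · have hn1 : (1 : ℝ) ≤ n := by exact_mod_cast hn
    have hQ : ∀ z : ℤ, ∫ η, (∑ p ∈ Sq27 z n, |η p|) ^ 2 ∂(law μ) ≤ 16 * m * (n : ℝ) ^ 4 := by
      intro z
      have h1 := integral_sq_sum_le27 hμ (Sq27 z n)
      rw [card_Sq27, ← hm] at h1
      refine h1.trans ?_
      push_cast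
      have h2 : ((n : ℝ) + 1) ^ 2 ≤ 4 * (n : ℝ) ^ 2 := by nlinarith
      have h3 : (((n : ℝ) + 1) ^ 2) ^ 2 ≤ 16 * (n : ℝ) ^ 4 := by
        calc (((n : ℝ) + 1) ^ 2) ^ 2 ≤ (4 * (n : ℝ) ^ 2) ^ 2 := pow_le_pow_left₀ (by positivity) h2 2
          _ = 16 * (n : ℝ) ^ 4 := by ring
      calc (((n : ℝ) + 1) ^ 2) ^ 2 * m ≤ (16 * (n : ℝ) ^ 4) * m := mul_le_mul_of_nonneg_right h3 hm0
        _ = 16 * m * (n : ℝ) ^ 4 := by ring
    have i0 := (sub_sum27 (Sq27 0 n)).sq_integrable hμ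
    have i1 := (sub_sum27 (Sq27 (0 + 1) n)).sq_integrable hμ
    have i2 := (sub_sum27 (Sq27 (x : ℤ) n)).sq_integrable hμ
    have i3 := (sub_sum27 (Sq27 ((x : ℤ) + 1) n)).sq_integrable hμ
    have hI := int_five27 (μ := μ) (80 * c ^ 2 * (n : ℝ) ^ 2) i0 i1 i2 i3
    have hle : ∫ η, env27 μ s x n η ^ 2 ∂(law μ) ≤ ∫ η, (80 * c ^ 2 * (n : ℝ) ^ 2 +
        20 * (∑ p ∈ Sq27 0 n, |η p|) ^ 2 + 5 * (∑ p ∈ Sq27 (0 + 1) n, |η p|) ^ 2 +
        5 * (∑ p ∈ Sq27 (x : ℤ) n, |η p|) ^ 2 + 20 * (∑ p ∈ Sq27 ((x : ℤ) + 1) n, |η p|) ^ 2) ∂(law μ) := by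
      refine integral_mono ((Sub_env27 x n).sq_integrable hμ) hI.1 fun η => ?_
      show env27 μ s x n η ^ 2 ≤ ((((80 * c ^ 2 * (n : ℝ) ^ 2) +
        20 * (∑ p ∈ Sq27 0 n, |η p|) ^ 2) + 5 * (∑ p ∈ Sq27 (0 + 1) n, |η p|) ^ 2) +
        5 * (∑ p ∈ Sq27 (x : ℤ) n, |η p|) ^ 2) + 20 * (∑ p ∈ Sq27 ((x : ℤ) + 1) n, |η p|) ^ 2
      unfold env27
      rw [← hc]
      generalize (∑ p ∈ Sq27 0 n, |η p|) = T0
      generalize (∑ p ∈ Sq27 (0 + 1) n, |η p|) = T1
      generalize (∑ p ∈ Sq27 (x : ℤ) n, |η p|) = T2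
      generalize (∑ p ∈ Sq27 ((x : ℤ) + 1) n, |η p|) = T3
      nlinarith [sq_nonneg (4 * c * n - 2 * T0), sq_nonneg (4 * c * n - T1), sq_nonneg (4 * c * n - T2),
        sq_nonneg (4 * c * n - 2 * T3), sq_nonneg (2 * T0 - T1), sq_nonneg (2 * T0 - T2), sq_nonneg (2 * T0 - 2 * T3),
        sq_nonneg (T1 - T2), sq_nonneg (T1 - 2 * T3), sq_nonneg (T2 - 2 * T3)]
    refine hle.trans ?_
    rw [hI.2]
    have q0 := hQ 0
    have q1 := hQ (0 + 1)
    have q2 := hQ x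
    have q3 := hQ ((x : ℤ) + 1)
    have h2 : (n : ℝ) ^ 2 ≤ (n : ℝ) ^ 6 := pow_le_pow_right₀ hn1 (by norm_num)
    have h4 : (n : ℝ) ^ 4 ≤ (n : ℝ) ^ 6 := pow_le_pow_right₀ hn1 (by norm_num)
    have h5 : 80 * c ^ 2 * (n : ℝ) ^ 2 ≤ 80 * c ^ 2 * (n : ℝ) ^ 6 := mul_le_mul_of_nonneg_left h2 (by positivity)
    have h6 : 800 * m * (n : ℝ) ^ 4 ≤ 800 * m * (n : ℝ) ^ 6 := mul_le_mul_of_nonneg_left h4 (by positivity)
    have h7 : (0 : ℝ) ≤ (n : ℝ) ^ 6 := by positivity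
    nlinarith
  · intro a q _ η
    rw [Zt_eq27, Zt_eq27]
    refine (abs_log_two_le27 (Real.exp_pos _)).trans ?_
    have h1 := abs_V_le27 (μ := μ) (s := s) η 0 n
    have h2 := abs_V_del_le27 (μ := μ) (s := s) q η 0 n
    have h3 := abs_V_le27 (μ := μ) (s := s) η ((x : ℤ) + 1) n
    have h4 := abs_V_del_le27 (μ := μ) (s := s) q η x n
    unfold env27
    have e0 : (0 : Pt) = ((0 : ℤ), (0 : ℤ)) := rfl
    rw [e0]
    linarith

/-! ### Integrability -/

theorem integrable_log_Zt27 (hμ : EM μ) (x : ℤ) (n : ℕ) (a : ℝ) :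
    Integrable (fun η : Env => Real.log (Zt μ s η x n a)) (law μ) := by
  have h1 : Sub fun η : Env => |V μ s η 0 n| + |V μ s η (0, x) n| + |a| + 1 :=
    (((Sub_V (μ := μ) (s := s) 0 n).abs.add (Sub_V (μ := μ) (s := s) (0, x) n).abs).add (Sub.const _)).add (Sub.const _)
  refine (h1.integrable hμ).mono' (Real.measurable_log.comp (measurable_Zt x n a)).aestronglyMeasurable ?_
  exact Eventually.of_forall fun η => abs_log_Zt_le27 η x n a

theorem integrable_log_Zt_del27 (hμ : EM μ) {q : Env → ℕ → ℤ} (hq : ∀ i, Measurable fun η => q η i)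
    (x : ℤ) (n : ℕ) (a : ℝ) :
    Integrable (fun η : Env => Real.log (Zt μ s (del (q η) η) x n a)) (law μ) := by
  have h1 : Sub fun η : Env => ((|s| + |lam μ s| + 2) * n +
      (∑ p ∈ Sq27 0 n, |η p| + ∑ p ∈ Sq27 (0 + 1) n, |η p|)) + ((|s| + |lam μ s| + 2) * n +
      (∑ p ∈ Sq27 x n, |η p| + ∑ p ∈ Sq27 (x + 1) n, |η p|)) + |a| + 1 :=
    ((((Sub.const _).add ((sub_sum27 _).add (sub_sum27 _))).add
      ((Sub.const _).add ((sub_sum27 _).add (sub_sum27 _)))).add (Sub.const _)).add (Sub.const _)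
  refine (h1.integrable hμ).mono'
    (Real.measurable_log.comp ((measurable_Zt x n a).comp (measurable_del hq))).aestronglyMeasurable ?_
  refine Eventually.of_forall fun η => ?_
  refine (abs_log_Zt_le27 (del (q η) η) x n a).trans ?_
  have h2 := abs_V_del_le27 (μ := μ) (s := s) (q η) η 0 n
  have h4 := abs_V_del_le27 (μ := μ) (s := s) (q η) η x n
  have e0 : (0 : Pt) = ((0 : ℤ), (0 : ℤ)) := rfl
  rw [e0]
  linarith

/-- The cost at a level is integrable, for the seam at this level (or any measurable column). -/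
theorem integrable_cost27 (hμ : EM μ) {q : Env → ℕ → ℤ} (hq : ∀ i, Measurable fun η => q η i)
    (x y : ℤ) (n : ℕ) (a : ℝ) :
    Integrable (fun η : Env => Real.log (Zt μ s η y n a) - Real.log (Zt μ s (del (q η) η) x n a)) (law μ) :=
  (integrable_log_Zt27 hμ y n a).sub (integrable_log_Zt_del27 hμ hq x n a)

end

end Pool.Agent.W_7d29a1_UB
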