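import Pool.Agent.W_7d29a1_UB.Crude57

/-!
STORM UB (MP_7d29a1_pr), decorrelation, part 1: if the polymer from the origin stays in the strip of half width `r` up to the mean
probability `τ`, then for `2 r < x` the free energies from `(0, 0)` and from `(0, x)` are uncorrelated up to a power of `τ`.
(helper57)
-/

set_option autoImplicit false

namespace Pool.Agent.W_7d29a1_UB

open MeasureTheory ProbabilityTheory Filter Topology Finset
open Pool.Agent.W_7d29a1_F Pool.Agent.W_7d29a1_X Pool.Agent.W_7d29a1_LB Pool.Agent.W_7d29a1_H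
open Pool.Agent.W_7d29a1_h47 (EM)

noncomputable section

variable {μ : Measure ℝ} {s : ℝ}

/-- The strip around the line of the slope `v` through `(0, x)`. -/
def Str57 (v r x : ℝ) : Set Pt := {p | |(p.2 : ℝ) - x - v * p.1| ≤ r}

open Classical in
/-- The Gibbs probability of the bad paths. -/
def bad57 (μ : Measure ℝ) (s : ℝ) (n : ℕ) (B : Finset ℕ → Prop) (η : Env) : ℝ :=
  ∑ S ∈ (range n).powerset, GS μ s η n S * (if B S then 1 else 0)

theorem bad57_nonneg (n : ℕ) (B : Finset ℕ → Prop) (η : Env) : 0 ≤ bad57 μ s n B η :=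
  sum_nonneg fun S _ => mul_nonneg (GS_nonneg _ _ _) (by split_ifs <;> norm_num)

theorem bad57_le_one (n : ℕ) (B : Finset ℕ → Prop) (η : Env) : bad57 μ s n B η ≤ 1 := by
  rw [← GS_sum (μ := μ) (s := s) η n]
  refine sum_le_sum fun S _ => ?_
  have h := GS_nonneg (μ := μ) (s := s) η n S
  split_ifs <;> linarith

theorem pth_meas57 (n : ℕ) (S : Finset ℕ) : Measurable fun η : Env => pth μ s η n S := by
  unfold pth
  exact (Finset.measurable_prod _ fun i _ => (measurable_pi_apply _).exp).const_mul _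

theorem GS_meas57 (n : ℕ) (S : Finset ℕ) : Measurable fun η : Env => GS μ s η n S := by
  unfold GS
  exact (pth_meas57 n S).div (V_meas s 0 n).exp

theorem bad57_meas (n : ℕ) (B : Finset ℕ → Prop) : Measurable (bad57 μ s n B) :=
  Finset.measurable_fun_sum _ fun S _ => (GS_meas57 n S).mul_const _

/-- The mass of a region which contains the good paths. -/
theorem mass_ge57 (R : Set Pt) (η : Env) (n : ℕ) {B : Finset ℕ → Prop} (hB : ∀ S, ¬ B S → Stay R n S) :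
    (1 - bad57 μ s n B η) * Real.exp (V μ s η 0 n) ≤ mass μ s R η 0 n := by
  classical
  have h1 : (1 - bad57 μ s n B η) = ∑ S ∈ (range n).powerset, GS μ s η n S * (if B S then 0 else 1) := by
    have h0 := GS_sum (μ := μ) (s := s) η n
    calc 1 - bad57 μ s n B η = (∑ S ∈ (range n).powerset, GS μ s η n S) - bad57 μ s n B η := by rw [h0]
      _ = _ := by
        unfold bad57
        rw [← sum_sub_distrib]
        refine sum_congr rfl fun S _ => ?_
        split_ifs <;> ring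
  rw [h1, mass_paths57, sum_mul]
  refine sum_le_sum fun S _ => ?_
  have h2 : GS μ s η n S * Real.exp (V μ s η 0 n) = pth μ s η n S := by
    unfold GS
    exact div_mul_cancel₀ _ (Real.exp_pos _).ne'
  by_cases h : B S
  · rw [if_pos h, mul_zero, zero_mul]
    split_ifs
    · exact pth_nonneg _ _ _
    · exact le_rfl
  · rw [if_neg h, mul_one, h2, if_pos (hB S h)]

theorem mass_le_V57 (R : Set Pt) (η : Env) (n : ℕ) : mass μ s R η 0 n ≤ Real.exp (V μ s η 0 n) := by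
  have h := mass_mono (μ := μ) (s := s) (Set.subset_univ R) η 0 n
  rw [← psi_eq_mass] at h
  rw [V_eq57, ← psi_eq_mass, Real.exp_log (psi_pos _ _ _)]
  exact h

/-- The defect of the logarithm of the mass of the strip. -/
theorem defect_sq57 (R : Set Pt) (η : Env) (n : ℕ) {B : Finset ℕ → Prop} (hB : ∀ S, ¬ B S → Stay R n S) :
    (V μ s η 0 n - Real.log (mass μ s R η 0 n)) ^ 2 ≤ 4 * bad57 μ s n B η + 8 * (Ac57 μ s n η ^ 2 * bad57 μ s n B η) := by
  obtain ⟨b, hb⟩ : ∃ b, b = bad57 μ s n B η := ⟨_, rfl⟩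
  have hb0 : 0 ≤ b := by rw [hb]; exact bad57_nonneg _ _ _
  have hb1 : b ≤ 1 := by rw [hb]; exact bad57_le_one _ _ _
  have hA := Ac57_nonneg (μ := μ) (s := s) n η
  rw [← hb]
  rcases le_or_gt b (1 / 2) with h | h
  · have h1 := mass_ge57 (μ := μ) (s := s) R η n hB
    rw [← hb] at h1
    have h2 : 0 < 1 - b := by linarith
    have h3 := mass_le_V57 (μ := μ) (s := s) R η n
    have h4 : 0 < mass μ s R η 0 n := lt_of_lt_of_le (mul_pos h2 (Real.exp_pos _)) h1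
    have h5 := Real.log_le_log (mul_pos h2 (Real.exp_pos _)) h1
    rw [Real.log_mul h2.ne' (Real.exp_pos _).ne', Real.log_exp] at h5
    have h6 := Real.log_le_log h4 h3
    rw [Real.log_exp] at h6
    have h7 : -Real.log (1 - b) ≤ 2 * b := by
      have h8 := Real.log_le_sub_one_of_pos (x := (1 - b)⁻¹) (by positivity)
      rw [Real.log_inv] at h8
      have h9 : (1 - b)⁻¹ - 1 ≤ 2 * b := by
        rw [sub_le_iff_le_add, inv_eq_one_div, div_le_iff₀ h2]
        nlinarith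
      linarith
    have h8 : 0 ≤ V μ s η 0 n - Real.log (mass μ s R η 0 n) := by linarith
    have h9 : V μ s η 0 n - Real.log (mass μ s R η 0 n) ≤ 2 * b := by linarith
    have h10 : (V μ s η 0 n - Real.log (mass μ s R η 0 n)) ^ 2 ≤ (2 * b) ^ 2 := pow_le_pow_left₀ h8 h9 2
    have h11 : 0 ≤ 8 * (Ac57 μ s n η ^ 2 * b) := by positivity
    nlinarith
  · have h1 := abs_le.1 (abs_V_le57 (μ := μ) (s := s) η n)
    have h2 := abs_le.1 (log_mass_le57 (μ := μ) (s := s) R η n)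
    have h3 : |V μ s η 0 n - Real.log (mass μ s R η 0 n)| ≤ 2 * Ac57 μ s n η := by
      rw [abs_le]
      constructor
      · linarith [h1.1, h2.2]
      · linarith [h1.2, h2.1]
    have h4 : (V μ s η 0 n - Real.log (mass μ s R η 0 n)) ^ 2 ≤ (2 * Ac57 μ s n η) ^ 2 := by
      rw [← sq_abs (V μ s η 0 n - Real.log (mass μ s R η 0 n))]
      exact pow_le_pow_left₀ (abs_nonneg _) h3 2
    have h5 : 0 ≤ Ac57 μ s n η ^ 2 := sq_nonneg _
    nlinarith [mul_le_mul_of_nonneg_left h.le h5]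

/-- The mass of a strip sees the strip. -/
theorem mass_dep57 (R : Set Pt) (n : ℕ) : DependsOn (fun η : Env => Real.log (mass μ s R η 0 n)) R := by
  intro η η' h
  show Real.log (mass μ s R η 0 n) = Real.log (mass μ s R η' 0 n)
  congr 1
  unfold mass
  refine sum_congr rfl fun y _ => ?_
  exact WR_dep (μ := μ) (s := s) R (0, 0) n y fun p hp => h p hp.2

theorem mass_meas57 (R : Set Pt) (n : ℕ) : Measurable fun η : Env => mass μ s R η 0 n :=
  Finset.measurable_fun_sum _ fun y _ => measurable_WR R _ n y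

theorem Sub_mass57 (R : Set Pt) (n : ℕ) : Sub fun η : Env => Real.log (mass μ s R η 0 n) :=
  Sub.of_le (Real.measurable_log.comp (mass_meas57 R n)) (Sub_Ac57 (μ := μ) (s := s) n).neg (Sub_Ac57 (μ := μ) (s := s) n)
    (fun η => (abs_le.1 (log_mass_le57 R η n)).1) (fun η => (abs_le.1 (log_mass_le57 R η n)).2)

variable [IsProbabilityMeasure μ]

/-- **DECORRELATION**, abstract. -/
theorem decor_of57 (hμ : EM μ) (s : ℝ) : ∃ M : ℝ, 1 ≤ M ∧ ∀ (n : ℕ) (v r : ℝ) (x : ℤ), 2 * r < x → ∀ B : Finset ℕ → Prop,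
    (∀ S, ¬ B S → Stay (Str57 v r 0) n S) → ∀ τ : ℝ, 0 < τ → τ ≤ 1 → ∫ η, bad57 μ s n B η ∂(law μ) ≤ τ ^ 4 →
    2 * Var[fun η => V μ s η 0 n; law μ] ≤
      ∫ η, (V μ s η (0, x) n - V μ s η 0 n) ^ 2 ∂(law μ) + M * ((n : ℝ) + 1) ^ 8 * τ := by
  obtain ⟨M₀, hM₀, hM⟩ := Ac57_four (μ := μ) hμ s
  refine ⟨200 * M₀, by linarith, fun n v r x hx B hB τ hτ hτ1 hbad => ?_⟩
  obtain ⟨R, hR⟩ : ∃ R : Set Pt, R = Str57 v r 0 := ⟨_, rfl⟩
  rw [← hR] at hB
  obtain ⟨D, hD⟩ : ∃ D : Env → ℝ, D = fun η => Real.log (mass μ s R η 0 n) := ⟨_, rfl⟩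
  obtain ⟨U, hU⟩ : ∃ U : Env → ℝ, U = fun η => V μ s η 0 n := ⟨_, rfl⟩
  obtain ⟨d, hd⟩ : ∃ d : Env → ℝ, d = fun η => U η - D η := ⟨_, rfl⟩
  obtain ⟨T, hT⟩ : ∃ T : Env → Env, T = sh (0, x) := ⟨_, rfl⟩
  have hDs : Sub D := by rw [hD]; exact Sub_mass57 R n
  have hUs : Sub U := by rw [hU]; exact Sub_V 0 n
  have hds : Sub d := by rw [hd]; exact hUs.sub hDs
  have hDT : Sub fun η => D (T η) := by rw [hT]; exact hDs.comp_sh _
  have hUT : Sub fun η => U (T η) := by rw [hT]; exact hUs.comp_sh _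
  have hdT : Sub fun η => d (T η) := by rw [hT]; exact hds.comp_sh _
  have inv : ∀ {f : Env → ℝ}, Measurable f → ∫ η, f (T η) ∂(law μ) = ∫ η, f η ∂(law μ) := fun hf => by
    rw [hT]
    exact int_sh (μ := μ) _ hf
  -- the law of `x`
  have hUx : ∀ η, V μ s η (0, x) n = U (T η) := fun η => by
    rw [hU, hT]
    show V μ s η (0, x) n = V μ s (sh (0, x) η) 0 n
    rw [V_sh, zero_add]
  have hU0 : ∀ η, V μ s η 0 n = U η := fun η => by rw [hU]
  -- independence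
  have hind : ∫ η, D η * D (T η) ∂(law μ) = (∫ η, D η ∂(law μ)) * ∫ η, D η ∂(law μ) := by
    have h1 : DependsOn D R := by rw [hD]; exact mass_dep57 R n
    have h2 : DependsOn (fun η => D (T η)) (Str57 v r x) := by
      intro η η' h
      show D (T η) = D (T η')
      refine h1 fun p hp => ?_
      rw [hT]
      show η (p + (0, x)) = η' (p + (0, x))
      refine h _ ?_
      rw [hR] at hp
      show |((p.2 + x : ℤ) : ℝ) - x - v * ((p.1 + 0 : ℤ) : ℝ)| ≤ r
      have h3 : |(p.2 : ℝ) - 0 - v * p.1| ≤ r := hp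
      rw [add_zero]
      push_cast
      have h4 : (p.2 : ℝ) + x - x - v * p.1 = (p.2 : ℝ) - 0 - v * p.1 := by ring
      rw [h4]
      exact h3
    have h3 : Disjoint R (Str57 v r x) := by
      rw [Set.disjoint_left]
      intro p hp hp2
      rw [hR] at hp
      have h4 : |(p.2 : ℝ) - 0 - v * p.1| ≤ r := hp
      have h5 : |(p.2 : ℝ) - x - v * p.1| ≤ r := hp2
      have h6 := abs_le.1 h4
      have h7 := abs_le.1 h5
      linarith [h6.1, h6.2, h7.1, h7.2]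
    rw [integral_indep hDs.1 hDT.1 h1 h2 h3, inv hDs.1]
  -- second moments
  obtain ⟨P, hP⟩ : ∃ P : ℝ, P = ((n : ℝ) + 1) ^ 8 := ⟨_, rfl⟩
  have hP1 : 1 ≤ P := by
    rw [hP]
    exact one_le_pow₀ (by have : (0 : ℝ) ≤ n := Nat.cast_nonneg n; linarith)
  have hA4 := hM n
  rw [← hP] at hA4
  have hAs := Sub_Ac57 (μ := μ) (s := s) n
  have iA4 := four_integrable57 hμ hAs
  have hb0 := bad57_nonneg (μ := μ) (s := s) n B
  have hb1 := bad57_le_one (μ := μ) (s := s) n B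
  have hbm := bad57_meas (μ := μ) (s := s) n B
  have ib : Integrable (bad57 μ s n B) (law μ) := Integrable.of_bound hbm.aestronglyMeasurable 1
    (Eventually.of_forall fun η => by rw [Real.norm_eq_abs, abs_of_nonneg (hb0 η)]; exact hb1 η)
  have hd2 : ∫ η, d η ^ 2 ∂(law μ) ≤ 12 * (M₀ * P) * τ ^ 2 := by
    have hpt : ∀ η, d η ^ 2 ≤ 4 * bad57 μ s n B η + (4 * τ ^ 2 * Ac57 μ s n η ^ 4 + 4 / τ ^ 2 * bad57 μ s n B η) := fun η => by
      have h1 := defect_sq57 (μ := μ) (s := s) R η n hB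
      have h2 : d η = V μ s η 0 n - Real.log (mass μ s R η 0 n) := by rw [hd, hU, hD]
      rw [h2]
      refine h1.trans ?_
      have h3 : 8 * (Ac57 μ s n η ^ 2 * bad57 μ s n B η) ≤ 4 * τ ^ 2 * Ac57 μ s n η ^ 4 + 4 / τ ^ 2 * bad57 μ s n B η := by
        obtain ⟨b, hb⟩ : ∃ b, b = bad57 μ s n B η := ⟨_, rfl⟩
        obtain ⟨A, hA⟩ : ∃ A, A = Ac57 μ s n η ^ 2 := ⟨_, rfl⟩
        have e1 : Ac57 μ s n η ^ 4 = A ^ 2 := by rw [hA]; ring
        have hb0' : 0 ≤ b := by rw [hb]; exact hb0 η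
        have hb1' : b ≤ 1 := by rw [hb]; exact hb1 η
        rw [← hb, e1, ← hA]
        have h4 : 8 * (A * b) ≤ 4 * τ ^ 2 * A ^ 2 + 4 / τ ^ 2 * b ^ 2 := by
          have h5 : 0 ≤ (τ * A - b / τ) ^ 2 := sq_nonneg _
          have h6 : (τ * A - b / τ) ^ 2 = τ ^ 2 * A ^ 2 - 2 * (A * b) + 1 / τ ^ 2 * b ^ 2 := by
            field_simp
            ring
          rw [h6] at h5
          have h7 : 4 / τ ^ 2 * b ^ 2 = 4 * (1 / τ ^ 2 * b ^ 2) := by ring
          rw [h7]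
          linarith
        have h5 : 4 / τ ^ 2 * b ^ 2 ≤ 4 / τ ^ 2 * b := mul_le_mul_of_nonneg_left (by nlinarith) (by positivity)
        linarith
      linarith
    calc ∫ η, d η ^ 2 ∂(law μ) ≤ ∫ η, (4 * bad57 μ s n B η + (4 * τ ^ 2 * Ac57 μ s n η ^ 4 + 4 / τ ^ 2 * bad57 μ s n B η)) ∂(law μ) :=
          integral_mono (hds.sq_integrable hμ) ((ib.const_mul 4).add ((iA4.const_mul _).add (ib.const_mul _))) hpt
      _ = 4 * ∫ η, bad57 μ s n B η ∂(law μ) + (4 * τ ^ 2 * ∫ η, Ac57 μ s n η ^ 4 ∂(law μ) +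
            4 / τ ^ 2 * ∫ η, bad57 μ s n B η ∂(law μ)) := by
          have g1 : ∫ η, 4 * bad57 μ s n B η ∂(law μ) = 4 * ∫ η, bad57 μ s n B η ∂(law μ) := integral_const_mul _ _
          have g2 : ∫ η, 4 * τ ^ 2 * Ac57 μ s n η ^ 4 ∂(law μ) = 4 * τ ^ 2 * ∫ η, Ac57 μ s n η ^ 4 ∂(law μ) := integral_const_mul _ _
          have g3 : ∫ η, 4 / τ ^ 2 * bad57 μ s n B η ∂(law μ) = 4 / τ ^ 2 * ∫ η, bad57 μ s n B η ∂(law μ) := integral_const_mul _ _
          have j1 : Integrable (fun η => 4 * τ ^ 2 * Ac57 μ s n η ^ 4 + 4 / τ ^ 2 * bad57 μ s n B η) (law μ) :=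
            (iA4.const_mul _).add (ib.const_mul _)
          rw [← g1, ← g2, ← g3, integral_add (ib.const_mul 4) j1, integral_add (iA4.const_mul _) (ib.const_mul _)]
      _ ≤ 4 * τ ^ 4 + (4 * τ ^ 2 * (M₀ * P) + 4 / τ ^ 2 * τ ^ 4) := by
          have h1 := mul_le_mul_of_nonneg_left hA4 (show 0 ≤ 4 * τ ^ 2 by positivity)
          have h2 := mul_le_mul_of_nonneg_left hbad (show 0 ≤ 4 / τ ^ 2 by positivity)
          linarith
      _ ≤ 12 * (M₀ * P) * τ ^ 2 := by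
          have e1 : 4 / τ ^ 2 * τ ^ 4 = 4 * τ ^ 2 := by field_simp
          have e2 : τ ^ 4 ≤ τ ^ 2 := pow_le_pow_of_le_one hτ.le hτ1 (by norm_num)
          have e3 : 1 ≤ M₀ * P := one_le_mul_of_one_le_of_one_le hM₀ hP1
          have e4 := mul_le_mul_of_nonneg_right e3 (sq_nonneg τ)
          have e5 : 12 * (M₀ * P) * τ ^ 2 = 12 * (M₀ * P * τ ^ 2) := by ring
          have e6 : 4 * τ ^ 2 * (M₀ * P) = 4 * (M₀ * P * τ ^ 2) := by ring
          rw [e1, e5, e6]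
          linarith
  have hD2 : ∫ η, D η ^ 2 ∂(law μ) ≤ M₀ * P + 1 := by
    calc ∫ η, D η ^ 2 ∂(law μ) ≤ ∫ η, (Ac57 μ s n η ^ 4 + 1) ∂(law μ) := by
          refine integral_mono (hDs.sq_integrable hμ) (iA4.add (integrable_const 1)) fun η => ?_
          have h1 : |D η| ≤ Ac57 μ s n η := by rw [hD]; exact log_mass_le57 _ _ _
          have h2 : D η ^ 2 ≤ Ac57 μ s n η ^ 2 := by
            rw [← sq_abs (D η)]
            exact pow_le_pow_left₀ (abs_nonneg _) h1 2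
          show D η ^ 2 ≤ Ac57 μ s n η ^ 4 + 1
          nlinarith [sq_nonneg (Ac57 μ s n η ^ 2 - 1)]
      _ = ∫ η, Ac57 μ s n η ^ 4 ∂(law μ) + 1 := by
          rw [integral_add iA4 (integrable_const 1)]
          simp
      _ ≤ M₀ * P + 1 := by linarith
  -- Young
  have young : ∀ {f g : Env → ℝ}, Sub f → Sub g → ∀ t : ℝ, 0 < t →
      |∫ η, f η * g η ∂(law μ)| ≤ t * ∫ η, f η ^ 2 ∂(law μ) + 1 / t * ∫ η, g η ^ 2 ∂(law μ) := by
    intro f g hf hg t ht
    have i1 := hf.sq_integrable hμ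
    have i2 := hg.sq_integrable hμ
    have g1 : ∫ η, t * f η ^ 2 ∂(law μ) = t * ∫ η, f η ^ 2 ∂(law μ) := integral_const_mul _ _
    have g2 : ∫ η, 1 / t * g η ^ 2 ∂(law μ) = 1 / t * ∫ η, g η ^ 2 ∂(law μ) := integral_const_mul _ _
    have h1 : |∫ η, f η * g η ∂(law μ)| ≤ ∫ η, |f η * g η| ∂(law μ) := abs_integral_le_integral_abs
    refine h1.trans ?_
    rw [← g1, ← g2, ← integral_add (i1.const_mul t) (i2.const_mul (1 / t))]
    refine integral_mono (Sub.mul_integrable hμ hf hg).abs ((i1.const_mul t).add (i2.const_mul (1 / t))) fun η => ?_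
    show |f η * g η| ≤ t * f η ^ 2 + 1 / t * g η ^ 2
    rw [abs_mul]
    have h2 : 0 ≤ t * (|f η| - |g η| / t) ^ 2 := by positivity
    have h3 : t * (|f η| - |g η| / t) ^ 2 = t * |f η| ^ 2 - 2 * (|f η| * |g η|) + 1 / t * |g η| ^ 2 := by
      field_simp
      ring
    rw [h3, sq_abs, sq_abs] at h2
    have h4 := mul_nonneg (abs_nonneg (f η)) (abs_nonneg (g η))
    linarith
  -- the covariance
  obtain ⟨m, hm⟩ : ∃ m, m = ∫ η, D η ∂(law μ) := ⟨_, rfl⟩
  obtain ⟨e, he⟩ : ∃ e, e = ∫ η, d η ∂(law μ) := ⟨_, rfl⟩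
  obtain ⟨I₁, hI₁⟩ : ∃ I, I = ∫ η, D η * d (T η) ∂(law μ) := ⟨_, rfl⟩
  obtain ⟨I₂, hI₂⟩ : ∃ I, I = ∫ η, D (T η) * d η ∂(law μ) := ⟨_, rfl⟩
  obtain ⟨I₃, hI₃⟩ : ∃ I, I = ∫ η, d η * d (T η) ∂(law μ) := ⟨_, rfl⟩
  have iDD := Sub.mul_integrable hμ hDs hDT
  have iDd := Sub.mul_integrable hμ hDs hdT
  have idD := Sub.mul_integrable hμ hDT hds
  have idd := Sub.mul_integrable hμ hds hdT
  have hUd : ∀ η, U η = D η + d η := fun η => by rw [hd]; ring
  have c1 : ∫ η, U η * U (T η) ∂(law μ) = m ^ 2 + I₁ + I₂ + I₃ := by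
    have h1 : ∀ η, U η * U (T η) = D η * D (T η) + D η * d (T η) + D (T η) * d η + d η * d (T η) := fun η => by
      rw [hUd η, hUd (T η)]
      ring
    have j1 : Integrable (fun η => D η * D (T η) + D η * d (T η)) (law μ) := iDD.add iDd
    have j2 : Integrable (fun η => D η * D (T η) + D η * d (T η) + D (T η) * d η) (law μ) := j1.add idD
    rw [integral_congr_ae (Eventually.of_forall h1), integral_add j2 idd, integral_add j1 idD,
      integral_add iDD iDd, hind, ← hm, ← hI₁, ← hI₂, ← hI₃]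
    ring
  have c2 : ∫ η, U η ∂(law μ) = m + e := by
    rw [integral_congr_ae (Eventually.of_forall hUd), integral_add (hDs.integrable hμ) (hds.integrable hμ), ← hm, ← he]
  have c3 : ∫ η, (V μ s η (0, x) n - V μ s η 0 n) ^ 2 ∂(law μ) = 2 * ∫ η, U η ^ 2 ∂(law μ) - 2 * ∫ η, U η * U (T η) ∂(law μ) := by
    have h1 : ∀ η, (V μ s η (0, x) n - V μ s η 0 n) ^ 2 = U (T η) ^ 2 + U η ^ 2 - 2 * (U η * U (T η)) := fun η => by
      rw [hUx, hU0]
      ring
    have iU2 := hUs.sq_integrable hμ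
    have iUT2 := hUT.sq_integrable hμ
    have iUU := Sub.mul_integrable hμ hUs hUT
    have h2 : ∫ η, U (T η) ^ 2 ∂(law μ) = ∫ η, U η ^ 2 ∂(law μ) := inv (f := fun η => U η ^ 2) (hUs.1.pow_const 2)
    have h3 : ∫ η, 2 * (U η * U (T η)) ∂(law μ) = 2 * ∫ η, U η * U (T η) ∂(law μ) := integral_const_mul _ _
    have j1 : Integrable (fun η => U (T η) ^ 2 + U η ^ 2) (law μ) := iUT2.add iU2
    rw [integral_congr_ae (Eventually.of_forall h1), integral_sub j1 (iUU.const_mul 2), integral_add iUT2 iU2, h2, h3]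
    ring
  have c4 : Var[fun η => V μ s η 0 n; law μ] = ∫ η, U η ^ 2 ∂(law μ) - (m + e) ^ 2 := by
    have h1 : MemLp U 2 (law μ) := (memLp_two_iff_integrable_sq hUs.1.aestronglyMeasurable).2 (hUs.sq_integrable hμ)
    have h2 := variance_eq_sub h1
    have h3 : (fun η => V μ s η 0 n) = U := hU.symm
    rw [h3, h2, ← c2]
    rfl
  -- the bounds of the errors
  have hMP : 0 < M₀ * P := by positivity
  have k1 := young hDs hdT τ hτ
  have k2 := young hDT hds τ hτ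
  have k3 := young hds hdT 1 one_pos
  have jen : ∀ {f : Env → ℝ}, Sub f → (∫ η, f η ∂(law μ)) ^ 2 ≤ ∫ η, f η ^ 2 ∂(law μ) := fun {f} hf => by
    have h1 : MemLp f 2 (law μ) := (memLp_two_iff_integrable_sq hf.1.aestronglyMeasurable).2 (hf.sq_integrable hμ)
    have h2 := variance_eq_sub h1
    have h3 := variance_nonneg f (law μ)
    rw [h2] at h3
    have h4 : ∫ η, f η ^ 2 ∂(law μ) = ∫ η, (f ^ 2) η ∂(law μ) := rfl
    rw [h4]
    linarith
  have q1 : ∫ η, d (T η) ^ 2 ∂(law μ) = ∫ η, d η ^ 2 ∂(law μ) := inv (f := fun η => d η ^ 2) (hds.1.pow_const 2)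
  have q2 : ∫ η, D (T η) ^ 2 ∂(law μ) = ∫ η, D η ^ 2 ∂(law μ) := inv (f := fun η => D η ^ 2) (hDs.1.pow_const 2)
  have q3 := jen hDs
  have q4 := jen hds
  rw [q1, ← hI₁] at k1
  rw [q2, ← hI₂] at k2
  rw [q1, ← hI₃, one_mul, div_one, one_mul] at k3
  rw [← hm] at q3
  rw [← he] at q4
  obtain ⟨a, ha⟩ : ∃ a, a = ∫ η, D η ^ 2 ∂(law μ) := ⟨_, rfl⟩
  obtain ⟨b, hb⟩ : ∃ b, b = ∫ η, d η ^ 2 ∂(law μ) := ⟨_, rfl⟩
  rw [← ha] at k1 k2 q3 hD2
  rw [← hb] at k1 k2 k3 q4 hd2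
  obtain ⟨G, hG⟩ : ∃ G, G = M₀ * P := ⟨_, rfl⟩
  have hG1 : 1 ≤ G := by rw [hG]; exact one_le_mul_of_one_le_of_one_le hM₀ hP1
  rw [← hG] at hd2 hD2
  have l1 : 1 / τ * b ≤ 12 * G * τ := by
    have h1 := mul_le_mul_of_nonneg_left hd2 (show 0 ≤ 1 / τ by positivity)
    have h2 : 1 / τ * (12 * G * τ ^ 2) = 12 * G * τ := by field_simp
    linarith
  have l2 : τ * a ≤ 2 * G * τ := by
    have h1 := mul_le_mul_of_nonneg_left (show a ≤ 2 * G by linarith) hτ.le
    have h2 : τ * (2 * G) = 2 * G * τ := by ring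
    linarith
  have l3 : b ≤ 12 * G * τ := by
    have h1 : τ ^ 2 ≤ τ := by
      have h0 := mul_le_mul_of_nonneg_left hτ1 hτ.le
      have h2 : τ ^ 2 = τ * τ := by ring
      linarith
    have h2 := mul_le_mul_of_nonneg_left h1 (show 0 ≤ 12 * G by positivity)
    linarith
  have l4 : -(2 * m * e) ≤ τ * a + 1 / τ * b := by
    have h1 : 0 ≤ τ * (m + e / τ) ^ 2 := by positivity
    have h2 : τ * (m + e / τ) ^ 2 = τ * m ^ 2 + 2 * m * e + 1 / τ * e ^ 2 := by
      field_simp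
      ring
    rw [h2] at h1
    have h3 := mul_le_mul_of_nonneg_left q3 hτ.le
    have h4 := mul_le_mul_of_nonneg_left q4 (show 0 ≤ 1 / τ by positivity)
    linarith
  have l5 := (abs_le.1 k1).2
  have l6 := (abs_le.1 k2).2
  have l7 := (abs_le.1 k3).2
  rw [c3, c4, c1]
  have l8 : 200 * M₀ * ((n : ℝ) + 1) ^ 8 * τ = 200 * G * τ := by rw [hG, hP]; ring
  rw [l8]
  have l9 : 0 ≤ G * τ := by positivity
  have l10 : (m + e) ^ 2 = m ^ 2 + 2 * m * e + e ^ 2 := by ring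
  have l11 := sq_nonneg e
  rw [l10]
  have l12 : (200 : ℝ) * G * τ = 200 * (G * τ) := by ring
  have l13 : (12 : ℝ) * G * τ = 12 * (G * τ) := by ring
  have l14 : (2 : ℝ) * G * τ = 2 * (G * τ) := by ring
  rw [l12]
  rw [l13] at l1 l3
  rw [l14] at l2
  clear c1 c2 c3 c4 hind ib iDD iDd idD idd young jen
  linarith

end

end Pool.Agent.W_7d29a1_UB
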