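import Pool.Agent.W_7d29a1_UB.DecA57
import Pool.Agent.W_7d29a1_HZ.Z96_ScaleZ

/-!
STORM UB (MP_7d29a1_pr), decorrelation, part 2: from the absence of steep places for free ends. (helper57)
-/

set_option autoImplicit false

namespace Pool.Agent.W_7d29a1_UB

open MeasureTheory ProbabilityTheory Filter Topology Finset
open Pool.Agent.W_7d29a1_F Pool.Agent.W_7d29a1_X Pool.Agent.W_7d29a1_LB
open Pool.Agent.W_7d29a1_H (sl)
open Pool.Agent.W_7d29a1_HS (In wd)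
open Pool.Agent.W_7d29a1_HZ (wd')

noncomputable section

variable {μ : Measure ℝ} {s : ℝ}

/-- All the increments of the path `S` of length `n` are at most `n ^ ε wd'` (this is `NSp μ s n n ε S`). -/
def NSp57 (μ : Measure ℝ) (s : ℝ) (n : ℕ) (ε : ℝ) (S : Finset ℕ) : Prop :=
  ∀ i r : ℕ, 1 ≤ r → i + r ≤ n → |((pos S (i + r) - pos S i : ℤ) : ℝ) - sl μ s * r| ≤ ((n : ℝ) ^ ε * wd' μ s r)

theorem poly_le_exp57 {e : ℝ} (he : 0 < e) (M : ℝ) (hM : 0 ≤ M) :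
    ∀ᶠ n : ℕ in atTop, M * ((n : ℝ) + 1) ^ 8 ≤ Real.exp ((n : ℝ) ^ e) := by
  have t1 := tendsto_natCast_atTop_atTop (R := ℝ)
  have h1 : Tendsto (fun n : ℕ => Real.exp ((n : ℝ) ^ e) / ((n : ℝ) ^ e) ^ (8 / e)) atTop atTop :=
    (tendsto_exp_div_rpow_atTop (8 / e)).comp ((tendsto_rpow_atTop he).comp t1)
  filter_upwards [h1.eventually_ge_atTop (256 * M), eventually_ge_atTop 1] with n hn hn1
  have hn1R : (1 : ℝ) ≤ n := by exact_mod_cast hn1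
  have hn0 : (0 : ℝ) < n := by linarith
  have e1 : ((n : ℝ) ^ e) ^ (8 / e) = (n : ℝ) ^ (8 : ℕ) := by
    rw [← Real.rpow_mul hn0.le]
    have : e * (8 / e) = ((8 : ℕ) : ℝ) := by
      field_simp
      norm_num
    rw [this, Real.rpow_natCast]
  have hp : 0 < (n : ℝ) ^ (8 : ℕ) := by positivity
  rw [e1, le_div_iff₀ hp] at hn
  refine le_trans ?_ hn
  have h2 : ((n : ℝ) + 1) ^ 8 ≤ (2 * n) ^ 8 := pow_le_pow_left₀ (by positivity) (by linarith) 8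
  have h3 : (2 * (n : ℝ)) ^ 8 = 256 * n ^ 8 := by rw [mul_pow]; norm_num
  have h4 := mul_le_mul_of_nonneg_left h2 hM
  rw [h3] at h4
  linarith

variable [IsProbabilityMeasure μ] {c C : ℝ} {n₀ : ℕ}

open Classical in
/-- **DECORRELATION**, from the absence of steep places. -/
theorem decor_of_ns57 (h : In μ s c C n₀) (hNS : ∀ ε : ℝ, 0 < ε → ∃ c' : ℝ, 0 < c' ∧ ∃ N₀ : ℕ, ∀ N : ℕ, N₀ ≤ N →
    ∫ η, ∑ S ∈ (range N).powerset, GS μ s η N S * (if NSp57 μ s N ε S then 0 else 1) ∂(law μ) ≤ Real.exp (-(N : ℝ) ^ c'))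
    {ε : ℝ} (hε : 0 < ε) : ∃ c' : ℝ, 0 < c' ∧ ∃ N₀ : ℕ, ∀ n : ℕ, N₀ ≤ n → ∀ x : ℤ, (n : ℝ) ^ ε * wd' μ s n ≤ x →
    2 * Var[fun η => V μ s η 0 n; law μ] ≤
      ∫ η, (V μ s η (0, x) n - V μ s η 0 n) ^ 2 ∂(law μ) + Real.exp (-(n : ℝ) ^ c') := by
  obtain ⟨M, hM, hdec⟩ := decor_of57 (μ := μ) h.em s
  obtain ⟨c₁, hc₁, N₁, hbad⟩ := hNS (ε / 2) (by positivity)
  obtain ⟨a, K, -, -, hK, hwd⟩ := Pool.Agent.W_7d29a1_HZ.Z96.wd_all96 h
  have hev : ∀ (e : ℝ), 0 < e → ∀ B : ℝ, ∀ᶠ n : ℕ in atTop, B ≤ (n : ℝ) ^ e := fun e he B =>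
    ((tendsto_rpow_atTop he).comp tendsto_natCast_atTop_atTop).eventually_ge_atTop B
  have hall := (hev (ε / 2) (by positivity) (2 * K + 1)).and ((hev (c₁ / 2) (by positivity) 8).and
    ((poly_le_exp57 (show 0 < c₁ / 2 by positivity) M (by linarith)).and (eventually_ge_atTop (max N₁ 1))))
  obtain ⟨N₀, hN₀⟩ := eventually_atTop.1 hall
  refine ⟨c₁ / 2, by positivity, N₀, fun n hn x hx => ?_⟩
  obtain ⟨g1, g2, g3, g4⟩ := hN₀ n hn
  have hnN₁ : N₁ ≤ n := (le_max_left _ _).trans g4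
  have hn1 : 1 ≤ n := (le_max_right _ _).trans g4
  have hn1R : (1 : ℝ) ≤ n := by exact_mod_cast hn1
  have hn0 : (0 : ℝ) < n := by linarith
  have hw1 : 1 ≤ wd' μ s n := le_max_left _ _
  obtain ⟨r, hr⟩ : ∃ r : ℝ, r = (n : ℝ) ^ (ε / 2) * (K * wd' μ s n) := ⟨_, rfl⟩
  have hrx : 2 * r < x := by
    have e1 : (n : ℝ) ^ ε = (n : ℝ) ^ (ε / 2) * (n : ℝ) ^ (ε / 2) := by
      rw [← Real.rpow_add hn0]
      congr 1
      ring
    have p1 : 0 < (n : ℝ) ^ (ε / 2) := by positivity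
    have p2 : 0 < (n : ℝ) ^ (ε / 2) * wd' μ s n := by positivity
    have h1 := mul_le_mul_of_nonneg_right g1 p2.le
    rw [e1] at hx
    rw [hr]
    calc 2 * ((n : ℝ) ^ (ε / 2) * (K * wd' μ s n)) < (2 * K + 1) * ((n : ℝ) ^ (ε / 2) * wd' μ s n) := by linarith
      _ ≤ (n : ℝ) ^ (ε / 2) * ((n : ℝ) ^ (ε / 2) * wd' μ s n) := h1
      _ = (n : ℝ) ^ (ε / 2) * (n : ℝ) ^ (ε / 2) * wd' μ s n := by ring
      _ ≤ x := hx
  have hst : ∀ S, ¬ (¬ NSp57 μ s n (ε / 2) S) → Stay (Str57 (sl μ s) r 0) n S := by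
    intro S hS i hi
    rw [not_not] at hS
    have h1 := hS 0 (i + 1) (by omega) (by omega)
    have h2 := (hwd (i + 1) n (by omega) (by omega)).1
    rw [Nat.zero_add, pos_zero, sub_zero] at h1
    show |((pos S (i + 1) : ℤ) : ℝ) - 0 - sl μ s * (((i : ℤ) + 1 : ℤ) : ℝ)| ≤ r
    rw [sub_zero]
    push_cast at h1 ⊢
    refine h1.trans ?_
    rw [hr]
    exact mul_le_mul_of_nonneg_left h2 (by positivity)
  obtain ⟨τ, hτ⟩ : ∃ τ : ℝ, τ = Real.exp (-(n : ℝ) ^ c₁ / 4) := ⟨_, rfl⟩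
  have hτ4 : τ ^ 4 = Real.exp (-(n : ℝ) ^ c₁) := by
    rw [hτ, ← Real.exp_nat_mul]
    congr 1
    push_cast
    ring
  have hτ0 : 0 < τ := by rw [hτ]; exact Real.exp_pos _
  have hτ1 : τ ≤ 1 := by
    rw [hτ, Real.exp_le_one_iff]
    have : 0 ≤ (n : ℝ) ^ c₁ := by positivity
    linarith
  have hb : ∫ η, bad57 μ s n (fun S => ¬ NSp57 μ s n (ε / 2) S) η ∂(law μ) ≤ τ ^ 4 := by
    rw [hτ4]
    refine le_trans (le_of_eq ?_) (hbad n hnN₁)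
    refine integral_congr_ae (Eventually.of_forall fun η => ?_)
    show bad57 μ s n (fun S => ¬ NSp57 μ s n (ε / 2) S) η = _
    unfold bad57
    refine sum_congr rfl fun S _ => ?_
    by_cases h1 : NSp57 μ s n (ε / 2) S
    · rw [if_neg (not_not.2 h1), if_pos h1]
    · rw [if_pos h1, if_neg h1]
  refine (hdec n (sl μ s) r x hrx _ hst τ hτ0 hτ1 hb).trans ?_
  have h1 : M * ((n : ℝ) + 1) ^ 8 * τ ≤ Real.exp (-(n : ℝ) ^ (c₁ / 2)) := by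
    have h2 : M * ((n : ℝ) + 1) ^ 8 * τ ≤ Real.exp ((n : ℝ) ^ (c₁ / 2)) * τ := mul_le_mul_of_nonneg_right g3 hτ0.le
    refine h2.trans ?_
    rw [hτ, ← Real.exp_add]
    refine Real.exp_le_exp.2 ?_
    have e1 : (n : ℝ) ^ c₁ = (n : ℝ) ^ (c₁ / 2) * (n : ℝ) ^ (c₁ / 2) := by
      rw [← Real.rpow_add hn0]
      congr 1
      ring
    have p1 : 0 < (n : ℝ) ^ (c₁ / 2) := by positivity
    have h3 := mul_le_mul_of_nonneg_right g2 p1.le
    rw [e1]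
    linarith
  linarith

end

end Pool.Agent.W_7d29a1_UB
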