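import Pool.Agent.W_7d29a1_UB.End
import Pool.Agent.W_7d29a1_HS.CoreS

/-!
STORM UB (MP_7d29a1_pr, row 674, helper60), conclusion: `Var log Z_n ≤ n ^ ε w_n` from the step. (helper92)
-/

set_option autoImplicit false

namespace Pool.Agent.W_7d29a1_UB

open MeasureTheory ProbabilityTheory Filter Topology Finset
open Pool.Agent.W_7d29a1_F Pool.Agent.W_7d29a1_X Pool.Agent.W_7d29a1_h4g Pool.Agent.W_7d29a1_H
open Pool.Agent.W_7d29a1_HS (In wd sV)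
open Pool.Agent.W_7d29a1_HZ (NSp wd' EE')
open Pool.Agent.W_7d29a1_LB (NSFr)
open Pool.Agent.W_7d29a1_h47 (EM Nondeg)

noncomputable section

variable {μ : Measure ℝ} {s : ℝ}

/-- The sum of the steps. -/
theorem inc_sum {n m : ℕ} {b : ℝ} (h : ∀ x : ℕ, m ≤ x → x ≤ n → Inc μ s n (x + 1) ≤ Inc μ s n x + b) :
    ∀ k : ℕ, m + k ≤ n + 1 → Inc μ s n (m + k) ≤ Inc μ s n m + k * b
  | 0, _ => by simp
  | k + 1, hk => by
    have h1 := inc_sum h k (by omega)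
    have h2 := h (m + k) (by omega) (by omega)
    rw [← add_assoc]
    push_cast
    linarith

/-- **The increment at the width.** -/
theorem inc_le [IsProbabilityMeasure μ] {c C : ℝ} {n₀ : ℕ} (h : In μ s c C n₀) (hBdd : BddF μ s) (hS : StepU μ s) {ε : ℝ} (hε : 0 < ε) :
    ∃ N₀ : ℕ, ∀ n : ℕ, N₀ ≤ n → ∀ x : ℕ, 1 ≤ x → x ≤ n → Inc μ s n x ≤ (n : ℝ) ^ ε * x := by
  obtain ⟨e, he⟩ : ∃ e : ℝ, e = min (ε / 2) 1 := ⟨_, rfl⟩
  have he0 : 0 < e := by rw [he]; exact lt_min (by positivity) one_pos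
  have he1 : e ≤ 1 := by rw [he]; exact min_le_right _ _
  have he2 : e ≤ ε / 2 := by rw [he]; exact min_le_left _ _
  obtain ⟨δ₁, hδ₁, N₁, hcr⟩ := crude_inc h hBdd he0 he1
  obtain ⟨δ₀, hδ₀, hst⟩ := hS e he0
  obtain ⟨δ, hδ⟩ : ∃ δ : ℝ, δ = min δ₀ (δ₁ / 2) := ⟨_, rfl⟩
  have hδp : 0 < δ := by rw [hδ]; exact lt_min hδ₀ (by positivity)
  have hδa : δ ≤ δ₀ := by rw [hδ]; exact min_le_left _ _
  have hδb : δ ≤ δ₁ / 2 := by rw [hδ]; exact min_le_right _ _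
  obtain ⟨N₂, hst⟩ := hst δ hδp hδa
  have hev : ∀ (e : ℝ), 0 < e → ∀ B : ℝ, ∀ᶠ n : ℕ in atTop, B ≤ (n : ℝ) ^ e := fun e he B =>
    ((tendsto_rpow_atTop he).comp tendsto_natCast_atTop_atTop).eventually_ge_atTop B
  obtain ⟨N₀, hN₀⟩ := eventually_atTop.1 ((hev (δ₁ / 2) (by positivity) 2).and ((hev (ε / 2) (by positivity) 2).and
    (eventually_ge_atTop (max (max N₁ N₂) 1))))
  refine ⟨N₀, fun n hn x hx1 hxn => ?_⟩
  obtain ⟨g1, g2, g3⟩ := hN₀ n hn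
  have hnN₁ : N₁ ≤ n := (le_max_left _ _).trans ((le_max_left _ _).trans g3)
  have hnN₂ : N₂ ≤ n := (le_max_right _ _).trans ((le_max_left _ _).trans g3)
  have hnR : (1 : ℝ) ≤ n := by exact_mod_cast (le_max_right _ _).trans g3
  have hn0 : (0 : ℝ) < n := by linarith
  have hxR : (1 : ℝ) ≤ x := by exact_mod_cast hx1
  have hne : (n : ℝ) ^ e ≤ (n : ℝ) ^ (ε / 2) := Real.rpow_le_rpow_of_exponent_le hnR he2
  have hee : (n : ℝ) ^ ε = (n : ℝ) ^ (ε / 2) * (n : ℝ) ^ (ε / 2) := by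
    rw [← Real.rpow_add hn0]
    congr 1
    ring
  have hp : 1 ≤ (n : ℝ) ^ (ε / 2) := Real.one_le_rpow hnR (by positivity)
  have h2 : 2 * (n : ℝ) ^ (ε / 2) ≤ (n : ℝ) ^ ε := by
    rw [hee]
    exact mul_le_mul_of_nonneg_right g2 (by positivity)
  rcases le_or_gt ((x : ℝ)) ((n : ℝ) ^ δ₁) with hc | hc
  · refine (hcr n hnN₁ x hc).trans ?_
    have h3 : (n : ℝ) ^ ε ≤ (n : ℝ) ^ ε * x := le_mul_of_one_le_right (by positivity) hxR
    linarith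
  · obtain ⟨m, hm⟩ : ∃ m : ℕ, m = ⌈(n : ℝ) ^ δ⌉₊ := ⟨_, rfl⟩
    have hm1 : (n : ℝ) ^ δ ≤ m := by rw [hm]; exact Nat.le_ceil _
    have hδ1 : 1 ≤ (n : ℝ) ^ δ := Real.one_le_rpow hnR hδp.le
    have hm2 : (m : ℝ) ≤ (n : ℝ) ^ δ₁ := by
      have h3 := Nat.ceil_lt_add_one (show 0 ≤ (n : ℝ) ^ δ by positivity)
      have h4 : 2 * (n : ℝ) ^ δ ≤ (n : ℝ) ^ δ₁ := by
        calc 2 * (n : ℝ) ^ δ ≤ (n : ℝ) ^ (δ₁ / 2) * (n : ℝ) ^ (δ₁ / 2) := by
              exact mul_le_mul g1 (Real.rpow_le_rpow_of_exponent_le hnR hδb) (by positivity) (by positivity)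
          _ = (n : ℝ) ^ δ₁ := by
              rw [← Real.rpow_add hn0]
              congr 1
              ring
      rw [hm]
      linarith
    have hmx : m ≤ x := by
      have : (m : ℝ) ≤ x := by linarith
      exact_mod_cast this
    obtain ⟨k, hk⟩ : ∃ k : ℕ, x = m + k := ⟨x - m, by omega⟩
    have h3 := inc_sum (μ := μ) (s := s) (n := n) (m := m) (b := (n : ℝ) ^ e) (fun y hy hyn => hst n hnN₂ y (hm1.trans (by exact_mod_cast hy)) hyn)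
      k (by omega)
    rw [← hk] at h3
    have h4 := hcr n hnN₁ m hm2
    have h5 : (k : ℝ) ≤ x := by
      rw [hk]
      push_cast
      linarith [(Nat.cast_nonneg m : (0 : ℝ) ≤ m)]
    have h6 : (k : ℝ) * (n : ℝ) ^ e ≤ x * (n : ℝ) ^ (ε / 2) := mul_le_mul h5 hne (by positivity) (by positivity)
    have h7 : (n : ℝ) ^ (ε / 2) ≤ x * (n : ℝ) ^ (ε / 2) := le_mul_of_one_le_left (by positivity) hxR
    have h8 := mul_le_mul_of_nonneg_right h2 (show (0 : ℝ) ≤ x by linarith)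
    nlinarith

/-- **STORM UB: the variance of the free energy is at most the width, up to `n ^ ε`.** -/
theorem ub_var [IsProbabilityMeasure μ] {c C : ℝ} {n₀ : ℕ} (h : In μ s c C n₀) (hNS : NSFr μ s) (hBdd : BddF μ s) (hS : StepU μ s) :
    ∀ ε : ℝ, 0 < ε → ∃ N₀ : ℕ, ∀ n : ℕ, N₀ ≤ n → Var[fun η => V μ s η 0 n; law μ] ≤ (n : ℝ) ^ ε * wd' μ s n := by
  intro ε hε
  obtain ⟨a, K, ha, ha1, hK, hwd⟩ := Pool.Agent.W_7d29a1_HZ.Z96.wd_all96 h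
  obtain ⟨e, he⟩ : ∃ e : ℝ, e = min (ε / 4) (a / 2) := ⟨_, rfl⟩
  have he0 : 0 < e := by rw [he]; exact lt_min (by positivity) (by positivity)
  have he1 : e ≤ a / 2 := by rw [he]; exact min_le_right _ _
  have he2 : e ≤ ε / 4 := by rw [he]; exact min_le_left _ _
  obtain ⟨N₁, hv⟩ := var_le_inc h hNS he0
  obtain ⟨N₂, hi⟩ := inc_le h hBdd hS (show 0 < ε / 4 by positivity)
  obtain ⟨K₁, hK₁⟩ : ∃ K₁ : ℝ, K₁ = K * wd' μ s 1 := ⟨_, rfl⟩
  have hK₁0 : 0 < K₁ := by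
    rw [hK₁]
    exact mul_pos (by linarith) (lt_of_lt_of_le one_pos (le_max_left _ _))
  have hev : ∀ (e : ℝ), 0 < e → ∀ B : ℝ, ∀ᶠ n : ℕ in atTop, B ≤ (n : ℝ) ^ e := fun e he B =>
    ((tendsto_rpow_atTop he).comp tendsto_natCast_atTop_atTop).eventually_ge_atTop B
  obtain ⟨N₀, hN₀⟩ := eventually_atTop.1 ((hev (a / 2) (by positivity) (2 * K₁)).and ((hev (ε / 4) (by positivity) 5).and
    (eventually_ge_atTop (max (max N₁ N₂) 1))))
  refine ⟨N₀, fun n hn => ?_⟩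
  obtain ⟨g1, g2, g3⟩ := hN₀ n hn
  have hnN₁ : N₁ ≤ n := (le_max_left _ _).trans ((le_max_left _ _).trans g3)
  have hnN₂ : N₂ ≤ n := (le_max_right _ _).trans ((le_max_left _ _).trans g3)
  have hn1 : 1 ≤ n := (le_max_right _ _).trans g3
  have hnR : (1 : ℝ) ≤ n := by exact_mod_cast hn1
  have hn0 : (0 : ℝ) < n := by linarith
  have hw : 1 ≤ wd' μ s n := le_max_left _ _
  have hne : 1 ≤ (n : ℝ) ^ e := Real.one_le_rpow hnR he0.le
  obtain ⟨x, hx⟩ : ∃ x : ℕ, x = ⌈(n : ℝ) ^ e * wd' μ s n⌉₊ := ⟨_, rfl⟩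
  have hq : 1 ≤ (n : ℝ) ^ e * wd' μ s n := one_le_mul_of_one_le_of_one_le hne hw
  have hx1 : (n : ℝ) ^ e * wd' μ s n ≤ x := by rw [hx]; exact Nat.le_ceil _
  have hx2 : (x : ℝ) ≤ 2 * ((n : ℝ) ^ e * wd' μ s n) := by
    have h3 := Nat.ceil_lt_add_one (show 0 ≤ (n : ℝ) ^ e * wd' μ s n by linarith)
    rw [hx]
    linarith
  have hxR : (1 : ℝ) ≤ x := hq.trans hx1
  have hxp : 1 ≤ x := by exact_mod_cast hxR
  have hxn : x ≤ n := by
    have h3 : wd' μ s n ≤ K * ((n : ℝ) / (1 : ℕ)) ^ (1 - a) * wd' μ s 1 := (hwd 1 n le_rfl hn1).2.2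
    rw [Nat.cast_one, div_one] at h3
    have h4 : wd' μ s n ≤ K₁ * (n : ℝ) ^ (1 - a) := by rw [hK₁]; linarith
    have h5 : (n : ℝ) ^ e ≤ (n : ℝ) ^ (a / 2) := Real.rpow_le_rpow_of_exponent_le hnR he1
    have h6 : (x : ℝ) ≤ n := by
      calc (x : ℝ) ≤ 2 * ((n : ℝ) ^ e * wd' μ s n) := hx2
        _ ≤ 2 * ((n : ℝ) ^ (a / 2) * (K₁ * (n : ℝ) ^ (1 - a))) := by
            refine mul_le_mul_of_nonneg_left (mul_le_mul h5 h4 (by linarith) (by positivity)) (by norm_num)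
        _ = 2 * K₁ * ((n : ℝ) ^ (a / 2) * (n : ℝ) ^ (1 - a)) := by ring
        _ ≤ (n : ℝ) ^ (a / 2) * ((n : ℝ) ^ (a / 2) * (n : ℝ) ^ (1 - a)) := mul_le_mul_of_nonneg_right g1 (by positivity)
        _ = (n : ℝ) ^ (1 : ℝ) := by
            rw [← Real.rpow_add hn0, ← Real.rpow_add hn0]
            congr 1
            ring
        _ = n := Real.rpow_one _
    exact_mod_cast h6
  have h1 := hv n hnN₁ (x : ℤ) (by rw [Int.cast_natCast]; exact hx1)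
  have h2 : ∫ η, (V μ s η (0, (x : ℤ)) n - V μ s η 0 n) ^ 2 ∂(law μ) ≤ (n : ℝ) ^ (ε / 4) * x := hi n hnN₂ x hxp hxn
  obtain ⟨y, hy⟩ : ∃ y : ℝ, y = (n : ℝ) ^ (ε / 4) := ⟨_, rfl⟩
  have hy1 : 1 ≤ y := by rw [hy]; exact Real.one_le_rpow hnR (by positivity)
  have hye : (n : ℝ) ^ e ≤ y := by rw [hy]; exact Real.rpow_le_rpow_of_exponent_le hnR he2
  have hy3 : (n : ℝ) ^ ε = y ^ 4 := by
    rw [hy, ← Real.rpow_natCast, ← Real.rpow_mul hn0.le]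
    congr 1
    push_cast
    ring
  rw [← hy] at h2 g2
  rw [hy3]
  calc Var[fun η => V μ s η 0 n; law μ] ≤ 2 * (y * x) + 1 := by linarith
    _ ≤ 2 * (y * (2 * (y * wd' μ s n))) + y ^ 2 * wd' μ s n := by
        have h3 : (x : ℝ) ≤ 2 * (y * wd' μ s n) := by
          have := mul_le_mul_of_nonneg_right hye (show 0 ≤ wd' μ s n by linarith)
          linarith
        have h4 := mul_le_mul_of_nonneg_left h3 (show 0 ≤ y by linarith)
        have h5 : 1 ≤ y ^ 2 * wd' μ s n := one_le_mul_of_one_le_of_one_le (one_le_pow₀ hy1) hw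
        linarith
    _ = 5 * (y ^ 2 * wd' μ s n) := by ring
    _ ≤ y * (y ^ 2 * wd' μ s n) := mul_le_mul_of_nonneg_right g2 (by positivity)
    _ ≤ y * (y * (y ^ 2 * wd' μ s n)) := by
        have h5 : 0 ≤ y * (y ^ 2 * wd' μ s n) := by positivity
        nlinarith
    _ = y ^ 4 * wd' μ s n := by ring

/-- The same for the unit. -/
theorem ub_EE [IsProbabilityMeasure μ] {c C : ℝ} {n₀ : ℕ} (h : In μ s c C n₀) (hNS : NSFr μ s) (hBdd : BddF μ s) (hS : StepU μ s) :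
    ∀ ε : ℝ, 0 < ε → ∃ N₀ : ℕ, ∀ n : ℕ, N₀ ≤ n → EE μ s n ^ 2 ≤ (n : ℝ) ^ ε * wd μ s n := by
  intro ε hε
  obtain ⟨a, A, ha, -, hA⟩ := Pool.Agent.W_7d29a1_HS.sV_EE h
  obtain ⟨N₁, h1⟩ := ub_var h hNS hBdd hS (ε / 2) (by positivity)
  obtain ⟨n₁, hwn⟩ := Pool.Agent.W_7d29a1_HZ.Z96.wd_eq96 h
  have hev := ((tendsto_rpow_atTop (show 0 < ε / 2 by positivity)).comp tendsto_natCast_atTop_atTop).eventually_ge_atTop (1 / a ^ 2)
  obtain ⟨N₀, hN₀⟩ := eventually_atTop.1 (hev.and (eventually_ge_atTop (max (max N₁ n₁) 1)))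
  refine ⟨N₀, fun n hn => ?_⟩
  obtain ⟨g1, g3⟩ := hN₀ n hn
  have g1' : 1 / a ^ 2 ≤ (n : ℝ) ^ (ε / 2) := g1
  have hnN₁ : N₁ ≤ n := (le_max_left _ _).trans ((le_max_left _ _).trans g3)
  have hnN₂ : n₁ ≤ n := (le_max_right _ _).trans ((le_max_left _ _).trans g3)
  have hn1 : 1 ≤ n := (le_max_right _ _).trans g3
  have hn0 : (0 : ℝ) < n := by
    have : (1 : ℝ) ≤ n := by exact_mod_cast hn1
    linarith
  have hw : wd' μ s n = wd μ s n := (hwn n hnN₂).1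
  have hw1 : 1 ≤ wd μ s n := by rw [← hw]; exact le_max_left _ _
  have h2 := h1 n hnN₁
  rw [hw] at h2
  have hE := one_le_EE (μ := μ) (s := s) n
  have h5 : sV μ s n ^ 2 = Var[fun η => V μ s η 0 n; law μ] := by
    unfold Pool.Agent.W_7d29a1_HS.sV
    rw [Real.sq_sqrt (ProbabilityTheory.variance_nonneg _ _)]
  have h6 : (a * EE μ s n) ^ 2 ≤ (n : ℝ) ^ (ε / 2) * wd μ s n := by
    refine le_trans ?_ h2
    rw [← h5]
    exact pow_le_pow_left₀ (by positivity) (hA n hn1).1 2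
  have hee : (n : ℝ) ^ ε = (n : ℝ) ^ (ε / 2) * (n : ℝ) ^ (ε / 2) := by
    rw [← Real.rpow_add hn0]
    congr 1
    ring
  have h7 : EE μ s n ^ 2 ≤ 1 / a ^ 2 * ((n : ℝ) ^ (ε / 2) * wd μ s n) := by
    rw [one_div, inv_mul_eq_div, le_div_iff₀ (by positivity)]
    nlinarith
  refine h7.trans ?_
  rw [hee, mul_assoc]
  exact mul_le_mul_of_nonneg_right g1' (by positivity)

end

end Pool.Agent.W_7d29a1_UB
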