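import Pool.Agent.W_7d29a1_LB.Gain
import Pool.Agent.W_7d29a1_LB.NSDef

/-!
STORM UB (MP_7d29a1_pr, row 674, helper60), section (6): the polymers of the starts `(0, 0)` and `(0, X)` with `X` larger than the width
live in disjoint tubes, hence `Var log Z_n ≤ 2 V (X) + tiny`. (helper92)
-/

set_option autoImplicit false

namespace Pool.Agent.W_7d29a1_UB

open MeasureTheory ProbabilityTheory Filter Topology Finset
open Pool.Agent.W_7d29a1_F Pool.Agent.W_7d29a1_X Pool.Agent.W_7d29a1_h4g Pool.Agent.W_7d29a1_H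
open Pool.Agent.W_7d29a1_HS (In wd)
open Pool.Agent.W_7d29a1_HZ (NSp wd')
open Pool.Agent.W_7d29a1_LB (mass mass_paths mass_mono NSFr)

noncomputable section

variable {μ : Measure ℝ} {s : ℝ}

/-- The tube of the half width `r` around the straight line from `(0, z)`. -/
def Tb (μ : Measure ℝ) (s : ℝ) (z : ℤ) (r : ℝ) : Set Pt := {p | |(p.2 : ℝ) - z - sl μ s * p.1| < r}

theorem Tb_disj {X : ℤ} {r : ℝ} (hX : 2 * r ≤ X) {p : Pt} (h : p ∈ Tb μ s X r) : p ∉ Tb μ s 0 r := by
  intro h0
  unfold Tb at h h0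
  have h1 := abs_lt.1 (show |(p.2 : ℝ) - X - sl μ s * p.1| < r from h)
  have h2 := abs_lt.1 (show |(p.2 : ℝ) - (0 : ℤ) - sl μ s * p.1| < r from h0)
  rw [Int.cast_zero] at h2
  linarith [h1.1, h1.2, h2.1, h2.2]

/-- The restricted free energy. -/
def FT (μ : Measure ℝ) (s : ℝ) (z : ℤ) (r : ℝ) (n : ℕ) (η : Env) : ℝ := Real.log (mass μ s (Tb μ s z r) η z n)

/-- Masses see only the sites of the region. -/
theorem Zr_local {R : Set Pt} {η η' : Env} (h : ∀ p ∈ R, η p = η' p) (a : Pt) : ∀ (n : ℕ) (y : ℤ), Zr R η a n y = Zr R η' a n y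
  | 0, _ => rfl
  | n + 1, y => by
    rw [Zr_succ89, Zr_succ89, Zr_local h a n y, Zr_local h a n (y - 1)]
    congr 1
    by_cases hp : ((a.1 + (n + 1), a.2 + y) : Pt) ∈ R
    · rw [Set.indicator_of_mem hp, Set.indicator_of_mem hp, h _ hp]
    · rw [Set.indicator_of_notMem hp, Set.indicator_of_notMem hp]

theorem mass_local {R : Set Pt} {η η' : Env} (h : ∀ p ∈ R, η p = η' p) (z : ℤ) (n : ℕ) : mass μ s R η z n = mass μ s R η' z n := by
  unfold mass WR
  refine sum_congr rfl fun y _ => ?_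
  rw [Zr_local h]

/-- **Independence** of functions of disjoint sets of sites. -/
theorem indep_glue [IsProbabilityMeasure μ] (T : Set Pt) {f g : Env → ℝ} (mf : Measurable f) (mg : Measurable g)
    (hf : ∀ η η' : Env, (∀ p ∈ T, η p = η' p) → f η = f η') (hg : ∀ η η' : Env, (∀ p, p ∉ T → η p = η' p) → g η = g η') :
    ∫ η, f η * g η ∂(law μ) = (∫ η, f η ∂(law μ)) * ∫ η, g η ∂(law μ) := by
  classical
  have hm := mp_glue (μ := μ) T
  calc ∫ η, f η * g η ∂(law μ) = ∫ q : Env × Env, (fun η => f η * g η) (fun p => if p ∈ T then q.1 p else q.2 p) ∂((law μ).prod (law μ)) := by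
        have h1 := integral_map (μ := (law μ).prod (law μ)) (f := fun η => f η * g η) hm.measurable.aemeasurable
          (mf.mul mg).aestronglyMeasurable
        rw [hm.map_eq] at h1
        exact h1
    _ = ∫ q : Env × Env, f q.1 * g q.2 ∂((law μ).prod (law μ)) := by
        refine integral_congr_ae (ae_of_all _ fun q => ?_)
        show f _ * g _ = f q.1 * g q.2
        rw [hf _ q.1 fun p hp => if_pos hp, hg _ q.2 fun p hp => if_neg hp]
    _ = _ := integral_prod_mul f g

/-- The comparison of the variance with the increment, for two functions with independent approximations. -/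
theorem var_abs {Ω : Type*} [MeasurableSpace Ω] {P : Measure Ω} [IsProbabilityMeasure P] {U W F G : Ω → ℝ} (hU : MemLp U 2 P)
    (hW : MemLp W 2 P) (hF : MemLp F 2 P) (hG : MemLp G 2 P) (hind : ∫ x, F x * G x ∂P = (∫ x, F x ∂P) * ∫ x, G x ∂P) {v : ℝ}
    (hv : ∫ x, (U x - ∫ y, U y ∂P) ^ 2 ∂P = v) (hv' : ∫ x, (W x - ∫ y, W y ∂P) ^ 2 ∂P = v) (hm : ∫ x, W x ∂P = ∫ x, U x ∂P) :
    v ≤ 2 * ∫ x, (W x - U x) ^ 2 ∂P + 5 * (∫ x, (U x - F x) ^ 2 ∂P + ∫ x, (W x - G x) ^ 2 ∂P) := by
  obtain ⟨m, hmd⟩ : ∃ m, m = ∫ x, U x ∂P := ⟨_, rfl⟩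
  obtain ⟨f, hfd⟩ : ∃ f, f = ∫ x, F x ∂P := ⟨_, rfl⟩
  obtain ⟨g, hgd⟩ : ∃ g, g = ∫ x, G x ∂P := ⟨_, rfl⟩
  rw [← hmd] at hv
  rw [hm, ← hmd] at hv'
  have iU := hU.integrable (by norm_num : (1 : ENNReal) ≤ 2)
  have iW := hW.integrable (by norm_num : (1 : ENNReal) ≤ 2)
  have iF := hF.integrable (by norm_num : (1 : ENNReal) ≤ 2)
  have iG := hG.integrable (by norm_num : (1 : ENNReal) ≤ 2)
  have hc : ∀ t : ℝ, MemLp (fun _ : Ω => t) 2 P := fun t => memLp_const t
  have lA : MemLp (fun x => F x - f) 2 P := hF.sub (hc f)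
  have lB : MemLp (fun x => G x - g) 2 P := hG.sub (hc g)
  have la : MemLp (fun x => (U x - F x) - (m - f)) 2 P := (hU.sub hF).sub (hc _)
  have lb : MemLp (fun x => (W x - G x) - (m - g)) 2 P := (hW.sub hG).sub (hc _)
  have lUm : MemLp (fun x => U x - m) 2 P := hU.sub (hc m)
  have lWm : MemLp (fun x => W x - m) 2 P := hW.sub (hc m)
  have lD : MemLp (fun x => W x - U x) 2 P := hW.sub hU
  have lUF : MemLp (fun x => U x - F x) 2 P := hU.sub hF
  have lWG : MemLp (fun x => W x - G x) 2 P := hW.sub hG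
  have iA := lA.integrable_sq
  have iB := lB.integrable_sq
  have ia := la.integrable_sq
  have ib := lb.integrable_sq
  have iUm := lUm.integrable_sq
  have iWm := lWm.integrable_sq
  have iD := lD.integrable_sq
  -- the product has mean zero
  have hAB : ∫ x, (F x - f) * (G x - g) ∂P = 0 := by
    have iFG : Integrable (fun x => F x * G x) P := hF.integrable_mul hG
    have i1 : Integrable (fun x => g * F x) P := iF.const_mul g
    have i2 : Integrable (fun x => f * G x) P := iG.const_mul f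
    have i3 : Integrable (fun x => g * F x + f * G x) P := i1.add i2
    have i4 : Integrable (fun _ : Ω => f * g) P := integrable_const _
    have i5 : Integrable (fun x => g * F x + f * G x - f * g) P := i3.sub i4
    have e1 : (fun x => (F x - f) * (G x - g)) = fun x => F x * G x - (g * F x + f * G x - f * g) := by
      funext x
      ring
    rw [e1, integral_sub iFG i5, hind, integral_sub i3 i4, integral_add i1 i2, integral_const_mul, integral_const_mul, integral_const]
    simp only [probReal_univ, smul_eq_mul, one_mul]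
    rw [← hfd, ← hgd]
    ring
  have h1 : ∫ x, ((F x - f) - (G x - g)) ^ 2 ∂P = ∫ x, (F x - f) ^ 2 ∂P + ∫ x, (G x - g) ^ 2 ∂P := by
    have e1 : (fun x => ((F x - f) - (G x - g)) ^ 2) = fun x => ((F x - f) ^ 2 + (G x - g) ^ 2) - 2 * ((F x - f) * (G x - g)) := by
      funext x
      ring
    have i1 : Integrable (fun x => (F x - f) ^ 2 + (G x - g) ^ 2) P := iA.add iB
    have i2 : Integrable (fun x => 2 * ((F x - f) * (G x - g))) P := (lA.integrable_mul lB).const_mul 2
    rw [e1, integral_sub i1 i2, integral_add iA iB, integral_const_mul, hAB]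
    ring
  have h2 : v ≤ 2 * ∫ x, (F x - f) ^ 2 ∂P + 2 * ∫ x, ((U x - F x) - (m - f)) ^ 2 ∂P := by
    rw [← hv, ← integral_const_mul, ← integral_const_mul, ← integral_add (iA.const_mul 2) (ia.const_mul 2)]
    refine integral_mono iUm ((iA.const_mul 2).add (ia.const_mul 2)) fun x => ?_
    show (U x - m) ^ 2 ≤ 2 * (F x - f) ^ 2 + 2 * ((U x - F x) - (m - f)) ^ 2
    nlinarith [sq_nonneg ((F x - f) - ((U x - F x) - (m - f)))]
  have h3 : v ≤ 2 * ∫ x, (G x - g) ^ 2 ∂P + 2 * ∫ x, ((W x - G x) - (m - g)) ^ 2 ∂P := by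
    rw [← hv', ← integral_const_mul, ← integral_const_mul, ← integral_add (iB.const_mul 2) (ib.const_mul 2)]
    refine integral_mono iWm ((iB.const_mul 2).add (ib.const_mul 2)) fun x => ?_
    show (W x - m) ^ 2 ≤ 2 * (G x - g) ^ 2 + 2 * ((W x - G x) - (m - g)) ^ 2
    nlinarith [sq_nonneg ((G x - g) - ((W x - G x) - (m - g)))]
  have h4 : ∫ x, ((F x - f) - (G x - g)) ^ 2 ∂P ≤ 2 * ∫ x, (W x - U x) ^ 2 ∂P +
      (4 * ∫ x, ((U x - F x) - (m - f)) ^ 2 ∂P + 4 * ∫ x, ((W x - G x) - (m - g)) ^ 2 ∂P) := by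
    have i1 : Integrable (fun x => 4 * ((U x - F x) - (m - f)) ^ 2) P := ia.const_mul 4
    have i2 : Integrable (fun x => 4 * ((W x - G x) - (m - g)) ^ 2) P := ib.const_mul 4
    have i3 : Integrable (fun x => 4 * ((U x - F x) - (m - f)) ^ 2 + 4 * ((W x - G x) - (m - g)) ^ 2) P := i1.add i2
    have i4 : Integrable (fun x => 2 * (W x - U x) ^ 2) P := iD.const_mul 2
    rw [← integral_const_mul, ← integral_const_mul, ← integral_const_mul, ← integral_add i1 i2, ← integral_add i4 i3]
    refine integral_mono (lA.sub lB).integrable_sq ((iD.const_mul 2).add ((ia.const_mul 4).add (ib.const_mul 4))) fun x => ?_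
    show ((F x - f) - (G x - g)) ^ 2 ≤ 2 * (W x - U x) ^ 2 + (4 * ((U x - F x) - (m - f)) ^ 2 + 4 * ((W x - G x) - (m - g)) ^ 2)
    nlinarith [sq_nonneg ((W x - U x) + (((U x - F x) - (m - f)) - ((W x - G x) - (m - g)))), sq_nonneg (((U x - F x) - (m - f)) +
      ((W x - G x) - (m - g))), sq_nonneg ((W x - U x) - (((U x - F x) - (m - f)) - ((W x - G x) - (m - g))))]
  -- centring decreases the second moment
  have hcen : ∀ (H : Ω → ℝ) (t : ℝ), MemLp H 2 P → ∫ x, H x ∂P = t → ∫ x, (H x - t) ^ 2 ∂P ≤ ∫ x, H x ^ 2 ∂P := by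
    intro H t hH ht
    have iH := hH.integrable (by norm_num : (1 : ENNReal) ≤ 2)
    have e1 : (fun x => (H x - t) ^ 2) = fun x => H x ^ 2 - (2 * t * H x - t ^ 2) := by
      funext x
      ring
    have i1 : Integrable (fun x => 2 * t * H x) P := iH.const_mul _
    have i2 : Integrable (fun _ : Ω => t ^ 2) P := integrable_const _
    have i3 : Integrable (fun x => 2 * t * H x - t ^ 2) P := i1.sub i2
    rw [e1, integral_sub hH.integrable_sq i3, integral_sub i1 i2, integral_const_mul, ht, integral_const]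
    simp only [probReal_univ, smul_eq_mul, one_mul]
    nlinarith [sq_nonneg t]
  have h5 := hcen (fun x => U x - F x) (m - f) lUF (by rw [integral_sub iU iF, hmd, hfd])
  have h6 := hcen (fun x => W x - G x) (m - g) lWG (by rw [integral_sub iW iG, hm, hmd, hgd])
  rw [h1] at h4
  linarith

end

end Pool.Agent.W_7d29a1_UB
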