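import Pool.Agent.W_7d29a1_UB.EndV
import Pool.Agent.W_7d29a1_UB.IdentU

/-!
STORM UB (MP_7d29a1_pr, row 674, helper60), section (6), second part: the mass outside of the tube is small, `Var log Z_n ≤ 2 V (X) + 1`
for every `X` above the width. (helper92)
-/

set_option autoImplicit false

namespace Pool.Agent.W_7d29a1_UB

open MeasureTheory ProbabilityTheory Filter Topology Finset
open Pool.Agent.W_7d29a1_F Pool.Agent.W_7d29a1_X Pool.Agent.W_7d29a1_h4g Pool.Agent.W_7d29a1_H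
open Pool.Agent.W_7d29a1_HS (In wd)
open Pool.Agent.W_7d29a1_HZ (NSp wd')
open Pool.Agent.W_7d29a1_LB (mass psi mass_paths mass_mono NSFr psi_pos)
open Pool.Agent.W_7d29a1_h47 (EM Nondeg)

noncomputable section

variable {μ : Measure ℝ} {s : ℝ}

/-- The straight path of the slope `σ`. -/
def S0 (σ : ℝ) (n : ℕ) : Finset ℕ := (range n).filter fun i => ⌊σ * ((i : ℝ) + 1)⌋ = ⌊σ * (i : ℝ)⌋ + 1

theorem S0_sub (σ : ℝ) (n : ℕ) : S0 σ n ⊆ range n := filter_subset _ _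

theorem pos_step92 (S : Finset ℕ) (i : ℕ) : pos S (i + 1) = pos S i + if i ∈ S then 1 else 0 := by
  unfold pos
  have h1 : S ∩ range (i + 1) = if i ∈ S then insert i (S ∩ range i) else S ∩ range i := by
    split_ifs with h
    · ext x
      simp only [mem_inter, mem_range, mem_insert]
      constructor
      · rintro ⟨h2, h3⟩
        rcases Nat.lt_succ_iff_lt_or_eq.1 h3 with h4 | h4
        · exact Or.inr ⟨h2, h4⟩
        · exact Or.inl h4
      · rintro (h2 | ⟨h2, h3⟩)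
        · rw [h2]
          exact ⟨h, by omega⟩
        · exact ⟨h2, by omega⟩
    · ext x
      simp only [mem_inter, mem_range]
      constructor
      · rintro ⟨h2, h3⟩
        refine ⟨h2, ?_⟩
        rcases Nat.lt_succ_iff_lt_or_eq.1 h3 with h4 | h4
        · exact h4
        · exact absurd (h4 ▸ h2) h
      · rintro ⟨h2, h3⟩
        exact ⟨h2, by omega⟩
  rw [h1]
  split_ifs with h
  · rw [card_insert_of_notMem (by simp)]
    push_cast
    ring
  · rw [add_zero]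

theorem pos_S0 {σ : ℝ} (h0 : 0 ≤ σ) (h1 : σ ≤ 1) {n : ℕ} : ∀ i : ℕ, i ≤ n → pos (S0 σ n) i = ⌊σ * (i : ℝ)⌋
  | 0, _ => by
    rw [pos_zero]
    simp
  | i + 1, hi => by
    rw [pos_step92, pos_S0 h0 h1 i (by omega)]
    have h2 : ⌊σ * (i : ℝ)⌋ ≤ ⌊σ * ((i : ℝ) + 1)⌋ := Int.floor_le_floor (by nlinarith)
    have h3 : ⌊σ * ((i : ℝ) + 1)⌋ ≤ ⌊σ * (i : ℝ)⌋ + 1 := by
      rw [← Int.floor_add_one]
      exact Int.floor_le_floor (by nlinarith)
    have h4 : i ∈ S0 σ n ↔ ⌊σ * ((i : ℝ) + 1)⌋ = ⌊σ * (i : ℝ)⌋ + 1 := by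
      unfold S0
      rw [mem_filter, mem_range]
      exact ⟨fun h => h.2, fun h => ⟨by omega, h⟩⟩
    push_cast
    split_ifs with h5
    · exact (h4.1 h5).symm
    · have h6 : ¬ ⌊σ * ((i : ℝ) + 1)⌋ = ⌊σ * (i : ℝ)⌋ + 1 := fun h => h5 (h4.2 h)
      omega

/-- The crude bound. -/
def Hb (μ : Measure ℝ) (s : ℝ) (z : ℤ) (n : ℕ) (η : Env) : ℝ := (|s| + |lam μ s| + 2) * n + ∑ p ∈ Sq27 z n, |η p|

theorem Hb_nonneg (z : ℤ) (n : ℕ) (η : Env) : 0 ≤ Hb μ s z n η :=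
  add_nonneg (by positivity) (sum_nonneg fun _ _ => abs_nonneg _)

/-- A crude lower bound of the weight of every path. -/
theorem pth_ge92 (η : Env) (z : ℤ) (n : ℕ) (S : Finset ℕ) : Real.exp (-Hb μ s z n η) ≤ pth μ s (sh (0, z) η) n S := by
  have hn : (0 : ℝ) ≤ n := Nat.cast_nonneg n
  unfold pth
  rw [← Real.exp_sum, ← Real.exp_add]
  refine Real.exp_le_exp.2 ?_
  have h1 : -(|s| * n) ≤ s * (pos S n : ℝ) := by
    have h2 : (0 : ℝ) ≤ pos S n := by exact_mod_cast pos_nonneg S n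
    have h3 : (pos S n : ℝ) ≤ n := by exact_mod_cast pos_le S n
    have h4 := neg_abs_le s
    have h5 := abs_nonneg s
    nlinarith
  have h2 : -(|lam μ s| * n) ≤ -((n : ℝ) * lam μ s) := by
    have h8 := le_abs_self (lam μ s)
    nlinarith
  have h3 : ∑ i ∈ range n, |sh (0, z) η ((i : ℤ) + 1, pos S (i + 1))| ≤ ∑ p ∈ Sq27 z n, |η p| := by
    have h4 : ∑ i ∈ range n, |sh (0, z) η ((i : ℤ) + 1, pos S (i + 1))| =
        ∑ p ∈ (range n).image fun i : ℕ => (((i : ℤ) + 1, pos S (i + 1) + z) : Pt), |η p| := by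
      rw [sum_image]
      · refine sum_congr rfl fun i _ => ?_
        unfold sh
        simp
      · intro i _ j _ hij
        have := congrArg Prod.fst hij
        simp only at this
        omega
    rw [h4]
    refine sum_le_sum_of_subset_of_nonneg (fun p hp => ?_) fun _ _ _ => abs_nonneg _
    obtain ⟨i, hi, rfl⟩ := mem_image.1 hp
    rw [mem_range] at hi
    unfold Sq27
    rw [mem_product, mem_Icc, mem_Icc]
    have h5 := pos_nonneg S (i + 1)
    have h6 := pos_le S (i + 1)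
    push_cast at h6
    refine ⟨⟨?_, ?_⟩, ?_, ?_⟩
    all_goals
      simp only
      omega
  have h4 : -∑ i ∈ range n, |sh (0, z) η ((i : ℤ) + 1, pos S (i + 1))| ≤ ∑ i ∈ range n, sh (0, z) η ((i : ℤ) + 1, pos S (i + 1)) := by
    rw [← sum_neg_distrib]
    exact sum_le_sum fun i _ => neg_abs_le _
  unfold Hb
  nlinarith

theorem mass_ge92 (h0 : 0 ≤ sl μ s) (h1 : sl μ s ≤ 1) {r : ℝ} (hr : 1 ≤ r) (η : Env) (z : ℤ) (n : ℕ) :
    Real.exp (-Hb μ s z n η) ≤ mass μ s (Tb μ s z r) η z n := by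
  classical
  rw [← mass_paths]
  refine le_trans ?_ (single_le_sum (f := fun S => if ∀ i < n, (((i : ℤ) + 1, z + pos S (i + 1)) : Pt) ∈ Tb μ s z r then
    pth μ s (sh (0, z) η) n S else 0) (fun S _ => ?_) (mem_powerset.2 (S0_sub (sl μ s) n)))
  · show _ ≤ if ∀ i < n, (((i : ℤ) + 1, z + pos (S0 (sl μ s) n) (i + 1)) : Pt) ∈ Tb μ s z r then _ else _
    rw [if_pos]
    · exact pth_ge92 η z n _
    · intro i hi
      show |(((z + pos (S0 (sl μ s) n) (i + 1) : ℤ)) : ℝ) - z - sl μ s * (((i : ℤ) + 1 : ℤ) : ℝ)| < r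
      rw [pos_S0 h0 h1 (i + 1) (by omega)]
      push_cast
      have h2 := Int.floor_le (sl μ s * ((i : ℝ) + 1))
      have h3 := Int.lt_floor_add_one (sl μ s * ((i : ℝ) + 1))
      rw [abs_lt]
      constructor <;> linarith
  · exact ite_nonneg (pth_nonneg _ _ _) le_rfl

theorem FT_ge (h0 : 0 ≤ sl μ s) (h1 : sl μ s ≤ 1) {r : ℝ} (hr : 1 ≤ r) (η : Env) (z : ℤ) (n : ℕ) : -Hb μ s z n η ≤ FT μ s z r n η := by
  rw [← Real.log_exp (-Hb μ s z n η)]
  exact Real.log_le_log (Real.exp_pos _) (mass_ge92 h0 h1 hr η z n)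

theorem FT_le (h0 : 0 ≤ sl μ s) (h1 : sl μ s ≤ 1) {r : ℝ} (hr : 1 ≤ r) (η : Env) (z : ℤ) (n : ℕ) : FT μ s z r n η ≤ V μ s η (0, z) n := by
  rw [← Pool.Agent.W_7d29a1_LB.log_psi, Pool.Agent.W_7d29a1_LB.psi_eq_mass]
  exact Real.log_le_log ((Real.exp_pos _).trans_le (mass_ge92 h0 h1 hr η z n)) (mass_mono (Set.subset_univ _) η z n)

theorem Sub_Hb (z : ℤ) (n : ℕ) : Sub (Hb μ s z n) := (Sub.const _).add (Sub.sum _ fun p _ => (Sub.coord p).abs)

theorem measurable_FT (z : ℤ) (r : ℝ) (n : ℕ) : Measurable (FT μ s z r n) := by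
  refine Real.measurable_log.comp ?_
  unfold mass
  refine Finset.measurable_fun_sum _ fun y _ => ?_
  have h1 := Pool.Agent.W_7d29a1_LB.measurable_K (Tb μ s z r) z n (z + y)
  unfold Pool.Agent.W_7d29a1_LB.K at h1
  simp only [add_sub_cancel_left] at h1
  unfold WR
  exact h1.const_mul _

theorem Sub_FT (h0 : 0 ≤ sl μ s) (h1 : sl μ s ≤ 1) {r : ℝ} (hr : 1 ≤ r) (z : ℤ) (n : ℕ) : Sub (FT μ s z r n) :=
  Sub.of_le (measurable_FT z r n) (Sub_Hb (μ := μ) (s := s) z n).neg (Sub_V (0, z) n) (fun η => FT_ge h0 h1 hr η z n)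
    fun η => FT_le h0 h1 hr η z n

/-- The bound of the square of the defect. -/
theorem D_bound (h0 : 0 ≤ sl μ s) (h1 : sl μ s ≤ 1) {r : ℝ} (hr : 1 ≤ r) (η : Env) (z : ℤ) (n : ℕ) {t ρ : ℝ} (ht : 0 < t) (hρ : 0 ≤ ρ)
    (h : psi μ s η z n - mass μ s (Tb μ s z r) η z n ≤ ρ * psi μ s η z n) :
    (V μ s η (0, z) n - FT μ s z r n η) ^ 2 ≤ 2 * ρ + 8 * t * Hb μ s z n η ^ 4 + ρ / t := by
  have hψ := psi_pos (μ := μ) (s := s) η z n
  have hm : 0 < mass μ s (Tb μ s z r) η z n := (Real.exp_pos _).trans_le (mass_ge92 h0 h1 hr η z n)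
  have hD0 : 0 ≤ V μ s η (0, z) n - FT μ s z r n η := sub_nonneg.2 (FT_le h0 h1 hr η z n)
  have hH := Hb_nonneg (μ := μ) (s := s) z n η
  have h2 : 0 ≤ 8 * t * Hb μ s z n η ^ 4 := by positivity
  have h3 : 0 ≤ ρ / t := by positivity
  rcases le_or_gt ρ (1 / 2) with hc | hc
  · have h4 : V μ s η (0, z) n - FT μ s z r n η ≤ 2 * ρ := by
      have h5 : V μ s η (0, z) n - FT μ s z r n η = Real.log (psi μ s η z n / mass μ s (Tb μ s z r) η z n) := by
        rw [Real.log_div hψ.ne' hm.ne']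
        rfl
      rw [h5]
      refine (Real.log_le_sub_one_of_pos (by positivity)).trans ?_
      rw [sub_le_iff_le_add, div_le_iff₀ hm]
      have h6 : 0 ≤ (1 + 2 * ρ) * (mass μ s (Tb μ s z r) η z n - (1 - ρ) * psi μ s η z n) := mul_nonneg (by linarith) (by linarith)
      have h7 : 0 ≤ ρ * (1 - 2 * ρ) * psi μ s η z n := mul_nonneg (mul_nonneg hρ (by linarith)) hψ.le
      nlinarith
    have h5 : (V μ s η (0, z) n - FT μ s z r n η) ^ 2 ≤ (2 * ρ) ^ 2 := pow_le_pow_left₀ hD0 h4 2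
    nlinarith
  · have h4 : V μ s η (0, z) n - FT μ s z r n η ≤ 2 * Hb μ s z n η := by
      have h5 := FT_ge h0 h1 hr η z n
      have h6 := (le_abs_self _).trans (abs_V_le27 (μ := μ) (s := s) η z n)
      unfold Hb at h5 ⊢
      linarith
    have h5 : (V μ s η (0, z) n - FT μ s z r n η) ^ 2 ≤ (2 * Hb μ s z n η) ^ 2 := pow_le_pow_left₀ hD0 h4 2
    have h6 : (2 * Hb μ s z n η) ^ 2 ≤ 8 * t * Hb μ s z n η ^ 4 + 1 / (2 * t) := by
      have h7 : 0 ≤ (4 * t * Hb μ s z n η ^ 2 - 1) ^ 2 / (2 * t) := by positivity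
      have h8 : (4 * t * Hb μ s z n η ^ 2 - 1) ^ 2 / (2 * t) = 8 * t * Hb μ s z n η ^ 4 + 1 / (2 * t) - (2 * Hb μ s z n η) ^ 2 := by
        field_simp
        ring
      linarith
    have h7 : 1 / (2 * t) ≤ ρ / t := by
      rw [div_le_div_iff₀ (by positivity) ht]
      nlinarith
    linarith

end

end Pool.Agent.W_7d29a1_UB
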