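import Pool.Agent.W_7d29a1_UB.EndW
import Pool.Agent.W_7d29a1_HS.Mom

/-!
STORM UB (MP_7d29a1_pr, row 674, helper60), section (6), third part: `Var log Z_n ≤ 2 V (X) + 1` for every `X` above the width.
(helper92)
-/

set_option autoImplicit false

namespace Pool.Agent.W_7d29a1_UB

open MeasureTheory ProbabilityTheory Filter Topology Finset
open Pool.Agent.W_7d29a1_F Pool.Agent.W_7d29a1_X Pool.Agent.W_7d29a1_h4g Pool.Agent.W_7d29a1_H
open Pool.Agent.W_7d29a1_HS (In wd)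
open Pool.Agent.W_7d29a1_HZ (NSp wd')
open Pool.Agent.W_7d29a1_LB (mass psi mass_paths mass_mono NSFr psi_pos)
open Pool.Agent.W_7d29a1_h47 (EM Nondeg)

noncomputable section

variable {μ : Measure ℝ} {s : ℝ}

theorem int_coord_pow [IsProbabilityMeasure μ] (p : Pt) (k : ℕ) : ∫ η : Env, |η p| ^ k ∂(law μ) = ∫ u, |u| ^ k ∂μ := by
  have h1 : (law μ).map (fun η : Env => η p) = μ := by
    unfold law
    exact Measure.infinitePi_map_eval (fun _ : Pt => μ) p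
  conv_rhs => rw [← h1]
  rw [integral_map (measurable_pi_apply p).aemeasurable]
  exact (by fun_prop : Measurable fun u : ℝ => |u| ^ k).aestronglyMeasurable

theorem pow4 [IsProbabilityMeasure μ] (hμ : EM μ) {f : Env → ℝ} (hf : Sub f) (h0 : ∀ η, 0 ≤ f η) :
    Integrable (fun η => f η ^ 4) (law μ) := by
  refine (Pool.Agent.W_7d29a1_HS.Sub_pow_integrable hμ hf 4).congr (ae_of_all _ fun η => ?_)
  show |f η| ^ 4 = f η ^ 4
  rw [abs_of_nonneg (h0 η)]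

/-- The fourth moment of the crude bound. -/
theorem Hb_four [IsProbabilityMeasure μ] (hμ : EM μ) (s : ℝ) : ∃ C : ℝ, 1 ≤ C ∧ ∀ (z : ℤ) (n : ℕ), 1 ≤ n →
    ∫ η, Hb μ s z n η ^ 4 ∂(law μ) ≤ C * (n : ℝ) ^ 8 := by
  obtain ⟨c, hc⟩ : ∃ c : ℝ, c = |s| + |lam μ s| + 2 := ⟨_, rfl⟩
  obtain ⟨M, hM⟩ : ∃ M : ℝ, M = ∫ u, |u| ^ 4 ∂μ := ⟨_, rfl⟩
  have hM0 : 0 ≤ M := by rw [hM]; exact integral_nonneg fun u => by positivity
  have hc0 : 0 ≤ c := by rw [hc]; positivity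
  refine ⟨8 * c ^ 4 + 2048 * M + 1, by nlinarith [pow_nonneg hc0 4], fun z n hn => ?_⟩
  have hnR : (1 : ℝ) ≤ n := by exact_mod_cast hn
  have hS : Sub fun η : Env => ∑ p ∈ Sq27 z n, |η p| := Sub.sum _ fun p _ => (Sub.coord p).abs
  have hS0 : ∀ η : Env, 0 ≤ ∑ p ∈ Sq27 z n, |η p| := fun _ => sum_nonneg fun _ _ => abs_nonneg _
  have hcoord : ∀ p : Pt, Integrable (fun η : Env => |η p| ^ 4) (law μ) := fun p =>
    pow4 hμ (Sub.coord p).abs fun _ => abs_nonneg _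
  have i1 : Integrable (fun η : Env => ((n : ℝ) + 1) ^ 6 * ∑ p ∈ Sq27 z n, |η p| ^ 4) (law μ) :=
    (integrable_finsetSum _ fun p _ => hcoord p).const_mul _
  have h1 : ∀ η : Env, (∑ p ∈ Sq27 z n, |η p|) ^ 4 ≤ ((n : ℝ) + 1) ^ 6 * ∑ p ∈ Sq27 z n, |η p| ^ 4 := by
    intro η
    have h2 := pow_sum_le_card_mul_sum_pow (s := Sq27 z n) (f := fun p => |η p|) (fun _ _ => abs_nonneg _) 3
    rw [card_Sq27] at h2
    refine h2.trans (le_of_eq ?_)
    push_cast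
    ring
  have h2 : ∫ η : Env, (∑ p ∈ Sq27 z n, |η p|) ^ 4 ∂(law μ) ≤ ((n : ℝ) + 1) ^ 8 * M := by
    refine (integral_mono (pow4 hμ hS hS0) i1 h1).trans (le_of_eq ?_)
    rw [integral_const_mul, integral_finsetSum _ fun p _ => hcoord p]
    simp only [int_coord_pow]
    rw [sum_const, card_Sq27, ← hM, nsmul_eq_mul]
    push_cast
    ring
  have h3 : ∀ η : Env, Hb μ s z n η ^ 4 ≤ 8 * (c * n) ^ 4 + 8 * (∑ p ∈ Sq27 z n, |η p|) ^ 4 := by
    intro η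
    have h4 : 0 ≤ ∑ p ∈ Sq27 z n, |η p| := sum_nonneg fun _ _ => abs_nonneg _
    have h5 : 0 ≤ c * n := by positivity
    unfold Hb
    rw [← hc]
    obtain ⟨a, ha⟩ : ∃ a : ℝ, a = c * n := ⟨_, rfl⟩
    obtain ⟨b, hb⟩ : ∃ b : ℝ, b = ∑ p ∈ Sq27 z n, |η p| := ⟨_, rfl⟩
    rw [← ha, ← hb]
    have g1 : (a + b) ^ 2 ≤ 2 * (a ^ 2 + b ^ 2) := by nlinarith [sq_nonneg (a - b)]
    have g2 : ((a + b) ^ 2) ^ 2 ≤ (2 * (a ^ 2 + b ^ 2)) ^ 2 := pow_le_pow_left₀ (sq_nonneg _) g1 2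
    nlinarith [sq_nonneg (a ^ 2 - b ^ 2)]
  have i2 : Integrable (fun η : Env => 8 * (∑ p ∈ Sq27 z n, |η p|) ^ 4) (law μ) :=
    (pow4 hμ hS hS0).const_mul 8
  have i3 : Integrable (fun η : Env => 8 * (c * n) ^ 4 + 8 * (∑ p ∈ Sq27 z n, |η p|) ^ 4) (law μ) := (integrable_const _).add i2
  have h4 : ∫ η, Hb μ s z n η ^ 4 ∂(law μ) ≤ 8 * (c * n) ^ 4 + 8 * (((n : ℝ) + 1) ^ 8 * M) := by
    refine (integral_mono (pow4 hμ (Sub_Hb z n) (Hb_nonneg z n)) i3 h3).trans ?_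
    rw [integral_add (integrable_const _) i2, integral_const, integral_const_mul]
    simp only [probReal_univ, smul_eq_mul, one_mul]
    linarith
  refine h4.trans ?_
  have h5 : ((n : ℝ) + 1) ^ 8 ≤ 256 * (n : ℝ) ^ 8 := by
    calc ((n : ℝ) + 1) ^ 8 ≤ (2 * (n : ℝ)) ^ 8 := pow_le_pow_left₀ (by positivity) (by linarith) 8
      _ = 256 * (n : ℝ) ^ 8 := by ring
  have h6 : (n : ℝ) ^ 4 ≤ (n : ℝ) ^ 8 := pow_le_pow_right₀ hnR (by norm_num)
  have h7 : 8 * (c * n) ^ 4 ≤ 8 * c ^ 4 * (n : ℝ) ^ 8 := by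
    rw [mul_pow, ← mul_assoc]
    exact mul_le_mul_of_nonneg_left h6 (by positivity)
  have h8 : 8 * (((n : ℝ) + 1) ^ 8 * M) ≤ 2048 * M * (n : ℝ) ^ 8 := by
    have := mul_le_mul_of_nonneg_right h5 hM0
    linarith
  have h9 : 0 ≤ (n : ℝ) ^ 8 := by positivity
  nlinarith

open Classical in
/-- The Gibbs probability of a steep place. -/
def Rst (μ : Measure ℝ) (s : ℝ) (n : ℕ) (ε : ℝ) (η : Env) : ℝ :=
  ∑ S ∈ (range n).powerset, GS μ s η n S * if NSp μ s n n ε S then 0 else 1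

theorem Rst_nonneg (n : ℕ) (ε : ℝ) (η : Env) : 0 ≤ Rst μ s n ε η := by
  classical
  exact sum_nonneg fun S _ => mul_nonneg (GS_nonneg _ _ _) (ite_nonneg le_rfl zero_le_one)

theorem Rst_le (n : ℕ) (ε : ℝ) (η : Env) : Rst μ s n ε η ≤ 1 := by
  classical
  rw [← GS_sum (μ := μ) (s := s) η n]
  refine sum_le_sum fun S _ => ?_
  refine mul_le_of_le_one_right (GS_nonneg _ _ _) ?_
  split_ifs
  · exact zero_le_one
  · exact le_rfl

theorem measurable_Rst (n : ℕ) (ε : ℝ) : Measurable (Rst μ s n ε) := by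
  classical
  refine Finset.measurable_fun_sum _ fun S _ => ?_
  refine Measurable.mul_const ?_ _
  have h1 : Measurable fun η : Env => pth μ s η n S := by
    unfold pth
    refine Measurable.const_mul ?_ _
    exact Finset.measurable_fun_prod _ fun i _ => Real.measurable_exp.comp (measurable_pi_apply _)
  exact h1.div (Real.measurable_exp.comp (V_meas s 0 n))

/-- The mass outside of the tube. -/
theorem out_le (η : Env) (z : ℤ) (n : ℕ) {r ε : ℝ} (hr : ∀ m : ℕ, 1 ≤ m → m ≤ n → (n : ℝ) ^ ε * wd' μ s m < r) :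
    psi μ s η z n - mass μ s (Tb μ s z r) η z n ≤ Rst μ s n ε (sh (0, z) η) * psi μ s η z n := by
  classical
  have h1 : psi μ s η z n = Real.exp (V μ s (sh (0, z) η) 0 n) := by
    rw [V_sh, zero_add, exp_V]
    rfl
  have h2 : psi μ s η z n = ∑ S ∈ (range n).powerset, pth μ s (sh (0, z) η) n S := by
    have h3 := GS_sum (μ := μ) (s := s) (sh (0, z) η) n
    unfold GS at h3
    rw [← sum_div, div_eq_one_iff_eq (Real.exp_pos _).ne'] at h3
    rw [h3, h1]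
  rw [← mass_paths]
  nth_rewrite 1 [h2]
  rw [← sum_sub_distrib]
  unfold Rst
  rw [sum_mul]
  refine sum_le_sum fun S _ => ?_
  have hp := pth_nonneg (μ := μ) (s := s) (sh (0, z) η) n S
  have h4 : GS μ s (sh (0, z) η) n S * psi μ s η z n = pth μ s (sh (0, z) η) n S := by
    unfold GS
    rw [h1, div_mul_cancel₀ _ (Real.exp_pos _).ne']
  by_cases hN : NSp μ s n n ε S
  · rw [if_pos hN, mul_zero, zero_mul, if_pos, sub_self]
    intro i hi
    have h5 := hN 0 (i + 1) (by omega) (by omega)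
    rw [zero_add, pos_zero, sub_zero] at h5
    show |(((z + pos S (i + 1) : ℤ)) : ℝ) - z - sl μ s * (((i : ℤ) + 1 : ℤ) : ℝ)| < r
    refine lt_of_le_of_lt (le_of_eq ?_) (lt_of_le_of_lt h5 (hr (i + 1) (by omega) (by omega)))
    push_cast
    congr 1
    ring
  · rw [if_neg hN, mul_one, h4]
    split_ifs
    · rw [sub_self]
      exact hp
    · rw [sub_zero]

/-- The mean square of the defect. -/
theorem defect [IsProbabilityMeasure μ] (hμ : EM μ) (h0 : 0 ≤ sl μ s) (h1 : sl μ s ≤ 1) {C : ℝ} (hC : ∀ (z : ℤ) (n : ℕ), 1 ≤ n →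
    ∫ η, Hb μ s z n η ^ 4 ∂(law μ) ≤ C * (n : ℝ) ^ 8) (z : ℤ) {n : ℕ} (hn : 1 ≤ n) {r ε : ℝ} (hr1 : 1 ≤ r)
    (hr : ∀ m : ℕ, 1 ≤ m → m ≤ n → (n : ℝ) ^ ε * wd' μ s m < r) {t ρ : ℝ} (ht : 0 < t) (hρ : ∫ η, Rst μ s n ε η ∂(law μ) ≤ ρ) :
    ∫ η, (V μ s η (0, z) n - FT μ s z r n η) ^ 2 ∂(law μ) ≤ 2 * ρ + 8 * t * (C * (n : ℝ) ^ 8) + ρ / t := by
  have iR : Integrable (fun η => Rst μ s n ε (sh (0, z) η)) (law μ) := by
    refine Integrable.of_bound (((measurable_Rst n ε).comp (measurable_pi_lambda _ fun p => measurable_pi_apply (p + (0, z)))).aestronglyMeasurable) 1 (ae_of_all _ fun η => ?_)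
    rw [Real.norm_eq_abs, abs_of_nonneg (Rst_nonneg _ _ _)]
    exact Rst_le _ _ _
  have eR : ∫ η, Rst μ s n ε (sh (0, z) η) ∂(law μ) = ∫ η, Rst μ s n ε η ∂(law μ) := int_sh (0, z) (measurable_Rst n ε)
  have iH : Integrable (fun η => 8 * t * Hb μ s z n η ^ 4) (law μ) := (pow4 hμ (Sub_Hb z n) (Hb_nonneg z n)).const_mul _
  have iR2 : Integrable (fun η => 2 * Rst μ s n ε (sh (0, z) η)) (law μ) := iR.const_mul 2
  have iRt : Integrable (fun η => Rst μ s n ε (sh (0, z) η) / t) (law μ) := iR.div_const t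
  have i1 : Integrable (fun η => 2 * Rst μ s n ε (sh (0, z) η) + 8 * t * Hb μ s z n η ^ 4) (law μ) := iR2.add iH
  have i2 : Integrable (fun η => 2 * Rst μ s n ε (sh (0, z) η) + 8 * t * Hb μ s z n η ^ 4 + Rst μ s n ε (sh (0, z) η) / t) (law μ) :=
    i1.add iRt
  refine (integral_mono ((Sub_V (0, z) n).sub (Sub_FT h0 h1 hr1 z n) |>.sq_integrable hμ) i2 fun η =>
    D_bound h0 h1 hr1 η z n ht (Rst_nonneg _ _ _) (out_le η z n hr)).trans ?_
  rw [integral_add i1 iRt, integral_add iR2 iH, integral_const_mul, integral_const_mul, integral_div, eR]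
  have h2 := mul_le_mul_of_nonneg_left (hC z n hn) (show 0 ≤ 8 * t by positivity)
  have h3 := div_le_div_of_nonneg_right hρ ht.le
  linarith

end

end Pool.Agent.W_7d29a1_UB
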