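import Pool.Agent.W_7d29a1_UB.EndX

/-!
STORM UB (MP_7d29a1_pr, row 674, helper60), section (6), conclusion: `Var log Z_n ≤ 2 V (X) + 1` for every `X` above the width.
(helper92)
-/

set_option autoImplicit false

namespace Pool.Agent.W_7d29a1_UB

open MeasureTheory ProbabilityTheory Filter Topology Finset
open Pool.Agent.W_7d29a1_F Pool.Agent.W_7d29a1_X Pool.Agent.W_7d29a1_h4g Pool.Agent.W_7d29a1_H
open Pool.Agent.W_7d29a1_HS (In wd)
open Pool.Agent.W_7d29a1_HZ (NSp wd')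
open Pool.Agent.W_7d29a1_LB (mass psi mass_paths mass_mono NSFr psi_pos)
open Pool.Agent.W_7d29a1_h47 (EM Nondeg)

noncomputable section

variable {μ : Measure ℝ} {s : ℝ}

/-- A power times a stretched exponential tends to `0`. -/
theorem pow_exp_small {c' : ℝ} (hc' : 0 < c') (k : ℕ) {b : ℝ} (hb : 0 < b) :
    ∀ᶠ n : ℕ in atTop, (n : ℝ) ^ k * Real.exp (-(n : ℝ) ^ c') ≤ b := by
  have t1 := tendsto_natCast_atTop_atTop (R := ℝ)
  have h1 : Tendsto (fun n : ℕ => Real.exp ((n : ℝ) ^ c') / ((n : ℝ) ^ c') ^ ((k : ℝ) / c')) atTop atTop :=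
    (tendsto_exp_div_rpow_atTop ((k : ℝ) / c')).comp ((tendsto_rpow_atTop hc').comp t1)
  filter_upwards [h1.eventually_ge_atTop (1 / b), eventually_ge_atTop 1] with n hn hn1
  have hn0 : (0 : ℝ) < n := by exact_mod_cast hn1
  have e1 : ((n : ℝ) ^ c') ^ ((k : ℝ) / c') = (n : ℝ) ^ k := by
    rw [← Real.rpow_mul hn0.le, mul_div_cancel₀ _ hc'.ne', Real.rpow_natCast]
  have hp : 0 < (n : ℝ) ^ k := by positivity
  rw [e1, div_le_div_iff₀ hb hp] at hn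
  rw [Real.exp_neg, ← div_eq_mul_inv, div_le_iff₀ (Real.exp_pos _)]
  linarith

theorem memLp_FT [IsProbabilityMeasure μ] (hμ : EM μ) (h0 : 0 ≤ sl μ s) (h1 : sl μ s ≤ 1) {r : ℝ} (hr : 1 ≤ r) (z : ℤ) (n : ℕ) :
    MemLp (FT μ s z r n) 2 (law μ) :=
  (memLp_two_iff_integrable_sq (measurable_FT z r n).aestronglyMeasurable).2 ((Sub_FT h0 h1 hr z n).sq_integrable hμ)

/-- The variance of the luck of every start. -/
theorem var_at [IsProbabilityMeasure μ] (s : ℝ) (z : ℤ) (n : ℕ) :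
    ∫ η, (V μ s η (0, z) n - ∫ η', V μ s η' (0, z) n ∂(law μ)) ^ 2 ∂(law μ) = Var[fun η => V μ s η 0 n; law μ] := by
  rw [variance_eq_integral (V_meas s 0 n).aemeasurable]
  have h1 : ∫ η', V μ s η' (0, z) n ∂(law μ) = ∫ η', V μ s η' 0 n ∂(law μ) := V_at s (0, z) n
  rw [h1]
  have h2 : ∀ η : Env, V μ s η (0, z) n = V μ s (sh (0, z) η) 0 n := fun η => by rw [V_sh, zero_add]
  simp only [h2]
  exact int_sh (0, z) (f := fun η => (V μ s η 0 n - ∫ η', V μ s η' 0 n ∂(law μ)) ^ 2) (((V_meas s 0 n).sub_const _).pow_const 2)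

/-- **SECTION (6).** Above the width the variance is at most twice the second moment of the increment. -/
theorem var_le_inc [IsProbabilityMeasure μ] {c C : ℝ} {n₀ : ℕ} (h : In μ s c C n₀) (hNS : NSFr μ s) {ε : ℝ} (hε : 0 < ε) :
    ∃ N₀ : ℕ, ∀ n : ℕ, N₀ ≤ n → ∀ X : ℤ, (n : ℝ) ^ ε * wd' μ s n ≤ X →
      Var[fun η => V μ s η 0 n; law μ] ≤ 2 * ∫ η, (V μ s η (0, X) n - V μ s η 0 n) ^ 2 ∂(law μ) + 1 := by
  obtain ⟨a, K, ha, ha1, hK, hwd⟩ := Pool.Agent.W_7d29a1_HZ.Z96.wd_all96 h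
  obtain ⟨c', hc', N₁, hns⟩ := hNS (ε / 2) (by positivity)
  obtain ⟨C₄, hC1, hC₄⟩ := Hb_four h.em s
  have h0 := h.sl_pos.le
  have h1 := h.sl_lt.le
  have hev := ((tendsto_rpow_atTop (show 0 < ε / 2 by positivity)).comp tendsto_natCast_atTop_atTop).eventually_ge_atTop (4 * K)
  obtain ⟨N₀, hN₀⟩ := eventually_atTop.1 (hev.and ((pow_exp_small hc' 8 (b := 1 / (25 * (202 * C₄))) (by positivity)).and
    (eventually_ge_atTop (max N₁ 1))))
  refine ⟨N₀, fun n hn X hX => ?_⟩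
  obtain ⟨g1, g2, g3⟩ := hN₀ n hn
  have g1' : 4 * K ≤ (n : ℝ) ^ (ε / 2) := g1
  have hn1 : 1 ≤ n := (le_max_right _ _).trans g3
  have hnN : N₁ ≤ n := (le_max_left _ _).trans g3
  have hnR : (1 : ℝ) ≤ n := by exact_mod_cast hn1
  have hn0 : (0 : ℝ) < n := by linarith
  have hw : 1 ≤ wd' μ s n := le_max_left _ _
  have hee : (n : ℝ) ^ ε = (n : ℝ) ^ (ε / 2) * (n : ℝ) ^ (ε / 2) := by
    rw [← Real.rpow_add hn0]
    congr 1
    ring
  have hp : 0 < (n : ℝ) ^ (ε / 2) := by positivity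
  obtain ⟨r, hrd⟩ : ∃ r : ℝ, r = (X : ℝ) / 2 := ⟨_, rfl⟩
  have hr2 : 2 * (K * ((n : ℝ) ^ (ε / 2) * wd' μ s n)) ≤ r := by
    rw [hrd, le_div_iff₀ two_pos]
    refine le_trans ?_ hX
    rw [hee]
    have h2 := mul_le_mul_of_nonneg_right g1' (show 0 ≤ (n : ℝ) ^ (ε / 2) * wd' μ s n by positivity)
    nlinarith
  have hq : 1 ≤ (n : ℝ) ^ (ε / 2) * wd' μ s n := by
    have h2 : 1 ≤ (n : ℝ) ^ (ε / 2) := Real.one_le_rpow hnR (by positivity)
    nlinarith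
  have hKq : 1 ≤ K * ((n : ℝ) ^ (ε / 2) * wd' μ s n) := one_le_mul_of_one_le_of_one_le hK hq
  have hr1 : 1 ≤ r := by linarith
  have hr : ∀ m : ℕ, 1 ≤ m → m ≤ n → (n : ℝ) ^ (ε / 2) * wd' μ s m < r := by
    intro m hm hmn
    have h2 : wd' μ s m ≤ K * wd' μ s n := (hwd m n hm hmn).1
    have h3 : (n : ℝ) ^ (ε / 2) * wd' μ s m ≤ K * ((n : ℝ) ^ (ε / 2) * wd' μ s n) := by
      calc (n : ℝ) ^ (ε / 2) * wd' μ s m ≤ (n : ℝ) ^ (ε / 2) * (K * wd' μ s n) := mul_le_mul_of_nonneg_left h2 hp.le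
        _ = _ := by ring
    linarith
  have hX2 : 2 * r ≤ (X : ℝ) := by rw [hrd]; linarith
  -- the defects
  obtain ⟨ρ, hρd⟩ : ∃ ρ : ℝ, ρ = Real.exp (-(n : ℝ) ^ c') := ⟨_, rfl⟩
  have hρ0 : 0 < ρ := by rw [hρd]; exact Real.exp_pos _
  have hρ : ∫ η, Rst μ s n (ε / 2) η ∂(law μ) ≤ ρ := by
    rw [hρd]
    refine le_trans (le_of_eq ?_) (hns n hnN)
    refine integral_congr_ae (ae_of_all _ fun η => ?_)
    unfold Rst
    refine sum_congr rfl fun S _ => ?_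
    by_cases hN : NSp μ s n n (ε / 2) S
    · simp [hN]
    · simp [hN]
  have hn8 : 1 ≤ (n : ℝ) ^ 8 := one_le_pow₀ hnR
  obtain ⟨t, htd⟩ : ∃ t : ℝ, t = 1 / (200 * C₄ * (n : ℝ) ^ 8) := ⟨_, rfl⟩
  have hCn : 1 ≤ C₄ * (n : ℝ) ^ 8 := one_le_mul_of_one_le_of_one_le hC1 hn8
  have ht0 : 0 < t := by rw [htd]; positivity
  have hΔ : ∀ z : ℤ, ∫ η, (V μ s η (0, z) n - FT μ s z r n η) ^ 2 ∂(law μ) ≤ 2 / 25 := by
    intro z
    refine (defect h.em h0 h1 hC₄ z hn1 hr1 hr ht0 hρ).trans ?_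
    have e1 : 8 * t * (C₄ * (n : ℝ) ^ 8) = 1 / 25 := by
      rw [htd]
      field_simp
      norm_num
    have e2 : ρ / t = 200 * (C₄ * ((n : ℝ) ^ 8 * ρ)) := by
      rw [htd]
      field_simp
    have e3 : 202 * (C₄ * ((n : ℝ) ^ 8 * ρ)) ≤ 1 / 25 := by
      rw [hρd]
      have e4 := mul_le_mul_of_nonneg_left g2 (show 0 ≤ 202 * C₄ by positivity)
      have e5 : 202 * C₄ * (1 / (25 * (202 * C₄))) = 1 / 25 := by field_simp
      rw [e5] at e4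
      linarith
    have e6 : ρ ≤ C₄ * ((n : ℝ) ^ 8 * ρ) := by nlinarith
    rw [e1, e2]
    linarith
  have hD0 := hΔ 0
  have hDX := hΔ X
  have hF : MemLp (FT μ s 0 r n) 2 (law μ) := memLp_FT h.em h0 h1 hr1 0 n
  have hG : MemLp (FT μ s X r n) 2 (law μ) := memLp_FT h.em h0 h1 hr1 X n
  have hind := indep_glue (μ := μ) (Tb μ s 0 r) (measurable_FT (μ := μ) (s := s) 0 r n) (measurable_FT (μ := μ) (s := s) X r n)
    (fun η η' hh => by
      unfold FT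
      rw [mass_local hh])
    (fun η η' hh => by
      unfold FT
      rw [mass_local fun p hp => hh p (Tb_disj hX2 hp)])
  have hfin := var_abs (P := law μ) (U := fun η => V μ s η 0 n) (W := fun η => V μ s η (0, X) n) (F := FT μ s 0 r n) (G := FT μ s X r n)
    (Pool.Agent.W_7d29a1_LB.memLp_V27 h.em s 0 n) (Pool.Agent.W_7d29a1_LB.memLp_V27 h.em s (0, X) n) hF hG hind
    (v := Var[fun η => V μ s η 0 n; law μ]) (var_at s 0 n) (var_at s X n) (V_at s (0, X) n)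
  have e0 : ∫ η, (V μ s η 0 n - FT μ s 0 r n η) ^ 2 ∂(law μ) ≤ 2 / 25 := hD0
  linarith

end

end Pool.Agent.W_7d29a1_UB
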