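import Pool.Agent.W_7d29a1_UB.Defs

/-!
STORM UB (MP_7d29a1_pr), U3 `exit`: a path which is on the left of the column up to the row `i`, enters the column at `(i, q i)` from
the site `(i, q i - 1)` of its own row (not from the past), and never meets the column again, is paid by the paths of the deleted
environment. (helper1)
-/

set_option autoImplicit false

namespace Pool.Agent.W_7d29a1_UB

open MeasureTheory ProbabilityTheory Filter Topology
open Pool.Agent.W_7d29a1_F Pool.Agent.W_7d29a1_LB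

noncomputable section

/-- The paths on the left of the column do not see the deletion. -/
theorem K_Lt_del (q : ℕ → ℤ) (η : Env) (z : ℤ) : ∀ (i : ℕ) (y : ℤ), K (Lt q) η z i y = K (Lt q) (del q η) z i y
  | 0, y => by rw [K_zero, K_zero]
  | i + 1, y => by
    rw [K_succ, K_succ, K_Lt_del q η z i y, K_Lt_del q η z i (y - 1)]
    rcases lt_or_ge y (q (i + 1)) with h | h
    · rw [Set.indicator_of_mem (mem_Lt.2 h), Set.indicator_of_mem (mem_Lt.2 h),
        del_left (by show y < q ((i : ℤ) + 1).toNat; rw [toNat_succ]; exact h)]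
    · rw [Set.indicator_of_notMem (fun h1 => by rw [mem_Lt] at h1; omega),
        Set.indicator_of_notMem (fun h1 => by rw [mem_Lt] at h1; omega)]

/-- The kernels from the site `(i, z)`, by the end point. -/
private theorem Exit_succ (R : Set Pt) (η : Env) (i : ℕ) (z : ℤ) (j : ℕ) (y : ℤ) :
    Zr R η ((i : ℤ), z) (j + 1) (y - z) = R.indicator (fun p => Real.exp (η p)) (((i + j : ℕ) : ℤ) + 1, y) *
      (Zr R η ((i : ℤ), z) j (y - z) + Zr R η ((i : ℤ), z) j (y - 1 - z)) := by
  show R.indicator (fun p => Real.exp (η p)) ((i : ℤ) + ((j : ℤ) + 1), z + (y - z)) *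
    (Zr R η ((i : ℤ), z) j (y - z) + Zr R η ((i : ℤ), z) j (y - z - 1)) = _
  have e1 : (i : ℤ) + ((j : ℤ) + 1) = ((i + j : ℕ) : ℤ) + 1 := by push_cast; ring
  have e2 : y - 1 - z = y - z - 1 := by ring
  rw [e1, add_sub_cancel, e2]

private theorem Exit_nonneg (R : Set Pt) (η : Env) (a : Pt) : ∀ (j : ℕ) (y : ℤ), 0 ≤ Zr R η a j y
  | 0, y => by
    show (0 : ℝ) ≤ if y = 0 then 1 else 0
    split_ifs <;> norm_num
  | j + 1, y => mul_nonneg (Set.indicator_nonneg (fun _ _ => (Real.exp_pos _).le) _)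
      (add_nonneg (Exit_nonneg R η a j y) (Exit_nonneg R η a j (y - 1)))

/-- The site `(i, y)` in the deleted environment. -/
def th (q : ℕ → ℤ) (i : ℕ) (y : ℤ) : ℤ := if y < q i then y else y - 1

theorem th_lt {q : ℕ → ℤ} {i : ℕ} {y : ℤ} (h : y < q i) : th q i y = y := if_pos h

theorem th_ge {q : ℕ → ℤ} {i : ℕ} {y : ℤ} (h : q i ≤ y) : th q i y = y - 1 := if_neg (not_lt.2 h)

/-- The paths which avoid the column are not on the column. -/
private theorem Exit_col (q : ℕ → ℤ) (η : Env) (i : ℕ) (z : ℤ) (j : ℕ) :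
    Zr (Sp q 1)ᶜ η ((i : ℤ), z) (j + 1) (q (i + (j + 1)) - z) = 0 := by
  have h1 : (((((i + j : ℕ) : ℤ) + 1, q (i + j + 1)) : Pt)) ∉ (Sp q 1)ᶜ :=
    Set.notMem_compl_iff.2 (mem_Sp.2 ⟨le_rfl, by push_cast; omega⟩)
  rw [Exit_succ]
  show (Sp q 1)ᶜ.indicator (fun p => Real.exp (η p)) (((i + j : ℕ) : ℤ) + 1, q (i + j + 1)) * _ = 0
  rw [Set.indicator_of_notMem h1, zero_mul]

/-- **The comparison**: the paths from `(i, q i)` which avoid the column against the paths of the deleted environment from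
`(i, q i - 1)`. -/
theorem Zr_exit {q : ℕ → ℤ} (hq : ∀ i, q i ≤ q (i + 1)) (hq1 : ∀ i, q (i + 1) ≤ q i + 1) (η : Env) (i : ℕ) : ∀ (j : ℕ),
    (∀ y : ℤ, Zr (Sp q 1)ᶜ η ((i : ℤ), q i) j (y - q i) ≤
      Zr Set.univ (del q η) ((i : ℤ), q i - 1) j (th q (i + j) y - (q i - 1))) ∧
    (Zr (Sp q 1)ᶜ η ((i : ℤ), q i) j (q (i + j) - q i) + Zr (Sp q 1)ᶜ η ((i : ℤ), q i) j (q (i + j) - 1 - q i) ≤
      Zr Set.univ (del q η) ((i : ℤ), q i - 1) j (q (i + j) - 1 - (q i - 1)))
  | 0 => by
    have h0 : ∀ (R : Set Pt) (η : Env) (a : Pt) (y : ℤ), Zr R η a 0 y = if y = 0 then 1 else 0 := fun _ _ _ _ => rfl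
    refine ⟨fun y => ?_, ?_⟩
    · rw [h0, h0]
      rcases eq_or_ne y (q i) with h | h
      · rw [if_pos (by omega), if_pos (by rw [add_zero, th_ge (by omega)]; omega)]
      · rw [if_neg (by omega)]
        split_ifs <;> norm_num
    · rw [h0, h0, h0, if_pos (by rw [add_zero]; omega), if_neg (by rw [add_zero]; omega), if_pos (by rw [add_zero]; omega)]
      norm_num
  | j + 1 => by
    obtain ⟨hA, hB⟩ := Zr_exit hq hq1 η i j
    have hs1 := hq (i + j)
    have hs2 := hq1 (i + j)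
    have hA' : ∀ y : ℤ, Zr (Sp q 1)ᶜ η ((i : ℤ), q i) (j + 1) (y - q i) ≤
        Zr Set.univ (del q η) ((i : ℤ), q i - 1) (j + 1) (th q (i + (j + 1)) y - (q i - 1)) := by
      intro y
      rw [Exit_succ, Exit_succ, Set.indicator_univ]
      show _ ≤ Real.exp (del q η (((i + j : ℕ) : ℤ) + 1, th q (i + j + 1) y)) *
        (Zr Set.univ (del q η) ((i : ℤ), q i - 1) j (th q (i + j + 1) y - (q i - 1)) +
          Zr Set.univ (del q η) ((i : ℤ), q i - 1) j (th q (i + j + 1) y - 1 - (q i - 1)))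
      rcases lt_trichotomy y (q (i + j + 1)) with h | h | h
      · -- on the left of the column
        have h1 : (((((i + j : ℕ) : ℤ) + 1, y) : Pt)) ∈ (Sp q 1)ᶜ := fun h2 => by rw [mem_Sp] at h2; omega
        rw [Set.indicator_of_mem h1, th_lt h,
          del_left (by show y < q (((i + j : ℕ) : ℤ) + 1).toNat; rw [toNat_succ]; exact h)]
        refine mul_le_mul_of_nonneg_left ?_ (Real.exp_pos _).le
        rcases lt_or_ge y (q (i + j)) with h3 | h3
        · have h4 := hA y
          have h5 := hA (y - 1)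
          rw [th_lt h3] at h4
          rw [th_lt (by omega)] at h5
          exact add_le_add h4 h5
        · have h4 : y = q (i + j) := by omega
          rw [h4]
          exact hB.trans (le_add_of_nonneg_left (Exit_nonneg _ _ _ _ _))
      · -- the column
        have h1 : (((((i + j : ℕ) : ℤ) + 1, y) : Pt)) ∉ (Sp q 1)ᶜ := Set.notMem_compl_iff.2 (mem_Sp.2 ⟨by omega, by push_cast; omega⟩)
        rw [Set.indicator_of_notMem h1, zero_mul]
        exact mul_nonneg (Real.exp_pos _).le (add_nonneg (Exit_nonneg _ _ _ _ _) (Exit_nonneg _ _ _ _ _))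
      · -- on the right of the column
        have h1 : (((((i + j : ℕ) : ℤ) + 1, y) : Pt)) ∈ (Sp q 1)ᶜ := fun h2 => by rw [mem_Sp] at h2; push_cast at h2; omega
        rw [Set.indicator_of_mem h1, th_ge h.le,
          del_right (by show q (((i + j : ℕ) : ℤ) + 1).toNat ≤ y - 1; rw [toNat_succ]; omega)]
        show Real.exp (η (((i + j : ℕ) : ℤ) + 1, y)) * _ ≤ Real.exp (η (((i + j : ℕ) : ℤ) + 1, y - 1 + 1)) * _
        rw [sub_add_cancel]
        refine mul_le_mul_of_nonneg_left ?_ (Real.exp_pos _).le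
        have h4 := hA y
        have h5 := hA (y - 1)
        rw [th_ge (by omega)] at h4
        rw [th_ge (by omega)] at h5
        exact add_le_add h4 h5
    refine ⟨hA', ?_⟩
    have h1 : Zr (Sp q 1)ᶜ η ((i : ℤ), q i) (j + 1) (q (i + (j + 1)) - q i) = 0 := Exit_col q η i (q i) j
    have h2 := hA' (q (i + (j + 1)) - 1)
    rw [th_lt (by omega)] at h2
    rw [h1, zero_add]
    exact h2

variable {μ : Measure ℝ} {s : ℝ}

/-- The future masses. -/
theorem mP_exit {q : ℕ → ℤ} (hq : ∀ i, q i ≤ q (i + 1)) (hq1 : ∀ i, q (i + 1) ≤ q i + 1) (η : Env) (i k : ℕ) :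
    mP μ s (Sp q 1)ᶜ η ((i : ℤ), q i) k ≤ Real.exp |s| * mP μ s Set.univ (del q η) ((i : ℤ), q i - 1) k := by
  have hmono : Monotone q := monotone_nat_of_le_succ hq
  have hD0 : q i ≤ q (i + k) := hmono (by omega)
  have hDk : ∀ k : ℕ, q (i + k) ≤ q i + k := by
    intro k
    induction k with
    | zero => simp
    | succ k ih =>
      have := hq1 (i + k)
      have e : i + (k + 1) = i + k + 1 := by omega
      rw [e]
      push_cast
      omega
  have hDk := hDk k
  rcases Nat.eq_zero_or_pos k with hk | hk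
  · subst hk
    have h1 : ∀ (R : Set Pt) (η : Env) (p : Pt), mP μ s R η p 0 = 1 := by
      intro R η p
      unfold mP
      have : Finset.Icc (0 : ℤ) ((0 : ℕ) : ℤ) = {0} := by simp
      rw [this, Finset.sum_singleton]
      show Real.exp (s * ((0 : ℤ) : ℝ) - ((0 : ℕ) : ℝ) * lam μ s) * (if (0 : ℤ) = 0 then 1 else 0) = 1
      simp
    rw [h1, h1, mul_one]
    exact Real.one_le_exp (abs_nonneg s)
  -- the displacement in the deleted environment
  set f : ℤ → ℤ := fun d => if q i + d < q (i + k) then d + 1 else d with hf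
  have hterm : ∀ d : ℤ, WR μ s (Sp q 1)ᶜ η ((i : ℤ), q i) k d ≤
      Real.exp |s| * WR μ s Set.univ (del q η) ((i : ℤ), q i - 1) k (f d) := by
    intro d
    have h1 := (Zr_exit hq hq1 η i k).1 (q i + d)
    have e1 : q i + d - q i = d := by ring
    have e2 : th q (i + k) (q i + d) - (q i - 1) = f d := by
      rw [hf]
      unfold th
      show _ = if q i + d < q (i + k) then d + 1 else d
      split_ifs <;> ring
    rw [e1, e2] at h1
    unfold WR
    have h2 : Real.exp (s * (d : ℝ) - k * lam μ s) ≤ Real.exp |s| * Real.exp (s * ((f d : ℤ) : ℝ) - k * lam μ s) := by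
      rw [← Real.exp_add]
      refine Real.exp_le_exp.2 ?_
      have h3 : ((f d : ℤ) : ℝ) = d + 1 ∨ ((f d : ℤ) : ℝ) = d := by
        rw [hf]
        by_cases h : q i + d < q (i + k)
        · left
          simp only [if_pos h]
          push_cast
          ring
        · right
          simp only [if_neg h]
      rcases h3 with h3 | h3
      · rw [h3]
        have := neg_abs_le s
        nlinarith
      · rw [h3]
        have := abs_nonneg s
        linarith
    calc Real.exp (s * (d : ℝ) - k * lam μ s) * Zr (Sp q 1)ᶜ η ((i : ℤ), q i) k d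
        ≤ (Real.exp |s| * Real.exp (s * ((f d : ℤ) : ℝ) - k * lam μ s)) *
          Zr Set.univ (del q η) ((i : ℤ), q i - 1) k (f d) :=
          mul_le_mul h2 h1 (Exit_nonneg _ _ _ _ _) (mul_nonneg (Real.exp_pos _).le (Real.exp_pos _).le)
      _ = _ := by ring
  -- nothing sits on the column
  have hzero : ∀ d : ℤ, q i + d = q (i + k) → WR μ s (Sp q 1)ᶜ η ((i : ℤ), q i) k d = 0 := by
    intro d hd
    obtain ⟨j, rfl⟩ : ∃ j, k = j + 1 := ⟨k - 1, by omega⟩
    unfold WR
    have h1 : Zr (Sp q 1)ᶜ η ((i : ℤ), q i) (j + 1) (q (i + (j + 1)) - q i) = 0 := Exit_col q η i (q i) j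
    have e1 : d = q (i + (j + 1)) - q i := by omega
    rw [e1, h1, mul_zero]
  unfold mP
  rw [Finset.mul_sum, ← Finset.sum_filter_add_sum_filter_not (Finset.Icc (0 : ℤ) k) (fun d => q i + d = q (i + k))
    (fun d => WR μ s (Sp q 1)ᶜ η ((i : ℤ), q i) k d), Finset.sum_eq_zero (fun d hd => hzero d (Finset.mem_filter.1 hd).2), zero_add]
  refine (Finset.sum_le_sum fun d _ => hterm d).trans ?_
  have hinj : Set.InjOn f ((Finset.Icc (0 : ℤ) k).filter fun d => ¬ q i + d = q (i + k)) := by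
    intro d hd d' hd' h
    have h1 := (Finset.mem_filter.1 hd).2
    have h2 := (Finset.mem_filter.1 hd').2
    simp only [hf] at h
    split_ifs at h <;> omega
  rw [← Finset.sum_image (f := fun d' => Real.exp |s| * WR μ s Set.univ (del q η) ((i : ℤ), q i - 1) k d') hinj]
  refine Finset.sum_le_sum_of_subset_of_nonneg ?_ fun d _ _ => mul_nonneg (Real.exp_pos _).le (WR_nonneg _ _ _ _ _)
  intro d' hd'
  obtain ⟨d, hd, rfl⟩ := Finset.mem_image.1 hd'
  obtain ⟨hd1, hd2⟩ := Finset.mem_filter.1 hd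
  rw [Finset.mem_Icc] at hd1 ⊢
  simp only [hf]
  split_ifs <;> omega

/-- **`exit`**. -/
theorem exit {q : ℕ → ℤ} (hq : ∀ i, q i ≤ q (i + 1)) (hq1 : ∀ i, q (i + 1) ≤ q i + 1) (η : Env) {i n : ℕ} (hi : i ≤ n) :
    WR μ s (Lt q) η 0 i (q i - 1) * mP μ s (Sp q 1)ᶜ η ((i : ℤ), q i) (n - i) ≤
      Real.exp |s| * psi μ s (del q η) 0 n := by
  have h1 : WR μ s (Lt q) η 0 i (q i - 1) ≤ W μ s (del q η) (0, 0) i (q i - 1) := by
    have h2 := K_Lt_del q η 0 i (q i - 1)
    unfold K at h2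
    rw [sub_zero] at h2
    refine le_trans (le_of_eq ?_) (WR_le_W (Lt q) (del q η) (0, 0) i (q i - 1))
    show Real.exp (s * ((q i - 1 : ℤ) : ℝ) - i * lam μ s) * Zr (Lt q) η (0, 0) i (q i - 1) =
      Real.exp (s * ((q i - 1 : ℤ) : ℝ) - i * lam μ s) * Zr (Lt q) (del q η) (0, 0) i (q i - 1)
    rw [h2]
  have h3 := mP_exit (μ := μ) (s := s) hq hq1 η i (n - i)
  have h4 := W_mP_le (μ := μ) (s := s) (del q η) 0 hi (q i - 1)
  rw [zero_add] at h4
  calc WR μ s (Lt q) η 0 i (q i - 1) * mP μ s (Sp q 1)ᶜ η ((i : ℤ), q i) (n - i)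
      ≤ W μ s (del q η) (0, 0) i (q i - 1) * (Real.exp |s| * mP μ s Set.univ (del q η) ((i : ℤ), q i - 1) (n - i)) :=
        mul_le_mul h1 h3 (mP_nonneg _ _ _ _) (W_nonneg _ _ _ _)
    _ = Real.exp |s| * (W μ s (del q η) (0, 0) i (q i - 1) * mP μ s Set.univ (del q η) ((i : ℤ), q i - 1) (n - i)) := by ring
    _ ≤ _ := mul_le_mul_of_nonneg_left h4 (Real.exp_pos _).le

end

end Pool.Agent.W_7d29a1_UB
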