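import Pool.Agent.W_7d29a1_LB.Ident

/-! STORM UB (MP_7d29a1_pr, helper60's proof, message 68502), step (0): the identity for the sum over
all levels, in the direction which bounds the growth of the second moment from above. (helper27) -/

set_option autoImplicit false

namespace Pool.Agent.W_7d29a1_UB

open MeasureTheory Real Set
open Pool.Agent.W_7d29a1_LB Pool.Agent.W_7d29a1_LB.Loss

noncomputable section

/-- **THE IDENTITY (0)**: for every level `a` two measure preserving maps `et a`, `om a`; an upper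
bound `k a` of `E log Z_a^(0, y)(et a) - E log Z_a^(0, x)(om a)` at almost every level of `[-A, A]`
gives an upper bound of the growth of the second moment. -/
theorem ident_ub27 {Ω E : Type*} [MeasurableSpace Ω] [MeasurableSpace E]
    {P : Measure Ω} {Q : Measure E} [IsProbabilityMeasure P] [IsProbabilityMeasure Q]
    {om et : ℝ → Ω → E} (hom : ∀ a, MeasurePreserving (om a) P Q)
    (het : ∀ a, MeasurePreserving (et a) P Q)
    {U0 Ux Uy : E → ℝ} (m0 : Measurable U0) (mx : Measurable Ux) (my : Measurable Uy)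
    (i0 : MemLp U0 2 Q) (ix : MemLp Ux 2 Q) (iy : MemLp Uy 2 Q)
    (ex : ∫ e, Ux e ∂Q = ∫ e, U0 e ∂Q) (ey : ∫ e, Uy e ∂Q = ∫ e, U0 e ∂Q)
    {A : ℝ} (hA : 0 ≤ A) {k : ℝ → ℝ} (ik : IntervalIntegrable k volume (-A) A)
    (hk : ∀ᵐ a : ℝ, a ∈ Icc (-A) A →
      ∫ o, (log (exp (U0 (et a o)) + exp (-a) * exp (Uy (et a o)))
        - log (exp (U0 (om a o)) + exp (-a) * exp (Ux (om a o)))) ∂P ≤ k a) :
    (∫ e, (Uy e - U0 e) ^ 2 ∂Q - ∫ e, (Ux e - U0 e) ^ 2 ∂Q) / 2 ≤
      (∫ a in (-A)..A, k a) + exp (-(A / 2)) * ∫ e, (Uy e - U0 e) ^ 2 ∂Q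
        + ∫ e, (if A / 2 < |Uy e - U0 e| then (Uy e - U0 e) ^ 2 else 0) ∂Q := by
  have j0 : Integrable U0 Q := i0.integrable one_le_two
  have jx : Integrable Ux Q := ix.integrable one_le_two
  have jy : Integrable Uy Q := iy.integrable one_le_two
  have lB : MemLp (fun e => Ux e - U0 e) 2 Q := ix.sub i0
  have lC : MemLp (fun e => Uy e - U0 e) 2 Q := iy.sub i0
  have mB : Measurable (fun e => Ux e - U0 e) := mx.sub m0
  have mC : Measurable (fun e => Uy e - U0 e) := my.sub m0
  have jB : Integrable (fun e => Ux e - U0 e) Q := jx.sub j0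
  have jC : Integrable (fun e => Uy e - U0 e) Q := jy.sub j0
  have eB : ∫ e, (Ux e - U0 e) ∂Q = 0 := by rw [integral_sub jx j0, ex, sub_self]
  have eC : ∫ e, (Uy e - U0 e) ∂Q = 0 := by rw [integral_sub jy j0, ey, sub_self]
  have ilv : ∀ (D : E → ℝ), Measurable D → Integrable D Q → ∀ a : ℝ,
      Integrable (fun e => log (1 + exp (D e - a))) Q := by
    intro D mD iD a
    refine Integrable.mono' (g := fun e => log 2 + (|D e| + |a|)) ?_ ?_ ?_
    · exact (integrable_const _).add (iD.abs.add (integrable_const _))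
    · exact (by fun_prop : Measurable fun e => log (1 + exp (D e - a))).aestronglyMeasurable
    · refine Filter.Eventually.of_forall fun e => ?_
      rw [norm_eq_abs]
      refine (log_one_exp_bd27 _).trans ?_
      have := abs_sub (D e) a
      linarith
  set F : ℝ → ℝ := fun a => ∫ e, log (1 + exp ((Uy e - U0 e) - a)) ∂Q
    - ∫ e, log (1 + exp ((Ux e - U0 e) - a)) ∂Q with hF
  -- the difference at one level is `F a`
  have hlev : ∀ a : ℝ, ∫ o, (log (exp (U0 (et a o)) + exp (-a) * exp (Uy (et a o)))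
      - log (exp (U0 (om a o)) + exp (-a) * exp (Ux (om a o)))) ∂P = F a := by
    intro a
    have iZe : Integrable (fun e => U0 e + log (1 + exp ((Uy e - U0 e) - a))) Q :=
      j0.add (ilv _ mC jC a)
    have iMe : Integrable (fun e => U0 e + log (1 + exp ((Ux e - U0 e) - a))) Q :=
      j0.add (ilv _ mB jB a)
    have gen : ∀ (D : E → ℝ) (f : Ω → E), MeasurePreserving f P Q →
        Integrable (fun e => U0 e + log (1 + exp ((D e - U0 e) - a))) Q →
        Integrable (fun o => log (exp (U0 (f o)) + exp (-a) * exp (D (f o)))) P ∧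
        ∫ o, log (exp (U0 (f o)) + exp (-a) * exp (D (f o))) ∂P
          = ∫ e, (U0 e + log (1 + exp ((D e - U0 e) - a))) ∂Q := by
      intro D f hf hi
      have e1 : (fun o => log (exp (U0 (f o)) + exp (-a) * exp (D (f o))))
          = (fun e => U0 e + log (1 + exp ((D e - U0 e) - a))) ∘ f := by
        funext o; simp only [Function.comp]; rw [log_lvl27]
      constructor
      · rw [e1]; exact hf.integrable_comp_of_integrable hi
      · rw [← hf.map_eq, integral_map hf.measurable.aemeasurable]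
        · simp only [log_lvl27]
        · rw [hf.map_eq]; exact hi.aestronglyMeasurable
    obtain ⟨a1, a2⟩ := gen Uy (et a) (het a) iZe
    obtain ⟨b1, b2⟩ := gen Ux (om a) (hom a) iMe
    rw [integral_sub a1 b1, a2, b2, integral_add j0 (ilv _ mC jC a), integral_add j0 (ilv _ mB jB a)]
    simp only [hF]
    ring
  obtain ⟨f1, f2⟩ := fub_lvl27 (Q := Q) mC jC hA
  obtain ⟨g1, g2⟩ := fub_lvl27 (Q := Q) mB jB hA
  have iF : IntervalIntegrable F volume (-A) A := f1.sub g1
  have s1 : ∫ a in (-A)..A, F a ≤ ∫ a in (-A)..A, k a := by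
    refine intervalIntegral.integral_mono_ae_restrict (by linarith) iF ik ?_
    rw [Filter.EventuallyLE, ae_restrict_iff' measurableSet_Icc]
    filter_upwards [hk] with a ha hmem
    rw [← hlev a]
    exact ha hmem
  have s3 : ∫ a in (-A)..A, F a
      = ∫ e, Phi A (Uy e - U0 e) ∂Q - ∫ e, Phi A (Ux e - U0 e) ∂Q := by
    rw [intervalIntegral.integral_sub f1 g1, f2, g2]
  have s5 := Phi_expect hA lC lB (le_of_eq (eB.trans eC.symm))
  linarith

end

end Pool.Agent.W_7d29a1_UB
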