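import Mathlib

/-!
STORM UB (MP_7d29a1_pr, row 674 of the table `proofs`, helper60): the integration of the cost over the levels, abstract form.
-/

set_option autoImplicit false

namespace Pool.Agent.W_7d29a1_UB

open MeasureTheory ProbabilityTheory Filter Topology Set

noncomputable section

/-- **The integration of the cost over the levels.** -/
theorem int60 {Ω : Type*} [MeasurableSpace Ω] {P : Measure Ω} [IsProbabilityMeasure P] {B H : Ω → ℝ} (mB : Measurable B)
    (mH : Measurable H) (hH : ∀ o, 0 ≤ H o) (iH : Integrable (fun o => H o ^ 2) P) {Bad : Set Ω} (mBad : MeasurableSet Bad)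
    {E : Set (ℝ × Ω)} (mE : MeasurableSet E) {v : ℝ} (hv : 0 ≤ v) (hE : ∀ o, volume {a : ℝ | (a, o) ∈ E} ≤ ENNReal.ofReal v)
    {A G c1 c2 : ℝ} (hA : 0 ≤ A) (hG : 0 ≤ G) (hc1 : 0 ≤ c1) (hc2 : 0 ≤ c2)
    {cost : ℝ → Ω → ℝ} (ic : ∀ a, Integrable (cost a) P) (h0 : ∀ a o, cost a o ≤ H o)
    (h1 : ∀ a o, a ∈ Icc (-A) A → o ∉ Bad → (a, o) ∉ E → |a - B o| ≤ G → cost a o ≤ c1)
    (h2 : ∀ a o, a ∈ Icc (-A) A → o ∉ Bad → (a, o) ∉ E → G < |a - B o| → cost a o ≤ c2) {T : ℝ} (hT : 0 < T) :
    ∃ k : ℝ → ℝ, IntervalIntegrable k volume (-A) A ∧ (∀ a, a ∈ Icc (-A) A → ∫ o, cost a o ∂P ≤ k a) ∧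
      ∫ a in (-A)..A, k a ≤ 2 * G * c1 + 2 * A * c2 + v * (1 + ∫ o, H o ^ 2 ∂P) +
        2 * A * ((∫ o, H o ^ 2 ∂P) / T + T * (P Bad).toReal) := by
  classical
  have hAA : -A ≤ A := by linarith
  have iH1 : Integrable H P := by
    refine Integrable.mono' ((integrable_const (1 : ℝ)).add iH) mH.aestronglyMeasurable (Eventually.of_forall fun o => ?_)
    rw [Real.norm_eq_abs, abs_of_nonneg (hH o)]
    show H o ≤ 1 + H o ^ 2
    nlinarith [sq_nonneg (H o - 1), sq_nonneg (H o)]
  obtain ⟨F1, hF1⟩ : ∃ F1 : ℝ × Ω → ℝ, F1 = fun p => if |p.1 - B p.2| ≤ G then c1 else 0 := ⟨_, rfl⟩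
  obtain ⟨F3, hF3⟩ : ∃ F3 : ℝ × Ω → ℝ, F3 = fun p => if p ∈ E then H p.2 else 0 := ⟨_, rfl⟩
  obtain ⟨F4, hF4⟩ : ∃ F4 : ℝ × Ω → ℝ, F4 = fun p => if p.2 ∈ Bad then H p.2 else 0 := ⟨_, rfl⟩
  have m1 : Measurable F1 := by
    rw [hF1]
    exact Measurable.ite (measurableSet_le ((measurable_fst.sub (mB.comp measurable_snd)).abs) measurable_const)
      measurable_const measurable_const
  have m3 : Measurable F3 := by
    rw [hF3]
    exact Measurable.ite mE (mH.comp measurable_snd) measurable_const
  have m4 : Measurable F4 := by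
    rw [hF4]
    exact Measurable.ite (measurable_snd mBad) (mH.comp measurable_snd) measurable_const
  have n1 : ∀ p, 0 ≤ F1 p ∧ F1 p ≤ c1 := fun p => by rw [hF1]; dsimp only; split_ifs <;> simp [hc1]
  have n3 : ∀ p, 0 ≤ F3 p ∧ F3 p ≤ H p.2 := fun p => by rw [hF3]; dsimp only; split_ifs <;> simp [hH]
  have n4 : ∀ p, 0 ≤ F4 p ∧ F4 p ≤ H p.2 := fun p => by rw [hF4]; dsimp only; split_ifs <;> simp [hH]
  obtain ⟨F, hF⟩ : ∃ F : ℝ × Ω → ℝ, F = fun p => F1 p + c2 + F3 p + F4 p := ⟨_, rfl⟩
  have mF : Measurable F := by rw [hF]; exact ((m1.add_const _).add m3).add m4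
  have nF : ∀ p, 0 ≤ F p ∧ F p ≤ c1 + c2 + 2 * H p.2 := fun p => by
    rw [hF]
    dsimp only
    have := n1 p; have := n3 p; have := n4 p
    constructor <;> linarith
  obtain ⟨ν, hν⟩ : ∃ ν : Measure ℝ, ν = volume.restrict (Ioc (-A) A) := ⟨_, rfl⟩
  have : IsFiniteMeasure ν := by rw [hν]; infer_instance
  have iF : Integrable F (ν.prod P) := by
    refine Integrable.mono' (g := fun p : ℝ × Ω => c1 + c2 + 2 * H p.2)
      ((integrable_const _).add ((iH1.comp_snd ν).const_mul 2)) mF.aestronglyMeasurable (Eventually.of_forall fun p => ?_)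
    rw [Real.norm_eq_abs, abs_of_nonneg (nF p).1]
    exact (nF p).2
  refine ⟨fun a => ∫ o, F (a, o) ∂P, ?_, ?_, ?_⟩
  · rw [intervalIntegrable_iff_integrableOn_Ioc_of_le hAA]
    have := iF.integral_prod_left
    rw [hν] at this
    exact this
  · intro a ha
    refine integral_mono (ic a) ?_ fun o => ?_
    · refine Integrable.mono' (g := fun o => c1 + c2 + 2 * H o) ((integrable_const _).add (iH1.const_mul 2))
        (mF.comp (measurable_prodMk_left)).aestronglyMeasurable (Eventually.of_forall fun o => ?_)
      rw [Real.norm_eq_abs, abs_of_nonneg (nF (a, o)).1]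
      exact (nF (a, o)).2
    · show cost a o ≤ F (a, o)
      have q1 := n1 (a, o); have q3 := n3 (a, o); have q4 := n4 (a, o)
      by_cases hb : o ∈ Bad
      · have e4 : F4 (a, o) = H o := by rw [hF4]; exact if_pos hb
        have := h0 a o
        rw [hF]; dsimp only
        rw [e4]
        linarith
      · by_cases he : (a, o) ∈ E
        · have e3 : F3 (a, o) = H o := by rw [hF3]; exact if_pos he
          have := h0 a o
          rw [hF]; dsimp only
          rw [e3]
          linarith
        · rcases le_or_gt |a - B o| G with hg | hg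
          · have e1 : F1 (a, o) = c1 := by rw [hF1]; exact if_pos hg
            have := h1 a o ha hb he hg
            rw [hF]; dsimp only
            rw [e1]
            linarith
          · have := h2 a o ha hb he hg
            rw [hF]; dsimp only
            linarith
  · rw [intervalIntegral.integral_of_le hAA]
    have hswap : ∫ a in Ioc (-A) A, ∫ o, F (a, o) ∂P = ∫ o, (∫ a, F (a, o) ∂ν) ∂P := by
      rw [← hν]
      exact integral_integral_swap iF
    rw [hswap]
    have hpt : ∀ o, ∫ a, F (a, o) ∂ν ≤ 2 * G * c1 + 2 * A * c2 + v * H o + 2 * A * (if o ∈ Bad then H o else 0) := by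
      intro o
      have j1 : Integrable (fun a => F1 (a, o)) ν := by
        refine Integrable.mono' (integrable_const c1) (m1.comp measurable_prodMk_right).aestronglyMeasurable
          (Eventually.of_forall fun a => ?_)
        rw [Real.norm_eq_abs, abs_of_nonneg (n1 _).1]
        exact (n1 _).2
      have j3 : Integrable (fun a => F3 (a, o)) ν := by
        refine Integrable.mono' (integrable_const (H o)) (m3.comp measurable_prodMk_right).aestronglyMeasurable
          (Eventually.of_forall fun a => ?_)
        rw [Real.norm_eq_abs, abs_of_nonneg (n3 _).1]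
        exact (n3 _).2
      have j4 : Integrable (fun a => F4 (a, o)) ν := by
        refine Integrable.mono' (integrable_const (H o)) (m4.comp measurable_prodMk_right).aestronglyMeasurable
          (Eventually.of_forall fun a => ?_)
        rw [Real.norm_eq_abs, abs_of_nonneg (n4 _).1]
        exact (n4 _).2
      have hνA : ν.real univ = 2 * A := by
        rw [hν, measureReal_restrict_apply_univ, Real.volume_real_Ioc_of_le hAA]
        ring
      have e1 : ∫ a, F1 (a, o) ∂ν ≤ 2 * G * c1 := by
        have hfun : (fun a => F1 (a, o)) = (Icc (B o - G) (B o + G)).indicator fun _ => c1 := by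
          funext a
          rw [hF1]
          by_cases h : |a - B o| ≤ G
          · rw [indicator_of_mem (by rw [mem_Icc]; rw [abs_le] at h; constructor <;> linarith)]
            exact if_pos h
          · rw [indicator_of_notMem (fun h' => h (by rw [mem_Icc] at h'; rw [abs_le]; constructor <;> linarith))]
            exact if_neg h
        rw [hfun, integral_indicator_const _ measurableSet_Icc, smul_eq_mul]
        refine mul_le_mul_of_nonneg_right ?_ hc1
        have h3 : ν.real (Icc (B o - G) (B o + G)) ≤ volume.real (Icc (B o - G) (B o + G)) := by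
          rw [hν]
          refine ENNReal.toReal_mono ?_ (Measure.restrict_apply_le _ _)
          exact (measure_Icc_lt_top).ne
        refine h3.trans (le_of_eq ?_)
        rw [Real.volume_real_Icc_of_le (by linarith)]
        ring
      have e3 : ∫ a, F3 (a, o) ∂ν ≤ v * H o := by
        have hfun : (fun a => F3 (a, o)) = {a : ℝ | (a, o) ∈ E}.indicator fun _ => H o := by
          funext a
          rw [hF3]
          by_cases h : (a, o) ∈ E
          · rw [indicator_of_mem (show a ∈ {a : ℝ | (a, o) ∈ E} from h)]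
            exact if_pos h
          · rw [indicator_of_notMem (show a ∉ {a : ℝ | (a, o) ∈ E} from h)]
            exact if_neg h
        have hms : MeasurableSet {a : ℝ | (a, o) ∈ E} := measurable_prodMk_right mE
        rw [hfun, integral_indicator_const _ hms, smul_eq_mul]
        refine mul_le_mul_of_nonneg_right ?_ (hH o)
        have h3 : ν {a : ℝ | (a, o) ∈ E} ≤ ENNReal.ofReal v := by
          rw [hν]
          exact (Measure.restrict_apply_le _ _).trans (hE o)
        exact ENNReal.toReal_le_of_le_ofReal hv h3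
      have e4 : ∫ a, F4 (a, o) ∂ν = 2 * A * (if o ∈ Bad then H o else 0) := by
        have hfun : (fun a => F4 (a, o)) = fun _ => (if o ∈ Bad then H o else 0) := by
          funext a
          rw [hF4]
        rw [hfun, integral_const, hνA, smul_eq_mul]
      have e2 : ∫ _ : ℝ, c2 ∂ν = 2 * A * c2 := by rw [integral_const, hνA, smul_eq_mul]
      have : ∫ a, F (a, o) ∂ν = ∫ a, F1 (a, o) ∂ν + ∫ _ : ℝ, c2 ∂ν + ∫ a, F3 (a, o) ∂ν + ∫ a, F4 (a, o) ∂ν := by
        have s1 : Integrable (fun a => F1 (a, o) + c2) ν := j1.add (integrable_const _)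
        have s2 : Integrable (fun a => F1 (a, o) + c2 + F3 (a, o)) ν := s1.add j3
        rw [hF]
        dsimp only
        rw [integral_add s2 j4, integral_add s1 j3, integral_add j1 (integrable_const _)]
      rw [this, e2, e4]
      linarith
    have iBad : Integrable (fun o => if o ∈ Bad then H o else 0) P := by
      refine Integrable.mono' iH1 (Measurable.ite mBad mH measurable_const).aestronglyMeasurable
        (Eventually.of_forall fun o => ?_)
      rw [Real.norm_eq_abs]
      split_ifs
      · rw [abs_of_nonneg (hH o)]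
      · rw [abs_zero]; exact hH o
    have hbad : ∫ o, (if o ∈ Bad then H o else 0) ∂P ≤ (∫ o, H o ^ 2 ∂P) / T + T * (P Bad).toReal := by
      have hi : Integrable (fun o => Bad.indicator (fun _ => (1 : ℝ)) o) P := (integrable_const (1 : ℝ)).indicator mBad
      have h3 : ∫ o, (if o ∈ Bad then H o else 0) ∂P ≤ ∫ o, (H o ^ 2 / T + T * Bad.indicator (fun _ => (1 : ℝ)) o) ∂P := by
        refine integral_mono iBad ((iH.div_const T).add (hi.const_mul T)) fun o => ?_
        show (if o ∈ Bad then H o else 0) ≤ H o ^ 2 / T + T * Bad.indicator (fun _ => (1 : ℝ)) o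
        by_cases hb : o ∈ Bad
        · rw [if_pos hb, indicator_of_mem hb, mul_one]
          have h4 : H o * T ≤ H o ^ 2 + T * T := by nlinarith [sq_nonneg (H o - T), hH o]
          have h5 : H o ≤ (H o ^ 2 + T * T) / T := by rw [le_div_iff₀ hT]; exact h4
          rw [add_div, mul_div_assoc, div_self hT.ne', mul_one] at h5
          exact h5
        · rw [if_neg hb, indicator_of_notMem hb, mul_zero, add_zero]
          exact div_nonneg (sq_nonneg _) hT.le
      refine h3.trans (le_of_eq ?_)
      rw [integral_add (iH.div_const T) (hi.const_mul T), integral_div, integral_const_mul, integral_indicator_const _ mBad,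
        smul_eq_mul, mul_one]
      rfl
    have hH1 : ∫ o, H o ∂P ≤ 1 + ∫ o, H o ^ 2 ∂P := by
      have h3 : ∫ o, H o ∂P ≤ ∫ o, (1 + H o ^ 2) ∂P := by
        refine integral_mono iH1 ((integrable_const _).add iH) fun o => ?_
        show H o ≤ 1 + H o ^ 2
        nlinarith [sq_nonneg (H o - 1), sq_nonneg (H o)]
      refine h3.trans (le_of_eq ?_)
      rw [integral_add (integrable_const _) iH, integral_const, smul_eq_mul, mul_one, probReal_univ]
    have iR0 : Integrable (fun o => 2 * G * c1 + 2 * A * c2 + v * H o) P := (integrable_const _).add (iH1.const_mul v)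
    have iR : Integrable (fun o => 2 * G * c1 + 2 * A * c2 + v * H o + 2 * A * (if o ∈ Bad then H o else 0)) P :=
      iR0.add (iBad.const_mul (2 * A))
    calc ∫ o, (∫ a, F (a, o) ∂ν) ∂P ≤
        ∫ o, (2 * G * c1 + 2 * A * c2 + v * H o + 2 * A * (if o ∈ Bad then H o else 0)) ∂P :=
          integral_mono iF.integral_prod_right iR hpt
      _ = 2 * G * c1 + 2 * A * c2 + v * ∫ o, H o ∂P + 2 * A * ∫ o, (if o ∈ Bad then H o else 0) ∂P := by
          rw [integral_add iR0 (iBad.const_mul (2 * A)), integral_add (integrable_const _) (iH1.const_mul v),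
            integral_const_mul, integral_const_mul, integral_const, probReal_univ, one_smul]
      _ ≤ _ := by
          have h3 := mul_le_mul_of_nonneg_left hH1 hv
          have h4 := mul_le_mul_of_nonneg_left hbad (show 0 ≤ 2 * A by linarith)
          linarith

end

end Pool.Agent.W_7d29a1_UB
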