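import Pool.Agent.W_7d29a1_UB.Defs
import Pool.Agent.W_7d29a1_LB.SeamP30

/-!
STORM UB (MP_7d29a1_pr, row 674 of the table `proofs`, helper60; row 675, helper40), the removal of the column along the seam of the
sources `0` and `x + 1`: invariants of the seam, the paths which avoid the column, the decomposition at the last visit of the column.
(helper40)
-/

set_option autoImplicit false

namespace Pool.Agent.W_7d29a1_UB

open Pool.Agent.W_7d29a1_F Pool.Agent.W_7d29a1_LB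

noncomputable section

variable {μ : MeasureTheory.Measure ℝ} {s : ℝ}

/-- Below the row `x` the seam is the vertical through `x`. -/
theorem seamU_eq (η : Env) (b : ℝ) {x : ℤ} : ∀ {i : ℕ}, (i : ℤ) < x → seamU η b x i = x
  | 0, _ => rfl
  | i + 1, h => by
    push_cast at h
    have h1 : seamU η b x i = x := seamU_eq η b (by omega)
    rw [seamU_succ, h1, K_eq_zero Set.univ η 0 (i := i) (y := x) (by omega), K_eq_zero Set.univ η 0 (i := i) (y := x - 1) (by omega),
      add_zero, mul_zero, if_neg (not_lt.2 (add_nonneg (K_nonneg _ _ _ _ _) (K_nonneg _ _ _ _ _)))]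

/-- **Below the row `x` nobody reaches the column.** -/
theorem reachK (η : Env) (b : ℝ) {x : ℤ} {i : ℕ} (h : (i : ℤ) < x) :
    K Set.univ η 0 i (seamU η b x i) = 0 ∧ K Set.univ η (x + 1) i (seamU η b x i) = 0 := by
  rw [seamU_eq η b h]
  exact ⟨K_eq_zero _ _ _ (by omega), K_eq_zero _ _ _ (by omega)⟩

/-! ### The removal of the column -/

/-- **The paths from `0` which avoid the column.** -/
theorem avK_left {q : ℕ → ℤ} (h0 : 1 ≤ q 0) (hq : ∀ i, q i ≤ q (i + 1)) (η : Env) (i : ℕ) (y : ℤ) :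
    K (Sp q 1)ᶜ η 0 i y = K (Lt q) (del q η) 0 i y := by
  have h1 := K_avoid_left h0 hq le_rfl (del q η) (fun p => η (p.1, q p.1.toNat)) i y
  rwa [ins_del] at h1

/-- **The paths from `q 0 + 1` which avoid the column.** -/
theorem avK_right {q : ℕ → ℤ} (hq : ∀ i, q (i + 1) ≤ q i + 1) (η : Env) (i : ℕ) (y : ℤ) :
    K (Sp q 1)ᶜ η (q 0 + 1) i y = K (Rg q) (del q η) (q 0) i (y - 1) := by
  have h1 := K_avoid_right hq le_rfl (del q η) (fun p => η (p.1, q p.1.toNat)) i y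
  rw [ins_del, Nat.cast_one] at h1
  exact h1

theorem K_del_Lt {q : ℕ → ℤ} (η : Env) (z : ℤ) : ∀ (i : ℕ) (y : ℤ), K (Lt q) (del q η) z i y = K (Lt q) η z i y
  | 0, y => by rw [K_zero, K_zero]
  | i + 1, y => by
    rw [K_succ, K_succ, K_del_Lt η z i y, K_del_Lt η z i (y - 1)]
    congr 1
    by_cases h : (((i : ℤ) + 1, y) : Pt) ∈ Lt q
    · rw [Set.indicator_of_mem h, Set.indicator_of_mem h]
      show Real.exp (del q η _) = Real.exp (η _)
      rw [del_left h]
    · rw [Set.indicator_of_notMem h, Set.indicator_of_notMem h]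

/-- **The mass from `0` which avoids the column.** -/
theorem av_left {q : ℕ → ℤ} (h0 : 1 ≤ q 0) (hq : ∀ i, q i ≤ q (i + 1)) (η : Env) (n : ℕ) :
    mass μ s (Sp q 1)ᶜ η 0 n = mass μ s (Lt q) (del q η) 0 n := by
  have h1 := mass_avoid_left (μ := μ) (s := s) h0 hq le_rfl (del q η) (fun p => η (p.1, q p.1.toNat)) n
  rwa [ins_del] at h1

/-- **The mass from `q 0 + 1` which avoids the column.** -/
theorem av_right {q : ℕ → ℤ} (hq : ∀ i, q (i + 1) ≤ q i + 1) (η : Env) (n : ℕ) :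
    mass μ s (Sp q 1)ᶜ η (q 0 + 1) n = mass μ s (Rg q) (del q η) (q 0) n := by
  have h1 := mass_avoid_right (μ := μ) (s := s) hq le_rfl (del q η) (fun p => η (p.1, q p.1.toNat)) n
  rw [ins_del, Nat.cast_one] at h1
  exact h1

/-! ### The last visit -/

theorem mem_Sp1 {q : ℕ → ℤ} {i : ℕ} {y : ℤ} : (((i : ℤ) + 1, y) : Pt) ∈ Sp q 1 ↔ y = q (i + 1) := by
  rw [mem_Sp]
  push_cast
  omega

/-- **The decomposition at the last visit of the column**, kernels. -/
theorem lastK (q : ℕ → ℤ) (η : Env) (z : ℤ) : ∀ (n : ℕ) (y : ℤ), K Set.univ η z n y = K (Sp q 1)ᶜ η z n y +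
    ∑ i ∈ Finset.Icc 1 n, K Set.univ η z i (q i) * Zr (Sp q 1)ᶜ η ((i : ℤ), q i) (n - i) (y - q i)
  | 0, y => by
    rw [K_zero, K_zero, Finset.Icc_eq_empty (by omega), Finset.sum_empty, add_zero]
  | n + 1, y => by
    rw [← Finset.insert_Icc_right_eq_Icc_add_one (by omega : 1 ≤ n + 1), Finset.sum_insert (by simp), Nat.sub_self]
    have hterm : ∀ i ∈ Finset.Icc 1 n, Zr (Sp q 1)ᶜ η ((i : ℤ), q i) (n + 1 - i) (y - q i) =
        (Sp q 1)ᶜ.indicator (fun p => Real.exp (η p)) ((n : ℤ) + 1, y) *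
          (Zr (Sp q 1)ᶜ η ((i : ℤ), q i) (n - i) (y - q i) + Zr (Sp q 1)ᶜ η ((i : ℤ), q i) (n - i) (y - 1 - q i)) := by
      intro i hi
      rw [Finset.mem_Icc] at hi
      obtain ⟨k, hk⟩ : ∃ k, n = i + k := ⟨n - i, by omega⟩
      subst hk
      rw [show i + k + 1 - i = k + 1 by omega, show i + k - i = k by omega]
      show (Sp q 1)ᶜ.indicator (fun p => Real.exp (η p)) ((i : ℤ) + ((k : ℤ) + 1), q i + (y - q i)) *
        (Zr (Sp q 1)ᶜ η ((i : ℤ), q i) k (y - q i) + Zr (Sp q 1)ᶜ η ((i : ℤ), q i) k (y - q i - 1)) = _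
      rw [show q i + (y - q i) = y by ring, show y - q i - 1 = y - 1 - q i by ring,
        show (i : ℤ) + ((k : ℤ) + 1) = ((i + k : ℕ) : ℤ) + 1 by push_cast; ring]
    by_cases h : y = q (n + 1)
    · have h1 : (Sp q 1)ᶜ.indicator (fun p => Real.exp (η p)) (((n : ℤ) + 1, y) : Pt) = 0 :=
        Set.indicator_of_notMem (Set.notMem_compl_iff.2 (mem_Sp1.2 h)) _
      rw [Finset.sum_eq_zero (fun i hi => by rw [hterm i hi, h1, zero_mul, mul_zero]), add_zero, K_succ (Sp q 1)ᶜ, h1, zero_mul,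
        zero_add, h, sub_self]
      show _ = _ * (if (0 : ℤ) = 0 then (1 : ℝ) else 0)
      rw [if_pos rfl, mul_one]
    · have h0 : (((n : ℤ) + 1, y) : Pt) ∈ (Sp q 1)ᶜ := fun h2 => h (mem_Sp1.1 h2)
      have h1 : (Sp q 1)ᶜ.indicator (fun p => Real.exp (η p)) (((n : ℤ) + 1, y) : Pt) = Real.exp (η ((n : ℤ) + 1, y)) :=
        Set.indicator_of_mem h0 _
      have h2 : Zr (Sp q 1)ᶜ η (((n + 1 : ℕ) : ℤ), q (n + 1)) 0 (y - q (n + 1)) = 0 := by
        show (if y - q (n + 1) = 0 then (1 : ℝ) else 0) = 0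
        rw [if_neg (by omega)]
      rw [h2, mul_zero, zero_add, Finset.sum_congr rfl (fun i hi => by rw [hterm i hi, h1]), K_univ_succ, K_succ (Sp q 1)ᶜ, h1,
        lastK q η z n y, lastK q η z n (y - 1), mul_add, mul_add, mul_add, mul_add, Finset.mul_sum, Finset.mul_sum]
      have h3 : ∑ i ∈ Finset.Icc 1 n, K Set.univ η z i (q i) * (Real.exp (η ((n : ℤ) + 1, y)) *
          (Zr (Sp q 1)ᶜ η ((i : ℤ), q i) (n - i) (y - q i) + Zr (Sp q 1)ᶜ η ((i : ℤ), q i) (n - i) (y - 1 - q i))) =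
          ∑ i ∈ Finset.Icc 1 n, Real.exp (η ((n : ℤ) + 1, y)) * (K Set.univ η z i (q i) *
            Zr (Sp q 1)ᶜ η ((i : ℤ), q i) (n - i) (y - q i)) +
          ∑ i ∈ Finset.Icc 1 n, Real.exp (η ((n : ℤ) + 1, y)) * (K Set.univ η z i (q i) *
            Zr (Sp q 1)ᶜ η ((i : ℤ), q i) (n - i) (y - 1 - q i)) := by
        rw [← Finset.sum_add_distrib]
        exact Finset.sum_congr rfl fun i _ => by ring
      rw [h3]
      ring

/-- The mass of the paths from `p`, with the position as a coordinate. -/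
theorem mP_eq (R : Set Pt) (η : Env) (t p : ℤ) (k : ℕ) (I : Finset ℤ) (hI : ∀ y, p ≤ y → y ≤ p + k → y ∈ I) :
    ∑ y ∈ I, Real.exp (s * y - k * lam μ s) * Zr R η (t, p) k (y - p) = Real.exp (s * p) * mP μ s R η (t, p) k := by
  have h1 : Finset.Icc p (p + k) ⊆ I := fun y hy => by
    rw [Finset.mem_Icc] at hy
    exact hI y hy.1 hy.2
  rw [← Finset.sum_subset h1 (fun y _ hy => ?_)]
  · unfold mP
    rw [Finset.mul_sum]
    refine Finset.sum_nbij' (fun y => y - p) (fun y => y + p) ?_ ?_ ?_ ?_ ?_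
    · intro y hy
      rw [Finset.mem_Icc] at hy ⊢
      omega
    · intro y hy
      rw [Finset.mem_Icc] at hy ⊢
      omega
    · intro y _
      show y - p + p = y
      ring
    · intro y _
      show y + p - p = y
      ring
    · intro y _
      show Real.exp (s * y - k * lam μ s) * Zr R η (t, p) k (y - p) =
        Real.exp (s * p) * (Real.exp (s * ((y - p : ℤ) : ℝ) - k * lam μ s) * Zr R η (t, p) k (y - p))
      rw [← mul_assoc, ← Real.exp_add]
      congr 2
      push_cast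
      ring
  · have h2 : Zr R η (t, p) k (y - p) = 0 := by
      refine Zr_eq_zero R η (t, p) ?_
      rw [Finset.mem_Icc] at hy
      omega
    rw [h2, mul_zero]

/-- **The decomposition at the last visit of the column**, masses: any source. -/
theorem last_psi (q : ℕ → ℤ) (η : Env) (z : ℤ) (n : ℕ) : psi μ s η z n = mass μ s (Sp q 1)ᶜ η z n +
    ∑ i ∈ Finset.Icc 1 n, W μ s η (0, z) i (q i - z) * mP μ s (Sp q 1)ᶜ η ((i : ℤ), q i) (n - i) := by
  obtain ⟨I, hI⟩ : ∃ I : Finset ℤ, ∀ y, (∃ i ∈ Finset.Icc 1 n, q i ≤ y ∧ y ≤ q i + n) ∨ (z ≤ y ∧ y ≤ z + n) → y ∈ I := by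
    refine ⟨((Finset.Icc 1 n).biUnion fun i => Finset.Icc (q i) (q i + n)) ∪ Finset.Icc z (z + n), fun y hy => ?_⟩
    rw [Finset.mem_union, Finset.mem_biUnion, Finset.mem_Icc]
    rcases hy with ⟨i, hi, h1, h2⟩ | h1
    · exact Or.inl ⟨i, hi, Finset.mem_Icc.2 ⟨h1, h2⟩⟩
    · exact Or.inr h1
  have e1 := mass_eq (μ := μ) (s := s) Set.univ η z n I (fun y h1 h2 => hI y (Or.inr ⟨h1, h2⟩))
  have e2 := mass_eq (μ := μ) (s := s) (Sp q 1)ᶜ η z n I (fun y h1 h2 => hI y (Or.inr ⟨h1, h2⟩))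
  have hz : (0 : ℝ) < Real.exp (s * z) := Real.exp_pos _
  refine mul_left_cancel₀ hz.ne' ?_
  rw [psi_eq_mass, ← e1, mul_add, ← e2, Finset.mul_sum]
  simp only [lastK q η z n, mul_add, Finset.mul_sum]
  rw [Finset.sum_add_distrib, Finset.sum_comm]
  congr 1
  refine Finset.sum_congr rfl fun i hi => ?_
  have hi' := Finset.mem_Icc.1 hi
  have e3 := mP_eq (μ := μ) (s := s) (Sp q 1)ᶜ η (i : ℤ) (q i) (n - i) I (fun y h1 h2 => hI y (Or.inl ⟨i, hi, h1, by omega⟩))
  have hc : ((n - i : ℕ) : ℝ) = (n : ℝ) - i := by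
    rw [Nat.cast_sub hi'.2]
  have e4 : ∀ y : ℤ, Real.exp (s * y - n * lam μ s) * (K Set.univ η z i (q i) * Zr (Sp q 1)ᶜ η ((i : ℤ), q i) (n - i) (y - q i)) =
      Real.exp (-(i * lam μ s)) * K Set.univ η z i (q i) *
        (Real.exp (s * y - ((n - i : ℕ) : ℝ) * lam μ s) * Zr (Sp q 1)ᶜ η ((i : ℤ), q i) (n - i) (y - q i)) := fun y => by
    rw [hc, show s * (y : ℝ) - n * lam μ s = -(i * lam μ s) + (s * y - ((n : ℝ) - i) * lam μ s) by ring, Real.exp_add]
    ring
  simp only [e4]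
  rw [← Finset.mul_sum, e3]
  unfold W WR K
  have e5 : Real.exp (s * z) * Real.exp (s * ((q i - z : ℤ) : ℝ) - i * lam μ s) =
      Real.exp (-(i * lam μ s)) * Real.exp (s * q i) := by
    rw [← Real.exp_add, ← Real.exp_add]
    congr 1
    push_cast
    ring
  calc _ = (Real.exp (-(i * lam μ s)) * Real.exp (s * q i)) * Zr Set.univ η (0, z) i (q i - z) *
        mP μ s (Sp q 1)ᶜ η ((i : ℤ), q i) (n - i) := by ring
    _ = _ := by rw [← e5]; ring

/-- **The decomposition at the last visit of the column**, both sources: the mass of the environment is at most the mass of the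
environment without the column plus the visits. -/
theorem last (η : Env) (a : ℝ) {x : ℤ} (hx : 1 ≤ x) (n : ℕ) {q : ℕ → ℤ} (h0 : q 0 = x)
    (hq : ∀ i, q i ≤ q (i + 1) ∧ q (i + 1) ≤ q i + 1) :
    Zt μ s η (x + 1) n a ≤ Zt μ s (del q η) x n a + ∑ i ∈ Finset.Icc 1 n,
      (W μ s η (0, 0) i (q i) + Real.exp (-a) * W μ s η (0, x + 1) i (q i - (x + 1))) *
        mP μ s (Sp q 1)ᶜ η ((i : ℤ), q i) (n - i) := by
  have e1 := last_psi (μ := μ) (s := s) q η 0 n
  have e2 := last_psi (μ := μ) (s := s) q η (x + 1) n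
  have e3 := av_left (μ := μ) (s := s) (q := q) (by rw [h0]; exact hx) (fun i => (hq i).1) η n
  have e4 := av_right (μ := μ) (s := s) (q := q) (fun i => (hq i).2) η n
  rw [h0] at e4
  have e5 := mass_mono (μ := μ) (s := s) (Set.subset_univ (Lt q)) (del q η) 0 n
  have e6 := mass_mono (μ := μ) (s := s) (Set.subset_univ (Rg q)) (del q η) x n
  rw [← psi_eq_mass] at e5 e6
  simp only [sub_zero] at e1
  unfold Zt
  rw [e1, e2, e3, e4]
  have e7 := mul_le_mul_of_nonneg_left e6 (Real.exp_pos (-a)).le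
  have e8 : ∑ i ∈ Finset.Icc 1 n, (W μ s η (0, 0) i (q i) + Real.exp (-a) * W μ s η (0, x + 1) i (q i - (x + 1))) *
      mP μ s (Sp q 1)ᶜ η ((i : ℤ), q i) (n - i) =
      ∑ i ∈ Finset.Icc 1 n, W μ s η (0, 0) i (q i) * mP μ s (Sp q 1)ᶜ η ((i : ℤ), q i) (n - i) +
      Real.exp (-a) * ∑ i ∈ Finset.Icc 1 n, W μ s η (0, x + 1) i (q i - (x + 1)) *
        mP μ s (Sp q 1)ᶜ η ((i : ℤ), q i) (n - i) := by
    rw [Finset.mul_sum, ← Finset.sum_add_distrib]
    exact Finset.sum_congr rfl fun i _ => by ring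
  rw [e8]
  linarith

/-- **Below the row `x` the visits carry no mass.** -/
theorem reach (η : Env) (b : ℝ) {x : ℤ} {i : ℕ} (h : (i : ℤ) < x) :
    W μ s η (0, 0) i (seamU η b x i) = 0 ∧ W μ s η (0, x + 1) i (seamU η b x i - (x + 1)) = 0 := by
  obtain ⟨h1, h2⟩ := reachK η b h
  unfold K at h1 h2
  rw [sub_zero] at h1
  unfold W WR
  rw [h1, h2, mul_zero, mul_zero]
  exact ⟨rfl, rfl⟩

/-! ### The type of the left neighbour of the column -/

/-- The left neighbour of the column is of left type. -/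
theorem left_type (η : Env) (a : ℝ) {x : ℤ} (hx : 1 ≤ x) (i : ℕ) :
    Real.exp (-a) * W μ s η (0, x + 1) i (seamU η (a + s * (x + 1)) x i - 1 - (x + 1)) ≤
      W μ s η (0, 0) i (seamU η (a + s * (x + 1)) x i - 1) := by
  obtain ⟨q, hq⟩ : ∃ q : ℤ, q = seamU η (a + s * (x + 1)) x i := ⟨_, rfl⟩
  have h1 := (seamU_inv η (a + s * (x + 1)) hx i).1 (seamU η (a + s * (x + 1)) x i - 1) (by omega)
  rw [← hq] at h1 ⊢
  unfold K at h1
  rw [sub_zero] at h1
  unfold W WR
  have h2 := mul_le_mul_of_nonneg_left h1 (mul_pos (Real.exp_pos (-a)) (Real.exp_pos (s * ((q - 1 - (x + 1) : ℤ) : ℝ) - i * lam μ s))).le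
  refine le_trans (le_of_eq (by ring)) (h2.trans (le_of_eq ?_))
  rw [← mul_assoc, ← Real.exp_add, ← Real.exp_add]
  congr 2
  push_cast
  ring

private theorem half_le40 {m : ℝ} (h0 : 0 ≤ m) (h1 : m ≤ 1) : m / 2 ≤ 1 - Real.exp (-m) := by
  have h2 := Real.add_one_le_exp m
  have h3 : Real.exp (-m) * Real.exp m = 1 := by rw [← Real.exp_add, neg_add_cancel, Real.exp_zero]
  have h4 := mul_le_mul_of_nonneg_left h2 (Real.exp_pos (-m)).le
  rw [h3] at h4
  by_contra h5
  push Not at h5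
  have h6 : 1 - m / 2 < Real.exp (-m) := by linarith
  have h7 : (1 - m / 2) * (m + 1) < Real.exp (-m) * (m + 1) := mul_lt_mul_of_pos_right h6 (by linarith)
  nlinarith

/-- **The retained mass at a site of the left side**, at a level which is not exceptional. -/
theorem marginK {η : Env} {b : ℝ} {x : ℤ} (hx : 1 ≤ x) {n : ℕ} {m : ℝ} (hm0 : 0 ≤ m) (hm1 : m ≤ 1)
    (hM : Marg η b (x + 1) n m) {i : ℕ} (hi : i ≤ n) {y : ℤ} (hy : y < seamU η b x i) :
    m / 2 * K Set.univ η 0 i y ≤ K (Lt (seamU η b x)) η 0 i y := by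
  rcases eq_or_lt_of_le (K_nonneg Set.univ η 0 i y) with hK | hK
  · rw [← hK, mul_zero]
    exact K_nonneg _ _ _ _ _
  have h1 := retLU η b hx i y
  rcases eq_or_lt_of_le (K_nonneg Set.univ η (x + 1) i y) with h2 | h2
  · rw [← h2, mul_zero, add_zero] at h1
    nlinarith
  · have h3 := (seamU_inv η b hx i).1 y hy
    have h4 := hM i hi y hK h2
    have h5 : Real.log (K Set.univ η (x + 1) i y) ≤ b + Real.log (K Set.univ η 0 i y) := by
      have h6 := Real.log_le_log h2 h3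
      rwa [Real.log_mul (Real.exp_pos b).ne' hK.ne', Real.log_exp] at h6
    rw [abs_of_nonpos (by linarith)] at h4
    have h7 : K Set.univ η (x + 1) i y ≤ Real.exp (b - m) * K Set.univ η 0 i y := by
      have h8 : Real.log (K Set.univ η (x + 1) i y) ≤ (b - m) + Real.log (K Set.univ η 0 i y) := by linarith
      have h9 := Real.exp_le_exp.2 h8
      rwa [Real.exp_log h2, Real.exp_add, Real.exp_log hK] at h9
    have h10 := mul_le_mul_of_nonneg_left h7 (Real.exp_pos (-b)).le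
    rw [← mul_assoc, ← Real.exp_add, show -b + (b - m) = -m by ring] at h10
    have h11 := mul_le_mul_of_nonneg_right (half_le40 hm0 hm1) hK.le
    rw [sub_mul, one_mul] at h11
    linarith

/-- **The retained mass at the left neighbour of the column**, at a level which is not exceptional. -/
theorem margin {η : Env} {b : ℝ} {x : ℤ} (hx : 1 ≤ x) {n : ℕ} {m : ℝ} (hm0 : 0 ≤ m) (hm1 : m ≤ 1)
    (hM : Marg η b (x + 1) n m) {i : ℕ} (hi : i ≤ n) :
    m / 2 * W μ s η (0, 0) i (seamU η b x i - 1) ≤ WR μ s (Lt (seamU η b x)) η (0, 0) i (seamU η b x i - 1) := by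
  have h1 := marginK hx hm0 hm1 hM hi (y := seamU η b x i - 1) (by omega)
  unfold K at h1
  rw [sub_zero] at h1
  unfold W WR
  have h2 := mul_le_mul_of_nonneg_left h1 (Real.exp_pos (s * ((seamU η b x i - 1 : ℤ) : ℝ) - i * lam μ s)).le
  exact le_trans (le_of_eq (by ring)) h2

/-- **Both sources at the left neighbour of the column**, at a level which is not exceptional: paid by the paths from `0` which stay on
the left. -/
theorem both_left {η : Env} {a : ℝ} {x : ℤ} (hx : 1 ≤ x) {n : ℕ} {m : ℝ} (hm0 : 0 < m) (hm1 : m ≤ 1)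
    (hM : Marg η (a + s * (x + 1)) (x + 1) n m) {i : ℕ} (hi : i ≤ n) :
    W μ s η (0, 0) i (seamU η (a + s * (x + 1)) x i - 1) +
      Real.exp (-a) * W μ s η (0, x + 1) i (seamU η (a + s * (x + 1)) x i - 1 - (x + 1)) ≤
      4 / m * WR μ s (Lt (seamU η (a + s * (x + 1)) x)) η (0, 0) i (seamU η (a + s * (x + 1)) x i - 1) := by
  have h1 := left_type (μ := μ) (s := s) η a hx i
  have h2 := margin (μ := μ) (s := s) hx hm0.le hm1 hM hi
  rw [div_mul_eq_mul_div, le_div_iff₀ hm0]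
  nlinarith

/-! ### Lower bounds for the mass without the column -/

theorem av_le_left (η : Env) (a : ℝ) {x : ℤ} (hx : 1 ≤ x) (n : ℕ) {q : ℕ → ℤ} (h0 : q 0 = x) (hq : ∀ i, q i ≤ q (i + 1)) :
    mass μ s (Sp q 1)ᶜ η 0 n ≤ psi μ s (del q η) 0 n := by
  rw [av_left (by rw [h0]; exact hx) hq, psi_eq_mass]
  exact mass_mono (Set.subset_univ _) _ _ _

theorem av_le_right (η : Env) {x : ℤ} (n : ℕ) {q : ℕ → ℤ} (h0 : q 0 = x) (hq : ∀ i, q (i + 1) ≤ q i + 1) :
    mass μ s (Sp q 1)ᶜ η (x + 1) n ≤ psi μ s (del q η) x n := by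
  have h1 := av_right (μ := μ) (s := s) hq η n
  rw [h0] at h1
  rw [h1, psi_eq_mass]
  exact mass_mono (Set.subset_univ _) _ _ _

/-- The mass without the column is at least the mass which avoids the column. -/
theorem av_le_Zt (η : Env) (a : ℝ) {x : ℤ} (hx : 1 ≤ x) (n : ℕ) {q : ℕ → ℤ} (h0 : q 0 = x)
    (hq : ∀ i, q i ≤ q (i + 1) ∧ q (i + 1) ≤ q i + 1) :
    mass μ s (Sp q 1)ᶜ η 0 n + Real.exp (-a) * mass μ s (Sp q 1)ᶜ η (x + 1) n ≤ Zt μ s (del q η) x n a :=
  add_le_add (av_le_left η a hx n h0 fun i => (hq i).1)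
    (mul_le_mul_of_nonneg_left (av_le_right η n h0 fun i => (hq i).2) (Real.exp_pos _).le)

end

end Pool.Agent.W_7d29a1_UB
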