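import Pool.Agent.W_7d29a1_UB.Defs

/-!
STORM UB (MP_7d29a1_pr, row 674 of the table `proofs`, helper60), the bound of the cost at every good level (near): from the last visit
(U3), the past shift (U4) and the regular paths (U5).
-/

set_option autoImplicit false

namespace Pool.Agent.W_7d29a1_UB

open MeasureTheory ProbabilityTheory Filter Topology
open Pool.Agent.W_7d29a1_F Pool.Agent.W_7d29a1_LB

noncomputable section

variable {μ : Measure ℝ} {s : ℝ}

/-- Left type, in the normalised form. -/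
theorem left_type60 (η : Env) (a : ℝ) {x : ℤ} (hx : 1 ≤ x) (i : ℕ) {y : ℤ} (hy : y < seamU η (a + s * (x + 1)) x i) :
    Real.exp (-a) * W μ s η (0, x + 1) i (y - (x + 1)) ≤ W μ s η 0 i y := by
  have h1 := (seamU_inv η (a + s * (x + 1)) hx i).1 y hy
  unfold K at h1
  rw [sub_zero] at h1
  unfold W WR
  have h2 := mul_le_mul_of_nonneg_left h1 (Real.exp_pos (-a + (s * ((y - (x + 1) : ℤ) : ℝ) - i * lam μ s))).le
  have e1 : Real.exp (-a) * (Real.exp (s * ((y - (x + 1) : ℤ) : ℝ) - i * lam μ s) * Zr Set.univ η (0, x + 1) i (y - (x + 1))) =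
      Real.exp (-a + (s * ((y - (x + 1) : ℤ) : ℝ) - i * lam μ s)) * Zr Set.univ η (0, x + 1) i (y - (x + 1)) := by
    rw [Real.exp_add]; ring
  have e2 : Real.exp (-a + (s * ((y - (x + 1) : ℤ) : ℝ) - i * lam μ s)) *
      (Real.exp (a + s * (x + 1)) * Zr Set.univ η (0, 0) i y) =
      Real.exp (s * (y : ℝ) - i * lam μ s) * Zr Set.univ η 0 i y := by
    rw [← mul_assoc, ← Real.exp_add]
    congr 2
    push_cast
    ring
  rw [e1]
  exact h2.trans (le_of_eq e2)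

/-- **The cost at a good level.** -/
theorem near60 {η : Env} {a : ℝ} {x : ℤ} (hx : 1 ≤ x) {n m : ℕ} (hmx : (m : ℤ) ≤ x)
    {m0 k : ℝ} (hm0 : 0 < m0) (hk : 0 ≤ k) {q : ℕ → ℤ} (hq : q = seamU η (a + s * (x + 1)) x)
    (hlast : Zt μ s η (x + 1) n a ≤ Zt μ s (del q η) x n a + ∑ i ∈ Finset.Icc 1 n,
      (W μ s η 0 i (q i) + Real.exp (-a) * W μ s η (0, x + 1) i (q i - (x + 1))) * mP μ s (Sp q 1)ᶜ η ((i : ℤ), q i) (n - i))
    (hexit : ∀ i : ℕ, 1 ≤ i → i ≤ n → WR μ s (Lt q) η 0 i (q i - 1) * mP μ s (Sp q 1)ᶜ η ((i : ℤ), q i) (n - i) ≤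
      Real.exp |s| * psi μ s (del q η) 0 n)
    (hmargin : ∀ i : ℕ, 1 ≤ i → i ≤ n → m0 / 2 * W μ s η 0 i (q i - 1) ≤ WR μ s (Lt q) η 0 i (q i - 1))
    (hreach : ∀ i : ℕ, (i : ℤ) < x → W μ s η 0 i (q i) = 0 ∧ W μ s η (0, x + 1) i (q i - (x + 1)) = 0)
    (hpast0 : ∀ i : ℕ, m ≤ i → i ≤ n → W μ s η 0 i (q i) ≤ m * k ^ m * W μ s η 0 i (q i - 1) +
      W μ s η 0 (i - m) (q i) * W μ s η (((i - m : ℕ) : ℤ), q i) m 0)
    (hpast1 : ∀ i : ℕ, m ≤ i → i ≤ n → W μ s η (0, x + 1) i (q i - (x + 1)) ≤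
      m * k ^ m * W μ s η (0, x + 1) i (q i - 1 - (x + 1)) +
      W μ s η (0, x + 1) (i - m) (q i - (x + 1)) * W μ s η (((i - m : ℕ) : ℤ), q i) m 0)
    {r r' : ℝ} (hr0 : ∀ i : ℕ, m ≤ i → i ≤ n →
      W μ s η 0 (i - m) (q i) * W μ s η (((i - m : ℕ) : ℤ), q i) m 0 * mP μ s Set.univ η ((i : ℤ), q i) (n - i) ≤
        psi μ s η 0 n * r)
    (hr1 : ∀ i : ℕ, m ≤ i → i ≤ n →
      W μ s η (0, x + 1) (i - m) (q i - (x + 1)) * W μ s η (((i - m : ℕ) : ℤ), q i) m 0 *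
        mP μ s Set.univ η ((i : ℤ), q i) (n - i) ≤ psi μ s η (x + 1) n * r')
    (hrr : n * (r + r') ≤ 1 / 2) (hr : 0 ≤ r) (hr' : 0 ≤ r') :
    Real.log (Zt μ s η (x + 1) n a) - Real.log (Zt μ s (del q η) x n a) ≤
      Real.log (2 * (1 + 4 * n * m * k ^ m * Real.exp |s| / m0)) := by
  obtain ⟨Z, hZ⟩ : ∃ Z : ℝ, Z = Zt μ s η (x + 1) n a := ⟨_, rfl⟩
  obtain ⟨Y, hY⟩ : ∃ Y : ℝ, Y = Zt μ s (del q η) x n a := ⟨_, rfl⟩
  have hZp : 0 < Z := by rw [hZ]; exact Zt_pos _ _ _ _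
  have hYp : 0 < Y := by rw [hY]; exact Zt_pos _ _ _ _
  have hpsi : psi μ s (del q η) 0 n ≤ Y := by
    rw [hY]
    exact le_add_of_nonneg_right (mul_nonneg (Real.exp_pos _).le (psi_pos _ _ _).le)
  have ha := (Real.exp_pos (-a)).le
  have hterm : ∀ i ∈ Finset.Icc 1 n,
      (W μ s η 0 i (q i) + Real.exp (-a) * W μ s η (0, x + 1) i (q i - (x + 1))) * mP μ s (Sp q 1)ᶜ η ((i : ℤ), q i) (n - i) ≤
        4 * m * k ^ m * Real.exp |s| / m0 * Y + (r + r') * Z := by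
    intro i hi
    rw [Finset.mem_Icc] at hi
    obtain ⟨A, hA⟩ : ∃ A : ℝ, A = mP μ s (Sp q 1)ᶜ η ((i : ℤ), q i) (n - i) := ⟨_, rfl⟩
    have hA0 : 0 ≤ A := by rw [hA]; exact mP_nonneg _ _ _ _
    have hA1 : A ≤ mP μ s Set.univ η ((i : ℤ), q i) (n - i) := by
      rw [hA]
      exact mP_mono (Set.subset_univ _) _ _ _
    rw [← hA]
    have hrhs : 0 ≤ 4 * m * k ^ m * Real.exp |s| / m0 * Y + (r + r') * Z := by positivity
    by_cases hix : (i : ℤ) < x
    · rw [(hreach i hix).1, (hreach i hix).2, mul_zero, add_zero, zero_mul]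
      exact hrhs
    · have hmi : m ≤ i := by exact_mod_cast (hmx.trans (not_lt.1 hix))
      obtain ⟨w0, hw0⟩ : ∃ w0 : ℝ, w0 = W μ s η 0 i (q i - 1) := ⟨_, rfl⟩
      have hw00 : 0 ≤ w0 := by rw [hw0]; exact W_nonneg _ _ _ _
      have h1 := hpast0 i hmi hi.2
      have h2 := hpast1 i hmi hi.2
      have h3 : Real.exp (-a) * W μ s η (0, x + 1) i (q i - 1 - (x + 1)) ≤ w0 := by
        rw [hw0]
        exact left_type60 η a hx i (by rw [hq]; omega)
      rw [← hw0] at h1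
      obtain ⟨b0, hb0⟩ : ∃ b0 : ℝ, b0 = W μ s η 0 (i - m) (q i) * W μ s η (((i - m : ℕ) : ℤ), q i) m 0 := ⟨_, rfl⟩
      obtain ⟨b1, hb1⟩ : ∃ b1 : ℝ, b1 = W μ s η (0, x + 1) (i - m) (q i - (x + 1)) * W μ s η (((i - m : ℕ) : ℤ), q i) m 0 :=
        ⟨_, rfl⟩
      have hb00 : 0 ≤ b0 := by rw [hb0]; exact mul_nonneg (W_nonneg _ _ _ _) (W_nonneg _ _ _ _)
      have hb10 : 0 ≤ b1 := by rw [hb1]; exact mul_nonneg (W_nonneg _ _ _ _) (W_nonneg _ _ _ _)
      have g0 := hr0 i hmi hi.2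
      have g1 := hr1 i hmi hi.2
      rw [← hb0] at h1 g0
      rw [← hb1] at h2 g1
      have g0' : b0 * A ≤ psi μ s η 0 n * r := (mul_le_mul_of_nonneg_left hA1 hb00).trans g0
      have g1' : b1 * A ≤ psi μ s η (x + 1) n * r' := (mul_le_mul_of_nonneg_left hA1 hb10).trans g1
      have hM : 0 ≤ (m : ℝ) * k ^ m := by positivity
      have h4 : W μ s η 0 i (q i) + Real.exp (-a) * W μ s η (0, x + 1) i (q i - (x + 1)) ≤
          2 * (m * k ^ m) * w0 + b0 + Real.exp (-a) * b1 := by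
        have h5 := mul_le_mul_of_nonneg_left h2 ha
        have h6 := mul_le_mul_of_nonneg_left h3 hM
        have e1 : Real.exp (-a) * (m * k ^ m * W μ s η (0, x + 1) i (q i - 1 - (x + 1)) + b1) =
            m * k ^ m * (Real.exp (-a) * W μ s η (0, x + 1) i (q i - 1 - (x + 1))) + Real.exp (-a) * b1 := by ring
        rw [e1] at h5
        linarith
      have h7 := hexit i hi.1 hi.2
      have h8 := hmargin i hi.1 hi.2
      rw [← hA] at h7
      rw [← hw0] at h8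
      have h9 : w0 * A ≤ 2 / m0 * (Real.exp |s| * Y) := by
        have h10 : m0 / 2 * w0 * A ≤ Real.exp |s| * Y :=
          (mul_le_mul_of_nonneg_right h8 hA0).trans (h7.trans (mul_le_mul_of_nonneg_left hpsi (Real.exp_pos _).le))
        calc w0 * A = 2 / m0 * (m0 / 2 * w0 * A) := by field_simp
          _ ≤ _ := mul_le_mul_of_nonneg_left h10 (by positivity)
      have hZ1 : psi μ s η 0 n ≤ Z := by
        rw [hZ]
        exact le_add_of_nonneg_right (mul_nonneg ha (psi_pos _ _ _).le)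
      have hZ2 : Real.exp (-a) * psi μ s η (x + 1) n ≤ Z := by
        rw [hZ]
        exact le_add_of_nonneg_left (psi_pos _ _ _).le
      calc _ ≤ (2 * (m * k ^ m) * w0 + b0 + Real.exp (-a) * b1) * A := mul_le_mul_of_nonneg_right h4 hA0
        _ = 2 * (m * k ^ m) * (w0 * A) + b0 * A + Real.exp (-a) * (b1 * A) := by ring
        _ ≤ 2 * (m * k ^ m) * (2 / m0 * (Real.exp |s| * Y)) + psi μ s η 0 n * r +
            Real.exp (-a) * (psi μ s η (x + 1) n * r') :=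
          add_le_add (add_le_add (mul_le_mul_of_nonneg_left h9 (by positivity)) g0') (mul_le_mul_of_nonneg_left g1' ha)
        _ ≤ 2 * (m * k ^ m) * (2 / m0 * (Real.exp |s| * Y)) + Z * r + Z * r' := by
          have h11 := mul_le_mul_of_nonneg_right hZ1 hr
          have h12 := mul_le_mul_of_nonneg_right hZ2 hr'
          rw [← mul_assoc (Real.exp (-a))]
          linarith
        _ = _ := by ring
  have hsum := Finset.sum_le_sum hterm
  rw [Finset.sum_const, Nat.card_Icc, Nat.add_sub_cancel, nsmul_eq_mul] at hsum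
  rw [← hZ, ← hY] at hlast
  have h1 : Z ≤ 2 * (1 + 4 * n * m * k ^ m * Real.exp |s| / m0) * Y := by
    have h2 : (n : ℝ) * ((r + r') * Z) ≤ 1 / 2 * Z := by
      rw [← mul_assoc]
      exact mul_le_mul_of_nonneg_right hrr hZp.le
    have h3 : (n : ℝ) * (4 * m * k ^ m * Real.exp |s| / m0 * Y + (r + r') * Z) =
        4 * n * m * k ^ m * Real.exp |s| / m0 * Y + n * ((r + r') * Z) := by ring
    rw [h3] at hsum
    linarith
  rw [← hZ, ← hY, sub_le_iff_le_add, ← Real.log_mul (by positivity) hYp.ne']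
  exact Real.log_le_log hZp h1

end

end Pool.Agent.W_7d29a1_UB
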