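import Pool.Agent.W_7d29a1_LB.StepPw
import Pool.Agent.W_7d29a1_LB.NSDef
import Pool.Agent.W_7d29a1_UB.Shift82

/-!
STORM UB (MP_7d29a1_pr, helper60's proof, rows 674, 675), part U5: the mass of the paths with `m` equal steps before or behind a
given site, the numerical condition, the smallness of the quenched probability of the paths which are not regular, and the largest
weight of a box. (helper30)
-/

set_option autoImplicit false

namespace Pool.Agent.W_7d29a1_UB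

open MeasureTheory ProbabilityTheory Filter Topology Finset
open Pool.Agent.W_7d29a1_F Pool.Agent.W_7d29a1_X Pool.Agent.W_7d29a1_X50 Pool.Agent.W_7d29a1_H Pool.Agent.W_7d29a1_LB
open Pool.Agent.W_7d29a1_HS (In wd)
open Pool.Agent.W_7d29a1_HZ (NSp wd' wd'_pow)
open Pool.Agent.W_7d29a1_h47 (EM Nondeg Mom)
open scoped ENNReal

noncomputable section

variable {μ : Measure ℝ} {s : ℝ}

/-! ### The bad parts -/

open Classical in
/-- The mass of the paths through two given sites, horizon `t + m + k`. -/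
private theorem two_sites30 (η : Env) (t m k : ℕ) (y d : ℤ) :
    W μ s η 0 t y * W μ s η ((t : ℤ), y) m d * Real.exp (V μ s η ((t : ℤ) + m, y + d) k) =
      Real.exp (V μ s η 0 (t + m + k)) * ∑ S ∈ (range (t + m + k)).powerset, GS μ s η (t + m + k) S *
        (if pos S t = y ∧ pos S (t + m) - pos S t = d then 1 else 0) := by
  have h1 := GS_Gn (μ := μ) (s := s) η t m k (fun a b => if a = y ∧ b = d then (1 : ℝ) else 0)
  have hV := (Real.exp_pos (V μ s η 0 (t + m + k))).ne'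
  rw [h1]
  by_cases hq : (y, d) ∈ Pr t m
  · rw [sum_eq_single_of_mem (y, d) hq]
    · rw [if_pos ⟨rfl, rfl⟩, mul_one]
      unfold Gn Aw
      rw [mul_div_cancel₀ _ hV]
      ring
    · intro q _ hne
      rw [if_neg, mul_zero]
      rintro ⟨h2, h3⟩
      exact hne (Prod.ext h2 h3)
  · rw [sum_eq_zero, mul_zero]
    · unfold Pr at hq
      rw [mem_product, mem_Icc, mem_Icc] at hq
      by_cases h2 : 0 ≤ y ∧ y ≤ t
      · have h3 : ¬ (0 ≤ d ∧ d ≤ m) := fun h4 => hq ⟨h2, h4⟩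
        rw [W_eq_zero η _ h3, mul_zero, zero_mul]
      · rw [W_eq_zero η _ h2, zero_mul, zero_mul]
    · intro q hqm
      rw [if_neg, mul_zero]
      rintro ⟨h2, h3⟩
      refine hq ?_
      rw [← h2, ← h3]
      exact hqm

/-- **The bad parts**: an increment `d` which is not regular, at the rows `t`, `t + m`, start `(0, z)`. -/
theorem bad_part {ε : ℝ} (η : Env) (z : ℤ) {n t m k : ℕ} (hn : t + m + k = n) (hm1 : 1 ≤ m) {d : ℤ}
    (hd : (n : ℝ) ^ ε * wd' μ s m < |(d : ℝ) - sl μ s * m|) (y : ℤ) :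
    W μ s η ((0 : ℤ), z) t y * W μ s η ((t : ℤ), z + y) m d * Real.exp (V μ s η ((t : ℤ) + m, z + y + d) k) ≤
      psi μ s η z n * r0 μ s n ε (sh ((0 : ℤ), z) η) := by
  classical
  have h1 := two_sites30 (μ := μ) (s := s) (sh ((0 : ℤ), z) η) t m k y d
  have e1 : W μ s (sh ((0 : ℤ), z) η) 0 t y = W μ s η ((0 : ℤ), z) t y := by rw [W_sh, zero_add]
  have e2 : W μ s (sh ((0 : ℤ), z) η) ((t : ℤ), y) m d = W μ s η ((t : ℤ), z + y) m d := by
    rw [W_sh]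
    congr 1
    refine Prod.ext ?_ ?_
    · show (t : ℤ) + 0 = t
      ring
    · show y + z = z + y
      ring
  have eV : ∀ (a : Pt) (j : ℕ), V μ s (sh ((0 : ℤ), z) η) a j = V μ s η (a + ((0 : ℤ), z)) j := by
    intro a j
    unfold V WS
    congr 1
    exact sum_congr rfl fun x _ => W_sh _ _ _ _ _
  have e3 : V μ s (sh ((0 : ℤ), z) η) ((t : ℤ) + m, y + d) k = V μ s η ((t : ℤ) + m, z + y + d) k := by
    rw [eV]
    congr 1
    refine Prod.ext ?_ ?_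
    · show (t : ℤ) + m + 0 = t + m
      ring
    · show y + d + z = z + y + d
      ring
  have e4 : Real.exp (V μ s (sh ((0 : ℤ), z) η) 0 (t + m + k)) = psi μ s η z n := by
    rw [eV, zero_add, hn]
    exact Real.exp_log (psi_pos η z n)
  rw [e1, e2, e3, e4, hn] at h1
  rw [h1]
  refine mul_le_mul_of_nonneg_left ?_ (psi_pos η z n).le
  unfold r0
  refine sum_le_sum fun S _ => mul_le_mul_of_nonneg_left ?_ (GS_nonneg _ _ _)
  by_cases h2 : pos S t = y ∧ pos S (t + m) - pos S t = d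
  · have h3 : ¬ NSp μ s n n ε S := by
      intro h4
      have h5 := h4 t m hm1 (by omega)
      rw [h2.2] at h5
      exact absurd hd (not_lt.2 h5)
    rw [if_pos h2, if_neg h3]
  · rw [if_neg h2]
    split_ifs <;> norm_num

/-- **The bad past**: `m` steps `0` before the site `(i, z + y)`. -/
theorem bad_past {ε : ℝ} (η : Env) (z : ℤ) {n m i : ℕ} (hmi : m ≤ i) (hin : i ≤ n)
    (hm : (n : ℝ) ^ ε * wd' μ s m < sl μ s * m) (y : ℤ) :
    badP μ s η z i m y * mP μ s Set.univ η ((i : ℤ), z + y) (n - i) ≤ psi μ s η z n * r0 μ s n ε (sh ((0 : ℤ), z) η) := by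
  have hw1 : (1 : ℝ) ≤ wd' μ s m := le_max_left _ _
  have hnp : (0 : ℝ) ≤ (n : ℝ) ^ ε := Real.rpow_nonneg (Nat.cast_nonneg _) _
  have hpos : 0 < sl μ s * (m : ℝ) := lt_of_le_of_lt (mul_nonneg hnp (by linarith)) hm
  have hm1 : 1 ≤ m := by
    rcases Nat.eq_zero_or_pos m with h1 | h1
    · rw [h1, Nat.cast_zero, mul_zero] at hpos
      exact absurd hpos (lt_irrefl _)
    · exact h1
  have h2 : (n : ℝ) ^ ε * wd' μ s m < |((0 : ℤ) : ℝ) - sl μ s * m| := by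
    rw [Int.cast_zero, zero_sub, abs_neg, abs_of_pos hpos]
    exact hm
  have h3 := bad_part (μ := μ) (s := s) η z (n := n) (t := i - m) (m := m) (k := n - i) (by omega) hm1 h2 y
  have e1 : (((i - m : ℕ) : ℤ) + m, z + y + 0) = (((i : ℕ) : ℤ), z + y) := by
    refine Prod.ext ?_ ?_
    · show ((i - m : ℕ) : ℤ) + m = i
      omega
    · show z + y + 0 = z + y
      ring
  rw [e1, ← mP_univ] at h3
  exact h3

/-- **The bad future**: `m` steps `1` behind the site `(i, z + y)`. -/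
theorem bad_fut {ε : ℝ} (η : Env) (z : ℤ) {n m i : ℕ} (hin : i + m ≤ n)
    (hm : (n : ℝ) ^ ε * wd' μ s m < (1 - sl μ s) * m) (y : ℤ) :
    W μ s η ((0 : ℤ), z) i y * badF μ s η i (z + y) (n - i) m ≤ psi μ s η z n * r0 μ s n ε (sh ((0 : ℤ), z) η) := by
  have hw1 : (1 : ℝ) ≤ wd' μ s m := le_max_left _ _
  have hnp : (0 : ℝ) ≤ (n : ℝ) ^ ε := Real.rpow_nonneg (Nat.cast_nonneg _) _
  have hpos : 0 < (1 - sl μ s) * (m : ℝ) := lt_of_le_of_lt (mul_nonneg hnp (by linarith)) hm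
  have hm1 : 1 ≤ m := by
    rcases Nat.eq_zero_or_pos m with h1 | h1
    · rw [h1, Nat.cast_zero, mul_zero] at hpos
      exact absurd hpos (lt_irrefl _)
    · exact h1
  have h2 : (n : ℝ) ^ ε * wd' μ s m < |((m : ℤ) : ℝ) - sl μ s * m| := by
    have e : ((m : ℤ) : ℝ) - sl μ s * m = (1 - sl μ s) * m := by
      rw [Int.cast_natCast]
      ring
    rw [e, abs_of_pos hpos]
    exact hm
  have h3 := bad_part (μ := μ) (s := s) η z (n := n) (t := i) (m := m) (k := n - i - m) (by omega) hm1 h2 y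
  rw [← mP_univ, mul_assoc] at h3
  unfold badF
  have e1 : (((i + m : ℕ) : ℤ), z + y + m) = ((i : ℤ) + m, z + y + (m : ℤ)) := by
    refine Prod.ext ?_ rfl
    show ((i + m : ℕ) : ℤ) = (i : ℤ) + m
    push_cast
    ring
  rw [e1]
  exact h3

/-! ### The numerical condition -/

/-- The steps over `m ≥ n ^ δ` rows are regular: the allowed deviation is smaller than both extreme deviations. -/
theorem num_reg [IsProbabilityMeasure μ] {c C : ℝ} {n₀ : ℕ} (h : In μ s c C n₀) {δ : ℝ} (hδ : 0 < δ) :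
    ∃ ε₀ : ℝ, 0 < ε₀ ∧ ∀ ε : ℝ, ε ≤ ε₀ → ∃ N₀ : ℕ, ∀ n : ℕ, N₀ ≤ n → ∀ m : ℕ, (n : ℝ) ^ δ ≤ m →
      (n : ℝ) ^ ε * wd' μ s m < sl μ s * m ∧ (n : ℝ) ^ ε * wd' μ s m < (1 - sl μ s) * m := by
  obtain ⟨a, K, ha0, ha1, hK, hw⟩ := wd'_pow h
  have hsl0 := h.sl_pos
  have hsl1 := h.sl_lt
  have hw1 : 1 ≤ wd' μ s 1 := le_max_left _ _
  refine ⟨δ * a / 2, by positivity, fun ε hε => ?_⟩
  obtain ⟨v, hv⟩ : ∃ v : ℝ, v = min (sl μ s) (1 - sl μ s) := ⟨_, rfl⟩
  have hv0 : 0 < v := by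
    rw [hv]
    exact lt_min hsl0 (by linarith)
  have hev : ∀ᶠ n : ℕ in atTop, 1 ≤ n ∧ K * wd' μ s 1 / v + 1 ≤ (n : ℝ) ^ (δ * a / 2) :=
    (eventually_ge_atTop 1).and (((tendsto_rpow_atTop (by positivity : 0 < δ * a / 2)).comp
      tendsto_natCast_atTop_atTop).eventually_ge_atTop _)
  obtain ⟨N₀, hN₀⟩ := eventually_atTop.1 hev
  refine ⟨N₀, fun n hn m hm => ?_⟩
  obtain ⟨hn1, hnK⟩ := hN₀ n hn
  have hnR : (1 : ℝ) ≤ n := by exact_mod_cast hn1
  have hn0 : (0 : ℝ) < n := by linarith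
  have hp : (0 : ℝ) < (n : ℝ) ^ δ := Real.rpow_pos_of_pos hn0 _
  have hm0 : (0 : ℝ) < m := hp.trans_le hm
  have hm1 : 1 ≤ m := by exact_mod_cast hm0
  have h1 := (hw 1 m le_rfl hm1).2.2
  rw [Nat.cast_one, div_one] at h1
  have key : (n : ℝ) ^ ε * wd' μ s m < v * m := by
    have h2 : (n : ℝ) ^ ε ≤ (n : ℝ) ^ (δ * a / 2) := Real.rpow_le_rpow_of_exponent_le hnR hε
    have h3 : K * wd' μ s 1 < v * (n : ℝ) ^ (δ * a / 2) := by
      have h4 : K * wd' μ s 1 / v < (n : ℝ) ^ (δ * a / 2) := by linarith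
      rw [div_lt_iff₀ hv0] at h4
      linarith
    have h5 : (n : ℝ) ^ (δ * a / 2) * (n : ℝ) ^ (δ * a / 2) ≤ (m : ℝ) ^ a := by
      calc (n : ℝ) ^ (δ * a / 2) * (n : ℝ) ^ (δ * a / 2) = ((n : ℝ) ^ δ) ^ a := by
            rw [← Real.rpow_add hn0, ← Real.rpow_mul hn0.le]
            congr 1
            ring
        _ ≤ (m : ℝ) ^ a := Real.rpow_le_rpow hp.le hm ha0.le
    have h6 : (m : ℝ) ^ a * (m : ℝ) ^ (1 - a) = m := by
      rw [← Real.rpow_add hm0]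
      have h7 : a + (1 - a) = 1 := by ring
      rw [h7, Real.rpow_one]
    have hp1 : (0 : ℝ) < (m : ℝ) ^ (1 - a) := Real.rpow_pos_of_pos hm0 _
    have hp2 : (0 : ℝ) < (n : ℝ) ^ (δ * a / 2) := Real.rpow_pos_of_pos hn0 _
    calc (n : ℝ) ^ ε * wd' μ s m ≤ (n : ℝ) ^ (δ * a / 2) * (K * (m : ℝ) ^ (1 - a) * wd' μ s 1) :=
          mul_le_mul h2 h1 (zero_le_one.trans (le_max_left _ _)) hp2.le
      _ = (K * wd' μ s 1) * ((n : ℝ) ^ (δ * a / 2) * (m : ℝ) ^ (1 - a)) := by ring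
      _ < (v * (n : ℝ) ^ (δ * a / 2)) * ((n : ℝ) ^ (δ * a / 2) * (m : ℝ) ^ (1 - a)) :=
          mul_lt_mul_of_pos_right h3 (mul_pos hp2 hp1)
      _ = v * (((n : ℝ) ^ (δ * a / 2) * (n : ℝ) ^ (δ * a / 2)) * (m : ℝ) ^ (1 - a)) := by ring
      _ ≤ v * ((m : ℝ) ^ a * (m : ℝ) ^ (1 - a)) :=
          mul_le_mul_of_nonneg_left (mul_le_mul_of_nonneg_right h5 hp1.le) hv0.le
      _ = v * m := by rw [h6]
  constructor
  · refine key.trans_le (mul_le_mul_of_nonneg_right ?_ hm0.le)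
    rw [hv]
    exact min_le_left _ _
  · refine key.trans_le (mul_le_mul_of_nonneg_right ?_ hm0.le)
    rw [hv]
    exact min_le_right _ _

/-! ### The quenched probability of the paths which are not regular -/

/-- Halving the exponent absorbs a factor. -/
private theorem exp_half30 {α : ℝ} (hα : 0 < α) : ∀ᶠ n : ℕ in atTop, (n : ℝ) ^ (α / 2) ≤ (n : ℝ) ^ α / 2 := by
  have h1 : ∀ᶠ n : ℕ in atTop, 2 ≤ (n : ℝ) ^ (α / 2) :=
    ((tendsto_rpow_atTop (by positivity : 0 < α / 2)).comp tendsto_natCast_atTop_atTop).eventually_ge_atTop _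
  filter_upwards [h1, eventually_ge_atTop 1] with n hn hn1
  have hn0 : (0 : ℝ) < n := by exact_mod_cast hn1
  have h2 : (n : ℝ) ^ α = (n : ℝ) ^ (α / 2) * (n : ℝ) ^ (α / 2) := by
    rw [← Real.rpow_add hn0]
    congr 1
    ring
  rw [h2]
  nlinarith

/-- **The paths are regular** up to a small quenched probability, at every start of the row `0`. -/
theorem r0_small [IsProbabilityMeasure μ] (hNS : NSFr μ s) {ε : ℝ} (hε : 0 < ε) :
    ∃ c' : ℝ, 0 < c' ∧ ∃ N₀ : ℕ, ∀ n : ℕ, N₀ ≤ n → ∀ z : ℤ,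
      law μ {η : Env | Real.exp (-(n : ℝ) ^ c') < r0 μ s n ε (sh ((0 : ℤ), z) η)} ≤ ENNReal.ofReal (Real.exp (-(n : ℝ) ^ c')) := by
  obtain ⟨c1, hc1, N₁, hN₁⟩ := hNS ε hε
  obtain ⟨N₂, hN₂⟩ := eventually_atTop.1 (exp_half30 hc1)
  refine ⟨c1 / 2, by positivity, max N₁ N₂, fun n hn z => ?_⟩
  have hn1 := hN₁ n ((le_max_left _ _).trans hn)
  have hn2 := hN₂ n ((le_max_right _ _).trans hn)
  obtain ⟨e, he⟩ : ∃ e : ℝ, e = Real.exp (-(n : ℝ) ^ (c1 / 2)) := ⟨_, rfl⟩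
  have he0 : 0 < e := by
    rw [he]
    exact Real.exp_pos _
  rw [← he]
  have hmeas : Measurable fun η : Env => r0 μ s n ε η := measurable_r0 n ε
  have hint : Integrable (fun η : Env => r0 μ s n ε η) (law μ) :=
    Integrable.of_bound hmeas.aestronglyMeasurable 1 (Filter.Eventually.of_forall fun η => by
      rw [Real.norm_eq_abs, abs_of_nonneg (r0_nonneg _ _ _)]
      exact r0_le_one _ _ _)
  have h1 : ∫ η, r0 μ s n ε η ∂(law μ) ≤ e * e := by
    have h2 : ∫ η, r0 μ s n ε η ∂(law μ) ≤ Real.exp (-(n : ℝ) ^ c1) := hn1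
    refine h2.trans ?_
    rw [he, ← Real.exp_add]
    refine Real.exp_le_exp.2 ?_
    linarith
  have h3 : law μ {η : Env | e < r0 μ s n ε (sh ((0 : ℤ), z) η)} = law μ {η : Env | e < r0 μ s n ε η} := by
    have h4 : MeasurableSet {η : Env | e < r0 μ s n ε η} := measurableSet_lt measurable_const hmeas
    exact (mp_sh (μ := μ) ((0 : ℤ), z)).measure_preimage h4.nullMeasurableSet
  rw [h3]
  have h5 := mul_meas_ge_le_integral_of_nonneg (Filter.Eventually.of_forall fun η => r0_nonneg (μ := μ) (s := s) n ε η) hint e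
  have h6 : (law μ).real {η : Env | e ≤ r0 μ s n ε η} ≤ e := by
    have h7 : e * (law μ).real {η : Env | e ≤ r0 μ s n ε η} ≤ e * e := h5.trans h1
    exact le_of_mul_le_mul_left h7 he0
  calc law μ {η : Env | e < r0 μ s n ε η} ≤ law μ {η : Env | e ≤ r0 μ s n ε η} := by
        refine measure_mono fun η hη => ?_
        have h8 : e < r0 μ s n ε η := hη
        exact h8.le
    _ = ENNReal.ofReal ((law μ).real {η : Env | e ≤ r0 μ s n ε η}) := by
        rw [Measure.real, ENNReal.ofReal_toReal (measure_ne_top _ _)]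
    _ ≤ ENNReal.ofReal e := ENNReal.ofReal_le_ofReal h6

/-! ### The largest weight of a box -/

/-- **The weights of a box are small.** -/
theorem box_small [IsProbabilityMeasure μ] (hEM : EM μ) {δ : ℝ} (hδ : 0 < δ) (k : ℕ) :
    ∃ N₀ : ℕ, ∀ n : ℕ, N₀ ≤ n →
      law μ {η : Env | ∃ p : Pt, |p.1| ≤ (n : ℤ) ^ k ∧ |p.2| ≤ (n : ℤ) ^ k ∧ (n : ℝ) ^ δ < |η p|} ≤
        ENNReal.ofReal (Real.exp (-(n : ℝ) ^ (δ / 2))) := by
  obtain ⟨M, hM⟩ : ∃ M : ℝ, M = ∫ u, Real.exp (1 * |u|) ∂μ := ⟨_, rfl⟩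
  have hM0 : 0 ≤ M := by
    rw [hM]
    exact integral_nonneg fun u => (Real.exp_pos _).le
  have hev : ∀ᶠ n : ℕ in atTop, 1 ≤ n ∧ 9 * M * (n : ℝ) ^ (2 * k) * Real.exp (-(n : ℝ) ^ δ) ≤ Real.exp (-(n : ℝ) ^ (δ / 2)) := by
    have hα : 0 < δ / 2 := by positivity
    have hu : ∀ᶠ n : ℕ in atTop, 2 * k / (δ / 2) + 9 * M + 2 ≤ (n : ℝ) ^ (δ / 2) :=
      ((tendsto_rpow_atTop hα).comp tendsto_natCast_atTop_atTop).eventually_ge_atTop _
    filter_upwards [hu, eventually_ge_atTop 1] with n hn hn1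
    refine ⟨hn1, ?_⟩
    have hnR : (1 : ℝ) ≤ n := by exact_mod_cast hn1
    have hn0 : (0 : ℝ) < n := by linarith
    obtain ⟨u, hu⟩ : ∃ u : ℝ, u = (n : ℝ) ^ (δ / 2) := ⟨_, rfl⟩
    have hu2 : (n : ℝ) ^ δ = u * u := by
      rw [hu, ← Real.rpow_add hn0]
      congr 1
      ring
    have hlog : Real.log n ≤ u / (δ / 2) := by
      rw [hu]
      exact Real.log_le_rpow_div hn0.le hα
    rw [← hu] at hn ⊢
    rw [hu2]
    have hk0 : (0 : ℝ) ≤ 2 * k / (δ / 2) := by positivity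
    have hu1 : 1 ≤ u := by nlinarith
    have h1 : 9 * M ≤ Real.exp (9 * M) := by
      have := Real.add_one_le_exp (9 * M)
      linarith
    have h2 : (n : ℝ) ^ (2 * k) = Real.exp (2 * k * Real.log n) := by
      have h3 : 2 * (k : ℝ) * Real.log n = ((2 * k : ℕ) : ℝ) * Real.log n := by
        push_cast
        ring
      rw [h3, Real.exp_nat_mul, Real.exp_log hn0]
    have h4 : 2 * (k : ℝ) * Real.log n ≤ 2 * k / (δ / 2) * u := by
      have hk1 : (0 : ℝ) ≤ 2 * k := by positivity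
      calc 2 * (k : ℝ) * Real.log n ≤ 2 * k * (u / (δ / 2)) := mul_le_mul_of_nonneg_left hlog hk1
        _ = 2 * k / (δ / 2) * u := by ring
    have h5 : 9 * M + 2 * k * Real.log n + u ≤ u * u := by
      have h6 : (2 * k / (δ / 2) + 9 * M + 2) * u ≤ u * u := mul_le_mul_of_nonneg_right hn (by linarith)
      have h7 : 9 * M ≤ 9 * M * u := le_mul_of_one_le_right (by linarith) hu1
      have h8 : (2 * k / (δ / 2) + 9 * M + 2) * u = 2 * k / (δ / 2) * u + 9 * M * u + 2 * u := by ring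
      linarith
    calc 9 * M * (n : ℝ) ^ (2 * k) * Real.exp (-(u * u)) ≤ Real.exp (9 * M) * Real.exp (2 * k * Real.log n) * Real.exp (-(u * u)) := by
          rw [h2]
          exact mul_le_mul_of_nonneg_right (mul_le_mul_of_nonneg_right h1 (Real.exp_pos _).le) (Real.exp_pos _).le
      _ = Real.exp (9 * M + 2 * k * Real.log n - u * u) := by rw [← Real.exp_add, ← Real.exp_add]; ring_nf
      _ ≤ Real.exp (-u) := Real.exp_le_exp.2 (by linarith)
  obtain ⟨N₀, hN₀⟩ := eventually_atTop.1 hev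
  refine ⟨N₀, fun n hn => ?_⟩
  obtain ⟨hn1, hnum⟩ := hN₀ n hn
  have hnR : (1 : ℝ) ≤ n := by exact_mod_cast hn1
  obtain ⟨D, hD⟩ : ∃ D : Finset Pt, D = Icc (-((n : ℤ) ^ k)) ((n : ℤ) ^ k) ×ˢ Icc (-((n : ℤ) ^ k)) ((n : ℤ) ^ k) := ⟨_, rfl⟩
  have hsub : {η : Env | ∃ p : Pt, |p.1| ≤ (n : ℤ) ^ k ∧ |p.2| ≤ (n : ℤ) ^ k ∧ (n : ℝ) ^ δ < |η p|} ⊆
      ⋃ p ∈ D, {η : Env | (n : ℝ) ^ δ < |η p|} := by
    rintro η ⟨p, h1, h2, h3⟩
    rw [Set.mem_iUnion₂]
    refine ⟨p, ?_, h3⟩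
    rw [hD, mem_product, mem_Icc, mem_Icc]
    exact ⟨abs_le.1 h1, abs_le.1 h2⟩
  have hone : ∀ p : Pt, law μ {η : Env | (n : ℝ) ^ δ < |η p|} ≤ ENNReal.ofReal (M * Real.exp (-(n : ℝ) ^ δ)) := by
    intro p
    have h1 : law μ {η : Env | (n : ℝ) ^ δ < |η p|} = μ {u : ℝ | (n : ℝ) ^ δ < |u|} := by
      have h2 : MeasurableSet {u : ℝ | (n : ℝ) ^ δ < |u|} := measurableSet_lt measurable_const measurable_id.abs
      exact (measurePreserving_eval_infinitePi (fun _ : Pt => μ) p).measure_preimage h2.nullMeasurableSet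
    rw [h1]
    have hint : Integrable (fun u : ℝ => Real.exp (1 * |u|)) μ := hEM 1
    have h3 := mul_meas_ge_le_integral_of_nonneg (Filter.Eventually.of_forall fun u => (Real.exp_pos (1 * |u|)).le) hint
      (Real.exp ((n : ℝ) ^ δ))
    rw [← hM] at h3
    have h4 : μ.real {u : ℝ | Real.exp ((n : ℝ) ^ δ) ≤ Real.exp (1 * |u|)} ≤ M * Real.exp (-(n : ℝ) ^ δ) := by
      have h5 := mul_le_mul_of_nonneg_right h3 (Real.exp_pos (-(n : ℝ) ^ δ)).le
      have e1 : Real.exp ((n : ℝ) ^ δ) * Real.exp (-(n : ℝ) ^ δ) = 1 := by rw [← Real.exp_add, add_neg_cancel, Real.exp_zero]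
      calc μ.real {u : ℝ | Real.exp ((n : ℝ) ^ δ) ≤ Real.exp (1 * |u|)} =
            Real.exp ((n : ℝ) ^ δ) * μ.real {u : ℝ | Real.exp ((n : ℝ) ^ δ) ≤ Real.exp (1 * |u|)} * Real.exp (-(n : ℝ) ^ δ) := by
            rw [mul_comm (Real.exp ((n : ℝ) ^ δ)), mul_assoc, e1, mul_one]
        _ ≤ M * Real.exp (-(n : ℝ) ^ δ) := h5
    calc μ {u : ℝ | (n : ℝ) ^ δ < |u|} ≤ μ {u : ℝ | Real.exp ((n : ℝ) ^ δ) ≤ Real.exp (1 * |u|)} := by
          refine measure_mono fun u hu => ?_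
          show Real.exp ((n : ℝ) ^ δ) ≤ Real.exp (1 * |u|)
          rw [one_mul]
          exact Real.exp_le_exp.2 (le_of_lt hu)
      _ = ENNReal.ofReal (μ.real {u : ℝ | Real.exp ((n : ℝ) ^ δ) ≤ Real.exp (1 * |u|)}) := by
          rw [Measure.real, ENNReal.ofReal_toReal (measure_ne_top _ _)]
      _ ≤ ENNReal.ofReal (M * Real.exp (-(n : ℝ) ^ δ)) := ENNReal.ofReal_le_ofReal h4
  refine (measure_mono hsub).trans ((measure_biUnion_finset_le _ _).trans ((sum_le_sum fun p _ => hone p).trans ?_))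
  rw [sum_const, nsmul_eq_mul]
  have hcard : (D.card : ℝ) ≤ 9 * (n : ℝ) ^ (2 * k) := by
    have h1 : D.card = (2 * n ^ k + 1) * (2 * n ^ k + 1) := by
      rw [hD, card_product, Int.card_Icc]
      have e1 : ((n : ℤ) ^ k + 1 - -(n : ℤ) ^ k).toNat = 2 * n ^ k + 1 := by
        have e2 : (n : ℤ) ^ k + 1 - -(n : ℤ) ^ k = ((2 * n ^ k + 1 : ℕ) : ℤ) := by
          push_cast
          ring
        rw [e2, Int.toNat_natCast]
      rw [e1]
    have h2 : (1 : ℝ) ≤ (n : ℝ) ^ k := one_le_pow₀ hnR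
    rw [h1]
    push_cast
    have h3 : (n : ℝ) ^ (2 * k) = (n : ℝ) ^ k * (n : ℝ) ^ k := by
      rw [two_mul, pow_add]
    rw [h3]
    nlinarith
  rw [← ENNReal.ofReal_natCast, ← ENNReal.ofReal_mul (Nat.cast_nonneg _)]
  refine ENNReal.ofReal_le_ofReal (le_trans ?_ hnum)
  have hE : 0 ≤ M * Real.exp (-(n : ℝ) ^ δ) := mul_nonneg hM0 (Real.exp_pos _).le
  calc (D.card : ℝ) * (M * Real.exp (-(n : ℝ) ^ δ)) ≤ (9 * (n : ℝ) ^ (2 * k)) * (M * Real.exp (-(n : ℝ) ^ δ)) :=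
        mul_le_mul_of_nonneg_right hcard hE
    _ = 9 * M * (n : ℝ) ^ (2 * k) * Real.exp (-(n : ℝ) ^ δ) := by ring

/-- The same with the boxes `Bx` of the shift maps. -/
theorem Bx_small [IsProbabilityMeasure μ] (hEM : EM μ) {δ : ℝ} (hδ : 0 < δ) {k : ℕ} (hk : 1 ≤ k) :
    ∃ N₀ : ℕ, ∀ n : ℕ, N₀ ≤ n →
      law μ {η : Env | ¬ ∀ lo hi : ℤ, -((n : ℤ) ^ k) ≤ lo → hi ≤ (n : ℤ) ^ k → Bx ((n : ℝ) ^ δ) n lo hi η} ≤
        ENNReal.ofReal (Real.exp (-(n : ℝ) ^ (δ / 2))) := by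
  obtain ⟨N₀, hN₀⟩ := box_small hEM hδ k
  refine ⟨max N₀ 1, fun n hn => (measure_mono fun η hη => ?_).trans (hN₀ n ((le_max_left _ _).trans hn))⟩
  have hn1 : 1 ≤ n := (le_max_right _ _).trans hn
  have h1 : (n : ℤ) ≤ (n : ℤ) ^ k := by
    have h2 : n ≤ n ^ k := Nat.le_self_pow (by omega) n
    exact_mod_cast h2
  by_contra h2
  refine hη fun lo hi hlo hhi p hp1 hp2 hp3 hp4 => ?_
  by_contra h3
  push Not at h3
  refine h2 ⟨p, ?_, ?_, h3⟩
  · rw [abs_le]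
    omega
  · rw [abs_le]
    omega

end

end Pool.Agent.W_7d29a1_UB
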