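import Pool.Agent.W_7d29a1_UB.Near60
import Pool.Agent.W_7d29a1_UB.Last
import Pool.Agent.W_7d29a1_UB.Exit
import Pool.Agent.W_7d29a1_UB.Reg30

/-!
STORM UB (MP_7d29a1_pr, row 674 of the table `proofs`, helper60), the bound of the cost at every good level (near), final form.
-/

set_option autoImplicit false

namespace Pool.Agent.W_7d29a1_UB

open MeasureTheory ProbabilityTheory Filter Topology
open Pool.Agent.W_7d29a1_F Pool.Agent.W_7d29a1_LB
open Pool.Agent.W_7d29a1_H (sl)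
open Pool.Agent.W_7d29a1_HZ (wd')

noncomputable section

variable {μ : Measure ℝ} {s : ℝ}

/-- **The cost at a good level.** -/
theorem nearB60 {η : Env} {a : ℝ} {x : ℤ} (hx : 1 ≤ x) {n m : ℕ} (hmx : (m : ℤ) ≤ x) {m0 Λ ε : ℝ} (hm0 : 0 < m0)
    (hm1 : m0 ≤ 1) (hΛ : 0 ≤ Λ) (hB : Bx Λ n (-1) (x + 1 + n) η) (hM : Marg η (a + s * ((x + 1 : ℤ) : ℝ)) (x + 1) n m0)
    (hreg : (n : ℝ) ^ ε * wd' μ s m < sl μ s * m) {r : ℝ} (hr0 : r0 μ s n ε (sh ((0 : ℤ), (0 : ℤ)) η) ≤ r)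
    (hr1 : r0 μ s n ε (sh ((0 : ℤ), x + 1) η) ≤ r) (hrr : n * (r + r) ≤ 1 / 2) (hr : 0 ≤ r) :
    Real.log (Zt μ s η (x + 1) n a) - Real.log (Zt μ s (del (seamU η (a + s * ((x : ℝ) + 1)) x) η) x n a) ≤
      Real.log (2 * (1 + 4 * n * m * kp s Λ ^ m * Real.exp |s| / m0)) := by
  have hcast : a + s * ((x + 1 : ℤ) : ℝ) = a + s * ((x : ℝ) + 1) := by push_cast; ring
  rw [hcast] at hM
  obtain ⟨q, hq⟩ : ∃ q : ℕ → ℤ, q = seamU η (a + s * ((x : ℝ) + 1)) x := ⟨_, rfl⟩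
  have hq0 : q 0 = x := by rw [hq]; rfl
  have hqs : ∀ i, q i ≤ q (i + 1) ∧ q (i + 1) ≤ q i + 1 := fun i => by rw [hq]; exact seamU_step _ _ _ i
  have hκ : 0 ≤ kp s Λ := by linarith [one_le_kp (s := s) hΛ]
  rw [← hq]
  refine near60 hx hmx hm0 hκ hq ?_ ?_ ?_ ?_ ?_ ?_ (r := r) (r' := r) ?_ ?_ hrr hr hr
  · exact last η a hx n hq0 hqs
  · intro i _ hi
    exact exit (fun i => (hqs i).1) (fun i => (hqs i).2) η hi
  · intro i _ hi
    rw [hq]
    exact margin hx hm0.le hm1 hM hi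
  · intro i hi
    rw [hq]
    exact reach η _ hi
  · intro i hmi hi
    have h1 := (past (μ := μ) (s := s) hΛ (n := n) (z := 0) (hi := x + 1 + n) (η := η)
      (fun p h1 h2 h3 h4 => hB p h1 h2 (by linarith) h4) hi (by omega) hmi (q i)).2
    unfold badP at h1
    rw [zero_add] at h1
    have e0 : (0 : Pt) = ((0 : ℤ), (0 : ℤ)) := rfl
    rw [e0]
    linarith
  · intro i hmi hi
    have h1 := (past (μ := μ) (s := s) hΛ (n := n) (z := x + 1) (hi := x + 1 + n) (η := η)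
      (fun p h1 h2 h3 h4 => hB p h1 h2 (by linarith) h4) hi (by omega) hmi (q i - (x + 1))).2
    unfold badP at h1
    rw [add_sub_cancel, show q i - (x + 1) - 1 = q i - 1 - (x + 1) by ring] at h1
    linarith
  · intro i hmi hi
    have h1 := bad_past (μ := μ) (s := s) η 0 hmi hi hreg (q i)
    unfold badP at h1
    rw [zero_add] at h1
    exact h1.trans (mul_le_mul_of_nonneg_left hr0 (psi_pos _ _ _).le)
  · intro i hmi hi
    have h1 := bad_past (μ := μ) (s := s) η (x + 1) hmi hi hreg (q i - (x + 1))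
    unfold badP at h1
    rw [add_sub_cancel] at h1
    exact h1.trans (mul_le_mul_of_nonneg_left hr1 (psi_pos _ _ _).le)

end

end Pool.Agent.W_7d29a1_UB
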