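import Mathlib

/-!
STORM UB (MP_7d29a1_pr, row 674), Step: the numbers. (helper5)
-/

set_option autoImplicit false

namespace Pool.Agent.W_7d29a1_UB

open Filter Topology

/-- A positive power of `n` is eventually above every constant. -/
theorem ev_rpow5 {a : ℝ} (ha : 0 < a) (M : ℝ) : ∀ᶠ n : ℕ in atTop, M ≤ (n : ℝ) ^ a :=
  ((tendsto_rpow_atTop ha).comp tendsto_natCast_atTop_atTop).eventually_ge_atTop M

/-- `C n ^ a ≤ n ^ b` for `a < b`. -/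
theorem ev_rpow_lt5 {a b : ℝ} (hab : a < b) (M : ℝ) : ∀ᶠ n : ℕ in atTop, M * (n : ℝ) ^ a ≤ (n : ℝ) ^ b := by
  filter_upwards [ev_rpow5 (sub_pos.2 hab) M, eventually_ge_atTop 1] with n h1 h2
  have hn : (0 : ℝ) < n := by exact_mod_cast h2
  calc M * (n : ℝ) ^ a ≤ (n : ℝ) ^ (b - a) * (n : ℝ) ^ a :=
        mul_le_mul_of_nonneg_right h1 (Real.rpow_nonneg hn.le _)
    _ = _ := by rw [← Real.rpow_add hn]; ring_nf

/-- Every power is below a stretched exponential: `C n ^ p ≤ exp (b n ^ a)`. -/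
theorem ev_exp5 {a b : ℝ} (ha : 0 < a) (hb : 0 < b) (C : ℝ) (p : ℕ) :
    ∀ᶠ n : ℕ in atTop, C * (n : ℝ) ^ p ≤ Real.exp (b * (n : ℝ) ^ a) := by
  -- `n ^ p = (n ^ a) ^ (p / a)`
  have h1 : Tendsto (fun n : ℕ => b * (n : ℝ) ^ a) atTop atTop :=
    ((tendsto_rpow_atTop ha).comp tendsto_natCast_atTop_atTop).const_mul_atTop hb
  obtain ⟨q, hq⟩ : ∃ q : ℕ, (p : ℝ) / a ≤ q := exists_nat_ge _
  have h2 : Tendsto (fun y : ℝ => y ^ q * Real.exp (-y)) atTop (𝓝 0) := Real.tendsto_pow_mul_exp_neg_atTop_nhds_zero q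
  have h3 := h2.comp h1
  have h4 : 0 < b ^ q / (|C| + 1) := by positivity
  filter_upwards [h3.eventually (ge_mem_nhds h4), eventually_ge_atTop 1] with n h5 h6
  have hn : (1 : ℝ) ≤ n := by exact_mod_cast h6
  have hn0 : (0 : ℝ) < n := by linarith
  have h7 : (b * (n : ℝ) ^ a) ^ q * Real.exp (-(b * (n : ℝ) ^ a)) ≤ b ^ q / (|C| + 1) := h5
  rw [mul_pow, Real.exp_neg, ← div_eq_mul_inv, div_le_div_iff₀ (Real.exp_pos _) (by positivity)] at h7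
  have h8 : (n : ℝ) ^ p ≤ ((n : ℝ) ^ a) ^ q := by
    rw [← Real.rpow_natCast, ← Real.rpow_natCast, ← Real.rpow_mul hn0.le]
    refine Real.rpow_le_rpow_of_exponent_le hn ?_
    rw [div_le_iff₀ ha] at hq
    linarith
  have hbq : 0 < b ^ q := by positivity
  have h9 : ((n : ℝ) ^ a) ^ q * (|C| + 1) ≤ Real.exp (b * (n : ℝ) ^ a) := by
    have : b ^ q * (((n : ℝ) ^ a) ^ q * (|C| + 1)) ≤ b ^ q * Real.exp (b * (n : ℝ) ^ a) := by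
      calc b ^ q * (((n : ℝ) ^ a) ^ q * (|C| + 1)) = b ^ q * ((n : ℝ) ^ a) ^ q * (|C| + 1) := by ring
        _ ≤ _ := h7
    exact le_of_mul_le_mul_left this hbq
  calc C * (n : ℝ) ^ p ≤ (|C| + 1) * ((n : ℝ) ^ a) ^ q := by
        refine mul_le_mul (by linarith [le_abs_self C]) h8 (by positivity) (by positivity)
    _ = ((n : ℝ) ^ a) ^ q * (|C| + 1) := by ring
    _ ≤ _ := h9

/-- `C n ^ p exp (- n ^ a) ≤ 1`. -/
theorem num5_exp {a : ℝ} (ha : 0 < a) (C : ℝ) (p : ℕ) :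
    ∀ᶠ n : ℕ in atTop, C * (n : ℝ) ^ p * Real.exp (-(n : ℝ) ^ a) ≤ 1 := by
  filter_upwards [ev_exp5 ha one_pos C p] with n h
  rw [one_mul] at h
  rw [Real.exp_neg, ← div_eq_mul_inv, div_le_one (Real.exp_pos _)]
  exact h

/-- The exponent of the chain of visits. -/
theorem chain5 {d : ℝ} (hd : 0 < d) (s B : ℝ) : ∀ᶠ n : ℕ in atTop, ∀ m : ℕ, (m : ℝ) ≤ (n : ℝ) ^ d + 1 →
    (m : ℝ) * (2 * (n : ℝ) ^ d + |s|) ≤ (n : ℝ) ^ (3 * d) / 8 ∧ B ≤ (n : ℝ) ^ (3 * d) / 8 := by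
  filter_upwards [ev_rpow_lt5 (show 2 * d < 3 * d by linarith) (8 * (2 * (2 + |s|))), ev_rpow5 hd 1,
    ev_rpow5 (show 0 < 3 * d by linarith) (8 * B), eventually_ge_atTop 1] with n h1 h2 h3 h4 m hm
  have hn : (0 : ℝ) < n := by exact_mod_cast h4
  have hs := abs_nonneg s
  have e : (n : ℝ) ^ (2 * d) = (n : ℝ) ^ d * (n : ℝ) ^ d := by
    rw [← Real.rpow_add hn]
    ring_nf
  refine ⟨?_, by linarith⟩
  have h5 : (m : ℝ) ≤ 2 * (n : ℝ) ^ d := by linarith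
  have h6 : 2 * (n : ℝ) ^ d + |s| ≤ (2 + |s|) * (n : ℝ) ^ d := by nlinarith
  have h7 : (m : ℝ) * (2 * (n : ℝ) ^ d + |s|) ≤ 2 * (n : ℝ) ^ d * ((2 + |s|) * (n : ℝ) ^ d) :=
    mul_le_mul h5 h6 (by positivity) (by positivity)
  rw [e] at h1
  nlinarith

/-- `k ^ m ≤ exp (n ^ (3 d) / 8)` for `m ≤ n ^ d + 1` and `k ≤ exp (2 n ^ d + |s|)`. -/
theorem pow5 {d : ℝ} (hd : 0 < d) (s : ℝ) : ∀ᶠ n : ℕ in atTop, ∀ (m : ℕ) (k : ℝ), (m : ℝ) ≤ (n : ℝ) ^ d + 1 → 0 ≤ k →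
    k ≤ Real.exp (2 * (n : ℝ) ^ d + |s|) → k ^ m ≤ Real.exp ((n : ℝ) ^ (3 * d) / 8) := by
  filter_upwards [chain5 hd s 0] with n h1 m k hm hk0 hk
  calc k ^ m ≤ Real.exp (2 * (n : ℝ) ^ d + |s|) ^ m := pow_le_pow_left₀ hk0 hk m
    _ = Real.exp ((m : ℝ) * (2 * (n : ℝ) ^ d + |s|)) := by rw [← Real.exp_nat_mul]
    _ ≤ _ := Real.exp_le_exp.2 (h1 m hm).1

/-- **(i)** The cost of a near level: `log (2 (1 + 4 n m k ^ m exp |s| / m₀)) ≤ n ^ (3 d)`. -/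
theorem num5_i {d : ℝ} (hd : 0 < d) (s : ℝ) : ∀ᶠ n : ℕ in atTop, ∀ (m : ℕ) (k m₀ : ℝ), (m : ℝ) ≤ (n : ℝ) ^ d + 1 → 0 ≤ k →
    k ≤ Real.exp (2 * (n : ℝ) ^ d + |s|) → 0 < m₀ → 1 / (n : ℝ) ^ 8 ≤ m₀ →
    Real.log (2 * (1 + 4 * n * m * k ^ m * Real.exp |s| / m₀)) ≤ (n : ℝ) ^ (3 * d) := by
  filter_upwards [pow5 hd s, ev_exp5 (show 0 < 3 * d by linarith) (show (0 : ℝ) < 1 / 8 by norm_num) (16 * Real.exp |s|) 10,
    ev_exp5 (show 0 < 3 * d by linarith) (show (0 : ℝ) < 1 / 8 by norm_num) 2 0, chain5 hd s 0,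
    ev_rpow5 hd 1, eventually_ge_atTop 2] with n h1 h2 h3 h4 h0 h5 m k m₀ hm hk0 hk hm0 hm1
  have hn : (2 : ℝ) ≤ n := by exact_mod_cast h5
  have hn0 : (0 : ℝ) < n := by linarith
  have hk1 := h1 m k hm hk0 hk
  set E : ℝ := (n : ℝ) ^ (3 * d) with hE
  have hE0 : 0 ≤ E := Real.rpow_nonneg hn0.le _
  rw [pow_zero, mul_one] at h3
  have e1 : Real.exp E = Real.exp (1 / 8 * E) ^ 8 := by
    rw [← Real.exp_nat_mul]
    congr 1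
    push_cast
    ring
  have e2 : Real.exp (E / 8) = Real.exp (1 / 8 * E) := by congr 1; ring
  rw [e2] at hk1
  -- `m ≤ n` up to a constant
  have hmn : (m : ℝ) ≤ 2 * Real.exp (1 / 8 * E) := by
    have h6 := (h4 m hm).1
    have h7 : (m : ℝ) * 1 ≤ m * (2 * (n : ℝ) ^ d + |s|) := by
      refine mul_le_mul_of_nonneg_left ?_ (Nat.cast_nonneg m)
      have := abs_nonneg s
      linarith
    have h8 : 1 / 8 * E + 1 ≤ Real.exp (1 / 8 * E) := Real.add_one_le_exp _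
    linarith
  have hm3 : 1 / m₀ ≤ (n : ℝ) ^ 8 := by
    rw [div_le_iff₀ (by positivity)] at hm1
    rw [div_le_iff₀ hm0]
    linarith
  have hX : 4 * n * m * k ^ m * Real.exp |s| / m₀ ≤ Real.exp (1 / 8 * E) ^ 3 := by
    have h9 : 0 ≤ (m : ℝ) := Nat.cast_nonneg m
    have h10 : 8 * Real.exp |s| * (n : ℝ) ^ 9 ≤ Real.exp (1 / 8 * E) := by
      refine le_trans ?_ h2
      have : (n : ℝ) ^ 9 ≤ (n : ℝ) ^ 10 := pow_le_pow_right₀ (by linarith) (by norm_num)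
      have h11 := Real.exp_pos |s|
      have h12 : (0 : ℝ) ≤ (n : ℝ) ^ 10 := by positivity
      nlinarith
    calc 4 * n * m * k ^ m * Real.exp |s| / m₀ = (4 * n * Real.exp |s| * (1 / m₀)) * m * k ^ m := by ring
      _ ≤ (4 * n * Real.exp |s| * (n : ℝ) ^ 8) * (2 * Real.exp (1 / 8 * E)) * Real.exp (1 / 8 * E) := by
          refine mul_le_mul (mul_le_mul ?_ hmn h9 (by positivity)) hk1 (by positivity) (by positivity)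
          exact mul_le_mul_of_nonneg_left hm3 (by positivity)
      _ = (8 * Real.exp |s| * (n : ℝ) ^ 9) * Real.exp (1 / 8 * E) ^ 2 := by ring
      _ ≤ Real.exp (1 / 8 * E) * Real.exp (1 / 8 * E) ^ 2 := mul_le_mul_of_nonneg_right h10 (by positivity)
      _ = _ := by ring
  have hX0 : 0 ≤ 4 * n * m * k ^ m * Real.exp |s| / m₀ := by positivity
  rw [Real.log_le_iff_le_exp (by positivity), e1]
  set y : ℝ := Real.exp (1 / 8 * E) with hy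
  have hy2 : 2 ≤ y := h3
  have hy3 : 1 ≤ y ^ 3 := one_le_pow₀ (by linarith)
  calc 2 * (1 + 4 * n * m * k ^ m * Real.exp |s| / m₀) ≤ y * (y * y ^ 3) := by
        refine mul_le_mul hy2 ?_ (by positivity) (by positivity)
        nlinarith
    _ = y ^ 5 := by ring
    _ ≤ y ^ 8 := pow_le_pow_right₀ (by linarith) (by norm_num)

/-- `(1 + m ^ 2 k ^ (2 m)) exp (- n ^ (4 d)) C n ^ p ≤ 1`. -/
theorem num5_bad {d : ℝ} (hd : 0 < d) (s C : ℝ) (p : ℕ) : ∀ᶠ n : ℕ in atTop, ∀ (m : ℕ) (k : ℝ), (m : ℝ) ≤ (n : ℝ) ^ d + 1 →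
    0 ≤ k → k ≤ Real.exp (2 * (n : ℝ) ^ d + |s|) →
    C * (n : ℝ) ^ p * ((1 + (m : ℝ) ^ 2 * k ^ (2 * m)) * Real.exp (-(n : ℝ) ^ (4 * d))) ≤ 1 := by
  filter_upwards [pow5 hd s, ev_exp5 (show 0 < 3 * d by linarith) (show (0 : ℝ) < 1 / 8 by norm_num) |C| p,
    ev_rpow_lt5 (show 3 * d < 4 * d by linarith) 1, ev_exp5 (show 0 < 3 * d by linarith) (show (0 : ℝ) < 1 / 8 by norm_num) 2 0,
    chain5 hd s 0, ev_rpow5 hd 1, eventually_ge_atTop 1] with n h1 h2 h6 h3 h4 h0 h5 m k hm hk0 hk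
  have hn0 : (0 : ℝ) < n := by exact_mod_cast h5
  have hk1 := h1 m k hm hk0 hk
  set E : ℝ := (n : ℝ) ^ (3 * d) with hE
  rw [one_mul] at h6
  rw [pow_zero, mul_one] at h3
  have e2 : Real.exp (E / 8) = Real.exp (1 / 8 * E) := by congr 1; ring
  rw [e2] at hk1
  have hmn : (m : ℝ) ≤ 2 * Real.exp (1 / 8 * E) := by
    have h6 := (h4 m hm).1
    have h7 : (m : ℝ) * 1 ≤ m * (2 * (n : ℝ) ^ d + |s|) := by
      refine mul_le_mul_of_nonneg_left ?_ (Nat.cast_nonneg m)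
      have := abs_nonneg s
      linarith
    have h8 : 1 / 8 * E + 1 ≤ Real.exp (1 / 8 * E) := Real.add_one_le_exp _
    have hE0 : 0 ≤ E := Real.rpow_nonneg hn0.le _
    linarith
  set y : ℝ := Real.exp (1 / 8 * E) with hy
  have hy0 : 0 < y := Real.exp_pos _
  have hy2 : 2 ≤ y := h3
  have e3 : Real.exp (-(n : ℝ) ^ (4 * d)) ≤ (y ^ 8)⁻¹ := by
    have e4 : y ^ 8 = Real.exp E := by
      rw [hy, ← Real.exp_nat_mul]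
      congr 1
      push_cast
      ring
    rw [e4, ← Real.exp_neg]
    exact Real.exp_le_exp.2 (by linarith)
  have h7 : 1 + (m : ℝ) ^ 2 * k ^ (2 * m) ≤ y ^ 7 := by
    have e5 : k ^ (2 * m) = (k ^ m) ^ 2 := by rw [mul_comm, pow_mul]
    rw [e5]
    have h8 : (m : ℝ) ^ 2 * (k ^ m) ^ 2 ≤ (2 * y) ^ 2 * y ^ 2 :=
      mul_le_mul (pow_le_pow_left₀ (Nat.cast_nonneg m) hmn 2) (pow_le_pow_left₀ (by positivity) hk1 2) (by positivity) (by positivity)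
    have h9 : (2 * y) ^ 2 * y ^ 2 ≤ y ^ 6 := by
      have : (2 * y) ^ 2 * y ^ 2 = 2 ^ 2 * y ^ 4 := by ring
      rw [this]
      calc (2 : ℝ) ^ 2 * y ^ 4 ≤ y ^ 2 * y ^ 4 := mul_le_mul_of_nonneg_right (pow_le_pow_left₀ (by norm_num) hy2 2) (by positivity)
        _ = _ := by ring
    have h10 : 1 ≤ y ^ 6 := one_le_pow₀ (by linarith)
    calc 1 + (m : ℝ) ^ 2 * (k ^ m) ^ 2 ≤ 2 * y ^ 6 := by linarith
      _ ≤ y * y ^ 6 := mul_le_mul_of_nonneg_right hy2 (by positivity)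
      _ = _ := by ring
  have h8 : C * (n : ℝ) ^ p ≤ y := by
    refine le_trans ?_ h2
    exact mul_le_mul_of_nonneg_right (le_abs_self C) (by positivity)
  have h9 : 0 ≤ 1 + (m : ℝ) ^ 2 * k ^ (2 * m) := by positivity
  calc C * (n : ℝ) ^ p * ((1 + (m : ℝ) ^ 2 * k ^ (2 * m)) * Real.exp (-(n : ℝ) ^ (4 * d)))
      ≤ y * (y ^ 7 * (y ^ 8)⁻¹) := by
        refine mul_le_mul h8 (mul_le_mul h7 e3 (Real.exp_pos _).le (by positivity)) (by positivity) hy0.le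
    _ = 1 := by field_simp

/-- **(ii)** The bad levels: `2 n ^ 7 (n (1 + m ^ 2 k ^ (2 m)) exp (- n ^ (4 d)) 8 + 8 n exp (- n ^ c')) ≤ 1`. -/
theorem num5_ii {d c' : ℝ} (hd : 0 < d) (hc' : 0 < c') (s : ℝ) : ∀ᶠ n : ℕ in atTop, ∀ (m : ℕ) (k : ℝ),
    (m : ℝ) ≤ (n : ℝ) ^ d + 1 → 0 ≤ k → k ≤ Real.exp (2 * (n : ℝ) ^ d + |s|) →
    2 * (n : ℝ) ^ 7 * (n * (1 + (m : ℝ) ^ 2 * k ^ (2 * m)) * Real.exp (-(n : ℝ) ^ (4 * d)) * 8 +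
      8 * n * Real.exp (-(n : ℝ) ^ c')) ≤ 1 := by
  filter_upwards [num5_bad hd s 32 8, num5_exp hc' 32 8] with n h1 h2 m k hm hk0 hk
  have h3 := h1 m k hm hk0 hk
  calc 2 * (n : ℝ) ^ 7 * (n * (1 + (m : ℝ) ^ 2 * k ^ (2 * m)) * Real.exp (-(n : ℝ) ^ (4 * d)) * 8 +
      8 * n * Real.exp (-(n : ℝ) ^ c'))
      = 1 / 2 * (32 * (n : ℝ) ^ 8 * ((1 + (m : ℝ) ^ 2 * k ^ (2 * m)) * Real.exp (-(n : ℝ) ^ (4 * d)))) +
        1 / 2 * (32 * (n : ℝ) ^ 8 * Real.exp (-(n : ℝ) ^ c')) := by ring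
    _ ≤ 1 / 2 * 1 + 1 / 2 * 1 := by linarith
    _ = 1 := by norm_num

/-- **(iii)** `C n ^ 7 √(3 exp (- n ^ c')) ≤ 1`. -/
theorem num5_iii {c' : ℝ} (hc' : 0 < c') (C : ℝ) :
    ∀ᶠ n : ℕ in atTop, C * (n : ℝ) ^ 7 * Real.sqrt (3 * Real.exp (-(n : ℝ) ^ c')) ≤ 1 := by
  filter_upwards [num5_exp hc' (3 * C ^ 2) 14] with n h
  have h1 : (C * (n : ℝ) ^ 7 * Real.sqrt (3 * Real.exp (-(n : ℝ) ^ c'))) ^ 2 ≤ 1 := by
    rw [mul_pow, Real.sq_sqrt (by positivity)]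
    calc (C * (n : ℝ) ^ 7) ^ 2 * (3 * Real.exp (-(n : ℝ) ^ c')) = 3 * C ^ 2 * (n : ℝ) ^ 14 * Real.exp (-(n : ℝ) ^ c') := by ring
      _ ≤ 1 := h
  exact (sq_le_one_iff_abs_le_one _).1 h1 |>.trans' (le_abs_self _)

/-- **(iii')** With `T = exp (n ^ c' / 2)`: `2 n ^ 7 (C n ^ 6 / T + T 4 exp (- n ^ c')) ≤ 1`. -/
theorem num5_iii' {c' : ℝ} (hc' : 0 < c') (C : ℝ) :
    ∀ᶠ n : ℕ in atTop, 2 * (n : ℝ) ^ 7 * (C * (n : ℝ) ^ 6 * Real.exp (-((n : ℝ) ^ c' / 2)) +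
      Real.exp ((n : ℝ) ^ c' / 2) * (4 * Real.exp (-(n : ℝ) ^ c'))) ≤ 1 := by
  filter_upwards [ev_exp5 hc' (show (0 : ℝ) < 1 / 2 by norm_num) (2 * C) 13,
    ev_exp5 hc' (show (0 : ℝ) < 1 / 2 by norm_num) (4 * C) 13,
    ev_exp5 hc' (show (0 : ℝ) < 1 / 2 by norm_num) 16 7] with n h0 h1 h2
  have e0 : Real.exp ((n : ℝ) ^ c' / 2) = Real.exp (1 / 2 * (n : ℝ) ^ c') := by congr 1; ring
  have e1 : Real.exp (-((n : ℝ) ^ c' / 2)) = (Real.exp (1 / 2 * (n : ℝ) ^ c'))⁻¹ := by rw [Real.exp_neg, e0]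
  have e2 : Real.exp (-(n : ℝ) ^ c') = (Real.exp (1 / 2 * (n : ℝ) ^ c') ^ 2)⁻¹ := by
    rw [Real.exp_neg, ← Real.exp_nat_mul]
    congr 2
    push_cast
    ring
  rw [e1, e2, e0]
  set y : ℝ := Real.exp (1 / 2 * (n : ℝ) ^ c') with hy
  have hy0 : 0 < y := Real.exp_pos _
  have h3 : 2 * (n : ℝ) ^ 7 * (C * (n : ℝ) ^ 6 * y⁻¹ + y * (4 * (y ^ 2)⁻¹)) =
      (1 / 2 * (4 * C * (n : ℝ) ^ 13) + 1 / 2 * (16 * (n : ℝ) ^ 7)) / y := by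
    field_simp
    ring
  rw [h3, div_le_one hy0]
  linarith

/-- **(iii'')** With `T = exp (n ^ (c' / 2))`: `2 n ^ 7 (C n ^ 6 / T + T 4 exp (- n ^ c')) ≤ 1`. -/
theorem num5_iii'' {c' : ℝ} (hc' : 0 < c') (C : ℝ) :
    ∀ᶠ n : ℕ in atTop, 2 * (n : ℝ) ^ 7 * (C * (n : ℝ) ^ 6 * Real.exp (-(n : ℝ) ^ (c' / 2)) +
      Real.exp ((n : ℝ) ^ (c' / 2)) * (4 * Real.exp (-(n : ℝ) ^ c'))) ≤ 1 := by
  filter_upwards [num5_exp (show 0 < c' / 2 by linarith) (4 * C) 13, num5_exp (show 0 < c' / 2 by linarith) 16 7,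
    ev_rpow_lt5 (show c' / 2 < c' by linarith) 2] with n h1 h2 h3
  have h4 : Real.exp ((n : ℝ) ^ (c' / 2)) * (4 * Real.exp (-(n : ℝ) ^ c')) ≤ 4 * Real.exp (-(n : ℝ) ^ (c' / 2)) := by
    have h5 : Real.exp ((n : ℝ) ^ (c' / 2)) * Real.exp (-(n : ℝ) ^ c') ≤ Real.exp (-(n : ℝ) ^ (c' / 2)) := by
      rw [← Real.exp_add]
      exact Real.exp_le_exp.2 (by linarith)
    linarith
  calc 2 * (n : ℝ) ^ 7 * (C * (n : ℝ) ^ 6 * Real.exp (-(n : ℝ) ^ (c' / 2)) +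
      Real.exp ((n : ℝ) ^ (c' / 2)) * (4 * Real.exp (-(n : ℝ) ^ c')))
      ≤ 2 * (n : ℝ) ^ 7 * (C * (n : ℝ) ^ 6 * Real.exp (-(n : ℝ) ^ (c' / 2)) + 4 * Real.exp (-(n : ℝ) ^ (c' / 2))) :=
        mul_le_mul_of_nonneg_left (by linarith) (by positivity)
    _ = 1 / 2 * (4 * C * (n : ℝ) ^ 13 * Real.exp (-(n : ℝ) ^ (c' / 2))) +
        1 / 2 * (16 * (n : ℝ) ^ 7 * Real.exp (-(n : ℝ) ^ (c' / 2))) := by ring
    _ ≤ 1 := by linarith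

/-- **(iv)** `4 n ^ (7 d) + 10 ≤ n ^ (10 d) / 4`. -/
theorem num5_iv {d : ℝ} (hd : 0 < d) : ∀ᶠ n : ℕ in atTop, 4 * (n : ℝ) ^ (7 * d) + 10 ≤ (n : ℝ) ^ (10 * d) / 4 := by
  filter_upwards [ev_rpow_lt5 (show 7 * d < 10 * d by linarith) (4 * 14), ev_rpow5 (show 0 < 7 * d by linarith) 1] with n h1 h2
  linarith

/-- **(v)** `2 n ^ -8 (n + 1) ^ 2 (1 + C n ^ 6) ≤ 8 (1 + C)`. -/
theorem num5_v {C : ℝ} (hC : 0 ≤ C) {n : ℕ} (hn : 1 ≤ n) :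
    2 * (1 / (n : ℝ) ^ 8) * (n + 1) ^ 2 * (1 + C * (n : ℝ) ^ 6) ≤ 8 * (1 + C) := by
  have h1 : (1 : ℝ) ≤ n := by exact_mod_cast hn
  have h2 : ((n : ℝ) + 1) ^ 2 ≤ 4 * (n : ℝ) ^ 2 := by nlinarith
  have h3 : 1 + C * (n : ℝ) ^ 6 ≤ (1 + C) * (n : ℝ) ^ 6 := by
    have : (1 : ℝ) ≤ (n : ℝ) ^ 6 := one_le_pow₀ h1
    linarith
  calc 2 * (1 / (n : ℝ) ^ 8) * (n + 1) ^ 2 * (1 + C * (n : ℝ) ^ 6)
      ≤ 2 * (1 / (n : ℝ) ^ 8) * (4 * (n : ℝ) ^ 2) * ((1 + C) * (n : ℝ) ^ 6) :=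
        mul_le_mul (mul_le_mul_of_nonneg_left h2 (by positivity)) h3 (by positivity) (by positivity)
    _ = 8 * (1 + C) := by field_simp; ring

/-- `(v)` with the real power `n ^ (-8)`. -/
theorem num5_v' {C : ℝ} (hC : 0 ≤ C) {n : ℕ} (hn : 1 ≤ n) :
    2 * (n : ℝ) ^ (-8 : ℝ) * (n + 1) ^ 2 * (1 + C * (n : ℝ) ^ 6) ≤ 8 * (1 + C) := by
  have h0 : (0 : ℝ) < n := by exact_mod_cast hn
  have e : (n : ℝ) ^ (-8 : ℝ) = 1 / (n : ℝ) ^ 8 := by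
    rw [Real.rpow_neg h0.le, one_div, ← Real.rpow_natCast]
    norm_num
  rw [e]
  exact num5_v hC hn

/-- `m = ⌈n ^ d⌉` is admissible. -/
theorem ceil5 (n : ℕ) (d : ℝ) : ((⌈(n : ℝ) ^ d⌉₊ : ℕ) : ℝ) ≤ (n : ℝ) ^ d + 1 :=
  (Nat.ceil_lt_add_one (Real.rpow_nonneg (Nat.cast_nonneg n) d)).le

end Pool.Agent.W_7d29a1_UB
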