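import Mathlib

/-!
STORM UB (MP_7d29a1_pr, row 674 of the table `proofs`, helper60): the numbers of the step.
-/

set_option autoImplicit false

namespace Pool.Agent.W_7d29a1_UB

open Filter Topology

theorem ev_log60 {δ : ℝ} (hδ : 0 < δ) (a b : ℝ) : ∀ᶠ n : ℕ in atTop, a * Real.log n + b ≤ (n : ℝ) ^ δ := by
  have h1 : Tendsto (fun x : ℝ => Real.log x / x ^ δ) atTop (nhds 0) :=
    (isLittleO_log_rpow_atTop hδ).tendsto_div_nhds_zero
  have h2 : Tendsto (fun n : ℕ => Real.log (n : ℝ) / (n : ℝ) ^ δ) atTop (nhds 0) := h1.comp tendsto_natCast_atTop_atTop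
  have h3 : Tendsto (fun n : ℕ => (n : ℝ) ^ δ) atTop atTop := (tendsto_rpow_atTop hδ).comp tendsto_natCast_atTop_atTop
  have hc : 0 < 1 / (2 * (|a| + 1)) := by positivity
  filter_upwards [h2.eventually (gt_mem_nhds hc), h3.eventually_ge_atTop (2 * |b|), eventually_ge_atTop 1] with n h4 h5 h6
  have hn : (1 : ℝ) ≤ n := by exact_mod_cast h6
  have hp : 0 < (n : ℝ) ^ δ := Real.rpow_pos_of_pos (by linarith) _
  have hl : 0 ≤ Real.log n := Real.log_nonneg hn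
  rw [div_lt_iff₀ hp] at h4
  have h7 : a * Real.log n ≤ |a| * Real.log n := mul_le_mul_of_nonneg_right (le_abs_self a) hl
  have h8 : |a| * Real.log n ≤ |a| * (1 / (2 * (|a| + 1)) * (n : ℝ) ^ δ) := mul_le_mul_of_nonneg_left h4.le (abs_nonneg a)
  have h9 : |a| * (1 / (2 * (|a| + 1)) * (n : ℝ) ^ δ) ≤ 1 / 2 * (n : ℝ) ^ δ := by
    have h10 : |a| * (1 / (2 * (|a| + 1))) ≤ 1 / 2 := by
      rw [mul_one_div, div_le_div_iff₀ (by positivity) (by norm_num)]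
      have := abs_nonneg a
      linarith
    calc |a| * (1 / (2 * (|a| + 1)) * (n : ℝ) ^ δ) = |a| * (1 / (2 * (|a| + 1))) * (n : ℝ) ^ δ := by ring
      _ ≤ _ := mul_le_mul_of_nonneg_right h10 hp.le
  have h11 := le_abs_self b
  linarith

theorem ev_pow60 {δ : ℝ} (hδ : 0 < δ) (b : ℝ) : ∀ᶠ n : ℕ in atTop, b ≤ (n : ℝ) ^ δ :=
  ((tendsto_rpow_atTop hδ).comp tendsto_natCast_atTop_atTop).eventually_ge_atTop b

/-- **The numbers of the step.** -/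
theorem num60 {d : ℝ} (hd : 0 < d) (s C : ℝ) (hC : 0 ≤ C) {c' : ℝ} (hc' : 0 < c') : ∃ N₀ : ℕ, 2 ≤ N₀ ∧ ∀ n : ℕ, N₀ ≤ n → ∀ m : ℕ,
    m = ⌈(n : ℝ) ^ d⌉₊ → ∀ k : ℝ, k = Real.exp (2 * (n : ℝ) ^ d + |s|) →
    1 ≤ m ∧
    Real.log (2 * (1 + 4 * n * m * k ^ m * Real.exp |s| / ((n : ℝ) ^ (8 : ℕ))⁻¹)) ≤ (n : ℝ) ^ (3 * d) ∧
    n * (Real.exp (-(n : ℝ) ^ c') + Real.exp (-(n : ℝ) ^ c')) ≤ 1 / 2 ∧
    Real.exp (-(n : ℝ) ^ (4 * d)) ≤ 1 / 2 ∧
    3 * Real.exp (-(n : ℝ) ^ (4 * d)) ≤ 1 / (2 * (n : ℝ) ^ 3) ∧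
    2 * n * Real.exp (-(n : ℝ) ^ c') + n * ((m : ℝ) * k ^ m) ^ 2 * Real.exp (-(n : ℝ) ^ (4 * d)) ≤ 1 / 2 ∧
    Real.exp (-(n : ℝ) ^ (4 * d)) + 2 * (2 * n * Real.exp (-(n : ℝ) ^ c') +
      n * ((m : ℝ) * k ^ m) ^ 2 * Real.exp (-(n : ℝ) ^ (4 * d))) ≤ 1 / (2 * (n : ℝ) ^ 3) ∧
    2 * (n : ℝ) ^ 3 * (C * (n : ℝ) ^ 6 / Real.exp ((n : ℝ) ^ c' / 2) +
      Real.exp ((n : ℝ) ^ c' / 2) * (3 * Real.exp (-(n : ℝ) ^ c'))) ≤ 1 ∧
    2 * ((n : ℝ) ^ (8 : ℕ))⁻¹ * ((n : ℝ) + 1) ^ 2 * (1 + C * (n : ℝ) ^ 6) ≤ 8 * (1 + C) ∧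
    2 * (2 * (n : ℝ) ^ (4 * d) * (n : ℝ) ^ (3 * d) + 1 + 8 * (1 + C) + 1 + 1) ≤ (n : ℝ) ^ (10 * d) := by
  have hall := (ev_log60 (δ := 2 * d) (by positivity) 16 (|s| + Real.log 96)).and
    ((ev_log60 hc' 20 (2 * Real.log 96 + 2 * Real.log (C + 1))).and
    ((ev_pow60 hd (14 + |s|)).and ((ev_pow60 (δ := 3 * d) (by positivity) (4 * (1 + 1 + 8 * (1 + C) + 1 + 1))).and
      (eventually_ge_atTop 2))))
  obtain ⟨N₀, hN⟩ := eventually_atTop.1 hall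
  refine ⟨max N₀ 2, le_max_right _ _, fun n hn m hm k hk => ?_⟩
  obtain ⟨h1, h2, h3, h4, h5⟩ := hN n ((le_max_left _ _).trans hn)
  have hn2 : (2 : ℝ) ≤ n := by exact_mod_cast h5
  have hn1 : (1 : ℝ) ≤ n := by linarith
  have hn0 : (0 : ℝ) < n := by linarith
  have hln : 0 ≤ Real.log n := Real.log_nonneg hn1
  obtain ⟨u, hu⟩ : ∃ u : ℝ, u = (n : ℝ) ^ d := ⟨_, rfl⟩
  have hs := abs_nonneg s
  have hu14 : 14 + |s| ≤ u := by rw [hu]; exact h3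
  have hu1 : 1 ≤ u := by linarith
  have e2 : (n : ℝ) ^ (2 * d) = u ^ 2 := by
    rw [hu, ← Real.rpow_natCast, ← Real.rpow_mul hn0.le]; congr 1; push_cast; ring
  have e3 : (n : ℝ) ^ (3 * d) = u ^ 3 := by
    rw [hu, ← Real.rpow_natCast, ← Real.rpow_mul hn0.le]; congr 1; push_cast; ring
  have e4 : (n : ℝ) ^ (4 * d) = u ^ 4 := by
    rw [hu, ← Real.rpow_natCast, ← Real.rpow_mul hn0.le]; congr 1; push_cast; ring
  have e10 : (n : ℝ) ^ (10 * d) = u ^ 10 := by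
    rw [hu, ← Real.rpow_natCast, ← Real.rpow_mul hn0.le]; congr 1; push_cast; ring
  rw [e2] at h1
  rw [e3] at h4
  rw [← hu] at hm hk
  obtain ⟨w, hw⟩ : ∃ w : ℝ, w = (n : ℝ) ^ c' := ⟨_, rfl⟩
  rw [← hw] at h2
  have hm1 : 1 ≤ m := by
    rw [hm]
    exact Nat.one_le_ceil_iff.2 (by linarith)
  have hmR : (1 : ℝ) ≤ m := by exact_mod_cast hm1
  have hm0 : (0 : ℝ) < m := by linarith
  have hm2 : (m : ℝ) ≤ 2 * u := by
    have := Nat.ceil_lt_add_one (show 0 ≤ u by linarith)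
    rw [← hm] at this
    linarith
  have hl96 : 0 ≤ Real.log 96 := Real.log_nonneg (by norm_num)
  -- `k ^ m`
  have hkm : k ^ m = Real.exp (m * (2 * u + |s|)) := by rw [hk, ← Real.exp_nat_mul]
  have hex : m * (2 * u + |s|) ≤ 6 * u ^ 2 := by
    have h6 : 2 * u + |s| ≤ 3 * u := by linarith
    calc m * (2 * u + |s|) ≤ (2 * u) * (3 * u) := mul_le_mul hm2 h6 (by positivity) (by positivity)
      _ = 6 * u ^ 2 := by ring
  have hkm6 : k ^ m ≤ Real.exp (6 * u ^ 2) := by rw [hkm]; exact Real.exp_le_exp.2 hex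
  -- `m ≤ exp (u ^ 2 / 16 ...)`: simply `log m ≤ u`
  have hlm : Real.log m ≤ 2 * u := (Real.log_le_sub_one_of_pos hm0).trans (by linarith)
  have hmexp : (m : ℝ) ≤ Real.exp (2 * u) := by
    rw [← Real.exp_log hm0]
    exact Real.exp_le_exp.2 hlm
  have hpos8 : (0 : ℝ) < (n : ℝ) ^ 8 := by positivity
  have hu2 : 14 * u ≤ u ^ 2 := by nlinarith
  have hu4 : 14 * u ^ 2 ≤ u ^ 4 := by
    calc 14 * u ^ 2 ≤ u ^ 2 * u ^ 2 := mul_le_mul_of_nonneg_right (by linarith) (by positivity)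
      _ = u ^ 4 := by ring
  have hnexp : (n : ℝ) = Real.exp (Real.log n) := (Real.exp_log hn0).symm
  have h96 : Real.exp (Real.log 96) = 96 := Real.exp_log (by norm_num)
  -- the small exponential `exp (- u ^ 4)`
  have hb4 : Real.exp (-(u ^ 4)) ≤ Real.exp (-(13 * u ^ 2)) * (1 / (96 * n ^ 4)) := by
    have h6 : -(u ^ 4) ≤ -(13 * u ^ 2) + (-(Real.log 96) + -(4 * Real.log n)) := by linarith
    refine (Real.exp_le_exp.2 h6).trans (le_of_eq ?_)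
    rw [Real.exp_add, Real.exp_add, Real.exp_neg (Real.log 96), h96, Real.exp_neg (4 * Real.log n)]
    have : Real.exp (4 * Real.log n) = (n : ℝ) ^ 4 := by
      rw [show (4 : ℝ) * Real.log n = ((4 : ℕ) : ℝ) * Real.log n by norm_num, Real.exp_nat_mul, Real.exp_log hn0]
    rw [this]
    field_simp
  have hb4' : Real.exp (-(u ^ 4)) ≤ 1 / (96 * n ^ 4) := by
    refine hb4.trans ?_
    have : Real.exp (-(13 * u ^ 2)) ≤ 1 := Real.exp_le_one_iff.2 (by have := sq_nonneg u; linarith)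
    calc Real.exp (-(13 * u ^ 2)) * (1 / (96 * n ^ 4)) ≤ 1 * (1 / (96 * n ^ 4)) :=
          mul_le_mul_of_nonneg_right this (by positivity)
      _ = _ := one_mul _
  have hn4 : (n : ℝ) ^ 3 ≤ (n : ℝ) ^ 4 := pow_le_pow_right₀ hn1 (by norm_num)
  have hn31 : (1 : ℝ) ≤ (n : ℝ) ^ 3 := one_le_pow₀ hn1
  have hb5 : (n : ℝ) * ((m : ℝ) * k ^ m) ^ 2 * Real.exp (-(u ^ 4)) ≤ 1 / (96 * n ^ 3) := by
    have h6 : ((m : ℝ) * k ^ m) ^ 2 ≤ Real.exp (13 * u ^ 2) := by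
      have h7 : ((m : ℝ) * k ^ m) ≤ Real.exp (2 * u + 6 * u ^ 2) := by
        rw [Real.exp_add]
        exact mul_le_mul hmexp hkm6 (by rw [hkm]; exact (Real.exp_pos _).le) (Real.exp_pos _).le
      have h8 : 0 ≤ ((m : ℝ) * k ^ m) := by rw [hkm]; positivity
      calc ((m : ℝ) * k ^ m) ^ 2 ≤ (Real.exp (2 * u + 6 * u ^ 2)) ^ 2 := pow_le_pow_left₀ h8 h7 2
        _ = Real.exp (2 * (2 * u + 6 * u ^ 2)) := by rw [← Real.exp_nat_mul]; norm_num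
        _ ≤ _ := Real.exp_le_exp.2 (by linarith)
    have h9 : ((m : ℝ) * k ^ m) ^ 2 * Real.exp (-(u ^ 4)) ≤ 1 / (96 * n ^ 4) := by
      calc ((m : ℝ) * k ^ m) ^ 2 * Real.exp (-(u ^ 4)) ≤ Real.exp (13 * u ^ 2) * (Real.exp (-(13 * u ^ 2)) * (1 / (96 * n ^ 4))) :=
            mul_le_mul h6 hb4 (Real.exp_pos _).le (Real.exp_pos _).le
        _ = 1 / (96 * n ^ 4) := by
            rw [← mul_assoc, ← Real.exp_add, add_neg_cancel, Real.exp_zero, one_mul]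
    calc (n : ℝ) * ((m : ℝ) * k ^ m) ^ 2 * Real.exp (-(u ^ 4)) = (n : ℝ) * (((m : ℝ) * k ^ m) ^ 2 * Real.exp (-(u ^ 4))) := by ring
      _ ≤ (n : ℝ) * (1 / (96 * (n : ℝ) ^ 4)) := mul_le_mul_of_nonneg_left h9 hn0.le
      _ = 1 / (96 * (n : ℝ) ^ 3) := by field_simp
  -- `exp (- w)`
  have hw2 : Real.exp (-(w / 2)) ≤ 1 / (96 * (C + 1) * n ^ 10) := by
    have h6 : -(w / 2) ≤ -(Real.log 96) + (-(Real.log (C + 1)) + -(10 * Real.log n)) := by linarith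
    refine (Real.exp_le_exp.2 h6).trans (le_of_eq ?_)
    rw [Real.exp_add, Real.exp_add, Real.exp_neg (Real.log 96), h96, Real.exp_neg (10 * Real.log n),
      Real.exp_neg (Real.log (C + 1)), Real.exp_log (by linarith)]
    have : Real.exp (10 * Real.log n) = (n : ℝ) ^ 10 := by
      rw [show (10 : ℝ) * Real.log n = ((10 : ℕ) : ℝ) * Real.log n by norm_num, Real.exp_nat_mul, Real.exp_log hn0]
    rw [this]
    field_simp
  have hww : Real.exp (-w) ≤ Real.exp (-(w / 2)) := by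
    refine Real.exp_le_exp.2 ?_
    have : 0 ≤ w := by rw [hw]; positivity
    linarith
  have hC1 : 1 / (96 * (C + 1) * n ^ 10) ≤ 1 / (96 * n ^ 4) := by
    refine one_div_le_one_div_of_le (by positivity) ?_
    have h6 : (n : ℝ) ^ 4 ≤ (n : ℝ) ^ 10 := pow_le_pow_right₀ hn1 (by norm_num)
    have h7 : (1 : ℝ) ≤ C + 1 := by linarith
    calc 96 * (n : ℝ) ^ 4 ≤ 96 * (n : ℝ) ^ 10 := by linarith
      _ = 96 * 1 * (n : ℝ) ^ 10 := by ring
      _ ≤ 96 * (C + 1) * (n : ℝ) ^ 10 := by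
        refine mul_le_mul_of_nonneg_right ?_ (by positivity)
        linarith
  have hw4 : Real.exp (-w) ≤ 1 / (96 * n ^ 4) := (hww.trans hw2).trans hC1
  have hnw : (n : ℝ) * Real.exp (-w) ≤ 1 / (96 * n ^ 3) := by
    calc (n : ℝ) * Real.exp (-w) ≤ (n : ℝ) * (1 / (96 * (n : ℝ) ^ 4)) := mul_le_mul_of_nonneg_left hw4 hn0.le
      _ = _ := by field_simp
  have hq3 : 1 / (96 * (n : ℝ) ^ 3) ≤ 1 / 96 := by
    refine one_div_le_one_div_of_le (by norm_num) ?_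
    linarith
  have hq34 : 1 / (96 * (n : ℝ) ^ 4) ≤ 1 / (96 * (n : ℝ) ^ 3) :=
    one_div_le_one_div_of_le (by positivity) (by linarith)
  have hq2 : 1 / (2 * (n : ℝ) ^ 3) = 48 * (1 / (96 * (n : ℝ) ^ 3)) := by field_simp; norm_num
  have hqp : 0 < 1 / (96 * (n : ℝ) ^ 3) := by positivity
  rw [e3, e4, e10, ← hw]
  refine ⟨hm1, ?_, ?_, ?_, ?_, ?_, ?_, ?_, ?_, ?_⟩
  · have hX : 0 < 4 * n * m * k ^ m * Real.exp |s| / ((n : ℝ) ^ (8 : ℕ))⁻¹ := by rw [hkm]; positivity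
    have hX1 : 1 ≤ 4 * n * m * k ^ m * Real.exp |s| / ((n : ℝ) ^ (8 : ℕ))⁻¹ := by
      rw [div_inv_eq_mul]
      have g1 : (1 : ℝ) ≤ k ^ m := by rw [hkm]; exact Real.one_le_exp (by positivity)
      have g2 : (1 : ℝ) ≤ Real.exp |s| := Real.one_le_exp hs
      have g3 : (1 : ℝ) ≤ (n : ℝ) ^ 8 := one_le_pow₀ hn1
      have g4 : (1 : ℝ) ≤ 4 * n := by linarith
      have g5 := one_le_mul_of_one_le_of_one_le (one_le_mul_of_one_le_of_one_le (one_le_mul_of_one_le_of_one_le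
        (one_le_mul_of_one_le_of_one_le g4 hmR) g1) g2) g3
      exact g5
    have h6 : Real.log (2 * (1 + 4 * n * m * k ^ m * Real.exp |s| / ((n : ℝ) ^ (8 : ℕ))⁻¹)) ≤
        Real.log (4 * (4 * n * m * k ^ m * Real.exp |s| / ((n : ℝ) ^ (8 : ℕ))⁻¹)) :=
      Real.log_le_log (by positivity) (by linarith)
    refine h6.trans ?_
    rw [div_inv_eq_mul]
    have h7 : Real.log (4 * (4 * n * m * k ^ m * Real.exp |s| * (n : ℝ) ^ 8)) =
        Real.log 16 + 9 * Real.log n + Real.log m + m * (2 * u + |s|) + |s| := by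
      rw [show (4 : ℝ) * (4 * n * m * k ^ m * Real.exp |s| * (n : ℝ) ^ 8) = 16 * (n : ℝ) ^ 9 * m * k ^ m * Real.exp |s| by ring,
        Real.log_mul (by rw [hkm]; positivity) (Real.exp_pos _).ne', Real.log_mul (by positivity) (by rw [hkm]; positivity),
        Real.log_mul (by positivity) hm0.ne', Real.log_mul (by norm_num) (by positivity), Real.log_pow, hkm, Real.log_exp,
        Real.log_exp]
      push_cast
      ring
    rw [h7]
    have h8 : Real.log 16 ≤ Real.log 96 := Real.log_le_log (by norm_num) (by norm_num)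
    have h9 : 14 * u ^ 2 ≤ u ^ 3 := by
      calc 14 * u ^ 2 ≤ u * u ^ 2 := mul_le_mul_of_nonneg_right (by linarith) (by positivity)
        _ = u ^ 3 := by ring
    linarith
  · linarith
  · linarith
  · rw [hq2]
    linarith
  · linarith
  · rw [hq2]
    linarith
  · have h6 : Real.exp (w / 2) * Real.exp (-w) = Real.exp (-(w / 2)) := by
      rw [← Real.exp_add]; congr 1; ring
    have h7 : C * (n : ℝ) ^ 6 / Real.exp (w / 2) = C * (n : ℝ) ^ 6 * Real.exp (-(w / 2)) := by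
      rw [Real.exp_neg, div_eq_mul_inv]
    have h8 : 2 * (n : ℝ) ^ 3 * (C * (n : ℝ) ^ 6 / Real.exp (w / 2) + Real.exp (w / 2) * (3 * Real.exp (-w))) =
        2 * (n : ℝ) ^ 3 * (C * (n : ℝ) ^ 6 + 3) * Real.exp (-(w / 2)) := by
      rw [h7, show Real.exp (w / 2) * (3 * Real.exp (-w)) = 3 * (Real.exp (w / 2) * Real.exp (-w)) by ring, h6]
      ring
    rw [h8]
    have h9 : 2 * (n : ℝ) ^ 3 * (C * (n : ℝ) ^ 6 + 3) ≤ 96 * (C + 1) * n ^ 10 := by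
      have g1 : (n : ℝ) ^ 3 ≤ (n : ℝ) ^ 10 := pow_le_pow_right₀ hn1 (by norm_num)
      have g2 : (n : ℝ) ^ 9 ≤ (n : ℝ) ^ 10 := pow_le_pow_right₀ hn1 (by norm_num)
      have g3 : 0 ≤ (n : ℝ) ^ 10 := by positivity
      have g4 := mul_le_mul_of_nonneg_left g2 hC
      have g5 := mul_nonneg hC g3
      calc 2 * (n : ℝ) ^ 3 * (C * (n : ℝ) ^ 6 + 3) = 2 * (C * (n : ℝ) ^ 9) + 6 * (n : ℝ) ^ 3 := by ring
        _ ≤ _ := by linarith
    calc 2 * (n : ℝ) ^ 3 * (C * (n : ℝ) ^ 6 + 3) * Real.exp (-(w / 2)) ≤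
          96 * (C + 1) * n ^ 10 * (1 / (96 * (C + 1) * n ^ 10)) :=
          mul_le_mul h9 hw2 (Real.exp_pos _).le (by positivity)
      _ = 1 := by
          have : (C + 1 : ℝ) ≠ 0 := by linarith
          field_simp
  · have h6 : ((n : ℝ) + 1) ^ 2 ≤ 4 * (n : ℝ) ^ 2 := by nlinarith
    have h7 : 1 + C * (n : ℝ) ^ 6 ≤ (1 + C) * (n : ℝ) ^ 6 := by
      have : (1 : ℝ) ≤ (n : ℝ) ^ 6 := one_le_pow₀ hn1
      linarith
    have h8 : 0 ≤ 1 + C * (n : ℝ) ^ 6 := by positivity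
    calc 2 * ((n : ℝ) ^ (8 : ℕ))⁻¹ * ((n : ℝ) + 1) ^ 2 * (1 + C * (n : ℝ) ^ 6) ≤
          2 * ((n : ℝ) ^ (8 : ℕ))⁻¹ * (4 * (n : ℝ) ^ 2) * ((1 + C) * (n : ℝ) ^ 6) :=
          mul_le_mul (mul_le_mul_of_nonneg_left h6 (by positivity)) h7 h8 (by positivity)
      _ = 8 * (1 + C) := by field_simp; ring
  · have h6 : (u : ℝ) ^ 4 * u ^ 3 = u ^ 7 := by ring
    have h7 : 14 * u ^ 7 ≤ u ^ 10 := by
      have g1 : 14 ≤ u ^ 3 := by
        have g2 : (1 : ℝ) ≤ u ^ 2 := one_le_pow₀ hu1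
        calc (14 : ℝ) ≤ u := by linarith
          _ = 1 * u := (one_mul u).symm
          _ ≤ u ^ 2 * u := mul_le_mul_of_nonneg_right g2 (by linarith)
          _ = u ^ 3 := by ring
      calc 14 * u ^ 7 ≤ u ^ 3 * u ^ 7 := mul_le_mul_of_nonneg_right g1 (by positivity)
        _ = u ^ 10 := by ring
    have h8 : u ^ 3 ≤ u ^ 7 := pow_le_pow_right₀ hu1 (by norm_num)
    have h9 : 2 * (u : ℝ) ^ 4 * u ^ 3 = 2 * u ^ 7 := by ring
    rw [h9]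
    have h10 : 0 ≤ u ^ 7 := by positivity
    linarith

end Pool.Agent.W_7d29a1_UB
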