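import Pool.Agent.W_7d29a1_UB.NearB60
import Pool.Agent.W_7d29a1_UB.Int60
import Pool.Agent.W_7d29a1_UB.Num60
import Pool.Agent.W_7d29a1_UB.Crude
import Pool.Agent.W_7d29a1_UB.EndD

/-!
STORM UB (MP_7d29a1_pr, row 674 of the table `proofs`, helper60), the step: `V (x + 1) ≤ V (x) + n ^ ε`.
-/

set_option autoImplicit false

namespace Pool.Agent.W_7d29a1_UB

open MeasureTheory ProbabilityTheory Filter Topology
open Pool.Agent.W_7d29a1_F Pool.Agent.W_7d29a1_LB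
open Pool.Agent.W_7d29a1_H (sl)
open Pool.Agent.W_7d29a1_HZ (wd')
open Pool.Agent.W_7d29a1_HS (In wd)

noncomputable section

variable {μ : Measure ℝ} {s : ℝ}

/-- The cost of the deletion at the level `a`. -/
def cost60 (μ : Measure ℝ) (s : ℝ) (x : ℤ) (n : ℕ) (a : ℝ) (η : Env) : ℝ :=
  Real.log (Zt μ s η (x + 1) n a) - Real.log (Zt μ s (del (seamU η (a + s * ((x : ℝ) + 1)) x) η) x n a)

/-- The far levels. -/
def Far60 (μ : Measure ℝ) (s : ℝ) : Prop := ∀ (η : Env) (a : ℝ) (x : ℤ) (n m : ℕ) (Λ ε r : ℝ), 1 ≤ x → (m : ℤ) ≤ x → 1 ≤ m → 0 ≤ Λ →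
  Bx Λ n (-1) (x + 2 + n) η → (n : ℝ) ^ ε * wd' μ s m < sl μ s * m → (n : ℝ) ^ ε * wd' μ s m < (1 - sl μ s) * m →
  r0 μ s n ε (sh ((0 : ℤ), x + 1) η) ≤ r → ∀ G : ℝ, G ≤ |a - (V μ s η (0, x + 1) n - V μ s η 0 n)| → Real.exp (-G) ≤ 1 / 2 →
  2 * n * r + n * (m * kp s Λ ^ m) ^ 2 * Real.exp (-G) ≤ 1 / 2 →
  cost60 μ s x n a η ≤ max (3 * Real.exp (-G)) (Real.exp (-G) + 2 * (2 * n * r + n * (m * kp s Λ ^ m) ^ 2 * Real.exp (-G)))

variable [IsProbabilityMeasure μ] {c C : ℝ} {n₀ : ℕ}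

theorem step60 (h : In μ s c C n₀) (hNS : NSFr μ s) (hfar : Far60 μ s)
    (hlaw : ∀ (b : ℝ) (x : ℤ), MeasurePreserving (fun η => del (seamU η b x) η) (law μ) (law μ)) {d : ℝ} (hd : 0 < d) :
    ∃ N₀ : ℕ, ∀ n : ℕ, N₀ ≤ n → ∀ x : ℕ, (n : ℝ) ^ d ≤ x → (x : ℝ) ≤ (n : ℝ) ^ 2 →
      Inc μ s n (x + 1) ≤ Inc μ s n x + (n : ℝ) ^ (10 * d) := by
  have hEM := h.em
  obtain ⟨C1, hC1, hcr⟩ := crude27 hEM s
  obtain ⟨ε, hε, hnr⟩ := num_reg h hd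
  obtain ⟨N1, hN1⟩ := hnr ε le_rfl
  obtain ⟨c1, hc1, N2, hN2⟩ := r0_small hNS hε
  obtain ⟨N3, hN3⟩ := Bx_small hEM hd (k := 3) (by norm_num)
  obtain ⟨N4, hN4⟩ := identU hEM s
  obtain ⟨c', hc'⟩ : ∃ c' : ℝ, c' = min c1 (d / 2) := ⟨_, rfl⟩
  have hc'0 : 0 < c' := by rw [hc']; exact lt_min hc1 (by positivity)
  have hc'1 : c' ≤ c1 := by rw [hc']; exact min_le_left _ _
  have hc'2 : c' ≤ d / 2 := by rw [hc']; exact min_le_right _ _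
  obtain ⟨N5, hN52, hN5⟩ := num60 hd s C1 hC1.le hc'0
  refine ⟨max (max N1 N2) (max (max N3 N4) N5), fun n hn x hx1 hx2 => ?_⟩
  have hnN1 : N1 ≤ n := (le_max_left _ _).trans ((le_max_left _ _).trans hn)
  have hnN2 : N2 ≤ n := (le_max_right _ _).trans ((le_max_left _ _).trans hn)
  have hnN3 : N3 ≤ n := (le_max_left _ _).trans ((le_max_left _ _).trans ((le_max_right _ _).trans hn))
  have hnN4 : N4 ≤ n := (le_max_right _ _).trans ((le_max_left _ _).trans ((le_max_right _ _).trans hn))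
  have hnN5 : N5 ≤ n := (le_max_right _ _).trans ((le_max_right _ _).trans hn)
  have hn2 : 2 ≤ n := hN52.trans hnN5
  have hnR : (2 : ℝ) ≤ n := by exact_mod_cast hn2
  have hn0 : (0 : ℝ) < n := by linarith
  have hn1 : (1 : ℝ) ≤ n := by linarith
  obtain ⟨m, hm⟩ : ∃ m : ℕ, m = ⌈(n : ℝ) ^ d⌉₊ := ⟨_, rfl⟩
  obtain ⟨Λ, hΛ⟩ : ∃ Λ : ℝ, Λ = (n : ℝ) ^ d := ⟨_, rfl⟩
  have hΛ0 : 0 ≤ Λ := by rw [hΛ]; positivity
  obtain ⟨hm1, b1, b2, b3, b4, b5, b6, b7, b8, b9⟩ := hN5 n hnN5 m hm (kp s Λ) (by rw [hΛ]; rfl)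
  have hmge : (n : ℝ) ^ d ≤ m := by rw [hm]; exact Nat.le_ceil _
  obtain ⟨hreg0, hreg1⟩ := hN1 n hnN1 m hmge
  have hmx : m ≤ x := by rw [hm]; exact Nat.ceil_le.2 hx1
  have hx1' : 1 ≤ x := hm1.trans hmx
  obtain ⟨H, mH, hH0, iH, iHC, hH⟩ := hcr n (by omega) x hx1'
  obtain ⟨e0, he0⟩ : ∃ e0 : ℝ, e0 = Real.exp (-(n : ℝ) ^ c') := ⟨_, rfl⟩
  have he00 : 0 < e0 := by rw [he0]; exact Real.exp_pos _
  have hexp1 : Real.exp (-(n : ℝ) ^ c1) ≤ e0 := by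
    rw [he0]
    exact Real.exp_le_exp.2 (neg_le_neg (Real.rpow_le_rpow_of_exponent_le hn1 hc'1))
  have hexp2 : Real.exp (-(n : ℝ) ^ (d / 2)) ≤ e0 := by
    rw [he0]
    exact Real.exp_le_exp.2 (neg_le_neg (Real.rpow_le_rpow_of_exponent_le hn1 hc'2))
  -- the bad environments
  obtain ⟨Bd1, hBd1⟩ : ∃ Bd1 : Set Env, Bd1 = {η : Env | ¬ ∀ lo hi : ℤ, -((n : ℤ) ^ 3) ≤ lo → hi ≤ (n : ℤ) ^ 3 →
    Bx ((n : ℝ) ^ d) n lo hi η} := ⟨_, rfl⟩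
  obtain ⟨Bd2, hBd2⟩ : ∃ Bd2 : Set Env, Bd2 = {η : Env | Real.exp (-(n : ℝ) ^ c1) < r0 μ s n ε (sh ((0 : ℤ), (0 : ℤ)) η)} := ⟨_, rfl⟩
  obtain ⟨Bd3, hBd3⟩ : ∃ Bd3 : Set Env, Bd3 = {η : Env | Real.exp (-(n : ℝ) ^ c1) < r0 μ s n ε (sh ((0 : ℤ), ((x : ℤ) + 1)) η)} :=
    ⟨_, rfl⟩
  obtain ⟨Bad, hBad⟩ : ∃ Bad : Set Env, Bad = toMeasurable (law μ) (Bd1 ∪ Bd2 ∪ Bd3) := ⟨_, rfl⟩
  have hBadm : MeasurableSet Bad := by rw [hBad]; exact measurableSet_toMeasurable _ _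
  have hBadP : (law μ Bad).toReal ≤ 3 * e0 := by
    have g1 : law μ Bd1 ≤ ENNReal.ofReal e0 := by
      rw [hBd1]
      exact (hN3 n hnN3).trans (ENNReal.ofReal_le_ofReal hexp2)
    have g2 : law μ Bd2 ≤ ENNReal.ofReal e0 := by
      rw [hBd2]
      exact (hN2 n hnN2 0).trans (ENNReal.ofReal_le_ofReal hexp1)
    have g3 : law μ Bd3 ≤ ENNReal.ofReal e0 := by
      rw [hBd3]
      exact (hN2 n hnN2 ((x : ℤ) + 1)).trans (ENNReal.ofReal_le_ofReal hexp1)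
    have g4 : law μ Bad ≤ ENNReal.ofReal (3 * e0) := by
      rw [hBad, measure_toMeasurable]
      refine (measure_union_le _ _).trans ?_
      refine (add_le_add (measure_union_le _ _) le_rfl).trans ?_
      refine (add_le_add (add_le_add g1 g2) g3).trans (le_of_eq ?_)
      rw [← ENNReal.ofReal_add he00.le he00.le, ← ENNReal.ofReal_add (by linarith) he00.le]
      congr 1
      ring
    exact ENNReal.toReal_le_of_le_ofReal (by linarith) g4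
  have hgood : ∀ η : Env, η ∉ Bad → Bx Λ n (-1) ((x : ℤ) + 2 + n) η ∧ r0 μ s n ε (sh ((0 : ℤ), (0 : ℤ)) η) ≤ e0 ∧
      r0 μ s n ε (sh ((0 : ℤ), ((x : ℤ) + 1)) η) ≤ e0 := by
    intro η hη
    have hη' : η ∉ Bd1 ∪ Bd2 ∪ Bd3 := fun h' => hη (by rw [hBad]; exact subset_toMeasurable _ _ h')
    rw [Set.mem_union, Set.mem_union, not_or, not_or] at hη'
    obtain ⟨⟨k1, k2⟩, k3⟩ := hη'
    refine ⟨?_, ?_, ?_⟩
    · rw [hBd1, Set.mem_ofPred_eq, not_not] at k1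
      rw [hΛ]
      refine k1 (-1) ((x : ℤ) + 2 + n) ?_ ?_
      · have : (1 : ℤ) ≤ (n : ℤ) ^ 3 := by
          have : 1 ≤ n ^ 3 := Nat.one_le_pow _ _ (by omega)
          exact_mod_cast this
        linarith
      · have hx3 : x ≤ n ^ 2 := by exact_mod_cast hx2
        have : x + 2 + n ≤ n ^ 3 := by
          have g1 : n ^ 2 * 2 ≤ n ^ 2 * n := Nat.mul_le_mul_left _ hn2
          have g2 : n * 2 ≤ n * n := Nat.mul_le_mul_left _ hn2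
          have g3 : n ^ 3 = n ^ 2 * n := by ring
          have g4 : n ^ 2 = n * n := by ring
          omega
        exact_mod_cast this
    · rw [hBd2, Set.mem_ofPred_eq, not_lt] at k2
      exact k2.trans hexp1
    · rw [hBd3, Set.mem_ofPred_eq, not_lt] at k3
      exact k3.trans hexp1
  -- the integration
  obtain ⟨m0, hm0⟩ : ∃ m0 : ℝ, m0 = ((n : ℝ) ^ (8 : ℕ))⁻¹ := ⟨_, rfl⟩
  have hm00 : 0 < m0 := by rw [hm0]; positivity
  have hm01 : m0 ≤ 1 := by rw [hm0]; exact inv_le_one_of_one_le₀ (one_le_pow₀ hn1)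
  obtain ⟨Ex, hEx⟩ : ∃ Ex : Set (ℝ × Env), Ex = Exc s ((x : ℤ) + 1) n m0 := ⟨_, rfl⟩
  obtain ⟨A, hA⟩ : ∃ A : ℝ, A = (n : ℝ) ^ 3 := ⟨_, rfl⟩
  have hA0 : 0 ≤ A := by rw [hA]; positivity
  have hA1 : 0 < A := by rw [hA]; positivity
  obtain ⟨G, hG⟩ : ∃ G : ℝ, G = (n : ℝ) ^ (4 * d) := ⟨_, rfl⟩
  have hG0 : 0 ≤ G := by rw [hG]; positivity
  have hc2 : 0 ≤ 1 / (2 * (n : ℝ) ^ 3) := by positivity
  obtain ⟨k, ik, hk1, hk2⟩ := int60 (P := law μ) (B := fun η => V μ s η (0, (x : ℤ) + 1) n - V μ s η 0 n) (H := H)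
    ((measurable_V _ n).sub (measurable_V _ n)) mH hH0 iH hBadm (E := Ex) (by rw [hEx]; exact measurableSet_Exc _ _ _ _)
    (v := 2 * m0 * ((n : ℝ) + 1) ^ 2) (by positivity) (fun η => by rw [hEx]; exact volume_Exc _ _ _ _ _)
    (A := A) (G := G) (c1 := (n : ℝ) ^ (3 * d)) (c2 := 1 / (2 * (n : ℝ) ^ 3)) hA0 hG0 (by positivity) hc2
    (cost := cost60 μ s x n)
    (fun a => integrable_cost27 hEM (measurable_seamU _ _) _ _ _ _)
    (fun a η => by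
      refine (le_abs_self _).trans (hH a _ (fun i => ?_) η)
      have := le_seamU η (a + s * (((x : ℤ) : ℝ) + 1)) x i
      omega)
    (fun a η _ hb he _ => by
      obtain ⟨g1, g2, g3⟩ := hgood η hb
      have hM : Marg η (a + s * (((x : ℤ) + 1 : ℤ) : ℝ)) ((x : ℤ) + 1) n m0 := by
        by_contra h'
        exact he (by rw [hEx]; exact h')
      have h1 := nearB60 (μ := μ) (s := s) (η := η) (a := a) (x := (x : ℤ)) (n := n) (m := m) (by omega) (by omega) hm00 hm01 hΛ0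
        (fun p h1 h2 h3 h4 => g1 p h1 h2 h3 (by linarith)) hM hreg0 g2 g3 (by rw [he0]; exact b2) he00.le
      rw [hm0] at h1
      exact h1.trans b1)
    (fun a η _ hb _ hg => by
      obtain ⟨g1, g2, g3⟩ := hgood η hb
      have h1 := hfar η a x n m Λ ε e0 (by omega) (by omega) hm1 hΛ0 g1 hreg0 hreg1 g3 G hg.le (by rw [hG]; exact b3)
        (by rw [hG, he0]; exact b5)
      refine h1.trans (max_le ?_ ?_)
      · rw [hG]; exact b4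
      · rw [hG, he0]; exact b6)
    (T := Real.exp ((n : ℝ) ^ c' / 2)) (Real.exp_pos _)
  have hid := hN4 n hnN4 A (by rw [hA]) x ((x : ℤ) + 1) (fun a η => del (seamU η (a + s * (((x : ℤ) : ℝ) + 1)) x) η)
    (fun a => hlaw _ _) k ik (Eventually.of_forall fun a ha => hk1 a ha)
  -- the conclusion
  have e1 : Inc μ s n (x + 1) = ∫ η, (V μ s η (0, (x : ℤ) + 1) n - V μ s η 0 n) ^ 2 ∂(law μ) := by
    unfold Inc
    rw [Nat.cast_add, Nat.cast_one]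
  have e2 : Inc μ s n x = ∫ η, (V μ s η (0, (x : ℤ)) n - V μ s η 0 n) ^ 2 ∂(law μ) := rfl
  rw [← e1, ← e2] at hid
  have hI0 : 0 ≤ ∫ η, H η ^ 2 ∂(law μ) := integral_nonneg fun _ => sq_nonneg _
  have t1 : 2 * A * (1 / (2 * (n : ℝ) ^ 3)) = 1 := by rw [hA]; field_simp
  have t2 : 2 * m0 * ((n : ℝ) + 1) ^ 2 * (1 + ∫ η, H η ^ 2 ∂(law μ)) ≤ 8 * (1 + C1) := by
    refine le_trans ?_ b8
    rw [← hm0]
    exact mul_le_mul_of_nonneg_left (by linarith) (by positivity)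
  have t3 : 2 * A * ((∫ η, H η ^ 2 ∂(law μ)) / Real.exp ((n : ℝ) ^ c' / 2) +
      Real.exp ((n : ℝ) ^ c' / 2) * (law μ Bad).toReal) ≤ 1 := by
    refine le_trans ?_ b7
    rw [hA]
    refine mul_le_mul_of_nonneg_left (add_le_add ?_ ?_) (by positivity)
    · exact div_le_div_of_nonneg_right iHC (Real.exp_pos _).le
    · rw [← he0]
      exact mul_le_mul_of_nonneg_left hBadP (Real.exp_pos _).le
  rw [t1] at hk2
  have t4 : ∫ a in (-A)..A, k a ≤ 2 * G * (n : ℝ) ^ (3 * d) + 1 + 8 * (1 + C1) + 1 := by linarith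
  rw [hG] at t4
  linarith

end

end Pool.Agent.W_7d29a1_UB
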